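import Mathlib

namespace MP_cea741_ag

open Polynomial

/-- If `P ∈ (X, b)^m` then `b^(m-j)` divides the coefficient of `X^j`. -/
theorem mon_coeff {B : Type*} [CommRing B] (b : B) (m : ℕ) (P : B[X])
    (hP : P ∈ (Ideal.span {X, C b} : Ideal B[X]) ^ m) (j : ℕ) : b ^ (m - j) ∣ P.coeff j := by
  induction m generalizing P j with
  | zero => simp
  | succ m ih =>
    rw [pow_succ] at hP
    refine Submodule.mul_induction_on hP ?_ ?_
    · intro Q hQ R hR
      obtain ⟨α, β, rfl⟩ := Ideal.mem_span_pair.mp hR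
      have e : Q * (α * X + β * C b) = (Q * α) * X + C b * (Q * β) := by ring
      have h1 := ih (Q * α) (Ideal.mul_mem_right _ _ hQ)
      have h2 := ih (Q * β) (Ideal.mul_mem_right _ _ hQ)
      rw [e, coeff_add, coeff_C_mul]
      refine dvd_add ?_ ?_
      · cases j with
        | zero => simp
        | succ j =>
          rw [coeff_mul_X]
          have := h1 j
          rwa [Nat.succ_sub_succ]
      · refine (pow_dvd_pow b (by omega : m + 1 - j ≤ (m - j) + 1)).trans ?_
        rw [pow_succ, mul_comm]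
        exact mul_dvd_mul_left b (h2 j)
    · intro Q R hQ hR
      rw [coeff_add]
      exact dvd_add hQ hR

/-- Converse of `mon_coeff`. -/
theorem mon_mem {B : Type*} [CommRing B] (b : B) (m : ℕ) (P : B[X])
    (h : ∀ j < m, b ^ (m - j) ∣ P.coeff j) :
    P ∈ (Ideal.span {X, C b} : Ideal B[X]) ^ m := by
  rw [P.as_sum_range_C_mul_X_pow]
  have hX : (X : B[X]) ∈ (Ideal.span {X, C b} : Ideal B[X]) := Ideal.subset_span (by simp)
  have hb : (C b : B[X]) ∈ (Ideal.span {X, C b} : Ideal B[X]) := Ideal.subset_span (by simp)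
  refine Ideal.sum_mem _ fun j _ => ?_
  by_cases hj : j < m
  · obtain ⟨c, hc⟩ := h j hj
    rw [hc, C_mul, C_pow]
    have : (C b ^ (m - j) * C c * X ^ j : B[X]) = C c * (C b ^ (m - j) * X ^ j) := by ring
    rw [this]
    refine Ideal.mul_mem_left _ _ ?_
    have h2 := Ideal.mul_mem_mul (Ideal.pow_mem_pow hb (m - j)) (Ideal.pow_mem_pow hX j)
    rwa [← pow_add, Nat.sub_add_cancel hj.le] at h2
  · refine Ideal.mul_mem_left _ _ ?_
    exact Ideal.pow_le_pow_right (not_lt.mp hj) (Ideal.pow_mem_pow hX j)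

end MP_cea741_ag
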