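import Mathlib
import Pool.Agent.Lib.MP_cea741_ag.MonA

namespace MP_cea741_ag

open Polynomial

/-- Transfer: if a polynomial family of linear maps is injective at one point with values in a
domain, it is injective on a nonempty open set of rational points. -/
theorem generic_injective {k σ τ ι A : Type*} [Field k] [Fintype τ] [Fintype ι] [DecidableEq ι]
    [CommRing A] [IsDomain A] [Algebra k A] (M : Matrix τ ι (MvPolynomial σ k)) (c : σ → A)
    (h : ∀ v : ι → A, (M.map (MvPolynomial.aeval c)).mulVec v = 0 → v = 0) :
    ∃ Φ : MvPolynomial σ k, Φ ≠ 0 ∧ ∀ p : σ → k, MvPolynomial.eval p Φ ≠ 0 →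
      ∀ v : ι → k, (M.map (MvPolynomial.eval p)).mulVec v = 0 → v = 0 := by
  classical
  set L := FractionRing A
  set M0 : Matrix τ ι A := M.map (MvPolynomial.aeval c) with hM0
  set ML : Matrix τ ι L := M0.map (algebraMap A L) with hML
  -- injectivity over L
  have hL : ∀ v : ι → L, ML.mulVec v = 0 → v = 0 := by
    intro v hv
    obtain ⟨b, hb⟩ := IsLocalization.exist_integer_multiples_of_finite (nonZeroDivisors A) v
    choose w hw using hb
    have hw' : ∀ i, algebraMap A L (w i) = algebraMap A L b * v i := by
      intro i; rw [hw i, Algebra.smul_def]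
    have h0 : M0.mulVec w = 0 := by
      funext i
      apply IsFractionRing.injective A L
      have h1 : algebraMap A L (M0.mulVec w i) = (algebraMap A L b) * (ML.mulVec v i) := by
        simp only [Matrix.mulVec, dotProduct, map_sum, map_mul, hw', hML, Matrix.map_apply,
          Finset.mul_sum]
        refine Finset.sum_congr rfl fun j _ => by ring
      rw [h1, hv]
      simp
    have hw0 := h w h0
    funext i
    have h2 := hw' i
    rw [hw0] at h2
    simp only [Pi.zero_apply, map_zero] at h2
    have hb0 : algebraMap A L (b : A) ≠ 0 := by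
      intro hb0
      exact nonZeroDivisors.ne_zero b.2 ((IsFractionRing.injective A L) (by rw [hb0, map_zero]))
    rcases mul_eq_zero.mp h2.symm with h3 | h3
    · exact absurd h3 hb0
    · exact h3
  -- left inverse
  have hinj : Function.Injective (Matrix.mulVecLin ML) := by
    rw [← LinearMap.ker_eq_bot, LinearMap.ker_eq_bot']
    intro v hv
    exact hL v hv
  obtain ⟨g, hg⟩ := LinearMap.exists_leftInverse_of_injective (Matrix.mulVecLin ML)
    (LinearMap.ker_eq_bot.mpr hinj)
  set N : Matrix ι τ L := LinearMap.toMatrix' g with hN
  have hNM : N * ML = 1 := by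
    have : LinearMap.toMatrix' (g ∘ₗ Matrix.mulVecLin ML) = 1 := by
      rw [hg]; exact LinearMap.toMatrix'_id
    rw [LinearMap.toMatrix'_comp] at this
    rwa [← Matrix.toLin'_apply', LinearMap.toMatrix'_toLin'] at this
  -- determinant polynomial
  set ML' : Matrix τ ι (MvPolynomial σ L) :=
    M.map (MvPolynomial.map (algebraMap k L)) with hML'
  set NC : Matrix ι τ (MvPolynomial σ L) := N.map MvPolynomial.C with hNC
  set DM : Matrix ι ι (MvPolynomial σ L) := NC * ML' with hDM
  set D : MvPolynomial σ L := DM.det with hD
  have hevD : MvPolynomial.eval (fun i => algebraMap A L (c i)) D = 1 := by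
    rw [hD, RingHom.map_det]
    have : (MvPolynomial.eval (fun i => algebraMap A L (c i))).mapMatrix
        DM = N * ML := by
      ext i j
      simp only [RingHom.mapMatrix_apply, Matrix.map_apply, Matrix.mul_apply, map_sum, map_mul,
        MvPolynomial.eval_C, hDM, hNC, hML', hML, hM0]
      refine Finset.sum_congr rfl fun l _ => ?_
      congr 1
      rw [MvPolynomial.eval_map]
      have h3 : algebraMap A L (MvPolynomial.aeval c (M l j))
        = MvPolynomial.aeval (fun i => algebraMap A L (c i)) (M l j) := by
        exact (MvPolynomial.aeval_algebraMap_apply L c (M l j)).symm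
      rw [h3, MvPolynomial.aeval_def]
    rw [this, hNM, Matrix.det_one]
  have hD0 : D ≠ 0 := by
    intro h0; rw [h0] at hevD; simp at hevD
  obtain ⟨γ, hγ⟩ := MvPolynomial.ne_zero_iff.mp hD0
  obtain ⟨lam, hlam⟩ : ∃ lam : L →ₗ[k] k, lam (MvPolynomial.coeff γ D) ≠ 0 := by
    by_contra hcon
    push Not at hcon
    exact hγ ((Module.forall_dual_apply_eq_zero_iff k _).mp hcon)
  refine ⟨∑ s ∈ D.support, MvPolynomial.monomial s (lam (MvPolynomial.coeff s D)), ?_, ?_⟩
  · rw [MvPolynomial.ne_zero_iff]
    refine ⟨γ, ?_⟩
    rw [MvPolynomial.coeff_sum]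
    rw [Finset.sum_eq_single γ]
    · simpa using hlam
    · intro s _ hs
      rw [MvPolynomial.coeff_monomial, if_neg hs]
    · intro hs
      rw [MvPolynomial.notMem_support_iff] at hs
      exact absurd hs hγ
  · intro p hp v hv
    have hev : MvPolynomial.eval (fun i => algebraMap k L (p i)) D ≠ 0 := by
      intro h0
      apply hp
      rw [map_sum]
      have : lam (MvPolynomial.eval (fun i => algebraMap k L (p i)) D) = 0 := by
        rw [h0, map_zero]
      rw [MvPolynomial.eval_eq, map_sum] at this
      rw [← this]
      refine Finset.sum_congr rfl fun s _ => ?_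
      rw [MvPolynomial.eval_monomial]
      have h5 : MvPolynomial.coeff s D * ∏ i ∈ s.support, algebraMap k L (p i) ^ s i
          = (∏ i ∈ s.support, p i ^ s i) • MvPolynomial.coeff s D := by
        rw [Algebra.smul_def, map_prod]
        simp only [map_pow]
        ring
      rw [h5, map_smul, smul_eq_mul, Finsupp.prod, mul_comm]
    -- the specialised matrix has nonzero determinant product
    set Mp : Matrix τ ι L := (M.map (MvPolynomial.eval p)).map (algebraMap k L) with hMp
    have hdet : (N * Mp).det ≠ 0 := by
      intro h0
      apply hev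
      rw [hD, RingHom.map_det]
      have : (MvPolynomial.eval (fun i => algebraMap k L (p i))).mapMatrix
          DM = N * Mp := by
        ext i j
        simp only [RingHom.mapMatrix_apply, Matrix.map_apply, Matrix.mul_apply, map_sum, map_mul,
          MvPolynomial.eval_C, hDM, hNC, hML', hMp]
        refine Finset.sum_congr rfl fun l _ => ?_
        congr 1
        rw [MvPolynomial.eval_map]
        have h8 := MvPolynomial.eval₂_comp_left (algebraMap k L) (RingHom.id k) p (M l j)
        rw [MvPolynomial.eval₂_id] at h8
        rw [h8]
        rfl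
      rw [this, h0]
    have hz : (N * Mp).mulVec (fun i => algebraMap k L (v i)) = 0 := by
      rw [← Matrix.mulVec_mulVec]
      have : Mp.mulVec (fun i => algebraMap k L (v i)) = 0 := by
        funext i
        have h6 : Mp.mulVec (fun i => algebraMap k L (v i)) i
            = algebraMap k L ((M.map (MvPolynomial.eval p)).mulVec v i) := by
          simp only [Matrix.mulVec, dotProduct, hMp, Matrix.map_apply, map_sum, map_mul]
        rw [h6, hv]
        exact map_zero _
      rw [this, Matrix.mulVec_zero]
    have := Matrix.eq_zero_of_mulVec_eq_zero hdet hz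
    funext i
    have h7 := congrFun this i
    simp only [Pi.zero_apply] at h7
    exact (algebraMap k L).injective (by rw [h7]; exact (map_zero _).symm)

end MP_cea741_ag
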