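import Mathlib

namespace MP_cea741_ag

open Polynomial

noncomputable section

variable {K : Type*} [Field K]

/-- `q = ∏_{j<n} (x - u^j)`. -/
def qpol (u : K) (n : ℕ) : K[X] := ∏ j ∈ Finset.range n, (X - C (u ^ j))

theorem qpol_monic (u : K) (n : ℕ) : (qpol u n).Monic :=
  monic_prod_of_monic _ _ fun _ _ => monic_X_sub_C _

theorem qpol_natDegree (u : K) (n : ℕ) : (qpol u n).natDegree = n := by
  rw [qpol, natDegree_prod_of_monic _ _ fun _ _ => monic_X_sub_C _]
  rw [Finset.sum_congr rfl fun j _ => natDegree_X_sub_C (u ^ j)]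
  simp

theorem qpol_eval_zero (u : K) (n : ℕ) (hu : u ≠ 0) : (qpol u n).eval 0 ≠ 0 := by
  rw [qpol, eval_prod, Finset.prod_ne_zero_iff]
  intro j _
  simp [hu]

theorem qpol_root (u : K) (n j : ℕ) (hj : j < n) : (qpol u n).eval (u ^ j) = 0 := by
  rw [qpol, eval_prod, Finset.prod_eq_zero (Finset.mem_range.mpr hj)]
  simp

/-- the equation `f = y q(x) - 1` of the curve. -/
def fpol (q : K[X]) : MvPolynomial (Fin 2) K :=
  MvPolynomial.X 1 * aeval (MvPolynomial.X 0) q - 1

/-- `N_D(G) = q^D G(x, 1/q)`. -/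
def Npol (q : K[X]) (D : ℕ) (G : MvPolynomial (Fin 2) K) : K[X] :=
  ∑ d ∈ G.support, C (G.coeff d) * X ^ (d 0) * q ^ (D - d 1)

theorem sum_le_of_mem_support {R : Type*} [CommSemiring R] {D : ℕ} {G : MvPolynomial (Fin 2) R}
    (hG : G.totalDegree ≤ D) {d : Fin 2 →₀ ℕ} (hd : d ∈ G.support) : d 0 + d 1 ≤ D := by
  have h := MvPolynomial.le_totalDegree hd
  rw [Finsupp.sum_fintype _ _ (fun _ => rfl)] at h
  simp only [Fin.sum_univ_two] at h
  omega

theorem Npol_natDegree (q : K[X]) (s D : ℕ) (hq : q.natDegree = s - 1) (hs : 1 ≤ s)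
    (G : MvPolynomial (Fin 2) K) (hG : G.totalDegree ≤ D) : (Npol q D G).natDegree ≤ s * D := by
  refine natDegree_sum_le_of_forall_le _ _ ?_
  intro d hd
  have h1 := sum_le_of_mem_support hG hd
  have h2 : (C (G.coeff d) * X ^ (d 0) * q ^ (D - d 1)).natDegree
      ≤ d 0 + (D - d 1) * (s - 1) := by
    refine natDegree_mul_le.trans ?_
    refine Nat.add_le_add (natDegree_C_mul_X_pow_le _ _) ?_
    rw [natDegree_pow, hq]
  refine h2.trans ?_
  obtain ⟨s', rfl⟩ : ∃ s', s = s' + 1 := ⟨s - 1, by omega⟩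
  have h3 : d 0 ≤ D - d 1 := by omega
  have h4 : D - d 1 ≤ D := Nat.sub_le _ _
  simp only [Nat.add_sub_cancel]
  calc d 0 + (D - d 1) * s' ≤ (D - d 1) + (D - d 1) * s' := by omega
    _ = (D - d 1) * (s' + 1) := by ring
    _ ≤ D * (s' + 1) := Nat.mul_le_mul_right _ h4
    _ = (s' + 1) * D := by ring

theorem Npol_eval (q : K[X]) (D : ℕ) (G : MvPolynomial (Fin 2) K) (hG : G.totalDegree ≤ D)
    (α : K) (hα : q.eval α = 0) :
    (Npol q D G).eval α = G.coeff (Finsupp.single 1 D) := by
  rw [Npol, eval_finsetSum]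
  have h1 : ∀ d ∈ G.support, (C (G.coeff d) * X ^ (d 0) * q ^ (D - d 1)).eval α
      = if d = Finsupp.single 1 D then G.coeff d else 0 := by
    intro d hd
    have h2 := sum_le_of_mem_support hG hd
    rw [eval_mul, eval_mul, eval_C, eval_pow, eval_X, eval_pow, hα]
    split_ifs with h
    · subst h
      simp
    · have h3 : D - d 1 ≠ 0 := by
        intro h4
        apply h
        ext i
        fin_cases i
        · simp; omega
        · simp; omega
      rw [zero_pow h3, mul_zero]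
  rw [Finset.sum_congr rfl h1, Finset.sum_ite_eq']
  split_ifs with h
  · rfl
  · rw [MvPolynomial.notMem_support_iff] at h
    exact h.symm

theorem Npol_eq_zero (q : K[X]) (D : ℕ) (G : MvPolynomial (Fin 2) K) (hG : G.totalDegree ≤ D)
    (h : Npol q D G = 0) : fpol q ∣ G := by
  set x : MvPolynomial (Fin 2) K := MvPolynomial.X 0
  set y : MvPolynomial (Fin 2) K := MvPolynomial.X 1
  set Q : MvPolynomial (Fin 2) K := aeval (MvPolynomial.X 0) q with hQ
  have hf : ∀ b : ℕ, fpol q ∣ (Q * y) ^ b - 1 := by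
    intro b
    have := sub_dvd_pow_sub_pow (Q * y) 1 b
    rw [one_pow] at this
    have e : fpol q = Q * y - 1 := by rw [fpol, mul_comm]
    rwa [e]
  have h1 : fpol q ∣ Q ^ D * G - aeval (MvPolynomial.X 0) (Npol q D G) := by
    have e1 : Q ^ D * G - aeval (MvPolynomial.X 0) (Npol q D G) =
        ∑ d ∈ G.support, MvPolynomial.C (G.coeff d) * x ^ (d 0) * Q ^ (D - d 1)
          * ((Q * y) ^ (d 1) - 1) := by
      have e0 : Q ^ D * G = ∑ d ∈ G.support, Q ^ D * MvPolynomial.monomial d (G.coeff d) := by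
        rw [← Finset.mul_sum, ← G.as_sum]
      rw [Npol, map_sum, e0, ← Finset.sum_sub_distrib]
      refine Finset.sum_congr rfl fun d hd => ?_
      have h2 := sum_le_of_mem_support hG hd
      have e2 : MvPolynomial.monomial d (G.coeff d)
          = MvPolynomial.C (G.coeff d) * x ^ (d 0) * y ^ (d 1) := by
        rw [MvPolynomial.monomial_eq, Finsupp.prod_fintype _ _ (fun i => pow_zero _),
          Fin.prod_univ_two, mul_assoc]
      have e3 : Q ^ D = Q ^ (D - d 1) * Q ^ (d 1) := by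
        rw [← pow_add]; congr 1; omega
      rw [e2, e3, map_mul, map_mul, map_pow, map_pow, aeval_C, aeval_X,
        MvPolynomial.algebraMap_eq, mul_pow]
      ring
    rw [e1]
    exact Finset.dvd_sum fun d _ => (hf _).mul_left _
  rw [h, map_zero, sub_zero] at h1
  have e4 : G = y ^ D * (Q ^ D * G) - G * ((Q * y) ^ D - 1) := by
    rw [mul_pow]; ring
  rw [e4]
  exact dvd_sub (h1.mul_left _) ((hf D).mul_left _)

/-- The power series version: `N_D(G) = q^D G(x, 1/q)`. -/
theorem Npol_coe (q : K[X]) (qi : PowerSeries K) (hqi : (q : PowerSeries K) * qi = 1) (D : ℕ)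
    (G : MvPolynomial (Fin 2) K) (hG : G.totalDegree ≤ D) :
    ((Npol q D G : K[X]) : PowerSeries K) = (q : PowerSeries K) ^ D *
      MvPolynomial.aeval ![(PowerSeries.X : PowerSeries K), qi] G := by
  have e00 : (q : PowerSeries K) ^ D *
      MvPolynomial.aeval ![(PowerSeries.X : PowerSeries K), qi] G = ∑ d ∈ G.support,
        (q : PowerSeries K) ^ D * MvPolynomial.aeval ![(PowerSeries.X : PowerSeries K), qi]
          (MvPolynomial.monomial d (G.coeff d)) := by
    rw [← Finset.mul_sum, ← map_sum, ← G.as_sum]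
  rw [e00, Npol]
  have e0 : ((∑ d ∈ G.support, C (G.coeff d) * X ^ (d 0) * q ^ (D - d 1) : K[X]) : PowerSeries K)
      = ∑ d ∈ G.support, ((C (G.coeff d) * X ^ (d 0) * q ^ (D - d 1) : K[X]) : PowerSeries K) := by
    exact map_sum (Polynomial.coeToPowerSeries.ringHom (R := K)) _ _
  rw [e0]
  refine Finset.sum_congr rfl fun d hd => ?_
  have h2 := sum_le_of_mem_support hG hd
  have e3 : (q : PowerSeries K) ^ D = (q : PowerSeries K) ^ (D - d 1) * (q : PowerSeries K) ^ (d 1) := by
    rw [← pow_add]; congr 1; omega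
  have e4 : (q : PowerSeries K) ^ (d 1) * qi ^ (d 1) = 1 := by
    rw [← mul_pow, hqi, one_pow]
  rw [MvPolynomial.aeval_monomial, Finsupp.prod_fintype _ _ (fun i => pow_zero _),
    Fin.prod_univ_two]
  simp only [Polynomial.coe_mul, Polynomial.coe_pow, Polynomial.coe_C, Polynomial.coe_X,
    Matrix.cons_val_zero, Matrix.cons_val_one]
  rw [e3]
  have e5 : (algebraMap K (PowerSeries K)) (G.coeff d) = PowerSeries.C (G.coeff d) := rfl
  rw [e5]
  linear_combination (-(PowerSeries.C (G.coeff d) * PowerSeries.X ^ (d 0) *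
    (q : PowerSeries K) ^ (D - d 1)) : PowerSeries K) * e4

theorem fpol_totalDegree (q : K[X]) (s : ℕ) (hq : q.natDegree = s - 1) (hq' : q.Monic)
    (hs : 2 ≤ s) : s ≤ (fpol q).totalDegree := by
  have h1 := MvPolynomial.aeval_natDegree_le (m := (fpol q).totalDegree) (fpol q) le_rfl
    (fun _ => (X : K[X])) (n := 1) (fun _ => natDegree_X_le)
  have h2 : MvPolynomial.aeval (fun _ : Fin 2 => (X : K[X])) (fpol q) = X * q - 1 := by
    rw [fpol, map_sub, map_mul, MvPolynomial.aeval_X, map_one]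
    congr 2
    rw [← Polynomial.aeval_algHom_apply, MvPolynomial.aeval_X]
    exact aeval_X_left_apply q
  rw [h2, mul_one] at h1
  refine le_trans (le_of_eq ?_) h1
  have h3 : (X * q : K[X]).natDegree = s := by
    rw [natDegree_X_mul hq'.ne_zero, hq]; omega
  rw [natDegree_sub_eq_left_of_natDegree_lt, h3]
  rw [h3, natDegree_one]; omega

theorem fpol_ne_zero (q : K[X]) (s : ℕ) (hq : q.natDegree = s - 1) (hq' : q.Monic)
    (hs : 2 ≤ s) : fpol q ≠ 0 := by
  intro h
  have := fpol_totalDegree q s hq hq' hs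
  rw [h, MvPolynomial.totalDegree_zero] at this
  omega

theorem totalDegree_factor (q : K[X]) (s : ℕ) (hq : q.natDegree = s - 1) (hq' : q.Monic)
    (hs : 2 ≤ s) (n : ℕ) (G : MvPolynomial (Fin 2) K) (hG : G ≠ 0) :
    n * s + G.totalDegree ≤ (fpol q ^ n * G).totalDegree := by
  induction n with
  | zero => simp
  | succ n ih =>
    have h0 := fpol_ne_zero q s hq hq' hs
    have e : fpol q ^ (n + 1) * G = fpol q * (fpol q ^ n * G) := by ring
    rw [e, MvPolynomial.totalDegree_mul_of_isDomain h0 (mul_ne_zero (pow_ne_zero _ h0) hG)]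
    have := fpol_totalDegree q s hq hq' hs
    nlinarith

end

end MP_cea741_ag
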