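import Mathlib
import Pool.Agent.Lib.MP_cea741_ag.Curve
import Pool.Agent.Lib.MP_cea741_ag.MonA

namespace MP_cea741_ag

open Polynomial

noncomputable section

/-- exponents `(a,b)` with `a + b ≤ D` -/
abbrev Idx (D : ℕ) := {p : Fin (D + 1) × Fin (D + 1) // (p.1 : ℕ) + p.2 ≤ D}

/-- the exponent vector -/
def ex {D : ℕ} (p : Idx D) : Fin 2 →₀ ℕ := Finsupp.single 0 (p.1.1 : ℕ) + Finsupp.single 1 (p.1.2 : ℕ)

theorem ex_zero {D : ℕ} (p : Idx D) : ex p 0 = p.1.1 := by simp [ex]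
theorem ex_one {D : ℕ} (p : Idx D) : ex p 1 = p.1.2 := by simp [ex]

theorem ex_injective {D : ℕ} : Function.Injective (ex (D := D)) := by
  intro p p' h
  have h0 := congrArg (fun d => d 0) h
  have h1 := congrArg (fun d => d 1) h
  simp only [ex_zero, ex_one] at h0 h1
  exact Subtype.ext (Prod.ext (Fin.ext h0) (Fin.ext h1))

theorem exists_ex {D : ℕ} (d : Fin 2 →₀ ℕ) (h : d 0 + d 1 ≤ D) : ∃ p : Idx D, ex p = d := by
  refine ⟨⟨(⟨d 0, by omega⟩, ⟨d 1, by omega⟩), h⟩, ?_⟩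
  ext i
  fin_cases i
  · simp [ex]
  · simp [ex]

/-- polynomial with given coefficients -/
def polyOf {R : Type*} [CommSemiring R] {D : ℕ} (v : Idx D → R) : MvPolynomial (Fin 2) R :=
  ∑ p, MvPolynomial.monomial (ex p) (v p)

theorem coeff_polyOf {R : Type*} [CommSemiring R] {D : ℕ} (v : Idx D → R) (p : Idx D) :
    (polyOf v).coeff (ex p) = v p := by
  rw [polyOf, MvPolynomial.coeff_sum]
  rw [Finset.sum_eq_single p]
  · simp
  · intro p' _ hp'
    rw [MvPolynomial.coeff_monomial, if_neg]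
    intro h; exact hp' (ex_injective h)
  · simp

theorem polyOf_totalDegree {R : Type*} [CommSemiring R] {D : ℕ} (v : Idx D → R) :
    (polyOf v).totalDegree ≤ D := by
  refine (MvPolynomial.totalDegree_finsetSum _ _).trans (Finset.sup_le fun p _ => ?_)
  refine (MvPolynomial.totalDegree_monomial_le _ _).trans ?_
  rw [Finsupp.sum_fintype _ _ (fun _ => rfl)]
  simp only [Fin.sum_univ_two, ex_zero, ex_one]
  exact p.2

theorem polyOf_coeff {R : Type*} [CommSemiring R] {D : ℕ} (F : MvPolynomial (Fin 2) R)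
    (hF : F.totalDegree ≤ D) : polyOf (D := D) (fun p => F.coeff (ex p)) = F := by
  ext d
  by_cases hd : d 0 + d 1 ≤ D
  · obtain ⟨p, rfl⟩ := exists_ex d hd
    rw [coeff_polyOf]
  · have h1 : F.coeff d = 0 := by
      by_contra h
      exact hd (sum_le_of_mem_support hF (MvPolynomial.mem_support_iff.mpr h))
    rw [h1]
    by_contra h
    exact hd (sum_le_of_mem_support (polyOf_totalDegree _) (MvPolynomial.mem_support_iff.mpr h))

/-- image of `polyOf v` under a ring map. -/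
theorem aeval_polyOf {R S : Type*} [CommSemiring R] [CommSemiring S] [Algebra R S] {D : ℕ}
    (v : Idx D → R) (g : Fin 2 → S) :
    MvPolynomial.aeval g (polyOf v) =
      ∑ p, algebraMap R S (v p) * (g 0 ^ (p.1.1 : ℕ) * g 1 ^ (p.1.2 : ℕ)) := by
  rw [polyOf, map_sum]
  refine Finset.sum_congr rfl fun p _ => ?_
  rw [MvPolynomial.aeval_monomial, Finsupp.prod_fintype _ _ (fun i => pow_zero _),
    Fin.prod_univ_two, ex_zero, ex_one]

theorem eval₂Hom_polyOf {R S : Type*} [CommSemiring R] [CommSemiring S] (φ : R →+* S) {D : ℕ}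
    (v : Idx D → R) (g : Fin 2 → S) :
    MvPolynomial.eval₂Hom φ g (polyOf v) =
      ∑ p, φ (v p) * (g 0 ^ (p.1.1 : ℕ) * g 1 ^ (p.1.2 : ℕ)) := by
  rw [polyOf, map_sum]
  refine Finset.sum_congr rfl fun p _ => ?_
  rw [MvPolynomial.eval₂Hom_monomial, Finsupp.prod_fintype _ _ (fun i => pow_zero _),
    Fin.prod_univ_two, ex_zero, ex_one]

/-- arc polynomial `∑ c_l x^l`. -/
def gpol {A : Type*} [CommRing A] (r : ℕ) (c : Fin r → A) : A[X] := ∑ l : Fin r, C (c l) * X ^ (l : ℕ)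

/-- `x^a (g(x)+z)^b` as polynomial in `z` over `A[x]`. -/
def Upol {A : Type*} [CommRing A] (g : A[X]) (a b : ℕ) : A[X][X] := C X ^ a * (X + C g) ^ b

/-- `F(x, g(x)+z)`. -/
def Wpol {A : Type*} [CommRing A] {D : ℕ} (g : A[X]) (v : Idx D → A) : A[X][X] :=
  ∑ p, C (C (v p)) * Upol g (p.1.1 : ℕ) (p.1.2 : ℕ)

theorem Upol_map {A B : Type*} [CommRing A] [CommRing B] (φ : A →+* B) (g : A[X]) (a b : ℕ) :
    (Upol g a b).map (mapRingHom φ) = Upol (g.map φ) a b := by
  simp [Upol]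

theorem gpol_map {A B : Type*} [CommRing A] [CommRing B] (φ : A →+* B) (r : ℕ) (c : Fin r → A) :
    (gpol r c).map φ = gpol r (fun l => φ (c l)) := by
  simp [gpol, Polynomial.map_sum]

/-- the matrix of the conditions. -/
def Mmat (k : Type*) [Field k] (r m D : ℕ) :
    Matrix (Fin m × Fin (r * m)) (Idx D) (MvPolynomial (Fin r) k) := fun t p =>
  if (t.2 : ℕ) < r * (m - t.1) then
    ((Upol (gpol r (MvPolynomial.X : Fin r → MvPolynomial (Fin r) k)) (p.1.1 : ℕ) (p.1.2 : ℕ)).coeff t.1).coeff t.2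
  else 0

theorem Mmat_mulVec {k A : Type*} [Field k] [CommRing A] (r m D : ℕ)
    (φ : MvPolynomial (Fin r) k →+* A) (v : Idx D → A) (t : Fin m × Fin (r * m)) :
    ((Mmat k r m D).map φ).mulVec v t = if (t.2 : ℕ) < r * (m - t.1) then
      ((Wpol (gpol r (fun l => φ (MvPolynomial.X l))) v).coeff t.1).coeff t.2 else 0 := by
  rw [Matrix.mulVec, dotProduct]
  simp only [Matrix.map_apply, Mmat]
  split_ifs with h
  · rw [Wpol, finsetSum_coeff, finsetSum_coeff]
    refine Finset.sum_congr rfl fun p _ => ?_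
    rw [coeff_C_mul, coeff_C_mul, mul_comm]
    congr 1
    rw [← gpol_map, ← Upol_map, coeff_map, coe_mapRingHom, coeff_map]
  · simp

theorem Mmat_mulVec_eq_zero_iff {k A : Type*} [Field k] [CommRing A] (r m D : ℕ)
    (φ : MvPolynomial (Fin r) k →+* A) (v : Idx D → A) :
    ((Mmat k r m D).map φ).mulVec v = 0 ↔
      Wpol (gpol r (fun l => φ (MvPolynomial.X l))) v ∈
        (Ideal.span {X, C (X ^ r)} : Ideal A[X][X]) ^ m := by
  constructor
  · intro h
    refine mon_mem _ m _ fun j hj => ?_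
    rw [← pow_mul, X_pow_dvd_iff]
    intro i hi
    have hi' : i < r * m := lt_of_lt_of_le hi (Nat.mul_le_mul_left _ (Nat.sub_le _ _))
    have h1 := congrFun h (⟨j, hj⟩, ⟨i, hi'⟩)
    rw [Mmat_mulVec] at h1
    simp only [if_pos hi] at h1
    exact h1
  · intro h
    funext t
    rw [Mmat_mulVec]
    split_ifs with ht
    · have h1 := mon_coeff _ m _ h (t.1 : ℕ)
      rw [← pow_mul, X_pow_dvd_iff] at h1
      exact h1 _ ht
    · rfl

/-- `F(x, g+z)` is the image of `polyOf v`. -/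
theorem Wpol_eq {A : Type*} [CommRing A] {D : ℕ} (g : A[X]) (v : Idx D → A) :
    Wpol g v = MvPolynomial.eval₂Hom ((C : A[X] →+* A[X][X]).comp C) ![C X, X + C g] (polyOf v) := by
  rw [eval₂Hom_polyOf, Wpol]
  refine Finset.sum_congr rfl fun p _ => ?_
  simp [Upol]

end

end MP_cea741_ag
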