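import Mathlib
import Pool.Agent.Lib.MP_cea741_ag.Setup

namespace MP_cea741_ag.Sm

open Polynomial MP_cea741_ag

noncomputable section

variable {K : Type*} [Field K]

/-- `K[x,y] → K[x][z]`, `y ↦ z + g(x)`. -/
def eta (g : K[X]) : MvPolynomial (Fin 2) K →+* K[X][X] :=
  MvPolynomial.eval₂Hom ((C : K[X] →+* K[X][X]).comp C) ![C X, X + C g]

/-- `K[x,y] → K[x][w]`, `y ↦ x^r w + g(x)`. -/
def phi (r : ℕ) (g : K[X]) : MvPolynomial (Fin 2) K →+* K[X][X] :=
  (compRingHom (C (X ^ r) * X : K[X][X])).comp (eta g)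

theorem phi_coeff (r : ℕ) (g : K[X]) (P : MvPolynomial (Fin 2) K) (j : ℕ) :
    (phi r g P).coeff j = (eta g P).coeff j * (X ^ r) ^ j := by
  rw [phi, RingHom.comp_apply, coe_compRingHom_apply, comp_C_mul_X_coeff]

theorem dvd_phi_of_mem (r m : ℕ) (g : K[X]) (P : MvPolynomial (Fin 2) K)
    (h : eta g P ∈ (Ideal.span {X, C (X ^ r)} : Ideal K[X][X]) ^ m) :
    (C X : K[X][X]) ^ (r * m) ∣ phi r g P := by
  rw [← C_pow, C_dvd_iff_dvd_coeff]
  intro j
  rw [phi_coeff]
  have h1 := mon_coeff _ m _ h j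
  rw [pow_mul]
  calc ((X : K[X]) ^ r) ^ m ∣ (X ^ r) ^ ((m - j) + j) := pow_dvd_pow _ (by omega)
    _ = (X ^ r) ^ (m - j) * (X ^ r) ^ j := pow_add _ _ _
    _ ∣ _ := mul_dvd_mul_right h1 _

theorem coeff_dvd_of_dvd_phi (r N : ℕ) (g : K[X]) (P : MvPolynomial (Fin 2) K)
    (h : (C X : K[X][X]) ^ N ∣ phi r g P) (j : ℕ) : X ^ (N - r * j) ∣ (eta g P).coeff j := by
  rw [← C_pow, C_dvd_iff_dvd_coeff] at h
  have h1 := h j
  rw [phi_coeff, ← pow_mul] at h1
  by_cases hN : N ≤ r * j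
  · rw [Nat.sub_eq_zero_of_le hN, pow_zero]; exact one_dvd _
  · push Not at hN
    have e : (X : K[X]) ^ N = X ^ (N - r * j) * X ^ (r * j) := by
      rw [← pow_add]; congr 1; omega
    rw [e] at h1
    exact (mul_dvd_mul_iff_right (pow_ne_zero _ X_ne_zero)).mp h1

/-- `K[x][z] → K[[x]]`, `z ↦ b`. -/
def theta (b : PowerSeries K) : K[X][X] →+* PowerSeries K :=
  eval₂RingHom (Polynomial.coeToPowerSeries.ringHom (R := K)) b

theorem theta_eta (g : K[X]) (qi : PowerSeries K) (P : MvPolynomial (Fin 2) K) :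
    theta (qi - (g : PowerSeries K)) (eta g P) =
      MvPolynomial.aeval ![(PowerSeries.X : PowerSeries K), qi] P := by
  have h : ((theta (qi - (g : PowerSeries K))).comp (eta g)) =
      ((MvPolynomial.aeval ![(PowerSeries.X : PowerSeries K), qi] :
        MvPolynomial (Fin 2) K →ₐ[K] PowerSeries K) : MvPolynomial (Fin 2) K →+* PowerSeries K) := by
    apply MvPolynomial.ringHom_ext
    · intro a
      simp [theta, eta]
    · intro i
      fin_cases i
      · simp [theta, eta]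
      · simp [theta, eta]
  exact congrArg (fun f => f P) h

theorem order_curve (r s N M : ℕ) (g : K[X]) (qi : PowerSeries K)
    (hs : (PowerSeries.X : PowerSeries K) ^ s ∣ qi - (g : PowerSeries K))
    (hM : ∀ j, M ≤ (N - r * j) + s * j)
    (P : MvPolynomial (Fin 2) K) (h : (C X : K[X][X]) ^ N ∣ phi r g P) :
    (PowerSeries.X : PowerSeries K) ^ M ∣
      MvPolynomial.aeval ![(PowerSeries.X : PowerSeries K), qi] P := by
  rw [← theta_eta g qi P, theta, coe_eval₂RingHom, eval₂_eq_sum_range]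
  refine Finset.dvd_sum fun j _ => ?_
  obtain ⟨a, ha⟩ := coeff_dvd_of_dvd_phi r N g P h j
  obtain ⟨b, hb⟩ := hs
  rw [ha, hb, mul_pow, ← pow_mul]
  refine (pow_dvd_pow _ (hM j)).trans ?_
  rw [pow_add]
  have e : (Polynomial.coeToPowerSeries.ringHom (R := K)) (X ^ (N - r * j) * a) =
      (PowerSeries.X : PowerSeries K) ^ (N - r * j) * (a : PowerSeries K) := by
    rw [map_mul, map_pow]; simp
  rw [e]
  exact mul_dvd_mul (Dvd.intro _ rfl) (Dvd.intro _ rfl)

theorem prime_CX : Prime (C X : K[X][X]) := Polynomial.prime_C_iff.mpr Polynomial.prime_X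

/-- additivity of the order: cancel the power of a polynomial of exact order `s`. -/
theorem cancel_order (s N α : ℕ) (A B : K[X][X]) (hA : (C X : K[X][X]) ^ s ∣ A)
    (hA' : ¬ (C X : K[X][X]) ^ (s + 1) ∣ A) (h : (C X : K[X][X]) ^ N ∣ A ^ α * B) :
    (C X : K[X][X]) ^ (N - s * α) ∣ B := by
  obtain ⟨Q, hQ⟩ := hA
  have hQ' : ¬ (C X : K[X][X]) ∣ Q := by
    rintro ⟨Q', hQ''⟩
    apply hA'
    rw [hQ, hQ'', pow_succ, ← mul_assoc]
    exact Dvd.intro _ rfl
  by_cases hN : N ≤ s * α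
  · rw [Nat.sub_eq_zero_of_le hN, pow_zero]; exact one_dvd _
  push Not at hN
  have e : (C X : K[X][X]) ^ N = (C X) ^ (s * α) * (C X) ^ (N - s * α) := by
    rw [← pow_add]; congr 1; omega
  rw [hQ, mul_pow, ← pow_mul, e, mul_assoc] at h
  have h1 := (mul_dvd_mul_iff_left (pow_ne_zero _ prime_CX.ne_zero)).mp h
  exact (Prime.pow_dvd_of_dvd_mul_left prime_CX _
    (fun h2 => hQ' (prime_CX.dvd_of_dvd_pow h2)) h1)

theorem coe_X_pow_dvd (n : ℕ) (p : K[X]) :
    (PowerSeries.X : PowerSeries K) ^ n ∣ (p : PowerSeries K) ↔ (X : K[X]) ^ n ∣ p := by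
  rw [PowerSeries.X_pow_dvd_iff, Polynomial.X_pow_dvd_iff]
  simp only [Polynomial.coeff_coe]

/-- the ceiling choice of `M`. -/
theorem ceil_le (r s N j : ℕ) (hr : 0 < r) (hs : s ≤ r) :
    (s * N + r - 1) / r ≤ (N - r * j) + s * j := by
  rw [Nat.div_le_iff_le_mul_add_pred hr]
  have : s * N ≤ r * ((N - r * j) + s * j) := by
    by_cases h : N ≤ r * j
    · rw [Nat.sub_eq_zero_of_le h, zero_add]
      calc s * N ≤ s * (r * j) := Nat.mul_le_mul_left _ h
        _ = r * (s * j) := by ring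
    · push Not at h
      obtain ⟨t, rfl⟩ := Nat.exists_eq_add_of_lt h
      have e : r * j + t + 1 - r * j = t + 1 := by omega
      rw [e]
      nlinarith [Nat.zero_le (r * j), Nat.mul_le_mul_right (t + 1) hs]
  omega

theorem le_ceil (r s N : ℕ) (hr : 0 < r) : s * N ≤ r * ((s * N + r - 1) / r) := by
  have h1 := Nat.div_add_mod (s * N + r - 1) r
  have h2 := Nat.mod_lt (s * N + r - 1) hr
  omega

end

end MP_cea741_ag.Sm
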