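import Mathlib

namespace MP_cea741_ag

noncomputable section

open MvPolynomial

/-- total degree does not increase under affine substitutions. -/
theorem totalDegree_aeval_le {k σ τ : Type*} [Field k] (g : σ → MvPolynomial τ k)
    (hg : ∀ i, (g i).totalDegree ≤ 1) (F : MvPolynomial σ k) :
    (aeval g F).totalDegree ≤ F.totalDegree := by
  rw [aeval_def, eval₂_eq]
  refine (totalDegree_finsetSum _ _).trans (Finset.sup_le fun d hd => ?_)
  have h1 : ((algebraMap k (MvPolynomial τ k)) (coeff d F)
      * ∏ i ∈ d.support, g i ^ d i).totalDegree ≤ ∑ i ∈ d.support, d i := by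
    refine (totalDegree_mul _ _).trans ?_
    rw [algebraMap_eq, totalDegree_C, zero_add]
    refine (totalDegree_finsetProd _ _).trans (Finset.sum_le_sum fun i _ => ?_)
    refine (totalDegree_pow _ _).trans ?_
    calc d i * (g i).totalDegree ≤ d i * 1 := Nat.mul_le_mul_left _ (hg i)
      _ = d i := mul_one _
  exact h1.trans (le_totalDegree hd)

end

end MP_cea741_ag
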