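import Mathlib
import Pool.Agent.Lib.MP_cea741_ag.SmoothA
import Pool.Agent.Lib.MP_cea741_ag.TotDeg
import Pool.Agent.Lib.MP_cea741_ag.Mon

/-!
`arcIdeal a c` and the passage from one germ over an extension field to general germs.
-/

namespace MP_cea741_ag.Arc

open MvPolynomial MP_cea741_ag

/-- The ideal of `k[x,y]` (`x = X 0`, `y = X 1`) of the curvilinear scheme of length `r` supported
at the point `(a, c 0)` on the smooth arc `y = ∑_{i<r} c_i (x-a)^i`. It is the image of
`(y, x^r)` under the automorphism `x ↦ x - a`, `y ↦ y - ∑ c_i (x-a)^i` of the affine plane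
(`arcIdeal_eq_map` below), so `arcIdeal a c ^ m` is the ideal of a subscheme `Y` isomorphic to
`Z = Spec k[x,y]/(y, x^r)^m` (`quotient_equiv` below). -/
noncomputable def arcIdeal {k : Type*} [Field k] {r : ℕ} (a : k) (c : Fin r → k) :
    Ideal (MvPolynomial (Fin 2) k) :=
  Ideal.span {X 1 - ∑ i, C (c i) * (X 0 - C a) ^ (i : ℕ), (X 0 - C a) ^ r}

/-- Sanity check: `arcIdeal a c` is the image of `(y, x^r)` under the substitution
`x ↦ x - a`, `y ↦ y - ∑ c_i (x-a)^i`. -/
theorem arcIdeal_eq_map {k : Type*} [Field k] {r : ℕ} (a : k) (c : Fin r → k) :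
    arcIdeal a c = Ideal.map (aeval (R := k) ![(X 0 - C a : MvPolynomial (Fin 2) k),
      X 1 - ∑ i, C (c i) * (X 0 - C a) ^ (i : ℕ)]) (Ideal.span {X 1, X 0 ^ r}) := by
  rw [arcIdeal, Ideal.map_span, Set.image_pair]
  simp

/-- Sanity check: the subscheme `Y` defined by `arcIdeal a c ^ m` is isomorphic to
`Z = Spec k[x,y]/(y, x^r)^m`. -/
theorem quotient_equiv {k : Type*} [Field k] {r : ℕ} (m : ℕ) (a : k) (c : Fin r → k) :
    Nonempty ((MvPolynomial (Fin 2) k ⧸ (Ideal.span {X 1, X 0 ^ r} ^ m : Ideal (MvPolynomial (Fin 2) k)))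
      ≃ₐ[k] (MvPolynomial (Fin 2) k ⧸ (arcIdeal a c ^ m))) := by
  set φ : MvPolynomial (Fin 2) k →ₐ[k] MvPolynomial (Fin 2) k :=
    aeval (R := k) ![(X 0 - C a : MvPolynomial (Fin 2) k),
      X 1 - ∑ i, C (c i) * (X 0 - C a) ^ (i : ℕ)] with hφ
  set ψ : MvPolynomial (Fin 2) k →ₐ[k] MvPolynomial (Fin 2) k :=
    aeval (R := k) ![(X 0 + C a : MvPolynomial (Fin 2) k),
      X 1 + ∑ i, C (c i) * (X 0) ^ (i : ℕ)] with hψ
  have h1 : φ.comp ψ = AlgHom.id k _ := by
    apply MvPolynomial.algHom_ext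
    intro i
    fin_cases i
    · simp [hφ, hψ, ← algebraMap_eq]
    · simp [hφ, hψ, ← algebraMap_eq]
  have h2 : ψ.comp φ = AlgHom.id k _ := by
    apply MvPolynomial.algHom_ext
    intro i
    fin_cases i
    · simp [hφ, hψ, ← algebraMap_eq]
    · simp [hφ, hψ, ← algebraMap_eq]
  refine ⟨Ideal.quotientEquivAlg _ _ (AlgEquiv.ofAlgHom φ ψ h1 h2) ?_⟩
  rw [arcIdeal_eq_map a c, Ideal.map_pow]
  rfl

/-- membership in `arcIdeal a c ^ m` in terms of `F(x + a, z + g(x))`. -/
theorem eta_mem {k : Type*} [Field k] (r m : ℕ) (a : k) (c : Fin r → k)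
    (F : MvPolynomial (Fin 2) k) (hmem : F ∈ arcIdeal a c ^ m) :
    Sm.eta (gpol r c) ((aeval ![X 0 + C a, X 1] : MvPolynomial (Fin 2) k →ₐ[k]
      MvPolynomial (Fin 2) k) F) ∈
      (Ideal.span {Polynomial.X, Polynomial.C (Polynomial.X ^ r)} :
        Ideal (Polynomial (Polynomial k))) ^ m := by
  set τ : MvPolynomial (Fin 2) k →ₐ[k] MvPolynomial (Fin 2) k := aeval ![X 0 + C a, X 1] with hτ
  set η : MvPolynomial (Fin 2) k →+* Polynomial (Polynomial k) := Sm.eta (gpol r c) with hη
  have h1 : (η.comp (τ : MvPolynomial (Fin 2) k →+* MvPolynomial (Fin 2) k)) F ∈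
      (arcIdeal a c ^ m).map (η.comp (τ : MvPolynomial (Fin 2) k →+* MvPolynomial (Fin 2) k)) :=
    Ideal.mem_map_of_mem _ hmem
  have h2 := Ideal.map_pow (η.comp (τ : MvPolynomial (Fin 2) k →+* MvPolynomial (Fin 2) k))
    (arcIdeal a c) m
  rw [h2] at h1
  have h3 : (arcIdeal a c).map (η.comp (τ : MvPolynomial (Fin 2) k →+* MvPolynomial (Fin 2) k)) =
      (Ideal.span {Polynomial.X, Polynomial.C (Polynomial.X ^ r)} :
    Ideal (Polynomial (Polynomial k))) := by
    rw [arcIdeal, Ideal.map_span, Set.image_pair]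
    have e0 : (η.comp (τ : MvPolynomial (Fin 2) k →+* MvPolynomial (Fin 2) k)) (X 0 - C a)
        = Polynomial.C Polynomial.X := by
      have : (τ : MvPolynomial (Fin 2) k →+* MvPolynomial (Fin 2) k) (X 0 - C a) = X 0 := by
        simp [hτ, ← algebraMap_eq]
      rw [RingHom.comp_apply, this]
      simp [hη, Sm.eta]
    have e1 : (η.comp (τ : MvPolynomial (Fin 2) k →+* MvPolynomial (Fin 2) k)) (X 1)
        = Polynomial.X + Polynomial.C (gpol r c) := by
      have : (τ : MvPolynomial (Fin 2) k →+* MvPolynomial (Fin 2) k) (X 1) = X 1 := by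
        simp [hτ]
      rw [RingHom.comp_apply, this]
      simp [hη, Sm.eta]
    have e2 : ∀ t : k, (η.comp (τ : MvPolynomial (Fin 2) k →+* MvPolynomial (Fin 2) k)) (C t)
        = Polynomial.C (Polynomial.C t) := by
      intro t
      have : (τ : MvPolynomial (Fin 2) k →+* MvPolynomial (Fin 2) k) (C t) = C t := by
        exact τ.commutes t
      rw [RingHom.comp_apply, this]
      simp [hη, Sm.eta]
    rw [map_sub, map_sum, map_pow, e0, e1]
    have e3 : ∑ i : Fin r, (η.comp (τ : MvPolynomial (Fin 2) k →+* MvPolynomial (Fin 2) k))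
        (C (c i) * (X 0 - C a) ^ (i : ℕ)) = Polynomial.C (gpol r c) := by
      rw [gpol, map_sum]
      refine Finset.sum_congr rfl fun i _ => ?_
      rw [map_mul, map_pow, e0, e2, Polynomial.C_mul, Polynomial.C_pow]
    rw [e3, add_sub_cancel_right, Polynomial.C_pow]
  rw [h3] at h1
  exact h1

/-- Semicontinuity: if for one germ over an extension field `K` of `k` no nonzero polynomial of
degree `≤ d` lies in the `m`-th power, the same holds for general germs over `k`. -/
theorem open_of_germ (k : Type*) [Field k] {K : Type*} [Field K] [Algebra k K] (r m d : ℕ)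
    (c : Fin r → K)
    (h : ∀ P : MvPolynomial (Fin 2) K, P.totalDegree ≤ d → Sm.eta (gpol r c) P ∈
      (Ideal.span {Polynomial.X, Polynomial.C (Polynomial.X ^ r)} :
        Ideal (Polynomial (Polynomial K))) ^ m → P = 0) :
    ∃ Φ : MvPolynomial (Fin r) k, Φ ≠ 0 ∧
      ∀ (a : k) (c : Fin r → k), eval c Φ ≠ 0 →
        ∀ F : MvPolynomial (Fin 2) k, F.totalDegree ≤ d → F ∈ arcIdeal a c ^ m → F = 0 := by
  classical
  obtain ⟨Φ, hΦ, hΦ'⟩ := generic_injective (A := K) (Mmat k r m d) c (by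
      intro v hv
      have h1 : ((Mmat k r m d).map ((aeval c : MvPolynomial (Fin r) k →ₐ[k] K) :
              MvPolynomial (Fin r) k →+* K)).mulVec v = 0 := hv
      rw [Mmat_mulVec_eq_zero_iff] at h1
      have h2 : (fun l => ((aeval c : MvPolynomial (Fin r) k →ₐ[k] K) :
              MvPolynomial (Fin r) k →+* K) (X l)) = c := by
        funext l
        simp
      rw [h2, Wpol_eq] at h1
      have h3 := h (polyOf v) (polyOf_totalDegree v) h1
      funext p
      have h4 := congrArg (fun G => G.coeff (ex p)) h3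
      simpa [coeff_polyOf] using h4)
  refine ⟨Φ, hΦ, fun a c' hc F hF hmem => ?_⟩
  have h5 := eta_mem r m a c' F hmem
  set τ : MvPolynomial (Fin 2) k →ₐ[k] MvPolynomial (Fin 2) k :=
    aeval ![X 0 + C a, X 1] with hτ
  set τ' : MvPolynomial (Fin 2) k →ₐ[k] MvPolynomial (Fin 2) k :=
    aeval ![X 0 - C a, X 1] with hτ'
  have hττ : τ'.comp τ = AlgHom.id k _ := by
    apply MvPolynomial.algHom_ext
    intro i
    fin_cases i
    · simp [hτ, hτ', ← algebraMap_eq]
    · simp [hτ, hτ']
  set F' := τ F with hF'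
  have hF'deg : F'.totalDegree ≤ d := by
    refine (totalDegree_aeval_le _ ?_ F).trans hF
    intro i
    fin_cases i
    · refine (totalDegree_add _ _).trans ?_
      simp [totalDegree_X, totalDegree_C]
    · simp [totalDegree_X]
  have hv := hΦ' c' hc (fun p => F'.coeff (ex p)) (by
    have h3 : ((Mmat k r m d).map (eval c' : MvPolynomial (Fin r) k →+* k)).mulVec
        (fun p => F'.coeff (ex p)) = 0 := by
      rw [Mmat_mulVec_eq_zero_iff]
      have h4 : (fun l => (eval c' : MvPolynomial (Fin r) k →+* k) (X l)) = c' := by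
        funext l; simp
      rw [h4, Wpol_eq, polyOf_coeff F' hF'deg]
      exact h5
    exact h3)
  have hF'0 : F' = 0 := by
    rw [← polyOf_coeff F' hF'deg, hv]
    simp [polyOf]
  have := congrArg τ' hF'0
  rw [hF', map_zero] at this
  have h6 : τ' (τ F) = F := by
    have := congrArg (fun φ => φ F) hττ
    simpa using this
  rw [← h6]
  exact this

end MP_cea741_ag.Arc
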