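import Mathlib
import Pool.Agent.Lib.MP_cea741_ag.SmoothA

/-!
Vanishing on a special germ: the germ has contact exactly `s` with the curve `y q(x) = 1`.
-/

namespace MP_cea741_ag.Sm

open Polynomial MP_cea741_ag

noncomputable section

variable {K : Type*} [Field K]

theorem eta_fpol (g q : K[X]) : eta g (fpol q) = (X + C g) * C q - 1 := by
  have h : eta g (aeval (MvPolynomial.X 0) q) = C q := by
    rw [aeval_def, Polynomial.hom_eval₂]
    have e1 : eta g (MvPolynomial.X 0) = C X := by simp [eta]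
    have e2 : (eta g).comp (algebraMap K (MvPolynomial (Fin 2) K)) = (C : K[X] →+* K[X][X]).comp C := by
      ext a
      simp [eta, MvPolynomial.algebraMap_eq]
    rw [e1, e2, ← Polynomial.hom_eval₂, eval₂_C_X]
  rw [fpol, map_sub, map_mul, h, map_one]
  congr 2
  simp [eta]

theorem phi_fpol_coeff (r : ℕ) (g q : K[X]) (j : ℕ) : (phi r g (fpol q)).coeff j =
    if j = 0 then g * q - 1 else if j = 1 then q * X ^ r else 0 := by
  rw [phi_coeff, eta_fpol]
  have e : ((X + C g) * C q - 1 : K[X][X]) = C (g * q - 1) + C q * X := by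
    rw [C_sub, C_mul, C_1]; ring
  rw [e, coeff_add, coeff_C, coeff_C_mul, coeff_X]
  rcases j with _ | _ | j
  · simp
  · simp
  · simp

theorem phi_fpol_dvd (r s : ℕ) (hs : s ≤ r) (g q : K[X]) (qi : PowerSeries K)
    (hq : (q : PowerSeries K) * qi = 1)
    (hg : (PowerSeries.X : PowerSeries K) ^ r ∣ (qi + PowerSeries.X ^ s) - (g : PowerSeries K)) :
    (C X : K[X][X]) ^ s ∣ phi r g (fpol q) := by
  rw [← C_pow, C_dvd_iff_dvd_coeff]
  intro j
  rw [phi_fpol_coeff]
  split_ifs with h0 h1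
  · rw [← coe_X_pow_dvd]
    obtain ⟨a, ha⟩ := hg
    have e : ((g * q - 1 : K[X]) : PowerSeries K) =
        PowerSeries.X ^ s * (q : PowerSeries K) - PowerSeries.X ^ r * a * (q : PowerSeries K) := by
      rw [← ha, Polynomial.coe_sub, Polynomial.coe_mul, Polynomial.coe_one, ← hq]
      ring
    rw [e]
    refine dvd_sub (Dvd.intro _ rfl) ?_
    rw [mul_assoc]
    exact (pow_dvd_pow _ hs).mul_right _
  · exact (pow_dvd_pow _ hs).mul_left _
  · exact dvd_zero _

theorem phi_fpol_not_dvd (r s : ℕ) (hs : s ≤ r) (g q : K[X]) (qi : PowerSeries K)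
    (hq0 : q.eval 0 ≠ 0) (hq : (q : PowerSeries K) * qi = 1)
    (hg : (PowerSeries.X : PowerSeries K) ^ r ∣ (qi + PowerSeries.X ^ s) - (g : PowerSeries K)) :
    ¬ (C X : K[X][X]) ^ (s + 1) ∣ phi r g (fpol q) := by
  intro h
  rw [← C_pow, C_dvd_iff_dvd_coeff] at h
  rcases hs.lt_or_eq with hlt | heq
  · have h1 := h 0
    rw [phi_fpol_coeff, if_pos rfl, ← coe_X_pow_dvd] at h1
    obtain ⟨a, ha⟩ := hg
    have e : ((g * q - 1 : K[X]) : PowerSeries K) =
        PowerSeries.X ^ s * (q : PowerSeries K) - PowerSeries.X ^ r * a * (q : PowerSeries K) := by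
      rw [← ha, Polynomial.coe_sub, Polynomial.coe_mul, Polynomial.coe_one, ← hq]
      ring
    rw [e] at h1
    have h2 : (PowerSeries.X : PowerSeries K) ^ (s + 1) ∣
        PowerSeries.X ^ s * (q : PowerSeries K) := by
      have h3 : (PowerSeries.X : PowerSeries K) ^ (s + 1) ∣
          PowerSeries.X ^ r * a * (q : PowerSeries K) := by
        rw [mul_assoc]
        exact (pow_dvd_pow _ hlt).mul_right _
      have := dvd_add h1 h3
      rwa [sub_add_cancel] at this
    rw [pow_succ, mul_dvd_mul_iff_left (pow_ne_zero _ PowerSeries.X_ne_zero)] at h2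
    rw [PowerSeries.X_dvd_iff, Polynomial.constantCoeff_coe, coeff_zero_eq_eval_zero] at h2
    exact hq0 h2
  · subst heq
    have h1 := h 1
    rw [phi_fpol_coeff, if_neg one_ne_zero, if_pos rfl, pow_succ', mul_comm q,
      mul_comm X, mul_dvd_mul_iff_left (pow_ne_zero _ X_ne_zero), X_dvd_iff,
      coeff_zero_eq_eval_zero] at h1
    exact hq0 h1

/-- The curve `y q(x) = 1` of degree `e` against a nonzero `P` of degree `≤ d` vanishing along the
germ to weighted order `N`: after removing `α` copies of the curve the intersection number bounds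
the order. -/
theorem special_ineq (u : K) (r N d e s : ℕ) (he : 2 ≤ e) (hs : s ≤ r) (hr : 0 < r)
    (g : K[X]) (qi : PowerSeries K) (hu0 : u ≠ 0)
    (hq : ((qpol u (e - 1) : K[X]) : PowerSeries K) * qi = 1)
    (hg : (PowerSeries.X : PowerSeries K) ^ r ∣ (qi + PowerSeries.X ^ s) - (g : PowerSeries K))
    (P : MvPolynomial (Fin 2) K) (hP0 : P ≠ 0) (hP : P.totalDegree ≤ d)
    (h : (C X : K[X][X]) ^ N ∣ phi r g P) :
    ∃ (α : ℕ) (P' : MvPolynomial (Fin 2) K), P = fpol (qpol u (e - 1)) ^ α * P' ∧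
      α * e + P'.totalDegree ≤ d ∧
      Npol (qpol u (e - 1)) P'.totalDegree P' ≠ 0 ∧
      ∀ M : ℕ, (∀ j, M ≤ (N - s * α - r * j) + s * j) →
        X ^ M ∣ Npol (qpol u (e - 1)) P'.totalDegree P' := by
  classical
  set q : K[X] := qpol u (e - 1) with hqdef
  have hqdeg : q.natDegree = e - 1 := qpol_natDegree u _
  have hqmon : q.Monic := qpol_monic u _
  have hq0 : q.eval 0 ≠ 0 := qpol_eval_zero u _ hu0
  have hf0 : fpol q ≠ 0 := fpol_ne_zero q e hqdeg hqmon he
  -- maximal power of `f`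
  have hfin : ∃ n, ¬ fpol q ^ (n + 1) ∣ P := by
    by_contra hcon
    push Not at hcon
    obtain ⟨G, hG⟩ := hcon (P.totalDegree)
    have hG0 : G ≠ 0 := by rintro rfl; exact hP0 (by rw [hG, mul_zero])
    have h1 := totalDegree_factor q e hqdeg hqmon he (P.totalDegree + 1) G hG0
    rw [← hG] at h1
    nlinarith
  set α := Nat.find hfin with hα
  have hα1 : ¬ fpol q ^ (α + 1) ∣ P := Nat.find_spec hfin
  have hα2 : fpol q ^ α ∣ P := by
    rcases Nat.eq_zero_or_pos α with h0 | h0
    · rw [h0, pow_zero]; exact one_dvd _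
    · have := Nat.find_min hfin (m := α - 1) (by omega)
      push Not at this
      rwa [Nat.sub_add_cancel h0] at this
  obtain ⟨P', hP'⟩ := hα2
  have hP'0 : P' ≠ 0 := by rintro rfl; exact hP0 (by rw [hP', mul_zero])
  have hndvd : ¬ fpol q ∣ P' := by
    rintro ⟨G, hG⟩
    apply hα1
    rw [hP', hG, pow_succ, ← mul_assoc]
    exact Dvd.intro _ rfl
  have hdeg := totalDegree_factor q e hqdeg hqmon he α P' hP'0
  rw [← hP'] at hdeg
  have hN : Npol q P'.totalDegree P' ≠ 0 := fun h0 => hndvd (Npol_eq_zero q _ P' le_rfl h0)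
  refine ⟨α, P', hP', hdeg.trans hP, hN, fun M hM => ?_⟩
  have h1 : (C X : K[X][X]) ^ (N - s * α) ∣ phi r g P' := by
    rw [hP', map_mul, map_pow] at h
    exact cancel_order s N α _ _ (phi_fpol_dvd r s hs g q qi hq hg)
      (phi_fpol_not_dvd r s hs g q qi hq0 hq hg) h
  have hsg : (PowerSeries.X : PowerSeries K) ^ s ∣ qi - (g : PowerSeries K) := by
    obtain ⟨a, ha⟩ := hg
    have e1 : qi - (g : PowerSeries K) = PowerSeries.X ^ r * a - PowerSeries.X ^ s := by
      rw [← ha]; ring
    rw [e1]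
    exact dvd_sub ((pow_dvd_pow _ hs).mul_right _) dvd_rfl
  have h2 := order_curve r s (N - s * α) M g qi hsg hM P' h1
  rw [← coe_X_pow_dvd, Npol_coe q qi hq _ P' le_rfl]
  exact h2.mul_left _

/-- **Vanishing on the special germ.** -/
theorem special (u : K) (r m d e s : ℕ) (he : 2 ≤ e) (hs1 : 1 ≤ s) (hs : s ≤ r)
    (hm : 1 ≤ m) (g : K[X]) (qi : PowerSeries K) (hu0 : u ≠ 0) (hu : ∀ n : ℕ, 1 ≤ n → u ^ n ≠ 1)
    (hq : ((qpol u (e - 1) : K[X]) : PowerSeries K) * qi = 1)
    (hg : (PowerSeries.X : PowerSeries K) ^ r ∣ (qi + PowerSeries.X ^ s) - (g : PowerSeries K))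
    (hcond : (3 ≤ e ∧ s ^ 2 < r * e ^ 2 ∧ e * d ≤ m * s) ∨
      (r * e ^ 2 ≤ s ^ 2 ∧ (d / e) * (s ^ 2 - r * e ^ 2) + r * (e * d) < r * (m * s)))
    (P : MvPolynomial (Fin 2) K) (hP : P.totalDegree ≤ d)
    (h : eta g P ∈ (Ideal.span {X, C (X ^ r)} : Ideal K[X][X]) ^ m) : P = 0 := by
  by_contra hP0
  have hr : 0 < r := by omega
  have h' := dvd_phi_of_mem r m g P h
  obtain ⟨α, P', hPP', hdeg, hN0, hM⟩ :=
    special_ineq u r (r * m) d e s he hs hr g qi hu0 hq hg P hP0 hP h'
  set q : K[X] := qpol u (e - 1) with hqdef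
  have hqdeg : q.natDegree = e - 1 := qpol_natDegree u _
  set N := r * m - s * α with hNdef
  set M := (s * N + r - 1) / r with hMdef
  have h1 := hM M (fun j => ceil_le r s N j hr hs)
  have h2 : M ≤ e * P'.totalDegree := by
    refine le_trans ?_ (Npol_natDegree q e P'.totalDegree hqdeg (by omega) P' le_rfl)
    obtain ⟨G, hG⟩ := h1
    have hG0 : G ≠ 0 := by rintro rfl; exact hN0 (by rw [hG, mul_zero])
    rw [hG, natDegree_mul (pow_ne_zero _ X_ne_zero) hG0, natDegree_X_pow]
    omega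
  have h3 : s * N ≤ r * (e * P'.totalDegree) :=
    (le_ceil r s N hr).trans (Nat.mul_le_mul_left _ h2)
  have h4 : (s : ℤ) * ((r : ℤ) * m - s * α) ≤ r * (e * (d - α * e)) := by
    have h5 : ((r : ℤ) * m - s * α) ≤ (N : ℤ) := by
      rw [hNdef]
      rcases le_total (s * α) (r * m) with hh | hh
      · rw [Nat.cast_sub hh]; push_cast; exact le_rfl
      · rw [Nat.sub_eq_zero_of_le hh]
        have : ((r * m : ℕ) : ℤ) ≤ ((s * α : ℕ) : ℤ) := by exact_mod_cast hh
        push_cast at this ⊢; linarith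
    have h6 : (P'.totalDegree : ℤ) ≤ d - α * e := by
      have : ((α * e + P'.totalDegree : ℕ) : ℤ) ≤ d := by exact_mod_cast hdeg
      push_cast at this; linarith
    have h7 : (s : ℤ) * N ≤ r * (e * P'.totalDegree) := by exact_mod_cast h3
    calc (s : ℤ) * ((r : ℤ) * m - s * α) ≤ s * N := by
          exact mul_le_mul_of_nonneg_left h5 (by positivity)
      _ ≤ r * (e * P'.totalDegree) := h7
      _ ≤ r * (e * (d - α * e)) := by
          exact mul_le_mul_of_nonneg_left (mul_le_mul_of_nonneg_left h6 (by positivity))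
            (by positivity)
  rcases hcond with ⟨he3, hA1, hA2⟩ | ⟨hB1, hB2⟩
  · -- case A
    have hA1' : (s : ℤ) ^ 2 < r * e ^ 2 := by exact_mod_cast hA1
    have hA2' : (e : ℤ) * d ≤ m * s := by exact_mod_cast hA2
    have hα0 : α = 0 := by
      by_contra hα
      have : (1 : ℤ) ≤ α := by exact_mod_cast Nat.one_le_iff_ne_zero.mpr hα
      nlinarith [mul_le_mul_of_nonneg_left hA2' (by positivity : (0 : ℤ) ≤ r)]
    have hNr : N = r * m := by rw [hNdef, hα0]; simp
    have h8 : s * m ≤ e * P'.totalDegree := by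
      rw [hNr] at h3
      have h9 : r * (s * m) ≤ r * (e * P'.totalDegree) := by
        calc r * (s * m) = s * (r * m) := by ring
          _ ≤ _ := h3
      exact Nat.le_of_mul_le_mul_left h9 hr
    have h9 : P'.totalDegree ≤ d := by omega
    have h10 : s * m = e * P'.totalDegree := by
      refine le_antisymm h8 ?_
      calc e * P'.totalDegree ≤ e * d := Nat.mul_le_mul_left _ h9
        _ ≤ m * s := hA2
        _ = s * m := mul_comm _ _
    have h11 : X ^ (s * m) ∣ Npol q P'.totalDegree P' := by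
      apply hM
      intro j
      rw [hNr]
      rcases le_total j m with hj | hj
      · obtain ⟨t, rfl⟩ := Nat.exists_eq_add_of_le hj
        have e1 : r * (j + t) - r * j = r * t := by rw [← Nat.mul_sub]; congr 1; omega
        rw [e1, mul_add]
        have := Nat.mul_le_mul_right t hs
        omega
      · exact le_trans (Nat.mul_le_mul_left _ hj) (Nat.le_add_left _ _)
    obtain ⟨G, hG⟩ := h11
    have hG0 : G ≠ 0 := by rintro rfl; exact hN0 (by rw [hG, mul_zero])
    have h12 : G.natDegree = 0 := by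
      have h13 := Npol_natDegree q e P'.totalDegree hqdeg (by omega) P' le_rfl
      rw [hG, natDegree_mul (pow_ne_zero _ X_ne_zero) hG0, natDegree_X_pow] at h13
      omega
    have h14 := Npol_eval q P'.totalDegree P' le_rfl (u ^ 0) (qpol_root u _ 0 (by omega))
    have h15 := Npol_eval q P'.totalDegree P' le_rfl (u ^ 1) (qpol_root u _ 1 (by omega))
    rw [← h15, hG, eq_C_of_natDegree_eq_zero h12] at h14
    simp only [eval_mul, eval_pow, eval_X, eval_C, pow_zero, one_pow, one_mul, pow_one] at h14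
    have h16 : G.coeff 0 ≠ 0 := by
      intro h0
      apply hG0
      rw [eq_C_of_natDegree_eq_zero h12, h0, C_0]
    have h17 : u ^ (s * m) = 1 := by
      have : (u ^ (s * m) - 1) * G.coeff 0 = 0 := by rw [sub_mul, ← h14]; ring
      rcases mul_eq_zero.mp this with h0 | h0
      · exact sub_eq_zero.mp h0
      · exact absurd h0 h16
    exact hu (s * m) (Nat.mul_pos hs1 hm) h17
  · -- case B
    have hαle : α ≤ d / e := by
      rw [Nat.le_div_iff_mul_le (by omega)]
      omega
    have hB2' : ((d / e : ℕ) : ℤ) * ((s : ℤ) ^ 2 - r * e ^ 2) + r * (e * d) < r * (m * s) := by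
      have : (((d / e) * (s ^ 2 - r * e ^ 2) + r * (e * d) : ℕ) : ℤ) < ((r * (m * s) : ℕ) : ℤ) := by
        exact_mod_cast hB2
      rw [Nat.cast_add, Nat.cast_mul, Nat.cast_sub hB1] at this
      push_cast at this ⊢
      exact this
    have hB1' : (0 : ℤ) ≤ (s : ℤ) ^ 2 - r * e ^ 2 := by
      have : ((r * e ^ 2 : ℕ) : ℤ) ≤ ((s ^ 2 : ℕ) : ℤ) := by exact_mod_cast hB1
      push_cast at this; linarith
    have hα' : (α : ℤ) ≤ ((d / e : ℕ) : ℤ) := by exact_mod_cast hαle
    have h8 := mul_le_mul_of_nonneg_right hα' hB1'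
    nlinarith

end

end MP_cea741_ag.Sm
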