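import Mathlib
import Pool.Agent.Lib.MP_cea741_ag.Mon

namespace MP_cea741_ag

open Polynomial

theorem semi {K : Type*} [Field K] (m : ℕ) (lam δ : K) (hl0 : lam ≠ 0)
    (hl : ∀ n : ℕ, 1 ≤ n → lam ^ n ≠ 1) (Q : K[X]) (hQ : Q.natDegree ≤ m)
    (h : ∀ j ≤ m, (Q.comp (X + C δ)).coeff j = Q.coeff j * lam ^ (m - j)) :
    ∃ β : K, Q = C β * (X - C ((-δ) / (lam - 1))) ^ m := by
  set ρ : K := (-δ) / (lam - 1) with hρ
  have hl1 : lam - 1 ≠ 0 := by
    have := hl 1 le_rfl
    rw [pow_one] at this
    exact sub_ne_zero.mpr this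
  have hfix : lam * ρ + δ = ρ := by
    rw [hρ]; field_simp; ring
  have hQ' : (Q.comp (X + C δ)).natDegree ≤ m := by
    rw [natDegree_comp]
    have : (X + C δ : K[X]).natDegree = 1 := natDegree_X_add_C δ
    rw [this, mul_one]; exact hQ
  have h1 : Q.comp (C lam * X + C δ) = C (lam ^ m) * Q := by
    have e : Q.comp (C lam * X + C δ) = (Q.comp (X + C δ)).comp (C lam * X) := by
      rw [comp_assoc]; simp
    rw [e]
    ext j
    rw [comp_C_mul_X_coeff, coeff_C_mul]
    by_cases hj : j ≤ m
    · rw [h j hj, mul_assoc, ← pow_add, Nat.sub_add_cancel hj, mul_comm]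
    · rw [coeff_eq_zero_of_natDegree_lt (by omega : (Q.comp (X + C δ)).natDegree < j),
        coeff_eq_zero_of_natDegree_lt (by omega : Q.natDegree < j)]
      simp
  set R : K[X] := Q.comp (X + C ρ) with hR
  have h2 : R.comp (C lam * X) = C (lam ^ m) * R := by
    have e1 : R.comp (C lam * X) = (Q.comp (C lam * X + C δ)).comp (X + C ρ) := by
      rw [hR, comp_assoc, comp_assoc]
      congr 1
      simp only [add_comp, mul_comp, C_comp, X_comp]
      rw [mul_add, add_assoc, ← C_mul, ← C_add, hfix]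
    rw [e1, h1, mul_comp, C_comp]
  have h3 : ∀ j, j ≠ m → R.coeff j = 0 := by
    intro j hj
    have h4 := congrArg (fun p => coeff p j) h2
    simp only [comp_C_mul_X_coeff, coeff_C_mul] at h4
    by_contra h0
    have h5 : lam ^ j = lam ^ m := by
      rw [mul_comm] at h4
      exact mul_right_cancel₀ h0 h4
    rcases lt_or_gt_of_ne hj with h6 | h6
    · apply hl (m - j) (by omega)
      have : lam ^ m = lam ^ (m - j) * lam ^ j := by rw [← pow_add, Nat.sub_add_cancel h6.le]
      rw [this] at h5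
      have h7 : lam ^ j ≠ 0 := pow_ne_zero _ hl0
      exact mul_right_cancel₀ h7 (by rw [← h5, one_mul])
    · apply hl (j - m) (by omega)
      have : lam ^ j = lam ^ (j - m) * lam ^ m := by rw [← pow_add, Nat.sub_add_cancel h6.le]
      rw [this] at h5
      have h7 : lam ^ m ≠ 0 := pow_ne_zero _ hl0
      exact mul_right_cancel₀ h7 (by rw [h5, one_mul])
  refine ⟨R.coeff m, ?_⟩
  have h8 : R = C (R.coeff m) * X ^ m := by
    ext j
    rw [coeff_C_mul_X_pow]
    split_ifs with hj
    · rw [hj]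
    · exact h3 j hj
  have h9 : Q = R.comp (X - C ρ) := by
    rw [hR, comp_assoc]; simp
  rw [h9, h8]
  simp

/-- The endgame: see the paper proof. -/
theorem endgame {K : Type*} [Field K] (u : K) (hu0 : u ≠ 0)
    (hu : ∀ n : ℕ, 1 ≤ n → u ^ n ≠ 1) (s r m : ℕ) (hs : 3 ≤ s) (hr : s ^ 2 ≤ r) (h9 : 9 < r)
    (hm : 1 ≤ m) (n : ℕ → K[X]) (hdeg : ∀ i ≤ m, (n i).natDegree ≤ s ^ 2 * (m - i))
    (hroot : ∀ i ≤ m, ∀ j ≤ s - 2, (n i).eval (u ^ j) = (n i).eval 1)
    (hmem : ∑ i ∈ Finset.range (m + 1), C ((n i : K[X]) : PowerSeries K) * X ^ i ∈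
      (Ideal.span {X - C (PowerSeries.X : PowerSeries K), C (PowerSeries.X ^ r)} :
        Ideal (PowerSeries K)[X]) ^ m) : ∀ i ≤ m, n i = 0 := by
  set P0 : K[X][X] := ∑ i ∈ Finset.range (m + 1), C (n i) * X ^ i with hP0
  have hP0c : ∀ i, P0.coeff i = if i ≤ m then n i else 0 := by
    intro i
    rw [hP0]
    simp only [finsetSum_coeff, coeff_C_mul, coeff_X_pow, mul_ite, mul_one, mul_zero]
    rw [Finset.sum_ite_eq]
    simp [Finset.mem_range]
  set P1 : K[X][X] := P0.comp (X + C X) with hP1
  -- coefficients of P1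
  have hP1c : ∀ j, P1.coeff j = ∑ i ∈ Finset.range (m + 1), n i * (X ^ (i - j) * (i.choose j : K[X])) := by
    intro j
    rw [hP1, hP0, Polynomial.sum_comp, finsetSum_coeff]
    refine Finset.sum_congr rfl fun i _ => ?_
    rw [mul_comp, C_comp, pow_comp, X_comp, coeff_C_mul, coeff_X_add_C_pow]
  have hP1deg : ∀ j ≤ m, (P1.coeff j).natDegree ≤ s ^ 2 * (m - j) := by
    intro j hj
    rw [hP1c]
    refine natDegree_sum_le_of_forall_le _ _ ?_
    intro i hi
    rw [Finset.mem_range, Nat.lt_succ_iff] at hi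
    by_cases hij : j ≤ i
    · refine natDegree_mul_le.trans ?_
      have h1 := hdeg i hi
      have h2 : (X ^ (i - j) * (i.choose j : K[X])).natDegree ≤ i - j := by
        refine natDegree_mul_le.trans ?_
        rw [natDegree_natCast, add_zero]
        exact natDegree_X_pow_le _
      have h3 : s ^ 2 * (m - i) + (i - j) ≤ s ^ 2 * (m - j) := by
        have h4 : m - j = (m - i) + (i - j) := by omega
        rw [h4, mul_add]
        have h5 : 1 ≤ s ^ 2 := Nat.one_le_pow _ _ (by omega)
        nlinarith [Nat.mul_le_mul h5 (le_refl (i - j))]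
      omega
    · rw [Nat.choose_eq_zero_of_lt (by omega)]
      simp
  have hP1gt : ∀ j, m < j → P1.coeff j = 0 := by
    intro j hj
    rw [hP1c]
    refine Finset.sum_eq_zero fun i hi => ?_
    rw [Finset.mem_range, Nat.lt_succ_iff] at hi
    rw [Nat.choose_eq_zero_of_lt (by omega)]
    simp
  -- divisibility of the coefficients of P1
  have hmap : P1.map (Polynomial.coeToPowerSeries.ringHom (R := K)) ∈
      (Ideal.span {X, C (PowerSeries.X ^ r)} : Ideal (PowerSeries K)[X]) ^ m := by
    have h1 : P0.map (Polynomial.coeToPowerSeries.ringHom (R := K)) =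
        ∑ i ∈ Finset.range (m + 1), C ((n i : K[X]) : PowerSeries K) * X ^ i := by
      rw [hP0, Polynomial.map_sum]
      refine Finset.sum_congr rfl fun i _ => ?_
      rw [Polynomial.map_mul, Polynomial.map_pow, map_C, map_X]
      rfl
    rw [← h1] at hmem
    have h2 := Ideal.mem_map_of_mem
      (Polynomial.compRingHom (X + C (PowerSeries.X : PowerSeries K))) hmem
    rw [Ideal.map_pow, Ideal.map_span] at h2
    have h3 : (Polynomial.compRingHom (X + C (PowerSeries.X : PowerSeries K))) ''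
        {X - C (PowerSeries.X : PowerSeries K), C (PowerSeries.X ^ r)} =
        {X, C (PowerSeries.X ^ r)} := by
      rw [Set.image_pair]
      simp
    rw [h3] at h2
    have h4 : P1.map (Polynomial.coeToPowerSeries.ringHom (R := K)) =
        (Polynomial.compRingHom (X + C (PowerSeries.X : PowerSeries K)))
          (P0.map (Polynomial.coeToPowerSeries.ringHom (R := K))) := by
      rw [hP1, Polynomial.map_comp]
      simp
    rw [h4]
    exact h2
  have hcoef : ∀ j, ∀ i, i < r * (m - j) → (P1.coeff j).coeff i = 0 := by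
    intro j i hi
    have h1 := mon_coeff _ m _ hmap j
    rw [← pow_mul, PowerSeries.X_pow_dvd_iff] at h1
    have h2 := h1 i hi
    rw [coeff_map] at h2
    simpa using h2
  -- the coefficients β
  set β : ℕ → K := fun j => (P1.coeff j).coeff (s ^ 2 * (m - j)) with hβ
  have hP1β : ∀ j ≤ m, P1.coeff j = C (β j) * X ^ (s ^ 2 * (m - j)) := by
    intro j hj
    ext i
    rw [coeff_C_mul_X_pow]
    split_ifs with hi
    · rw [hi]
    · rcases lt_or_gt_of_ne hi with h1 | h1
      · exact hcoef j i (lt_of_lt_of_le h1 (Nat.mul_le_mul_right _ hr))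
      · exact coeff_eq_zero_of_natDegree_lt (lt_of_le_of_lt (hP1deg j hj) h1)
  -- evaluation
  set c : K[X] := P0.map (evalRingHom 1) with hc
  have hceq : ∀ j ≤ s - 2, P0.map (evalRingHom (u ^ j)) = c := by
    intro j hj
    ext i
    rw [hc, coeff_map, coeff_map, hP0c]
    simp only [coe_evalRingHom]
    split_ifs with hi
    · exact hroot i hi j hj
    · simp
  set Q : K[X] := c.comp (X + C 1) with hQ
  have hcomp : ∀ α : K, (P1.map (evalRingHom α)) = (P0.map (evalRingHom α)).comp (X + C α) := by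
    intro α
    rw [hP1, Polynomial.map_comp]
    simp
  have hQc : ∀ j ≤ m, Q.coeff j = β j := by
    intro j hj
    have h1 := hcomp 1
    rw [← hc, ← hQ] at h1
    rw [← h1, coeff_map, hP1β j hj]
    simp
  have hQdeg : Q.natDegree ≤ m := by
    rw [natDegree_le_iff_coeff_eq_zero]
    intro j hj
    have h1 := hcomp 1
    rw [← hc, ← hQ] at h1
    rw [← h1, coeff_map, hP1gt j hj]
    simp
  have hsemi : ∀ l ≤ s - 2, ∀ j ≤ m, (Q.comp (X + C (u ^ l - 1))).coeff j
      = Q.coeff j * ((u ^ l) ^ s ^ 2) ^ (m - j) := by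
    intro l hl j hj
    have h1 : Q.comp (X + C (u ^ l - 1)) = c.comp (X + C (u ^ l)) := by
      rw [hQ, comp_assoc]
      congr 1
      simp only [add_comp, X_comp, C_comp]
      rw [C_sub, C_1]
      ring
    rw [h1, ← hceq l hl, ← hcomp, coeff_map, hP1β j hj, hQc j hj]
    simp only [coe_evalRingHom, eval_mul, eval_C, eval_pow, eval_X]
    rw [← pow_mul (u ^ l)]
  -- conclusion: Q = 0
  have hu1 : u - 1 ≠ 0 := by
    have := hu 1 le_rfl
    rw [pow_one] at this
    exact sub_ne_zero.mpr this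
  have hQ0 : Q = 0 := by
    rcases hr.lt_or_eq with hlt | heq
    · -- r > s^2
      have hβ0 : ∀ j < m, β j = 0 := by
        intro j hj
        rw [hβ]
        exact hcoef j _ ((Nat.mul_lt_mul_right (by omega)).mpr hlt)
      have hQm : Q = C (β m) * X ^ m := by
        ext j
        rw [coeff_C_mul_X_pow]
        split_ifs with hj
        · rw [hj]; exact hQc m le_rfl
        · rcases lt_or_gt_of_ne hj with h1 | h1
          · rw [hQc j h1.le, hβ0 j h1]
          · exact coeff_eq_zero_of_natDegree_lt (lt_of_le_of_lt hQdeg h1)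
      have h1 := hsemi 1 (by omega) 0 (by omega)
      rw [hQm] at h1
      rw [coeff_zero_eq_eval_zero] at h1
      simp only [pow_one, mul_comp, C_comp, pow_comp, X_comp, eval_mul, eval_C, eval_pow,
        eval_add, eval_X, zero_add, coeff_C_mul_X_pow] at h1
      rw [if_neg (by omega)] at h1
      rw [zero_mul] at h1
      have h2 : β m = 0 := by
        rcases mul_eq_zero.mp h1 with h3 | h3
        · exact h3
        · exact absurd h3 (pow_ne_zero _ hu1)
      rw [hQm, h2]; simp
    · -- r = s^2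
      have hs4 : 4 ≤ s := by
        by_contra hcon
        have : s = 3 := by omega
        subst this
        omega
      have hlam : ∀ l : ℕ, 1 ≤ l → (u ^ l) ^ s ^ 2 ≠ 0 ∧
          ∀ n : ℕ, 1 ≤ n → ((u ^ l) ^ s ^ 2) ^ n ≠ 1 := by
        intro l hl
        refine ⟨pow_ne_zero _ (pow_ne_zero _ hu0), fun n hn => ?_⟩
        rw [← pow_mul, ← pow_mul]
        apply hu
        have : 1 ≤ s ^ 2 := Nat.one_le_pow _ _ (by omega)
        exact Nat.mul_pos hl (Nat.mul_pos this hn)
      obtain ⟨β1, hβ1⟩ := semi m _ _ (hlam 1 le_rfl).1 (hlam 1 le_rfl).2 Q hQdeg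
        (hsemi 1 (by omega))
      obtain ⟨β2, hβ2⟩ := semi m _ _ (hlam 2 (by omega)).1 (hlam 2 (by omega)).2 Q hQdeg
        (hsemi 2 (by omega))
      set ρ1 := (-(u ^ 1 - 1)) / ((u ^ 1) ^ s ^ 2 - 1) with hρ1
      set ρ2 := (-(u ^ 2 - 1)) / ((u ^ 2) ^ s ^ 2 - 1) with hρ2
      have hne : ρ1 - ρ2 ≠ 0 := by
        intro h0
        have h1 : ρ1 = ρ2 := sub_eq_zero.mp h0
        rw [hρ1, hρ2] at h1
        have d1 : (u ^ 1) ^ s ^ 2 - 1 ≠ 0 := by
          have := (hlam 1 le_rfl).2 1 le_rfl
          rw [pow_one] at this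
          exact sub_ne_zero.mpr this
        have d2 : (u ^ 2) ^ s ^ 2 - 1 ≠ 0 := by
          have := (hlam 2 (by omega)).2 1 le_rfl
          rw [pow_one] at this
          exact sub_ne_zero.mpr this
        rw [div_eq_div_iff d1 d2] at h1
        rw [pow_one] at h1 d1
        have e2 : (u ^ 2) ^ s ^ 2 - 1 = (u ^ s ^ 2 - 1) * (u ^ s ^ 2 + 1) := by
          rw [← pow_mul, mul_comm 2, pow_mul]; ring
        rw [e2] at h1
        have h2 : (u - 1) * (u ^ s ^ 2 - 1) * (u ^ s ^ 2 - u) = 0 := by
          linear_combination (-1 : K) * h1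
        rcases mul_eq_zero.mp h2 with h3 | h3
        · rcases mul_eq_zero.mp h3 with h4 | h4
          · exact hu1 h4
          · exact d1 h4
        · have h5 : u ^ (s ^ 2 - 1) = 1 := by
            have h6 : u ^ s ^ 2 = u ^ (s ^ 2 - 1) * u := by
              rw [← pow_succ, Nat.sub_add_cancel (Nat.one_le_pow _ _ (by omega))]
            rw [h6] at h3
            have h7 : (u ^ (s ^ 2 - 1) - 1) * u = 0 := by linear_combination h3
            rcases mul_eq_zero.mp h7 with h8 | h8
            · exact sub_eq_zero.mp h8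
            · exact absurd h8 hu0
          refine hu (s ^ 2 - 1) ?_ h5
          have : 4 ^ 2 ≤ s ^ 2 := Nat.pow_le_pow_left hs4 2
          omega
      have h1 : Q.eval ρ1 = 0 := by
        rw [hβ1]
        simp only [eval_mul, eval_C, eval_pow, eval_sub, eval_X, sub_self]
        rw [zero_pow (by omega), mul_zero]
      rw [hβ2] at h1
      simp only [eval_mul, eval_C, eval_pow, eval_sub, eval_X] at h1
      rcases mul_eq_zero.mp h1 with h2 | h2
      · rw [hβ2, h2]; simp
      · exact absurd h2 (pow_ne_zero _ hne)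
  -- deduce P1 = 0 and P0 = 0
  have hP10 : P1 = 0 := by
    ext1 j
    by_cases hj : j ≤ m
    · rw [hP1β j hj, ← hQc j hj, hQ0]; simp
    · rw [hP1gt j (by omega)]; simp
  have hP00 : P0 = 0 := by
    have : P0 = P1.comp (X - C X) := by
      rw [hP1, comp_assoc]; simp
    rw [this, hP10, zero_comp]
  intro i hi
  have := hP0c i
  rw [if_pos hi, hP00] at this
  simpa using this.symm

end MP_cea741_ag
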