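import Mathlib
import Pool.Agent.Lib.MP_cea741_ag.Setup

namespace MP_cea741_ag

open Polynomial

noncomputable section

variable {K : Type*} [Field K] {B : Type*} [CommRing B] [Algebra K B]

/-- `y = 1/q + t ψ / q^(s+1)` in `B[ψ][t]` -/
def yh (qi : B) (s : ℕ) : B[X][X] := C (C qi) + X * C (C (qi ^ (s + 1)) * X)

/-- the map `K[t] → B[ψ][t]` -/
def zt (K B : Type*) [Field K] [CommRing B] [Algebra K B] : K[X] →+* B[X][X] :=
  mapRingHom ((C : B →+* B[X]).comp (algebraMap K B))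

/-- the map `K[t][x][z] → B[ψ][t]` -/
def eta (x qi : B) (s : ℕ) (g : K[X][X]) : K[X][X][X] →+* B[X][X] :=
  eval₂RingHom (eval₂RingHom (zt K B) (C (C x))) (yh qi s - eval₂ (zt K B) (C (C x)) g)

theorem eta_C (x qi : B) (s : ℕ) (g : K[X][X]) (p : K[X][X]) :
    eta x qi s g (C p) = eval₂ (zt K B) (C (C x)) p := by
  simp [eta]

theorem eta_X (x qi : B) (s : ℕ) (g : K[X][X]) :
    eta x qi s g X = yh qi s - eval₂ (zt K B) (C (C x)) g := by
  simp [eta]

theorem eta_Wpol (x qi : B) (s : ℕ) (g : K[X][X]) {D : ℕ} (v : Idx D → K[X]) :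
    eta x qi s g (Wpol g v) =
      ∑ p, zt K B (v p) * (C (C x) ^ (p.1.1 : ℕ) * yh qi s ^ (p.1.2 : ℕ)) := by
  rw [Wpol, map_sum]
  refine Finset.sum_congr rfl fun p _ => ?_
  rw [Upol, map_mul, map_mul, map_pow, map_pow, map_add, eta_C, eta_C, eta_C, eta_X, eval₂_C,
    eval₂_X, sub_add_cancel]

/-- The ideal `(ψ - x, x^r)` of `B[ψ]`. -/
def J0 (x : B) (r : ℕ) : Ideal B[X] := Ideal.span {X - C x, C (x ^ r)}

theorem eta_X_mem (x qi : B) (s r : ℕ) (c : Fin r → K[X]) (a b : Fin r → K)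
    (hc : ∀ l, c l = C (a l) + X * C (b l))
    (h1 : x ^ r ∣ qi - ∑ l : Fin r, algebraMap K B (a l) * x ^ (l : ℕ))
    (h2 : x ^ r ∣ x * qi ^ (s + 1) - ∑ l : Fin r, algebraMap K B (b l) * x ^ (l : ℕ)) :
    eta x qi s (gpol r c) X ∈ (J0 x r).map (C : B[X] →+* B[X][X]) := by
  rw [eta_X]
  have h1' : eval₂ (zt K B) (C (C x)) (gpol r c) =
      C (C (∑ l : Fin r, algebraMap K B (a l) * x ^ (l : ℕ))) +
      X * C (C (∑ l : Fin r, algebraMap K B (b l) * x ^ (l : ℕ))) := by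
    rw [gpol, eval₂_finsetSum, map_sum, map_sum, map_sum, map_sum, Finset.mul_sum,
      ← Finset.sum_add_distrib]
    refine Finset.sum_congr rfl fun l _ => ?_
    rw [eval₂_mul, eval₂_C, eval₂_pow, eval₂_X, hc, map_add, map_mul]
    simp only [zt, coe_mapRingHom, map_C, map_X, RingHom.comp_apply, map_mul, map_pow]
    ring
  rw [h1', yh]
  set S1 := ∑ l : Fin r, algebraMap K B (a l) * x ^ (l : ℕ) with hS1
  set S2 := ∑ l : Fin r, algebraMap K B (b l) * x ^ (l : ℕ) with hS2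
  obtain ⟨d1, hd1⟩ := h1
  obtain ⟨d2, hd2⟩ := h2
  have e : C (C qi) + X * C (C (qi ^ (s + 1)) * X) - (C (C S1) + X * C (C S2))
      = C (C d1) * C (C (x ^ r)) + X * C (C d2) * C (C (x ^ r))
        + X * C (C (qi ^ (s + 1))) * C (X - C x) := by
    have e1 : (C (C qi) : B[X][X]) = C (C S1) + C (C (x ^ r)) * C (C d1) := by
      rw [← C_mul, ← C_mul, ← C_add, ← C_add, ← hd1]
      congr 2; ring
    have e2 : (C (C x) * C (C (qi ^ (s + 1))) : B[X][X])
        = C (C S2) + C (C (x ^ r)) * C (C d2) := by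
      rw [← C_mul, ← C_mul, ← C_mul, ← C_mul, ← C_add, ← C_add, ← hd2]
      congr 2; ring
    rw [C_sub, C_mul]
    linear_combination e1 + X * e2
  rw [e]
  have m1 : (C (C (x ^ r)) : B[X][X]) ∈ (J0 x r).map (C : B[X] →+* B[X][X]) :=
    Ideal.mem_map_of_mem _ (Ideal.subset_span (by simp))
  have m2 : (C (X - C x) : B[X][X]) ∈ (J0 x r).map (C : B[X] →+* B[X][X]) :=
    Ideal.mem_map_of_mem _ (Ideal.subset_span (by simp))
  exact Ideal.add_mem _ (Ideal.add_mem _ (Ideal.mul_mem_left _ _ m1) (Ideal.mul_mem_left _ _ m1))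
    (Ideal.mul_mem_left _ _ m2)

theorem V_coeff_mem (x qi : B) (s r m : ℕ) (c : Fin r → K[X]) (a b : Fin r → K)
    (hc : ∀ l, c l = C (a l) + X * C (b l))
    (h1 : x ^ r ∣ qi - ∑ l : Fin r, algebraMap K B (a l) * x ^ (l : ℕ))
    (h2 : x ^ r ∣ x * qi ^ (s + 1) - ∑ l : Fin r, algebraMap K B (b l) * x ^ (l : ℕ))
    {D : ℕ} (v : Idx D → K[X])
    (hv : Wpol (gpol r c) v ∈ (Ideal.span {X, C (X ^ r)} : Ideal K[X][X][X]) ^ m) (e : ℕ) :
    (∑ p, zt K B (v p) * (C (C x) ^ (p.1.1 : ℕ) * yh qi s ^ (p.1.2 : ℕ))).coeff e ∈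
      (J0 x r) ^ m := by
  rw [← eta_Wpol x qi s (gpol r c) v]
  have h1' := Ideal.mem_map_of_mem (eta x qi s (gpol r c)) hv
  have h0' := Ideal.map_pow (eta x qi s (gpol r c)) (Ideal.span {X, C (X ^ r)} : Ideal K[X][X][X]) m
  replace h1' := h0'.le h1'
  have h2' : Ideal.map (eta x qi s (gpol r c)) (Ideal.span {X, C (X ^ r)}) ≤
      (J0 x r).map (C : B[X] →+* B[X][X]) := by
    rw [Ideal.map_span, Ideal.span_le, Set.image_pair]
    intro w hw
    rcases hw with rfl | rfl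
    · exact eta_X_mem x qi s r c a b hc h1 h2
    · rw [eta_C, eval₂_pow, eval₂_X]
      have : (C (C x) : B[X][X]) ^ r = C (C (x ^ r)) := by simp
      rw [this]
      exact Ideal.mem_map_of_mem _ (Ideal.subset_span (by simp))
  have h3 := Ideal.pow_right_mono h2' m h1'
  rw [← Ideal.map_pow, Ideal.mem_map_C_iff] at h3
  exact h3 e

/-- the substitution homomorphism `K[x,y] → B[ψ][t]`. -/
def theta (K : Type*) [Field K] {B : Type*} [CommRing B] [Algebra K B] (x qi : B) (s : ℕ) :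
    MvPolynomial (Fin 2) K →ₐ[K] B[X][X] :=
  MvPolynomial.aeval ![C (C x), yh qi s]

theorem algebraMap_BXX (a : K) : (algebraMap K B[X][X]) a = C (C (algebraMap K B a)) := rfl

theorem theta_polyOf_coeff (x qi : B) (s : ℕ) {D : ℕ} (v : Idx D → K) (l' : ℕ) :
    (theta K x qi s (polyOf v)).coeff l' =
      ∑ p, C (algebraMap K B (v p)) *
        ((C (C x) : B[X][X]) ^ (p.1.1 : ℕ) * yh qi s ^ (p.1.2 : ℕ)).coeff l' := by
  rw [theta, aeval_polyOf, finsetSum_coeff]
  refine Finset.sum_congr rfl fun p _ => ?_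
  rw [algebraMap_BXX, coeff_C_mul]
  simp

theorem V_coeff (x qi : B) (s : ℕ) {D : ℕ} (v : Idx D → K[X]) (e : ℕ) :
    (∑ p, zt K B (v p) * (C (C x) ^ (p.1.1 : ℕ) * yh qi s ^ (p.1.2 : ℕ))).coeff e =
      ∑ l ∈ Finset.HasAntidiagonal.antidiagonal e,
        (theta K x qi s (polyOf (fun p => (v p).coeff l.1))).coeff l.2 := by
  simp only [theta_polyOf_coeff]
  rw [finsetSum_coeff, Finset.sum_comm]
  refine Finset.sum_congr rfl fun p _ => ?_
  rw [coeff_mul]
  refine Finset.sum_congr rfl fun l _ => ?_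
  rw [zt, coe_mapRingHom, coeff_map]
  rfl

theorem aeval_CC (x : B) (q : K[X]) : aeval (C (C x) : B[X][X]) q = C (C (aeval x q)) := by
  have h := Polynomial.aeval_algHom_apply (((CAlgHom : B[X] →ₐ[B] B[X][X]).restrictScalars K).comp
    ((CAlgHom : B →ₐ[B] B[X]).restrictScalars K)) x q
  simpa using h

theorem theta_f (x qi : B) (s : ℕ) (q : K[X]) (hq : aeval x q * qi = 1) :
    theta K x qi s (fpol q) = X * C (C (qi ^ s) * X) := by
  rw [fpol, map_sub, map_mul, map_one, ← Polynomial.aeval_algHom_apply]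
  have h0 : theta K x qi s (MvPolynomial.X 0) = C (C x) := by simp [theta]
  have h1 : theta K x qi s (MvPolynomial.X 1) = yh qi s := by simp [theta]
  rw [h0, h1, aeval_CC, yh]
  have e1 : (C (C qi) * C (C (aeval x q)) : B[X][X]) = 1 := by
    rw [← C_mul, ← C_mul, mul_comm, hq]; simp
  have e2 : (C (C (qi ^ (s + 1)) * X) : B[X][X]) = C (C qi) * C (C (qi ^ s) * X) := by
    rw [← C_mul]
    congr 1
    rw [pow_succ, C_mul]
    ring
  rw [e2]
  linear_combination (1 + X * C (C (qi ^ s) * X)) * e1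

theorem theta_coeff_zero (x qi : B) (s : ℕ) (G : MvPolynomial (Fin 2) K) :
    (theta K x qi s G).coeff 0 = C (MvPolynomial.aeval ![x, qi] G) := by
  have h : (Polynomial.constantCoeff : B[X][X] →+* B[X]).comp
      (theta K x qi s).toRingHom = (C : B →+* B[X]).comp
      (MvPolynomial.aeval (R := K) ![x, qi]).toRingHom := by
    apply MvPolynomial.ringHom_ext
    · intro a
      simp only [RingHom.comp_apply]
      have e1 : (theta K x qi s).toRingHom (MvPolynomial.C a) = C (C (algebraMap K B a)) := by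
        exact (theta K x qi s).commutes a
      have e2 : (MvPolynomial.aeval (R := K) ![x, qi]).toRingHom
          (MvPolynomial.C a) = algebraMap K B a :=
        (MvPolynomial.aeval (R := K) ![x, qi]).commutes a
      rw [e1, e2]
      simp
    · intro i
      fin_cases i
      · simp [theta]
      · simp [theta, yh]
  exact congrArg (fun φ => φ G) (congrArg DFunLike.coe h)

theorem coeff_shift (κ : B[X]) (P : B[X][X]) (n : ℕ) :
    ((X * C κ) ^ n * P).coeff n = κ ^ n * P.coeff 0 := by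
  have e1 : (X * C κ) ^ n * P = X ^ n * (C (κ ^ n) * P) := by
    rw [C_pow]; ring
  have e2 := coeff_X_pow_mul (C (κ ^ n) * P) n 0
  rw [zero_add] at e2
  rw [e1, e2, coeff_C_mul]

/-- truncation: `φ - ∑_{l<r} φ_l x^l` is divisible by `x^r`. -/
theorem trunc_dvd (φ : PowerSeries K) (r : ℕ) :
    PowerSeries.X ^ r ∣ φ - ∑ l : Fin r,
      algebraMap K (PowerSeries K) (PowerSeries.coeff (l : ℕ) φ) * PowerSeries.X ^ (l : ℕ) := by
  rw [PowerSeries.X_pow_dvd_iff]
  intro i hi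
  rw [map_sub, map_sum, Finset.sum_eq_single (⟨i, hi⟩ : Fin r)]
  · rw [← PowerSeries.C_eq_algebraMap, PowerSeries.coeff_C_mul, PowerSeries.coeff_X_pow]
    simp
  · intro b _ hb
    rw [← PowerSeries.C_eq_algebraMap, PowerSeries.coeff_C_mul, PowerSeries.coeff_X_pow, if_neg,
      mul_zero]
    intro h
    exact hb (Fin.ext h.symm)
  · simp

end

end MP_cea741_ag
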