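import Mathlib
import Pool.Agent.Lib.MP_cea741_ag.Family
import Pool.Agent.Lib.MP_cea741_ag.Endgame

namespace MP_cea741_ag

open Polynomial

noncomputable section

variable {K : Type*} [Field K]

/-- the inverse power series `1/q`. -/
def qinv (u : K) (s : ℕ) : PowerSeries K := ((qpol u (s - 1) : K[X]) : PowerSeries K)⁻¹

theorem q_mul_qinv (u : K) (hu : u ≠ 0) (s : ℕ) :
    ((qpol u (s - 1) : K[X]) : PowerSeries K) * qinv u s = 1 := by
  apply PowerSeries.mul_inv_cancel
  rw [Polynomial.constantCoeff_coe]
  rw [coeff_zero_eq_eval_zero]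
  exact qpol_eval_zero u _ hu

theorem aeval_psX (q : K[X]) : aeval (PowerSeries.X : PowerSeries K) q = (q : PowerSeries K) := by
  induction q using Polynomial.induction_on' with
  | add p q hp hq => rw [map_add, hp, hq]; simp
  | monomial n a =>
    rw [aeval_monomial, Polynomial.coe_monomial, PowerSeries.monomial_eq_mk, ← PowerSeries.C_eq_algebraMap]
    ext i
    rw [PowerSeries.coeff_C_mul, PowerSeries.coeff_X_pow, PowerSeries.coeff_mk]
    split_ifs <;> simp

/-- the coefficients of the arc `y = 1/q + t x / q^(s+1)`. -/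
def cfam (u : K) (s r : ℕ) (l : Fin r) : K[X] :=
  C (PowerSeries.coeff (l : ℕ) (qinv u s)) +
    X * C (PowerSeries.coeff (l : ℕ) (PowerSeries.X * qinv u s ^ (s + 1)))

theorem family_injective (u : K) (hu0 : u ≠ 0) (hu : ∀ n : ℕ, 1 ≤ n → u ^ n ≠ 1) (s r m : ℕ)
    (hs : 3 ≤ s) (hr : s ^ 2 ≤ r) (h9 : 9 < r) (hm : 1 ≤ m)
    (v : Idx (m * s) → K[X])
    (hv : Wpol (gpol r (cfam u s r)) v ∈ (Ideal.span {X, C (X ^ r)} : Ideal K[X][X][X]) ^ m) :
    v = 0 := by
  classical
  by_contra hv0
  set q : K[X] := qpol u (s - 1) with hqdef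
  have hqdeg : q.natDegree = s - 1 := qpol_natDegree u _
  have hqmon : q.Monic := qpol_monic u _
  set f := fpol q with hf
  have hf0 : f ≠ 0 := fpol_ne_zero q s hqdeg hqmon (by omega)
  set x : PowerSeries K := PowerSeries.X with hx
  set qi : PowerSeries K := qinv u s with hqi
  have hqq : (q : PowerSeries K) * qi = 1 := q_mul_qinv u hu0 s
  have hqa : aeval x q * qi = 1 := by rw [hx, aeval_psX]; exact hqq
  set F : ℕ → MvPolynomial (Fin 2) K := fun l => polyOf (fun p => (v p).coeff l) with hF
  have hFdeg : ∀ l, (F l).totalDegree ≤ m * s := fun l => polyOf_totalDegree _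
  obtain ⟨n0, hn0⟩ : ∃ n0, F n0 ≠ 0 := by
    by_contra hcon
    push Not at hcon
    apply hv0
    funext p
    ext l
    have h1 := congrArg (fun G => G.coeff (ex p)) (hcon l)
    simp only [hF] at h1
    rw [coeff_polyOf] at h1
    simpa using h1
  set E : ℕ → Prop := fun e => ∀ l ≤ e, f ^ (e - l) ∣ F l with hE
  have hdeg : ∀ (n l : ℕ) (G : MvPolynomial (Fin 2) K), F l = f ^ n * G → F l ≠ 0 →
      n * s + G.totalDegree ≤ m * s := by
    intro n l G h h0
    have hG : G ≠ 0 := by
      rintro rfl
      rw [mul_zero] at h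
      exact h0 h
    refine (totalDegree_factor q s hqdeg hqmon (by omega) n G hG).trans ?_
    rw [← hf, ← h]
    exact hFdeg l
  obtain ⟨e, he, he'⟩ : ∃ e, E e ∧ ¬ E (e + 1) := by
    by_contra hcon
    push Not at hcon
    have hall : ∀ e, E e := by
      intro e
      induction e with
      | zero =>
        intro l hl
        have : l = 0 := by omega
        subst this
        simp
      | succ e ih => exact hcon e ih
    obtain ⟨G, hG⟩ := hall (n0 + m + 1) n0 (by omega)
    have h1 := hdeg _ n0 G hG hn0
    have h2 : n0 + m + 1 - n0 = m + 1 := by omega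
    rw [h2] at h1
    have h3 : (m + 1) * s = m * s + s := by ring
    omega
  have hex : ∀ l, ∃ g, l ≤ e → F l = f ^ (e - l) * g := by
    intro l
    by_cases hl : l ≤ e
    · obtain ⟨g, hg⟩ := he l hl
      exact ⟨g, fun _ => hg⟩
    · exact ⟨0, fun h => absurd h hl⟩
  choose G hG using hex
  have hGdeg : ∀ l ≤ e, (G l).totalDegree ≤ (m - (e - l)) * s := by
    intro l hl
    by_cases h0 : F l = 0
    · have h1 := hG l hl
      rw [h0] at h1
      have h2 : G l = 0 := by
        rcases mul_eq_zero.mp h1.symm with h3 | h3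
        · exact absurd h3 (pow_ne_zero _ hf0)
        · exact h3
      rw [h2, MvPolynomial.totalDegree_zero]
      exact Nat.zero_le _
    · have h1 := hdeg _ l _ (hG l hl) h0
      rw [Nat.sub_mul]
      omega
  have hG0 : ∀ l ≤ e, m < e - l → G l = 0 := by
    intro l hl hlt
    have h0 : F l = 0 := by
      by_contra h0
      have h1 := hdeg _ l _ (hG l hl) h0
      have h2 : (m + 1) * s ≤ (e - l) * s := Nat.mul_le_mul_right _ hlt
      have h3 : (m + 1) * s = m * s + s := by ring
      omega
    have h1 := hG l hl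
    rw [h0] at h1
    rcases mul_eq_zero.mp h1.symm with h3 | h3
    · exact absurd h3 (pow_ne_zero _ hf0)
    · exact h3
  set n : ℕ → K[X] := fun i => if i ≤ e then Npol q ((m - i) * s) (G (e - i)) else 0 with hn
  set T : ℕ → (PowerSeries K)[X] :=
    fun i => if i ≤ m then C ((n i : K[X]) : PowerSeries K) * X ^ i else 0 with hT
  -- key computation
  have key : ∀ l ∈ Finset.HasAntidiagonal.antidiagonal e,
      C ((q : PowerSeries K) ^ (m * s)) * (theta K x qi s (F l.1)).coeff l.2 = T l.2 := by
    rintro ⟨l1, l2⟩ hl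
    rw [Finset.HasAntidiagonal.mem_antidiagonal] at hl
    simp only at hl ⊢
    have hl1 : l1 ≤ e := by omega
    have hl2 : e - l1 = l2 := by omega
    have hl2' : e - l2 = l1 := by omega
    have hFG := hG l1 hl1
    rw [hl2] at hFG
    rw [hFG, map_mul (theta K x qi s), map_pow (theta K x qi s), hf, theta_f x qi s q hqa]
    rw [coeff_shift, theta_coeff_zero]
    by_cases hm2 : l2 ≤ m
    · have h3 := Npol_coe q qi hqq ((m - l2) * s) (G l1) (by
        have := hGdeg l1 hl1
        rwa [hl2] at this)
      simp only [hT]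
      rw [if_pos hm2]
      have h4 : n l2 = Npol q ((m - l2) * s) (G l1) := by
        rw [hn]
        simp only
        rw [if_pos (by omega), hl2']
      rw [h4, h3]
      have h5 : (q : PowerSeries K) ^ (m * s) * (qi ^ s) ^ l2 = (q : PowerSeries K) ^ ((m - l2) * s) := by
        have h6 : m * s = (m - l2) * s + l2 * s := by
          rw [← add_mul, Nat.sub_add_cancel hm2]
        rw [h6, pow_add, ← pow_mul, mul_comm s l2, mul_assoc, ← mul_pow, hqq, one_pow, mul_one]
      rw [mul_pow, ← C_pow]
      rw [← h5]
      simp only [C_mul, C_pow]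
      ring
    · have h3 : G l1 = 0 := hG0 l1 hl1 (by omega)
      simp only [hT]
      rw [if_neg hm2, h3]
      simp
  -- the leading form
  have hsum : C ((q : PowerSeries K) ^ (m * s)) *
      (∑ p, zt K (PowerSeries K) (v p) * (C (C x) ^ (p.1.1 : ℕ) * yh qi s ^ (p.1.2 : ℕ))).coeff e
      = ∑ i ∈ Finset.range (m + 1), C ((n i : K[X]) : PowerSeries K) * X ^ i := by
    rw [V_coeff, Finset.mul_sum, Finset.sum_congr rfl key]
    have h1 : ∑ l ∈ Finset.HasAntidiagonal.antidiagonal e, T l.2 = ∑ i ∈ Finset.range (e + 1), T i := by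
      rw [← Finset.Nat.sum_antidiagonal_swap]
      exact Finset.Nat.sum_antidiagonal_eq_sum_range_succ_mk (fun l => T l.1) e
    rw [h1]
    have hTe : ∀ i, e < i → T i = 0 := by
      intro i hi
      simp only [hT, hn]
      rw [if_neg (by omega : ¬ i ≤ e)]
      simp
    have hTm : ∀ i, m < i → T i = 0 := by
      intro i hi
      simp only [hT]
      rw [if_neg (by omega)]
    have h2 : ∑ i ∈ Finset.range (e + 1), T i = ∑ i ∈ Finset.range (max e m + 1), T i := by
      refine Finset.sum_subset (Finset.range_mono (by omega)) fun i _ hi => ?_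
      rw [Finset.mem_range] at hi
      exact hTe i (by omega)
    have h3 : ∑ i ∈ Finset.range (m + 1), T i = ∑ i ∈ Finset.range (max e m + 1), T i := by
      refine Finset.sum_subset (Finset.range_mono (by omega)) fun i _ hi => ?_
      rw [Finset.mem_range] at hi
      exact hTm i (by omega)
    rw [h2, ← h3]
    refine Finset.sum_congr rfl fun i hi => ?_
    rw [Finset.mem_range] at hi
    simp only [hT]
    rw [if_pos (by omega)]
  have hmem : ∑ i ∈ Finset.range (m + 1), C ((n i : K[X]) : PowerSeries K) * X ^ i ∈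
      (Ideal.span {X - C (PowerSeries.X : PowerSeries K), C (PowerSeries.X ^ r)} :
        Ideal (PowerSeries K)[X]) ^ m := by
    rw [← hsum]
    refine Ideal.mul_mem_left _ _ ?_
    exact V_coeff_mem x qi s r m (cfam u s r) _ _ (fun l => rfl) (trunc_dvd _ _) (trunc_dvd _ _) v hv e
  have hzero := endgame u hu0 hu s r m hs hr h9 hm n (by
      intro i hi
      simp only [hn]
      split_ifs with hie
      · have h1 := Npol_natDegree q s ((m - i) * s) hqdeg (by omega) (G (e - i)) (by
          have := hGdeg (e - i) (by omega)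
          rwa [(by omega : e - (e - i) = i)] at this)
        refine h1.trans (le_of_eq ?_)
        ring
      · simp) (by
      intro i hi j hj
      simp only [hn]
      split_ifs with hie
      · have hd : (G (e - i)).totalDegree ≤ (m - i) * s := by
          have := hGdeg (e - i) (by omega)
          rwa [(by omega : e - (e - i) = i)] at this
        rw [Npol_eval q _ _ hd (u ^ j) (qpol_root u _ j (by omega))]
        have h1 := Npol_eval q _ _ hd (u ^ 0) (qpol_root u _ 0 (by omega))
        rw [pow_zero] at h1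
        rw [h1]
      · simp) hmem
  -- contradiction
  apply he'
  intro l hl
  by_cases hle : l = e + 1
  · subst hle; simp
  have hl' : l ≤ e := by omega
  have h1 : e + 1 - l = (e - l) + 1 := by omega
  rw [h1, hG l hl', pow_succ]
  apply mul_dvd_mul_left
  by_cases hm2 : m < e - l
  · rw [hG0 l hl' hm2]; exact dvd_zero _
  · have h2 := hzero (e - l) (by omega)
    simp only [hn] at h2
    rw [if_pos (by omega), (by omega : e - (e - l) = l)] at h2
    exact Npol_eq_zero q _ _ (hGdeg l hl') h2

end

end MP_cea741_ag
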