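import Mathlib
import Pool.Agent.Lib.MP_cea741_ag.Leading
import Pool.Agent.Lib.MP_cea741_ag.TotDeg

namespace MP_cea741_ag

noncomputable section

open MvPolynomial

theorem ratFunc_X_pow_ne_one (k : Type*) [Field k] (n : ℕ) (hn : 1 ≤ n) :
    (RatFunc.X : RatFunc k) ^ n ≠ 1 := by
  intro h
  rw [← RatFunc.algebraMap_X, ← map_pow, ← map_one (algebraMap (Polynomial k) (RatFunc k))] at h
  have h1 := RatFunc.algebraMap_injective k h
  have h2 := congrArg Polynomial.natDegree h1
  rw [Polynomial.natDegree_X_pow, Polynomial.natDegree_one] at h2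
  omega

/-- The generic statement in terms of the matrix of conditions. -/
theorem exists_open (k : Type*) [Field k] (r m s : ℕ) (hs : 3 ≤ s) (hr : s ^ 2 ≤ r) (h9 : 9 < r)
    (hm : 1 ≤ m) :
    ∃ Φ : MvPolynomial (Fin r) k, Φ ≠ 0 ∧ ∀ c : Fin r → k, eval c Φ ≠ 0 →
      ∀ v : Idx (m * s) → k,
        Wpol (gpol r c) v ∈ (Ideal.span {Polynomial.X, Polynomial.C (Polynomial.X ^ r)} :
          Ideal (Polynomial (Polynomial k))) ^ m → v = 0 := by
  classical
  obtain ⟨Φ, hΦ, h⟩ := generic_injective (A := Polynomial (RatFunc k)) (Mmat k r m (m * s))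
    (cfam (RatFunc.X : RatFunc k) s r) (by
      intro v hv
      have h1 : ((Mmat k r m (m * s)).map
          ((aeval (cfam (RatFunc.X : RatFunc k) s r) :
            MvPolynomial (Fin r) k →ₐ[k] Polynomial (RatFunc k)) :
              MvPolynomial (Fin r) k →+* Polynomial (RatFunc k))).mulVec v = 0 := hv
      rw [Mmat_mulVec_eq_zero_iff] at h1
      refine family_injective (RatFunc.X : RatFunc k) RatFunc.X_ne_zero
        (fun n hn => ratFunc_X_pow_ne_one k n hn) s r m hs hr h9 hm v ?_
      have h2 : (fun l => ((aeval (cfam (RatFunc.X : RatFunc k) s r) :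
            MvPolynomial (Fin r) k →ₐ[k] Polynomial (RatFunc k)) :
              MvPolynomial (Fin r) k →+* Polynomial (RatFunc k)) (X l))
          = cfam (RatFunc.X : RatFunc k) s r := by
        funext l
        simp
      rw [h2] at h1
      exact h1)
  refine ⟨Φ, hΦ, fun c hc v hv => h c hc v ?_⟩
  have h3 : ((Mmat k r m (m * s)).map (eval c : MvPolynomial (Fin r) k →+* k)).mulVec v = 0 := by
    rw [Mmat_mulVec_eq_zero_iff]
    have h4 : (fun l => (eval c : MvPolynomial (Fin r) k →+* k) (X l)) = c := by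
      funext l; simp
    rw [h4]
    exact hv
  exact h3

end

end MP_cea741_ag
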