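import Mathlib
import Pool.Agent.Lib.MP_cea741_ag.ArcA
import Pool.Agent.Lib.MP_cea741_ag.Smooth
import Pool.Agent.Lib.MP_cea741_ag.Transfer

namespace MP_cea741_ag.Arc

open MvPolynomial MP_cea741_ag

/-- the germ `y = 1/q(x) + x^s (mod x^r)` where `q = ∏_{j<e-1} (x - u^j)`. -/
noncomputable def germ {K : Type*} [Field K] (u : K) (e s r : ℕ) (l : Fin r) : K :=
  PowerSeries.coeff (l : ℕ) (qinv u e + PowerSeries.X ^ s)

theorem germ_dvd {K : Type*} [Field K] (u : K) (e s r : ℕ) :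
    (PowerSeries.X : PowerSeries K) ^ r ∣
      (qinv u e + PowerSeries.X ^ s) - ((gpol r (germ u e s r) : Polynomial K) : PowerSeries K) := by
  rw [PowerSeries.X_pow_dvd_iff]
  intro i hi
  rw [map_sub, Polynomial.coeff_coe, gpol, Polynomial.finsetSum_coeff,
    Finset.sum_eq_single (⟨i, hi⟩ : Fin r)]
  · rw [Polynomial.coeff_C_mul, Polynomial.coeff_X_pow, if_pos rfl, mul_one, germ, sub_self]
  · intro b _ hb
    rw [Polynomial.coeff_C_mul, Polynomial.coeff_X_pow, if_neg, mul_zero]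
    intro h
    exact hb (Fin.ext h.symm)
  · simp

/-- Vanishing for general germs from a smooth auxiliary curve of degree `e` with contact `s`. -/
theorem open_smooth (k : Type*) [Field k] (r m d e s : ℕ) (he : 2 ≤ e) (hs1 : 1 ≤ s) (hs : s ≤ r)
    (hm : 1 ≤ m)
    (hcond : (3 ≤ e ∧ s ^ 2 < r * e ^ 2 ∧ e * d ≤ m * s) ∨
      (r * e ^ 2 ≤ s ^ 2 ∧ (d / e) * (s ^ 2 - r * e ^ 2) + r * (e * d) < r * (m * s))) :
    ∃ Φ : MvPolynomial (Fin r) k, Φ ≠ 0 ∧
      ∀ (a : k) (c : Fin r → k), eval c Φ ≠ 0 →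
        ∀ F : MvPolynomial (Fin 2) k, F.totalDegree ≤ d → F ∈ arcIdeal a c ^ m → F = 0 :=
  open_of_germ k (K := RatFunc k) r m d (germ RatFunc.X e s r) fun P hP h =>
    Sm.special (RatFunc.X : RatFunc k) r m d e s he hs1 hs hm _ (qinv RatFunc.X e)
      RatFunc.X_ne_zero (fun n hn => ratFunc_X_pow_ne_one k n hn)
      (q_mul_qinv _ RatFunc.X_ne_zero e) (germ_dvd _ _ _ _) hcond P hP h

end MP_cea741_ag.Arc
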