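import Mathlib
import Pool.Agent.Lib.MP_cea741_ag.SmoothA

/-!
A weighted Bezout inequality for plane curves, proved by counting dimensions.
-/

namespace MP_cea741_ag.Bz

open Polynomial MP_cea741_ag

noncomputable section

variable {K : Type*} [Field K]

/-- polynomials of total degree `≤ n`. -/
abbrev V (K : Type*) [Field K] (n : ℕ) : Submodule K (MvPolynomial (Fin 2) K) :=
  MvPolynomial.restrictTotalDegree (Fin 2) K n

theorem mem_V {n : ℕ} {P : MvPolynomial (Fin 2) K} : P ∈ V K n ↔ P.totalDegree ≤ n :=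
  MvPolynomial.mem_restrictTotalDegree _ _ _

/-- `V n` has the basis of monomials indexed by `Idx n`. -/
def eqV (K : Type*) [Field K] (n : ℕ) : (Idx n → K) ≃ₗ[K] V K n where
  toFun v := ⟨polyOf v, mem_V.mpr (polyOf_totalDegree v)⟩
  map_add' v w := by
    apply Subtype.ext
    simp only [polyOf, Pi.add_apply, map_add, Finset.sum_add_distrib]
    rfl
  map_smul' a v := by
    apply Subtype.ext
    simp only [polyOf, Pi.smul_apply, map_smul, ← Finset.smul_sum]
    rfl
  invFun P := fun p => (P : MvPolynomial (Fin 2) K).coeff (ex p)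
  left_inv v := by
    funext p
    exact coeff_polyOf v p
  right_inv P := by
    apply Subtype.ext
    exact polyOf_coeff _ (mem_V.mp P.2)

instance (n : ℕ) : Module.Finite K (V K n) := Module.Finite.equiv (eqV K n)

theorem card_Idx (n : ℕ) : 2 * Fintype.card (Idx n) = (n + 1) * (n + 2) := by
  have h1 : Fintype.card (Idx n) = ∑ i : Fin (n + 1), (n + 1 - (i : ℕ)) := by
    have e : Idx n ≃ Σ i : Fin (n + 1), Fin (n + 1 - (i : ℕ)) :=
      { toFun := fun p => ⟨p.1.1, ⟨p.1.2, by have := p.2; have := p.1.1.2; omega⟩⟩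
        invFun := fun q => ⟨(q.1, ⟨q.2, by have := q.2.2; omega⟩), by
          have := q.2.2; have := q.1.2; simp only; omega⟩
        left_inv := fun p => rfl
        right_inv := fun q => rfl }
    rw [Fintype.card_congr e, Fintype.card_sigma]
    simp
  rw [h1, Fin.sum_univ_eq_sum_range (fun i => n + 1 - i), mul_comm]
  have h2 := Finset.sum_range_reflect (fun i => i + 1) (n + 1)
  have h3 : ∑ i ∈ Finset.range (n + 1), (n + 1 - i) = ∑ i ∈ Finset.range (n + 1), (i + 1) := by
    rw [← h2]
    refine Finset.sum_congr rfl fun i hi => ?_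
    have := Finset.mem_range.mp hi
    omega
  rw [h3, Finset.sum_add_distrib, Finset.sum_const, Finset.card_range, smul_eq_mul, mul_one, add_mul,
    Finset.sum_range_id_mul_two, Nat.add_sub_cancel]
  ring

theorem finrank_V (n : ℕ) : 2 * Module.finrank K (V K n) = (n + 1) * (n + 2) := by
  rw [← (eqV K n).finrank_eq, Module.finrank_fintype_fun_eq_card, card_Idx]

/-- the exponents `x^i z^j` of weight `i + r j < M`. -/
abbrev Ind (r M : ℕ) := {p : Fin M × Fin M // (p.1 : ℕ) + r * p.2 < M}

/-- the coefficients of weight `< M`. -/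
def Lam (r M : ℕ) (g : K[X]) : MvPolynomial (Fin 2) K →ₗ[K] (Ind r M → K) where
  toFun P p := ((Sm.eta g P).coeff p.1.2).coeff p.1.1
  map_add' P Q := by
    funext p
    simp
  map_smul' a P := by
    funext p
    rw [MvPolynomial.smul_eq_C_mul, map_mul]
    simp [Sm.eta]

theorem Lam_eq_zero_iff (r M : ℕ) (hr : 1 ≤ r) (g : K[X]) (P : MvPolynomial (Fin 2) K) :
    Lam r M g P = 0 ↔ (C X : K[X][X]) ^ M ∣ Sm.phi r g P := by
  rw [← C_pow, C_dvd_iff_dvd_coeff]
  constructor
  · intro h j
    rw [Sm.phi_coeff, ← pow_mul, X_pow_dvd_iff]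
    intro i hi
    rw [coeff_mul_X_pow']
    split_ifs with hij
    · have hj : j < M := by nlinarith
      have := congrFun h ⟨(⟨i - r * j, by omega⟩, ⟨j, hj⟩), by simp only; omega⟩
      exact this
    · rfl
  · intro h
    funext p
    have h1 := h p.1.2
    rw [Sm.phi_coeff, ← pow_mul, X_pow_dvd_iff] at h1
    have h2 := h1 (p.1.1 + r * p.1.2) p.2
    rw [coeff_mul_X_pow'] at h2
    rw [if_pos (by omega), Nat.add_sub_cancel] at h2
    exact h2

/-- lifts of the basis vectors. -/
def lft (g : K[X]) (i j : ℕ) : MvPolynomial (Fin 2) K :=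
  MvPolynomial.X 0 ^ i * (MvPolynomial.X 1 - aeval (MvPolynomial.X 0) g) ^ j

theorem eta_aeval (g q : K[X]) :
    Sm.eta g (aeval (MvPolynomial.X 0 : MvPolynomial (Fin 2) K) q) = C q := by
  rw [aeval_def, Polynomial.hom_eval₂]
  have e1 : Sm.eta g (MvPolynomial.X 0) = C X := by simp [Sm.eta]
  have e2 : (Sm.eta g).comp (algebraMap K (MvPolynomial (Fin 2) K)) = (C : K[X] →+* K[X][X]).comp C := by
    ext a
    simp [Sm.eta, MvPolynomial.algebraMap_eq]
  rw [e1, e2, ← Polynomial.hom_eval₂, eval₂_C_X]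

theorem eta_lift (g : K[X]) (i j : ℕ) : Sm.eta g (lft g i j) = C (X ^ i) * X ^ j := by
  rw [lft, map_mul, map_pow, map_pow, map_sub, eta_aeval]
  have e1 : Sm.eta g (MvPolynomial.X 0) = C X := by simp [Sm.eta]
  have e2 : Sm.eta g (MvPolynomial.X 1) = X + C g := by simp [Sm.eta]
  rw [e1, e2, add_sub_cancel_right, C_pow]

theorem Lam_surj (r M : ℕ) (g : K[X]) : ∃ n0, ∀ n, n0 ≤ n →
    Submodule.map (Lam r M g) (V K n) = ⊤ := by
  refine ⟨Finset.univ.sup fun p : Ind r M => (lft g p.1.1 p.1.2).totalDegree, fun n hn => ?_⟩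
  rw [eq_top_iff]
  intro v _
  refine ⟨∑ p : Ind r M, v p • lft g p.1.1 p.1.2, ?_, ?_⟩
  · refine Submodule.sum_mem _ fun p _ => Submodule.smul_mem _ _ ?_
    rw [mem_V]
    exact (Finset.le_sup (f := fun p : Ind r M => (lft g p.1.1 p.1.2).totalDegree)
      (Finset.mem_univ p)).trans hn
  · rw [map_sum]
    funext q
    rw [Finset.sum_apply, Finset.sum_eq_single q]
    · rw [map_smul, Pi.smul_apply]
      simp only [Lam, LinearMap.coe_mk, AddHom.coe_mk, eta_lift, coeff_C_mul, coeff_X_pow]
      simp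
    · intro p _ hpq
      rw [map_smul, Pi.smul_apply]
      simp only [Lam, LinearMap.coe_mk, AddHom.coe_mk, eta_lift, coeff_C_mul, coeff_X_pow]
      by_cases h2 : (q.1.2 : ℕ) = p.1.2
      · rw [if_pos h2, mul_one, coeff_X_pow, if_neg, smul_zero]
        intro h1
        apply hpq
        exact Subtype.ext (Prod.ext (Fin.ext h1.symm) (Fin.ext h2.symm))
      · rw [if_neg h2]
        simp
    · simp

/-- `card (Ind (M - s)) + s L ≤ card (Ind M)`. -/
theorem card_Ind (r M s L : ℕ) (hr : 1 ≤ r) (hs : 1 ≤ s) (hL : ∀ j < L, r * j + s ≤ M) :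
    Fintype.card (Ind r (M - s)) + s * L ≤ Fintype.card (Ind r M) := by
  have e : Fintype.card (Ind r (M - s) ⊕ (Fin s × Fin L)) =
      Fintype.card (Ind r (M - s)) + s * L := by
    rw [Fintype.card_sum, Fintype.card_prod, Fintype.card_fin, Fintype.card_fin]
  rw [← e]
  have hj : ∀ j < L, j < M := by
    intro j hj
    have := hL j hj
    nlinarith
  refine Fintype.card_le_of_injective (fun t => Sum.elim
    (fun p : Ind r (M - s) => (⟨(⟨p.1.1, by have := p.1.1.2; omega⟩,
      ⟨p.1.2, by have := p.1.2.2; omega⟩), by have := p.2; simp only; omega⟩ : Ind r M))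
    (fun q : Fin s × Fin L => (⟨(⟨M - s - r * q.2 + q.1, by
        have := q.1.2; have := hL _ q.2.2; omega⟩,
      ⟨q.2, hj _ q.2.2⟩), by
        have := q.1.2; have := hL _ q.2.2; simp only; omega⟩ : Ind r M)) t) ?_
  intro t t' h
  rcases t with p | q <;> rcases t' with p' | q'
  · simp only [Sum.elim_inl, Subtype.mk.injEq, Prod.mk.injEq, Fin.mk.injEq] at h
    congr 1
    exact Subtype.ext (Prod.ext (Fin.ext h.1) (Fin.ext h.2))
  · exfalso
    simp only [Sum.elim_inl, Sum.elim_inr, Subtype.mk.injEq, Prod.mk.injEq, Fin.mk.injEq] at h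
    have h1 := p.2
    have h2 := hL _ q'.2.2
    rw [h.1, h.2] at h1
    omega
  · exfalso
    simp only [Sum.elim_inl, Sum.elim_inr, Subtype.mk.injEq, Prod.mk.injEq, Fin.mk.injEq] at h
    have h1 := p'.2
    have h2 := hL _ q.2.2
    rw [← h.1, ← h.2] at h1
    omega
  · simp only [Sum.elim_inr, Subtype.mk.injEq, Prod.mk.injEq, Fin.mk.injEq] at h
    have h2 := hL _ q.2.2
    have h2' := hL _ q'.2.2
    have h3 := h.2
    have h4 := h.1
    rw [h3] at h4
    congr 1
    exact Prod.ext (Fin.ext (by omega)) (Fin.ext h3)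

theorem finrank_range_le (r M s : ℕ) (hr : 1 ≤ r) (g : K[X]) (F : MvPolynomial (Fin 2) K)
    (hF : (C X : K[X][X]) ^ s ∣ Sm.phi r g F) :
    Module.finrank K (LinearMap.range ((Lam r M g).comp (LinearMap.mulLeft K F))) ≤
      Fintype.card (Ind r (M - s)) := by
  set q := (Lam r M g).comp (LinearMap.mulLeft K F) with hq
  have hker : LinearMap.ker (Lam r (M - s) g) ≤ LinearMap.ker q := by
    intro P hP
    rw [LinearMap.mem_ker, Lam_eq_zero_iff _ _ hr] at hP
    rw [LinearMap.mem_ker, hq, LinearMap.comp_apply, LinearMap.mulLeft_apply,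
      Lam_eq_zero_iff _ _ hr, map_mul]
    have h1 := mul_dvd_mul hF hP
    rw [← pow_add] at h1
    exact (pow_dvd_pow _ (by omega)).trans h1
  set f := (LinearMap.ker (Lam r (M - s) g)).liftQ q hker with hf
  have h1 : LinearMap.range f = LinearMap.range q := Submodule.range_liftQ _ _ _
  rw [← h1]
  have h2 : Module.finrank K (MvPolynomial (Fin 2) K ⧸ LinearMap.ker (Lam r (M - s) g)) ≤
      Fintype.card (Ind r (M - s)) := by
    rw [(LinearMap.quotKerEquivRange (Lam r (M - s) g)).finrank_eq]
    refine (Submodule.finrank_le _).trans ?_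
    rw [Module.finrank_fintype_fun_eq_card]
  have : Module.Finite K (MvPolynomial (Fin 2) K ⧸ LinearMap.ker (Lam r (M - s) g)) :=
    Module.Finite.equiv (LinearMap.quotKerEquivRange (Lam r (M - s) g)).symm
  exact (LinearMap.finrank_range_le f).trans h2

/-- dimension count. -/
theorem dim_ineq (r M s e δ n : ℕ) (hr : 1 ≤ r) (g : K[X]) (F E : MvPolynomial (Fin 2) K)
    (hF0 : F ≠ 0) (hF : (C X : K[X][X]) ^ s ∣ Sm.phi r g F) (hFe : F.totalDegree = e)
    (hE : (C X : K[X][X]) ^ M ∣ Sm.phi r g E) (hEd : E.totalDegree ≤ δ)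
    (hdiv : ∀ S, F ∣ S * E → F ∣ S)
    (hn : Submodule.map (Lam r M g) (V K n) = ⊤) (hne : e + δ ≤ n) :
    Module.finrank K (V K (n - e)) + Module.finrank K (V K (n - δ)) + Fintype.card (Ind r M) ≤
      Module.finrank K (V K n) + Module.finrank K (V K (n - (e + δ))) +
        Fintype.card (Ind r (M - s)) := by
  -- the map `Ψ`
  set Ψ : (V K (n - e) × V K (n - δ)) →ₗ[K] MvPolynomial (Fin 2) K :=
    ((LinearMap.mulLeft K F).comp (V K (n - e)).subtype).coprod
      ((LinearMap.mulLeft K E).comp (V K (n - δ)).subtype) with hΨ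
  have hΨa : ∀ x, Ψ x = F * (x.1 : MvPolynomial (Fin 2) K) + E * (x.2 : MvPolynomial (Fin 2) K) := by
    intro x
    simp [hΨ]
  have hI : LinearMap.range Ψ ≤ V K n := by
    rintro _ ⟨x, rfl⟩
    rw [hΨa]
    refine Submodule.add_mem _ ?_ ?_
    · rw [mem_V]
      refine (MvPolynomial.totalDegree_mul _ _).trans ?_
      have := mem_V.mp x.1.2
      omega
    · rw [mem_V]
      refine (MvPolynomial.totalDegree_mul _ _).trans ?_
      have := mem_V.mp x.2.2
      omega
  -- kernel
  have hker : Module.finrank K (LinearMap.ker Ψ) ≤ Module.finrank K (V K (n - (e + δ))) := by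
    have hdeg : ∀ S : V K (n - (e + δ)), -(E * (S : MvPolynomial (Fin 2) K)) ∈ V K (n - e) := by
      intro S
      refine Submodule.neg_mem _ ?_
      rw [mem_V]
      refine (MvPolynomial.totalDegree_mul _ _).trans ?_
      have := mem_V.mp S.2
      omega
    have hdeg' : ∀ S : V K (n - (e + δ)), F * (S : MvPolynomial (Fin 2) K) ∈ V K (n - δ) := by
      intro S
      rw [mem_V]
      refine (MvPolynomial.totalDegree_mul _ _).trans ?_
      have := mem_V.mp S.2
      omega
    set κ : V K (n - (e + δ)) →ₗ[K] (V K (n - e) × V K (n - δ)) :=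
      { toFun := fun S => (⟨_, hdeg S⟩, ⟨_, hdeg' S⟩)
        map_add' := by
          intro S T
          refine Prod.ext (Subtype.ext ?_) (Subtype.ext ?_)
          · simp; ring
          · simp; ring
        map_smul' := by
          intro a S
          refine Prod.ext (Subtype.ext ?_) (Subtype.ext ?_)
          · simp
          · simp } with hκ
    have hle : LinearMap.ker Ψ ≤ LinearMap.range κ := by
      intro x hx
      rw [LinearMap.mem_ker, hΨa] at hx
      have h1 : F ∣ (x.2 : MvPolynomial (Fin 2) K) * E :=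
        ⟨-(x.1 : MvPolynomial (Fin 2) K), by linear_combination hx⟩
      obtain ⟨S, hS⟩ := hdiv _ h1
      have hSV : S ∈ V K (n - (e + δ)) := by
        rw [mem_V]
        by_cases hS0 : S = 0
        · rw [hS0, MvPolynomial.totalDegree_zero]; exact Nat.zero_le _
        · have h2 := mem_V.mp x.2.2
          rw [hS, MvPolynomial.totalDegree_mul_of_isDomain hF0 hS0, hFe] at h2
          omega
      refine ⟨⟨S, hSV⟩, ?_⟩
      refine Prod.ext (Subtype.ext ?_) (Subtype.ext ?_)
      · have h3 : F * (-(E * S) - (x.1 : MvPolynomial (Fin 2) K)) = 0 := by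
          rw [hS] at hx
          linear_combination -hx
        rcases mul_eq_zero.mp h3 with h4 | h4
        · exact absurd h4 hF0
        · exact sub_eq_zero.mp h4
      · exact hS.symm
    exact (Submodule.finrank_mono hle).trans (LinearMap.finrank_range_le κ)
  have hrn := LinearMap.finrank_range_add_finrank_ker Ψ
  rw [Module.finrank_prod] at hrn
  -- the image under `Lam`
  set I := LinearMap.range Ψ with hIdef
  have : Module.Finite K I := inferInstance
  have hLI : Submodule.map (Lam r M g) I ≤ LinearMap.range ((Lam r M g).comp (LinearMap.mulLeft K F)) := by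
    rintro _ ⟨_, ⟨x, rfl⟩, rfl⟩
    refine ⟨(x.1 : MvPolynomial (Fin 2) K), ?_⟩
    rw [LinearMap.comp_apply, LinearMap.mulLeft_apply, hΨa, map_add]
    have : Lam r M g (E * (x.2 : MvPolynomial (Fin 2) K)) = 0 := by
      rw [Lam_eq_zero_iff _ _ hr, map_mul]
      exact hE.mul_right _
    rw [this, add_zero]
  have h5 : Module.finrank K (Submodule.map (Lam r M g) I) ≤ Fintype.card (Ind r (M - s)) :=
    (Submodule.finrank_mono hLI).trans (finrank_range_le r M s hr g F hF)
  -- rank-nullity on `V n` and `I`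
  set L1 := (Lam r M g).domRestrict (V K n) with hL1
  set L2 := (Lam r M g).domRestrict I with hL2
  have h6 := LinearMap.finrank_range_add_finrank_ker L1
  have h7 := LinearMap.finrank_range_add_finrank_ker L2
  have h8 : LinearMap.range L1 = ⊤ := by
    rw [← hn, hL1, LinearMap.range_domRestrict]
  have h9 : LinearMap.range L2 = Submodule.map (Lam r M g) I := by
    rw [hL2, LinearMap.range_domRestrict]
  rw [h8, finrank_top, Module.finrank_fintype_fun_eq_card] at h6
  rw [h9] at h7
  have h10 : Module.finrank K (LinearMap.ker L2) ≤ Module.finrank K (LinearMap.ker L1) := by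
    have : Function.Injective ((Submodule.inclusion hI).restrict (p := LinearMap.ker L2)
        (q := LinearMap.ker L1) (by
          intro x hx
          rw [LinearMap.mem_ker] at hx ⊢
          exact hx)) := by
      intro x y hxy
      apply Subtype.ext
      apply Subtype.ext
      have := congrArg (fun z => ((z : LinearMap.ker L1) : V K n)) hxy
      exact congrArg (fun z : V K n => (z : MvPolynomial (Fin 2) K)) this
    exact LinearMap.finrank_le_finrank_of_injective this
  omega

/-- **Weighted Bezout inequality.** -/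
theorem wbezout (r s N e d : ℕ) (hr : 1 ≤ r) (g : K[X]) (F D : MvPolynomial (Fin 2) K)
    (hF : Prime F) (hFs : (C X : K[X][X]) ^ s ∣ Sm.phi r g F) (hFe : F.totalDegree ≤ e)
    (hFD : ¬ F ∣ D) (hDN : (C X : K[X][X]) ^ N ∣ Sm.phi r g D) (hDd : D.totalDegree ≤ d) :
    s * N ≤ r * (e * d) := by
  rcases Nat.eq_zero_or_pos s with hs0 | hs
  · rw [hs0, zero_mul]; exact Nat.zero_le _
  rcases Nat.eq_zero_or_pos N with hN0 | hN
  · rw [hN0, mul_zero]; exact Nat.zero_le _
  by_contra hcon
  push Not at hcon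
  set e0 := F.totalDegree with he0
  have hcon' : r * (e0 * d) < s * N := lt_of_le_of_lt
    (Nat.mul_le_mul_left _ (Nat.mul_le_mul_right _ hFe)) hcon
  set k' := s * s + 1 with hk'
  set k := r * k' with hk
  set M := k * N with hM
  set E := D ^ k with hE
  set δ := k * d with hδ
  obtain ⟨n0, hn0⟩ := Lam_surj r M g
  set n := n0 + (e0 + δ) with hn
  have h1 := dim_ineq r M s e0 δ n hr g F E hF.ne_zero hFs rfl
    (by rw [hE, map_pow, hM, mul_comm k N, pow_mul]; exact pow_dvd_pow_of_dvd hDN k)
    (by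
      rw [hE, hδ]
      exact (MvPolynomial.totalDegree_pow _ _).trans (Nat.mul_le_mul_left _ hDd))
    (by
      intro S hS
      rcases hF.dvd_or_dvd hS with h | h
      · exact h
      · exact absurd (hF.dvd_of_dvd_pow h) hFD)
    (hn0 n (by omega)) (by omega)
  have h2 := finrank_V (K := K) (n - e0)
  have h3 := finrank_V (K := K) (n - δ)
  have h4 := finrank_V (K := K) n
  have h5 := finrank_V (K := K) (n - (e0 + δ))
  have hnn : ∃ n', n = n' + (e0 + δ) := ⟨n0, hn⟩
  obtain ⟨n', hn'⟩ := hnn
  have e1 : n - e0 = n' + δ := by omega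
  have e2 : n - δ = n' + e0 := by omega
  have e3 : n - (e0 + δ) = n' := by omega
  rw [e1] at h1 h2
  rw [e2] at h1 h3
  rw [e3] at h1 h5
  rw [hn'] at h1 h4
  -- lower bound
  set L := k' * N - s with hL
  have hkN : s < k' * N := by
    calc s ≤ s * s := Nat.le_mul_of_pos_left _ hs
      _ < k' := by omega
      _ ≤ k' * N := Nat.le_mul_of_pos_right _ hN
  have h6 := card_Ind r M s L hr hs (by
    intro j hj
    have e4 : M = r * (k' * N) := by rw [hM, hk, mul_assoc]
    rw [e4]
    have e5 : j + s + 1 ≤ k' * N := by omega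
    have e6 : r * (j + s + 1) ≤ r * (k' * N) := Nat.mul_le_mul_left _ e5
    nlinarith)
  have hid : (n' + (e0 + δ) + 1) * (n' + (e0 + δ) + 2) + (n' + 1) * (n' + 2) =
      (n' + δ + 1) * (n' + δ + 2) + (n' + e0 + 1) * (n' + e0 + 2) + 2 * (e0 * δ) := by ring
  have h7 : s * L ≤ e0 * δ := by linarith
  have h8 : s * L + s * s = s * (k' * N) := by
    rw [hL, ← mul_add]; congr 1; omega
  have h9 : e0 * δ = k' * (r * (e0 * d)) := by rw [hδ, hk]; ring
  have h10 : s * (k' * N) = k' * (s * N) := by ring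
  have h11 : k' * (r * (e0 * d) + 1) ≤ k' * (s * N) := Nat.mul_le_mul_left _ hcon'
  rw [mul_add, mul_one] at h11
  linarith

end

end MP_cea741_ag.Bz
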