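import Mathlib

/-!
The curve `((y - x^(2c)) - y^(bc))^2 = μ^2 (y - x^(2c))^b` of degree `2bc`, `b` odd, has two smooth
branches of contact `(bc)^2` at the origin.
-/

namespace MP_cea741_ag.Br

open PowerSeries

noncomputable section

/-- the polynomial, evaluated in a ring. -/
def FF {R : Type*} [CommRing R] (b c : ℕ) (μ x y : R) : R :=
  ((y - x ^ (2 * c)) - y ^ (b * c)) ^ 2 - μ ^ 2 * (y - x ^ (2 * c)) ^ b

variable {K : Type*} [Field K]

/-- the equation for `t`. -/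
def EE (p q a b : ℕ) (μ : K) (t : PowerSeries K) : PowerSeries K :=
  t ^ 2 - (1 + X ^ p * t ^ 2) ^ a - C μ * X ^ q * t ^ b

theorem dvd_pow_sub {R : Type*} [CommRing R] {u v w : R} (h : w ∣ u - v) (n : ℕ) :
    w ∣ u ^ n - v ^ n := h.trans (sub_dvd_pow_sub_pow u v n)

/-- approximate solutions `t = 1 + ...` of `EE t = 0`. -/
theorem exists_t (h2 : (2 : K) ≠ 0) (p q a b : ℕ) (hp : 1 ≤ p) (hq : 1 ≤ q) (μ : K) (n : ℕ) :
    ∃ t : PowerSeries K, X ∣ t - 1 ∧ X ^ n ∣ EE p q a b μ t := by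
  induction n with
  | zero => exact ⟨1, by simp, by simp⟩
  | succ n ih =>
    rcases Nat.eq_zero_or_pos n with hn | hn
    · subst hn
      refine ⟨1, by simp, ?_⟩
      rw [zero_add, pow_one, X_dvd_iff]
      simp only [EE, map_sub, map_pow, map_add, map_mul, map_one, constantCoeff_X, constantCoeff_C]
      rw [zero_pow (by omega), zero_pow (by omega)]
      simp
    · obtain ⟨t, ht1, e, he⟩ := ih
      set h : PowerSeries K := C (2 : K)⁻¹ with hh
      have hh2 : 2 * h = 1 := by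
        have : (2 : PowerSeries K) = C (2 : K) := (map_ofNat C 2).symm
        rw [this, hh, ← map_mul, mul_inv_cancel₀ h2, map_one]
      set t' := t - X ^ n * (h * e) with ht'
      have hd : X ^ n ∣ t' - t := by
        rw [ht']
        exact ⟨-(h * e), by ring⟩
      refine ⟨t', ?_, ?_⟩
      · have : t' - 1 = (t - 1) + (t' - t) := by ring
        rw [this]
        exact dvd_add ht1 ((dvd_pow_self X (by omega)).trans hd)
      · -- EE t' = EE t + (t'^2 - t^2) - (..) - (..)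
        have h1 : X ^ (n + 1) ∣ (1 + X ^ p * t' ^ 2) ^ a - (1 + X ^ p * t ^ 2) ^ a := by
          refine dvd_pow_sub ?_ a
          have e1 : (1 + X ^ p * t' ^ 2) - (1 + X ^ p * t ^ 2) = X ^ p * (t' ^ 2 - t ^ 2) := by ring
          rw [e1, pow_succ', ]
          exact mul_dvd_mul (dvd_pow_self X (by omega)) (dvd_pow_sub hd 2)
        have h3 : X ^ (n + 1) ∣ C μ * X ^ q * t' ^ b - C μ * X ^ q * t ^ b := by
          have e1 : C μ * X ^ q * t' ^ b - C μ * X ^ q * t ^ b = C μ * (X ^ q * (t' ^ b - t ^ b)) := by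
            ring
          rw [e1, pow_succ']
          exact (mul_dvd_mul (dvd_pow_self X (by omega)) (dvd_pow_sub hd b)).mul_left _
        have h4 : X ^ (n + 1) ∣ EE p q a b μ t + (t' ^ 2 - t ^ 2) := by
          obtain ⟨v, hv⟩ := ht1
          have e1 : EE p q a b μ t + (t' ^ 2 - t ^ 2)
              = X ^ n * e * (1 - (2 * h) * t) + X ^ n * X ^ n * (h * e) ^ 2 := by
            rw [he, ht']; ring
          have e2 : X ^ n * e * (1 - (2 * h) * t) = X ^ (n + 1) * (-(e * v)) := by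
            rw [hh2, one_mul]
            have : t = 1 + X * v := by rw [← hv]; ring
            rw [this]; ring
          rw [e1, e2]
          refine dvd_add (Dvd.intro _ rfl) ?_
          rw [← pow_add]
          exact (pow_dvd_pow X (by omega)).mul_right _
        have e5 : EE p q a b μ t' = (EE p q a b μ t + (t' ^ 2 - t ^ 2))
            - ((1 + X ^ p * t' ^ 2) ^ a - (1 + X ^ p * t ^ 2) ^ a)
            - (C μ * X ^ q * t' ^ b - C μ * X ^ q * t ^ b) := by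
          simp only [EE]; ring
        rw [e5]
        exact dvd_sub (dvd_sub h4 h1) h3

/-- The order of `F` along `y = y_∞ + x^(s₁) ω`. -/
theorem FF_order (b c s1 : ℕ) (hc : 1 ≤ c) (hb : 3 ≤ b) (hs1 : (b * c) ^ 2 < s1) (μ : K)
    (t ω : PowerSeries K)
    (ht : X ^ (s1 + (b * c) ^ 2 + 1) ∣
      EE (2 * (b * c * c) - 2 * c) ((b * c) ^ 2 - 2 * (b * c * c)) (b * c) b μ t) :
    X ^ (s1 + (b * c) ^ 2 + 1) ∣
      FF b c (C μ) X (X ^ (2 * c) + X ^ (2 * (b * c * c)) * t ^ 2 + X ^ s1 * ω)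
        - X ^ (s1 + (b * c) ^ 2) * (2 * C μ * t ^ b * ω) := by
  set n := b * c * c with hn
  have hnb : n * b = (b * c) ^ 2 := by rw [hn]; ring
  have hn1 : c ≤ n := by rw [hn]; nlinarith [Nat.mul_le_mul hb hc, Nat.zero_le (b * c * c)]
  have hn1' : 1 ≤ n := hc.trans hn1
  have h2n : 2 * n + 1 ≤ (b * c) ^ 2 := by rw [← hnb]; nlinarith
  have h2c : 2 * c ≤ 2 * n := by omega
  set M := s1 + (b * c) ^ 2 + 1 with hM
  have hpow : ∀ i j k : ℕ, i + j = k → (X : PowerSeries K) ^ i * X ^ j = X ^ k := by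
    intro i j k h
    rw [← pow_add, h]
  set yi : PowerSeries K := X ^ (2 * c) + X ^ (2 * n) * t ^ 2 with hyi
  set y1 := yi + X ^ s1 * ω with hy1
  -- (2)
  obtain ⟨z, hz⟩ : X ∣ yi := by
    rw [hyi]
    exact dvd_add (dvd_pow_self X (by omega)) ((dvd_pow_self X (by omega)).mul_right _)
  obtain ⟨u, hu⟩ : ∃ u, y1 ^ (b * c) = yi ^ (b * c) + X ^ (s1 + 1) * ω * u := by
    set z1 := z + X ^ (s1 - 1) * ω with hz1
    have e1 : y1 = X * z1 := by
      rw [hy1, hz, hz1, mul_add, ← mul_assoc, ← pow_succ']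
      congr 3
      omega
    obtain ⟨v, hv⟩ := sub_dvd_pow_sub_pow z1 z (b * c)
    have e2 : z1 - z = X ^ (s1 - 1) * ω := by rw [hz1]; ring
    refine ⟨X ^ (b * c - 2) * v, ?_⟩
    have hbc : 2 ≤ b * c := by nlinarith
    have e3 : y1 ^ (b * c) - yi ^ (b * c) = X ^ (b * c) * (z1 ^ (b * c) - z ^ (b * c)) := by
      rw [e1, hz, mul_pow, mul_pow]; ring
    have e4 : y1 ^ (b * c) = yi ^ (b * c) + X ^ (b * c) * (X ^ (s1 - 1) * ω * v) := by
      rw [← e2, ← hv, ← e3]; ring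
    rw [e4]
    have e5 : (X : PowerSeries K) ^ (b * c) * (X ^ (s1 - 1) * ω * v)
        = (X ^ (b * c) * X ^ (s1 - 1)) * (ω * v) := by ring
    have e6 : (X : PowerSeries K) ^ (s1 + 1) * ω * (X ^ (b * c - 2) * v)
        = (X ^ (s1 + 1) * X ^ (b * c - 2)) * (ω * v) := by ring
    rw [e5, e6, ← pow_add, ← pow_add]
    congr 3
    omega
  -- (3)
  have hyia : yi ^ (b * c) = X ^ (2 * n) * (1 + X ^ (2 * n - 2 * c) * t ^ 2) ^ (b * c) := by
    have e1 : yi = X ^ (2 * c) * (1 + X ^ (2 * n - 2 * c) * t ^ 2) := by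
      rw [hyi]
      linear_combination (-t ^ 2) * hpow (2 * c) (2 * n - 2 * c) (2 * n) (by omega)
    rw [e1, mul_pow, ← pow_mul]
    congr 2
    rw [hn]; ring
  obtain ⟨ε, hε⟩ := ht
  have hq : 2 * n + ((b * c) ^ 2 - 2 * n) = (b * c) ^ 2 := by omega
  have hG0 : X ^ (2 * n) * t ^ 2 - yi ^ (b * c)
      = X ^ ((b * c) ^ 2) * (C μ * t ^ b) + X ^ M * (X ^ (2 * n) * ε) := by
    have e1 : t ^ 2 - (1 + X ^ (2 * n - 2 * c) * t ^ 2) ^ (b * c)
        = C μ * X ^ ((b * c) ^ 2 - 2 * n) * t ^ b + X ^ M * ε := by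
      have := hε
      rw [EE] at this
      rw [← this]; ring
    rw [hyia]
    calc X ^ (2 * n) * t ^ 2 - X ^ (2 * n) * (1 + X ^ (2 * n - 2 * c) * t ^ 2) ^ (b * c)
        = X ^ (2 * n) * (t ^ 2 - (1 + X ^ (2 * n - 2 * c) * t ^ 2) ^ (b * c)) := by ring
      _ = X ^ (2 * n) * (C μ * X ^ ((b * c) ^ 2 - 2 * n) * t ^ b + X ^ M * ε) := by rw [e1]
      _ = (X ^ (2 * n) * X ^ ((b * c) ^ 2 - 2 * n)) * (C μ * t ^ b)
            + X ^ M * (X ^ (2 * n) * ε) := by ring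
      _ = _ := by rw [← pow_add, hq]
  -- (5)
  obtain ⟨v, hv⟩ : ∃ v, (X ^ (2 * n) * t ^ 2 + X ^ s1 * ω) ^ b
      = X ^ (2 * (b * c) ^ 2) * (t ^ 2) ^ b + X ^ M * v := by
    set A' := t ^ 2 + X ^ (s1 - 2 * n) * ω with hA'
    have e1 : X ^ (2 * n) * t ^ 2 + X ^ s1 * ω = X ^ (2 * n) * A' := by
      rw [hA']
      linear_combination (-ω) * hpow (2 * n) (s1 - 2 * n) s1 (by omega)
    obtain ⟨v, hv⟩ := sub_dvd_pow_sub_pow A' (t ^ 2) b
    have e2 : A' - t ^ 2 = X ^ (s1 - 2 * n) * ω := by rw [hA']; ring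
    have e3 : A' ^ b = (t ^ 2) ^ b + X ^ (s1 - 2 * n) * ω * v := by
      rw [← e2, ← hv]; ring
    have e4 : 2 * n * b = 2 * (b * c) ^ 2 := by rw [← hnb]; ring
    have e5 : M ≤ 2 * n * b + (s1 - 2 * n) := by
      have : 3 * n ≤ n * b := by nlinarith
      rw [e4, hM]
      omega
    refine ⟨X ^ (2 * n * b + (s1 - 2 * n) - M) * (ω * v), ?_⟩
    rw [e1, mul_pow, ← pow_mul, e3, ← e4]
    have e6 := hpow (2 * n * b) (s1 - 2 * n) (2 * n * b + (s1 - 2 * n)) rfl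
    have e7 := hpow M (2 * n * b + (s1 - 2 * n) - M) (2 * n * b + (s1 - 2 * n)) (by omega)
    linear_combination (ω * v) * e6 - (ω * v) * e7
  -- assembly
  have hs : M ≤ 2 * s1 := by omega
  have e0 : y1 - X ^ (2 * c) = X ^ (2 * n) * t ^ 2 + X ^ s1 * ω := by rw [hy1, hyi]; ring
  have eG : (X ^ (2 * n) * t ^ 2 + X ^ s1 * ω) - y1 ^ (b * c)
      = X ^ ((b * c) ^ 2) * (C μ * t ^ b) + X ^ s1 * (ω * (1 - X * u)) +
        X ^ M * (X ^ (2 * n) * ε) := by
    rw [hu]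
    linear_combination hG0
  rw [FF, e0, eG, hv]
  set g := (C μ * t ^ b : PowerSeries K) with hg
  set k := ω * (1 - X * u) with hk
  have e7 : (2 : ℕ) * (b * c) ^ 2 = (b * c) ^ 2 + (b * c) ^ 2 := by ring
  have e8 : (X : PowerSeries K) ^ (s1 + s1) = X ^ M * X ^ (2 * s1 - M) := by
    rw [← pow_add]; congr 1; omega
  have e9 : (X : PowerSeries K) ^ ((b * c) ^ 2 + s1 + 1) = X ^ M := by
    congr 1; omega
  have e10 : (X ^ ((b * c) ^ 2) * g + X ^ s1 * k + X ^ M * (X ^ (2 * n) * ε)) ^ 2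
      - (C μ) ^ 2 * (X ^ (2 * (b * c) ^ 2) * (t ^ 2) ^ b + X ^ M * v)
      - X ^ (s1 + (b * c) ^ 2) * (2 * C μ * t ^ b * ω)
      = X ^ M * (X ^ (2 * s1 - M) * k ^ 2 - 2 * g * ω * u
        + X ^ (2 * n) * ε * (2 * (X ^ ((b * c) ^ 2) * g + X ^ s1 * k) + X ^ M * (X ^ (2 * n) * ε))
        - (C μ) ^ 2 * v) := by
    have e11 : (X : PowerSeries K) ^ (2 * (b * c) ^ 2) = X ^ ((b * c) ^ 2) * X ^ ((b * c) ^ 2) := by
      rw [e7, pow_add]
    have e12 : (X : PowerSeries K) ^ s1 * X ^ s1 = X ^ M * X ^ (2 * s1 - M) := by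
      rw [← pow_add, e8]
    have e13 : (X : PowerSeries K) ^ ((b * c) ^ 2) * X ^ s1 * X = X ^ M := by
      rw [← pow_add, ← pow_succ, e9]
    have e14 : (X : PowerSeries K) ^ (s1 + (b * c) ^ 2) = X ^ ((b * c) ^ 2) * X ^ s1 := by
      rw [← pow_add, add_comm]
    rw [e11, e14, hk, hg]
    linear_combination (ω * (1 - X * u)) ^ 2 * e12 - 2 * (C μ * t ^ b) * ω * u * e13
  rw [e10]
  exact Dvd.intro _ rfl

end

end MP_cea741_ag.Br
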