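import Mathlib
import Pool.Agent.Lib.MP_cea741_ag.ArcA

/-!
Classification of the subschemes of the affine plane isomorphic to `Spec k[x,y]/(y, x^r)^m`.
-/

namespace MP_cea741_ag.Cls

open MvPolynomial MP_cea741_ag Arc

/-- A surjective endomorphism of a Noetherian ring is injective. -/
theorem inj_of_surj {A : Type*} [CommRing A] [IsNoetherianRing A] (f : A →+* A)
    (hf : Function.Surjective f) : Function.Injective f := by
  let K : ℕ →o Ideal A :=
    ⟨fun n => RingHom.ker (f ^ n), by
      intro a b hab x hx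
      obtain ⟨c, rfl⟩ := Nat.exists_eq_add_of_le hab
      rw [RingHom.mem_ker] at hx ⊢
      rw [add_comm, pow_add]
      change (f ^ c) ((f ^ a) x) = 0
      rw [hx, map_zero]⟩
  obtain ⟨n, hn⟩ := monotone_stabilizes_iff_noetherian.2 (inferInstance : IsNoetherian A A) K
  have h1 := hn (n + 1) (Nat.le_succ n)
  have hsurj : ∀ n : ℕ, Function.Surjective (f ^ n : A →+* A) := by
    intro n
    induction n with
    | zero => intro x; exact ⟨x, rfl⟩
    | succ n ih =>
      intro x
      obtain ⟨y, hy⟩ := ih x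
      obtain ⟨z, hz⟩ := hf y
      refine ⟨z, ?_⟩
      rw [pow_succ]
      change (f ^ n) (f z) = x
      rw [hz, hy]
  rw [injective_iff_map_eq_zero]
  intro x hx
  obtain ⟨y, rfl⟩ := hsurj n x
  have h2 : y ∈ K (n + 1) := by
    change y ∈ RingHom.ker (f ^ (n + 1))
    rw [RingHom.mem_ker, pow_succ']
    exact hx
  rw [← h1] at h2
  exact h2

/-- every polynomial is a polynomial of degree `< n` in `w` modulo `X^n` if `w = X * unit`. -/
theorem exists_approx {k : Type*} [Field k] (w2 v : Polynomial k)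
    (hw : w2.coeff 0 ≠ 0) (n : ℕ) :
    ∃ c : Fin n → k, (Polynomial.X : Polynomial k) ^ n ∣
      v - ∑ i, Polynomial.C (c i) * (Polynomial.X * w2) ^ (i : ℕ) := by
  induction n with
  | zero => exact ⟨fun i => i.elim0, by simp⟩
  | succ n ih =>
    obtain ⟨c, e, he⟩ := ih
    refine ⟨Fin.snoc c (e.coeff 0 / (w2.coeff 0) ^ n), ?_⟩
    rw [Fin.sum_univ_castSucc]
    simp only [Fin.snoc_castSucc, Fin.snoc_last, Fin.val_castSucc, Fin.val_last]
    rw [← sub_sub, he, pow_succ, mul_pow]
    have h2 : (Polynomial.X : Polynomial k) ∣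
        e - Polynomial.C (e.coeff 0 / (w2.coeff 0) ^ n) * w2 ^ n := by
      rw [Polynomial.X_dvd_iff, Polynomial.coeff_sub, Polynomial.coeff_C_mul,
        Polynomial.coeff_zero_eq_eval_zero (w2 ^ n), Polynomial.eval_pow,
        ← Polynomial.coeff_zero_eq_eval_zero]
      field_simp
      ring
    obtain ⟨e', he'⟩ := h2
    refine ⟨e', ?_⟩
    rw [mul_assoc, ← he']
    ring

/-- restriction to the line `y = 0` -/
noncomputable def kap (k : Type*) [Field k] : MvPolynomial (Fin 2) k →ₐ[k] Polynomial k :=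
  aeval ![Polynomial.X, 0]

theorem mem_span_of_kap {k : Type*} [Field k] (r : ℕ) (G : MvPolynomial (Fin 2) k)
    (h : (Polynomial.X : Polynomial k) ^ r ∣ kap k G) :
    G ∈ (Ideal.span {X 1, X 0 ^ r} : Ideal (MvPolynomial (Fin 2) k)) := by
  set π : MvPolynomial (Fin 2) k →ₐ[k] _ :=
    Ideal.Quotient.mkₐ k (Ideal.span {X 1} : Ideal (MvPolynomial (Fin 2) k)) with hπ
  set s : Polynomial k →ₐ[k] MvPolynomial (Fin 2) k := Polynomial.aeval (X 0) with hs
  have h1 : (π.comp s).comp (kap k) = π := by
    apply MvPolynomial.algHom_ext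
    intro i
    fin_cases i
    · simp [kap, hs]
    · have : π (X 1) = 0 := by
        rw [hπ, Ideal.Quotient.mkₐ_eq_mk, Ideal.Quotient.eq_zero_iff_mem]
        exact Ideal.subset_span rfl
      simp [kap, this]
  have h2 : G - s (kap k G) ∈ (Ideal.span {X 1} : Ideal (MvPolynomial (Fin 2) k)) := by
    rw [← Ideal.Quotient.eq_zero_iff_mem, map_sub, sub_eq_zero]
    exact (congrArg (fun f => f G) h1).symm
  have h3 : s (kap k G) ∈ (Ideal.span {X 1, X 0 ^ r} : Ideal (MvPolynomial (Fin 2) k)) := by
    obtain ⟨q, hq⟩ := h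
    rw [hq, map_mul, map_pow]
    have : s Polynomial.X = X 0 := by simp [hs]
    rw [this]
    exact Ideal.mul_mem_right _ _ (Ideal.subset_span (by simp))
  have h4 : G - s (kap k G) ∈ (Ideal.span {X 1, X 0 ^ r} : Ideal (MvPolynomial (Fin 2) k)) :=
    Ideal.span_mono (by simp) h2
  have := Ideal.add_mem _ h4 h3
  simpa using this

theorem kap_of_mem_span {k : Type*} [Field k] (r : ℕ) (G : MvPolynomial (Fin 2) k)
    (h : G ∈ (Ideal.span {X 1, X 0 ^ r} : Ideal (MvPolynomial (Fin 2) k))) :
    (Polynomial.X : Polynomial k) ^ r ∣ kap k G := by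
  obtain ⟨a, b, rfl⟩ := Ideal.mem_span_pair.1 h
  simp [kap]

/-- the case where the `x`-coordinate is a parameter -/
theorem classify_aux {k : Type*} [Field k] (r m : ℕ)
    (J I1 : Ideal (MvPolynomial (Fin 2) k)) (hI1 : I1 = Ideal.span {X 1, X 0 ^ r})
    (e : (MvPolynomial (Fin 2) k ⧸ J) ≃ₐ[k] (MvPolynomial (Fin 2) k ⧸ I1 ^ m))
    (U : Fin 2 → MvPolynomial (Fin 2) k)
    (hU : ∀ i, e (Ideal.Quotient.mk J (X i)) = Ideal.Quotient.mk _ (U i))
    (h1 : (kap k (U 0)).coeff 1 ≠ 0) : ∃ (a : k) (c : Fin r → k), J = arcIdeal a c ^ m := by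
  have hF : ∀ F : MvPolynomial (Fin 2) k, e (Ideal.Quotient.mk J F) =
      Ideal.Quotient.mk (I1 ^ m) (aeval U F) := by
    intro F
    have h2 : (e : _ →ₐ[k] _).comp (Ideal.Quotient.mkₐ k J) =
        (Ideal.Quotient.mkₐ k (I1 ^ m)).comp (aeval U) := by
      apply MvPolynomial.algHom_ext
      intro i
      simpa using hU i
    exact congrArg (fun f => f F) h2
  have hJ : ∀ F, F ∈ J ↔ aeval U F ∈ I1 ^ m := by
    intro F
    rw [← Ideal.Quotient.eq_zero_iff_mem (I := J), ← Ideal.Quotient.eq_zero_iff_mem (I := I1 ^ m),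
      ← hF]
    exact (map_eq_zero_iff e e.injective).symm
  set u := kap k (U 0) with hu
  set v := kap k (U 1) with hv
  obtain ⟨w2, hw2⟩ : (Polynomial.X : Polynomial k) ∣ u - Polynomial.C (u.coeff 0) := by
    rw [Polynomial.X_dvd_iff]; simp
  have hw20 : w2.coeff 0 ≠ 0 := by
    have h3 := congrArg (fun f => Polynomial.coeff f 1) hw2
    simp only [Polynomial.coeff_sub, Polynomial.coeff_C, one_ne_zero, if_false, sub_zero] at h3
    rw [Polynomial.coeff_X_mul] at h3
    rw [← h3]
    exact h1
  obtain ⟨c, hc⟩ := exists_approx w2 v hw20 r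
  refine ⟨u.coeff 0, c, ?_⟩
  set a := u.coeff 0 with ha
  have hkU : ∀ F : MvPolynomial (Fin 2) k,
      kap k (aeval (R := k) U F) = aeval (R := k) ![u, v] F := by
    intro F
    have h2 : (kap k).comp (aeval (R := k) U) = aeval (R := k) ![u, v] := by
      apply MvPolynomial.algHom_ext
      intro i
      fin_cases i
      · simp [hu]
      · simp [hv]
    exact congrArg (fun f => f F) h2
  have hle : Ideal.map (aeval (R := k) U : MvPolynomial (Fin 2) k →ₐ[k] MvPolynomial (Fin 2) k) (arcIdeal a c) ≤ I1 := by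
    rw [arcIdeal, Ideal.map_span, Ideal.span_le, Set.image_pair, hI1]
    intro G hG
    rcases hG with rfl | rfl
    · apply mem_span_of_kap
      rw [hkU]
      have h4 : aeval (R := k) ![u, v] (X 1 - ∑ i, C (c i) * (X 0 - C a) ^ (i : ℕ)) =
          v - ∑ i, Polynomial.C (c i) * (Polynomial.X * w2) ^ (i : ℕ) := by
        rw [← hw2]
        simp
      rw [h4]
      exact hc
    · apply mem_span_of_kap
      rw [hkU]
      have h4 : aeval (R := k) ![u, v] ((X 0 - C a) ^ r) = (Polynomial.X * w2) ^ r := by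
        rw [← hw2]
        simp
      rw [h4, mul_pow]
      exact Dvd.intro _ rfl
  have hle2 : arcIdeal a c ^ m ≤ J := by
    intro F hF2
    rw [hJ]
    have h5 := Ideal.mem_map_of_mem
      (aeval (R := k) U : MvPolynomial (Fin 2) k →ₐ[k] MvPolynomial (Fin 2) k) hF2
    rw [Ideal.map_pow] at h5
    exact Ideal.pow_right_mono hle m h5
  obtain ⟨e2⟩ := quotient_equiv (r := r) m a c
  rw [← hI1] at e2
  refine le_antisymm ?_ hle2
  -- the surjection `R/arc^m → R/J ≃ R/I1^m ≃ R/arc^m` is injective
  set p : (MvPolynomial (Fin 2) k ⧸ arcIdeal a c ^ m) →+* (MvPolynomial (Fin 2) k ⧸ J) :=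
    Ideal.Quotient.factor hle2 with hp
  have hps : Function.Surjective p := Ideal.Quotient.factor_surjective hle2
  have hinj := inj_of_surj (e2.toAlgHom.toRingHom.comp (e.toAlgHom.toRingHom.comp p)) (by
    intro x
    obtain ⟨y, hy⟩ := e2.surjective x
    obtain ⟨z, hz⟩ := e.surjective y
    obtain ⟨t, ht⟩ := hps z
    refine ⟨t, ?_⟩
    change e2 (e (p t)) = x
    rw [ht, hz, hy])
  intro F hF3
  rw [← Ideal.Quotient.eq_zero_iff_mem]
  apply hinj
  rw [map_zero]
  change e2 (e (p (Ideal.Quotient.mk _ F))) = 0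
  have : p (Ideal.Quotient.mk _ F) = 0 := by
    rw [hp, Ideal.Quotient.factor_mk, Ideal.Quotient.eq_zero_iff_mem]
    exact hF3
  rw [this, map_zero, map_zero]

/-- exchange of the two variables -/
noncomputable def swp (k : Type*) [Field k] : MvPolynomial (Fin 2) k →ₐ[k] MvPolynomial (Fin 2) k :=
  aeval ![X 1, X 0]

theorem swp_swp {k : Type*} [Field k] (F : MvPolynomial (Fin 2) k) : swp k (swp k F) = F := by
  have h : (swp k).comp (swp k) = AlgHom.id k _ := by
    apply MvPolynomial.algHom_ext
    intro i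
    fin_cases i
    · simp [swp]
    · simp [swp]
  exact congrArg (fun f => f F) h

/-- **Classification.** An ideal `J` of `k[x,y]` whose quotient is isomorphic, as a `k`-algebra, to
`k[x,y]/(y, x^r)^m` is `(y - ∑ c_i (x-a)^i, (x-a)^r)^m` for some `a`, `c`, or this holds after
exchanging `x` and `y`. -/
theorem classify {k : Type*} [Field k] (r m : ℕ) (hr : 2 ≤ r) (hm : 1 ≤ m)
    (J : Ideal (MvPolynomial (Fin 2) k))
    (h : Nonempty ((MvPolynomial (Fin 2) k ⧸ J) ≃ₐ[k] (MvPolynomial (Fin 2) k ⧸
      (Ideal.span {X 1, X 0 ^ r} ^ m : Ideal (MvPolynomial (Fin 2) k))))) :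
    ∃ (a : k) (c : Fin r → k), J = arcIdeal a c ^ m ∨ J.map (swp k) = arcIdeal a c ^ m := by
  obtain ⟨e⟩ := h
  have hex : ∀ i, ∃ U : MvPolynomial (Fin 2) k,
      e (Ideal.Quotient.mk J (X i)) = Ideal.Quotient.mk _ U := fun i =>
    ⟨_, (Ideal.Quotient.mk_surjective (e (Ideal.Quotient.mk J (X i)))).choose_spec.symm⟩
  choose U hU using hex
  by_cases h0 : (kap k (U 0)).coeff 1 ≠ 0
  · obtain ⟨a, c, hac⟩ := classify_aux r m J _ rfl e U hU h0
    exact ⟨a, c, Or.inl hac⟩
  by_cases h1 : (kap k (U 1)).coeff 1 ≠ 0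
  · have hJ2 : J.map (swp k) = J.comap (swp k) := by
      apply le_antisymm
      · rw [Ideal.map_le_iff_le_comap]
        intro F hF
        rw [Ideal.mem_comap, Ideal.mem_comap]
        change swp k (swp k F) ∈ J
        rwa [swp_swp]
      · intro F hF
        have h2 := Ideal.mem_map_of_mem (swp k) (Ideal.mem_comap.1 hF)
        rwa [swp_swp] at h2
    set sw : MvPolynomial (Fin 2) k ≃ₐ[k] MvPolynomial (Fin 2) k :=
      AlgEquiv.ofAlgHom (swp k) (swp k) (AlgHom.ext swp_swp) (AlgHom.ext swp_swp) with hsw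
    set e3 : (MvPolynomial (Fin 2) k ⧸ J) ≃ₐ[k] (MvPolynomial (Fin 2) k ⧸ J.map (swp k)) :=
      Ideal.quotientEquivAlg _ _ sw rfl with he3
    obtain ⟨a, c, hac⟩ := classify_aux r m (J.map (swp k)) _ rfl (e3.symm.trans e)
      ![U 1, U 0] (by
        intro i
        fin_cases i
        · have h2 : e3 (Ideal.Quotient.mk J (X 1)) = Ideal.Quotient.mk _ (X 0) := by
            have h3 : e3 (Ideal.Quotient.mk J (X 1)) = Ideal.Quotient.mk _ (swp k (X 1)) := rfl
            rw [h3]
            congr 1
            simp [swp]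
          change e (e3.symm (Ideal.Quotient.mk _ (X 0))) = Ideal.Quotient.mk _ (U 1)
          rw [← h2, AlgEquiv.symm_apply_apply]
          exact hU 1
        · have h2 : e3 (Ideal.Quotient.mk J (X 0)) = Ideal.Quotient.mk _ (X 1) := by
            have h3 : e3 (Ideal.Quotient.mk J (X 0)) = Ideal.Quotient.mk _ (swp k (X 0)) := rfl
            rw [h3]
            congr 1
            simp [swp]
          change e (e3.symm (Ideal.Quotient.mk _ (X 1))) = Ideal.Quotient.mk _ (U 0)
          rw [← h2, AlgEquiv.symm_apply_apply]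
          exact hU 0) (by simpa using h1)
    exact ⟨a, c, Or.inr hac⟩
  · exfalso
    push Not at h0 h1
    -- the composite is constant modulo `X^2`
    obtain ⟨F', hF'⟩ := e.surjective (Ideal.Quotient.mk _ (X 0))
    obtain ⟨F, rfl⟩ := Ideal.Quotient.mk_surjective F'
    have h2 : e (Ideal.Quotient.mk J F) =
        Ideal.Quotient.mk (Ideal.span {X 1, X 0 ^ r} ^ m : Ideal (MvPolynomial (Fin 2) k))
          (aeval (R := k) U F) := by
      have h3 : (e : _ →ₐ[k] _).comp (Ideal.Quotient.mkₐ k J) =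
          (Ideal.Quotient.mkₐ k (Ideal.span {X 1, X 0 ^ r} ^ m :
            Ideal (MvPolynomial (Fin 2) k))).comp (aeval (R := k) U) := by
        apply MvPolynomial.algHom_ext
        intro i
        simpa using hU i
      exact congrArg (fun f => f F) h3
    rw [h2, Ideal.Quotient.eq] at hF'
    have h4 := kap_of_mem_span r _ (Ideal.pow_le_self (by omega) hF')
    have h5 : kap k (aeval (R := k) U F) = aeval (R := k) (fun i => kap k (U i)) F := by
      have h6 : (kap k).comp (aeval (R := k) U) = aeval (R := k) (fun i => kap k (U i)) := by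
        apply MvPolynomial.algHom_ext
        intro i
        simp
      exact congrArg (fun f => f F) h6
    rw [map_sub, h5] at h4
    have h7 : kap k (X 0) = Polynomial.X := by simp [kap]
    rw [h7] at h4
    have h8 := (pow_dvd_pow Polynomial.X hr).trans h4
    -- reduce modulo X^2
    set Q := Ideal.Quotient.mkₐ k (Ideal.span {(Polynomial.X : Polynomial k) ^ 2}) with hQ
    have h9 : Q (aeval (R := k) (fun i => kap k (U i)) F) =
        Q (Polynomial.C (eval (fun i => (kap k (U i)).coeff 0) F)) := by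
      have h10 : Q.comp (aeval (R := k) (fun i => kap k (U i))) =
          (Algebra.ofId k _).comp (aeval (R := k) (fun i => (kap k (U i)).coeff 0)) := by
        apply MvPolynomial.algHom_ext
        intro i
        have hi : (kap k (U i)).coeff 1 = 0 := by
          fin_cases i
          · exact h0
          · exact h1
        have h11 : kap k (U i) - Polynomial.C ((kap k (U i)).coeff 0) ∈
            Ideal.span {(Polynomial.X : Polynomial k) ^ 2} := by
          rw [Ideal.mem_span_singleton, Polynomial.X_pow_dvd_iff]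
          intro d hd
          interval_cases d
          · simp
          · simp [hi]
        have h12 : Q (kap k (U i)) = Q (Polynomial.C ((kap k (U i)).coeff 0)) := by
          rw [← sub_eq_zero, ← map_sub, hQ, Ideal.Quotient.mkₐ_eq_mk,
            Ideal.Quotient.eq_zero_iff_mem]
          exact h11
        simp only [AlgHom.comp_apply, aeval_X]
        rw [h12]
        rfl
      have h13 := congrArg (fun f => f F) h10
      simp only [AlgHom.comp_apply] at h13
      rw [h13]
      rfl
    have h14 : Q Polynomial.X = Q (Polynomial.C (eval (fun i => (kap k (U i)).coeff 0) F)) := by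
      rw [← h9, ← sub_eq_zero, ← map_sub, hQ, Ideal.Quotient.mkₐ_eq_mk,
        Ideal.Quotient.eq_zero_iff_mem, Ideal.mem_span_singleton]
      rw [← dvd_neg]
      simpa using h8
    rw [← sub_eq_zero, ← map_sub, hQ, Ideal.Quotient.mkₐ_eq_mk,
        Ideal.Quotient.eq_zero_iff_mem, Ideal.mem_span_singleton, Polynomial.X_pow_dvd_iff] at h14
    have h15 := h14 1 (by norm_num)
    simp at h15

end MP_cea741_ag.Cls
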