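import Mathlib

/-! Lacunary polynomials in characteristic zero and generic two point conditions. -/

namespace MP_cea741_ag.Hil

open Polynomial

noncomputable section

variable {K : Type*} [Field K]

/-- exponents of the monomials `w^e` in `k[w, w^s]_{≤ D}`. -/
def Eset (s D : ℕ) : Finset ℕ := (Finset.range (s * D + 1)).filter (fun e => e % s + e / s ≤ D)

/-- function with pole of order `≤ τ` at `q`, polynomial part supported in `E`, and zero of order
`≥ a` at `1` vanishes. -/
def G1 (E : Finset ℕ) (τ a : ℕ) (q : K) : Prop :=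
  ∀ P R : K[X], P.support ⊆ E → R.degree < (τ : WithBot ℕ) →
    (X - 1) ^ a ∣ (X - C q) ^ τ * P + R → P = 0 ∧ R = 0

/-- polynomial supported in `E` with a zero of order `≥ a` at `1` and `≥ b` at `q` vanishes. -/
def G2 (E : Finset ℕ) (a b : ℕ) (q : K) : Prop :=
  ∀ P : K[X], P.support ⊆ E → (X - 1) ^ a ∣ P → (X - C q) ^ b ∣ P → P = 0

theorem lac_aux [CharZero K] (ρ : K) (hρ : ρ ≠ 0) (n : ℕ) : ∀ (E : Finset ℕ) (P : K[X]),
    E.card = n → P.support ⊆ E → (X - C ρ) ^ n ∣ P → P = 0 := by
  classical
  induction n with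
  | zero =>
    intro E P hE hP _
    rw [Finset.card_eq_zero] at hE
    subst hE
    exact Polynomial.support_eq_empty.mp (Finset.subset_empty.mp hP)
  | succ n ih =>
    intro E P hE hP h
    obtain ⟨e0, he0⟩ : E.Nonempty := by rw [← Finset.card_pos]; omega
    set Q : K[X] := X * derivative P - C (e0 : K) * P with hQ
    have hQc : ∀ e, Q.coeff e = ((e : K) - e0) * P.coeff e := by
      intro e
      rw [hQ, coeff_sub, coeff_C_mul]
      cases e with
      | zero => simp
      | succ e => rw [coeff_X_mul, coeff_derivative]; push_cast; ring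
    have hQs : Q.support ⊆ E.erase e0 := by
      intro e he
      rw [mem_support_iff, hQc] at he
      rw [Finset.mem_erase]
      refine ⟨?_, hP (mem_support_iff.mpr (right_ne_zero_of_mul he))⟩
      rintro rfl
      simp at he
    have hQd : (X - C ρ) ^ n ∣ Q := by
      obtain ⟨S, hS⟩ := h
      rw [hQ]
      refine dvd_sub (Dvd.dvd.mul_left ?_ _) (Dvd.dvd.mul_left ?_ _)
      · rw [hS, derivative_mul, derivative_X_sub_C_pow]
        simp only [Nat.add_sub_cancel]
        exact dvd_add (((dvd_refl _).mul_left _).mul_right _) ((pow_dvd_pow _ (Nat.le_succ n)).mul_right _)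
      · exact (pow_dvd_pow _ (Nat.le_succ n)).trans ⟨S, hS⟩
    have hQ0 := ih (E.erase e0) Q (by rw [Finset.card_erase_of_mem he0]; omega) hQs hQd
    have hP0 : ∀ e, e ≠ e0 → P.coeff e = 0 := by
      intro e he
      have h1 := hQc e
      rw [hQ0, coeff_zero] at h1
      rcases mul_eq_zero.mp h1.symm with h2 | h2
      · exact absurd (by exact_mod_cast sub_eq_zero.mp h2) he
      · exact h2
    have hP1 : P = C (P.coeff e0) * X ^ e0 := by
      ext e
      rw [coeff_C_mul_X_pow]
      split_ifs with he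
      · rw [he]
      · exact hP0 e he
    have h3 : P.eval ρ = 0 := by
      obtain ⟨S, hS⟩ := h
      rw [hS, eval_mul, eval_pow]
      simp
    rw [hP1, eval_mul, eval_C, eval_pow, eval_X] at h3
    rcases mul_eq_zero.mp h3 with h4 | h4
    · rw [hP1, h4]; simp
    · exact absurd h4 (pow_ne_zero _ hρ)

theorem lac [CharZero K] (ρ : K) (hρ : ρ ≠ 0) (E : Finset ℕ) (P : K[X]) (hP : P.support ⊆ E)
    (h : (X - C ρ) ^ E.card ∣ P) : P = 0 := lac_aux ρ hρ E.card E P rfl hP h

theorem finite_bad {k τ ι : Type*} [Field k] [Fintype τ] [Fintype ι] [DecidableEq ι] [DecidableEq τ]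
    (M : Matrix τ ι k[X]) (c : k)
    (h : ∀ v : ι → k, (M.map (eval c)).mulVec v = 0 → v = 0) :
    {q : k | ¬ ∀ v : ι → k, (M.map (eval q)).mulVec v = 0 → v = 0}.Finite := by
  classical
  have hinj : Function.Injective (Matrix.mulVecLin (M.map (eval c))) := by
    rw [← LinearMap.ker_eq_bot, LinearMap.ker_eq_bot']
    intro v hv
    exact h v hv
  obtain ⟨g, hg⟩ := LinearMap.exists_leftInverse_of_injective (Matrix.mulVecLin (M.map (eval c)))
    (LinearMap.ker_eq_bot.mpr hinj)
  set N : Matrix ι τ k := LinearMap.toMatrix' g with hN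
  have hNM : N * (M.map (eval c)) = 1 := by
    have : LinearMap.toMatrix' (g ∘ₗ Matrix.mulVecLin (M.map (eval c))) = 1 := by
      rw [hg]; exact LinearMap.toMatrix'_id
    rw [LinearMap.toMatrix'_comp] at this
    rwa [← Matrix.toLin'_apply', LinearMap.toMatrix'_toLin'] at this
  set D : k[X] := (N.map C * M).det with hD
  have hev : ∀ q : k, D.eval q = (N * (M.map (eval q))).det := by
    intro q
    have h1 : (evalRingHom q).mapMatrix (N.map C * M) = N * (M.map (eval q)) := by
      ext i j
      simp [Matrix.mul_apply, eval_finsetSum]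
    rw [← h1, ← RingHom.map_det]
    rfl
  have hD0 : D ≠ 0 := by
    intro h0
    have h1 := hev c
    rw [h0, hNM] at h1
    simp at h1
  refine (D.rootSet_finite k).subset ?_
  intro q hq
  rw [mem_rootSet]
  refine ⟨hD0, ?_⟩
  rw [coe_aeval_eq_eval]
  by_contra hne
  apply hq
  intro v hv
  rw [hev] at hne
  refine Matrix.eq_zero_of_mulVec_eq_zero hne ?_
  rw [← Matrix.mulVec_mulVec, hv, Matrix.mulVec_zero]

theorem shift_dvd (P : K[X]) (a : ℕ) :
    (X - 1) ^ a ∣ P ↔ ∀ t < a, (P.comp (X + 1)).coeff t = 0 := by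
  rw [← X_pow_dvd_iff]
  constructor
  · rintro ⟨S, rfl⟩
    refine ⟨S.comp (X + 1), ?_⟩
    simp
  · rintro ⟨S, hS⟩
    refine ⟨S.comp (X - 1), ?_⟩
    have h1 : P = (P.comp (X + 1)).comp (X - 1) := by rw [comp_assoc]; simp
    rw [h1, hS]; simp

theorem eq_sum_of_support (E : Finset ℕ) (P : K[X]) (hP : P.support ⊆ E) :
    P = ∑ e ∈ E, C (P.coeff e) * X ^ e := by
  conv_lhs => rw [P.as_sum_support_C_mul_X_pow]
  refine Finset.sum_subset hP fun e _ he => ?_
  rw [notMem_support_iff] at he
  rw [he]; simp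

theorem g1_finite [CharZero K] (E : Finset ℕ) (τ a : ℕ) (h : E.card + τ ≤ a) :
    {q : K | ¬ G1 E τ a q}.Finite := by
  classical
  let col : {e // e ∈ E} ⊕ Fin τ → K[X][X] :=
    Sum.elim (fun e => (X - C X) ^ τ * X ^ (e : ℕ)) (fun j => X ^ (j : ℕ))
  let colq : K → {e // e ∈ E} ⊕ Fin τ → K[X] := fun q =>
    Sum.elim (fun e => (X - C q) ^ τ * X ^ (e : ℕ)) (fun j => X ^ (j : ℕ))
  have hcol : ∀ q i, (col i).map (evalRingHom q) = colq q i := by
    intro q i
    rcases i with e | j
    · simp [col, colq]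
    · simp [col, colq]
  let M : Matrix (Fin a) ({e // e ∈ E} ⊕ Fin τ) K[X] := fun t i => ((col i).comp (X + 1)).coeff t
  have hM : ∀ (q : K) (v : {e // e ∈ E} ⊕ Fin τ → K) (t : Fin a),
      (M.map (eval q)).mulVec v t = ((∑ i, C (v i) * colq q i).comp (X + 1)).coeff t := by
    intro q v t
    rw [Polynomial.sum_comp, finsetSum_coeff, Matrix.mulVec, dotProduct]
    refine Finset.sum_congr rfl fun i _ => ?_
    rw [mul_comp, C_comp, coeff_C_mul, mul_comm, Matrix.map_apply]
    congr 1
    simp only [M]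
    rw [← hcol, ← coe_evalRingHom, ← coeff_map, Polynomial.map_comp]
    simp
  have hsum : ∀ (q : K) (v : {e // e ∈ E} ⊕ Fin τ → K), (∑ i, C (v i) * colq q i) =
      (X - C q) ^ τ * (∑ e : {e // e ∈ E}, C (v (Sum.inl e)) * X ^ (e : ℕ)) +
        ∑ j : Fin τ, C (v (Sum.inr j)) * X ^ (j : ℕ) := by
    intro q v
    rw [Fintype.sum_sum_type, Finset.mul_sum]
    congr 1
    refine Finset.sum_congr rfl fun e _ => ?_
    simp only [colq, Sum.elim_inl]
    ring
  have hinj0 : ∀ v : {e // e ∈ E} ⊕ Fin τ → K, (M.map (eval 0)).mulVec v = 0 → v = 0 := by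
    intro v hv
    set P : K[X] := ∑ e : {e // e ∈ E}, C (v (Sum.inl e)) * X ^ (e : ℕ) with hP
    set R : K[X] := ∑ j : Fin τ, C (v (Sum.inr j)) * X ^ (j : ℕ) with hR
    have hPc : ∀ e : {e // e ∈ E}, P.coeff e = v (Sum.inl e) := by
      intro e
      rw [hP, finsetSum_coeff, Finset.sum_eq_single e]
      · simp
      · intro b _ hb
        rw [coeff_C_mul, coeff_X_pow, if_neg, mul_zero]
        intro h1; exact hb (Subtype.ext h1.symm)
      · simp
    have hPs : P.support ⊆ E := by
      intro e he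
      by_contra hne
      rw [mem_support_iff] at he
      apply he
      rw [hP, finsetSum_coeff]
      refine Finset.sum_eq_zero fun b _ => ?_
      rw [coeff_C_mul, coeff_X_pow, if_neg, mul_zero]
      rintro rfl; exact hne b.2
    have hRc : ∀ j : Fin τ, R.coeff j = v (Sum.inr j) := by
      intro j
      rw [hR, finsetSum_coeff, Finset.sum_eq_single j]
      · simp
      · intro b _ hb
        rw [coeff_C_mul, coeff_X_pow, if_neg, mul_zero]
        intro h1; exact hb (Fin.ext h1.symm)
      · simp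
    have hRs : ∀ j, τ ≤ j → R.coeff j = 0 := by
      intro j hj
      rw [hR, finsetSum_coeff]
      refine Finset.sum_eq_zero fun b _ => ?_
      rw [coeff_C_mul, coeff_X_pow, if_neg, mul_zero]
      have := b.2; omega
    set S : K[X] := X ^ τ * P + R with hS
    have hSd : (X - C (1 : K)) ^ a ∣ S := by
      rw [C_1, shift_dvd]
      intro t ht
      have h1 := congrFun hv ⟨t, ht⟩
      rw [hM, hsum, C_0, sub_zero] at h1
      exact h1
    have hSs : S.support ⊆ (E.image (fun e => e + τ)) ∪ Finset.range τ := by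
      intro e he
      rw [Finset.mem_union, Finset.mem_image, Finset.mem_range]
      by_cases h1 : e < τ
      · exact Or.inr h1
      · left
        rw [mem_support_iff, hS, coeff_add, hRs e (by omega), add_zero, coeff_X_pow_mul',
          if_pos (by omega)] at he
        exact ⟨e - τ, hPs (mem_support_iff.mpr he), by omega⟩
    have hcard : ((E.image (fun e => e + τ)) ∪ Finset.range τ).card ≤ a := by
      refine (Finset.card_union_le _ _).trans ?_
      rw [Finset.card_range]
      have := Finset.card_image_le (s := E) (f := fun e => e + τ)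
      omega
    have hS0 : S = 0 := lac 1 one_ne_zero _ S hSs ((pow_dvd_pow _ hcard).trans hSd)
    funext i
    rcases i with e | j
    · have h1 : S.coeff (e + τ) = 0 := by rw [hS0]; simp
      rw [hS, coeff_add, hRs _ (by omega), add_zero, coeff_X_pow_mul] at h1
      rw [Pi.zero_apply, ← hPc, h1]
    · have h1 : S.coeff j = 0 := by rw [hS0]; simp
      rw [hS, coeff_add, coeff_X_pow_mul', if_neg (by have := j.2; omega), zero_add] at h1
      rw [Pi.zero_apply, ← hRc, h1]
  refine (finite_bad M 0 hinj0).subset ?_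
  intro q hq hinj
  apply hq
  intro P R hP hR hdiv
  have h1 := hinj (Sum.elim (fun e => P.coeff e) (fun j => R.coeff j)) (by
    funext t
    rw [hM, hsum, Pi.zero_apply]
    have e1 : ∑ e : {e // e ∈ E}, C (Sum.elim (fun e : {e // e ∈ E} => P.coeff e)
        (fun j : Fin τ => R.coeff j) (Sum.inl e)) * X ^ (e : ℕ) = P := by
      conv_rhs => rw [eq_sum_of_support E P hP]
      rw [← Finset.sum_coe_sort E]
      rfl
    have e2 : ∑ j : Fin τ, C (Sum.elim (fun e : {e // e ∈ E} => P.coeff e)
        (fun j : Fin τ => R.coeff j) (Sum.inr j)) * X ^ (j : ℕ) = R := by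
      have h3 : R = ∑ i ∈ Finset.range τ, C (R.coeff i) * X ^ i := by
        conv_lhs => rw [eq_sum_of_support (Finset.range τ) R (by
          intro e he
          rw [Finset.mem_range]
          by_contra h4
          rw [mem_support_iff] at he
          exact he (coeff_eq_zero_of_degree_lt (hR.trans_le (by exact_mod_cast not_lt.mp h4))))]
      conv_rhs => rw [h3]
      rw [← Fin.sum_univ_eq_sum_range (fun i => C (R.coeff i) * X ^ i)]
      rfl
    rw [e1, e2]
    exact (shift_dvd _ a).mp hdiv t t.2)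
  constructor
  · ext e
    by_cases he : e ∈ E
    · have := congrFun h1 (Sum.inl ⟨e, he⟩)
      simpa using this
    · rw [coeff_zero]
      by_contra h2
      exact he (hP (mem_support_iff.mpr h2))
  · ext j
    by_cases hj : j < τ
    · have := congrFun h1 (Sum.inr ⟨j, hj⟩)
      simpa using this
    · rw [coeff_zero]
      exact coeff_eq_zero_of_degree_lt (hR.trans_le (by exact_mod_cast not_lt.mp hj))

theorem g2_finite [CharZero K] (E : Finset ℕ) (a b : ℕ) (h : E.card ≤ a + b) :
    {q : K | ¬ G2 E a b q}.Finite := by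
  classical
  let Dq : K → K[X] := fun q => (X - 1) ^ a * (X - C q) ^ b
  let DD : K[X][X] := (X - 1) ^ a * (X - C X) ^ b
  have hX1 : ∀ (A : Type _) [CommRing A], (X - 1 : A[X]).Monic := by
    intro A _
    have := monic_X_sub_C (1 : A)
    rwa [C_1] at this
  have hDDm : DD.Monic := ((hX1 K[X]).pow a).mul ((monic_X_sub_C _).pow b)
  have hDqm : ∀ q, (Dq q).Monic := fun q => ((hX1 K).pow a).mul ((monic_X_sub_C _).pow b)
  have hDdeg : ∀ q, (Dq q).natDegree = a + b := by
    intro q
    rw [((hX1 K).pow a).natDegree_mul ((monic_X_sub_C _).pow b), (hX1 K).natDegree_pow,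
      (monic_X_sub_C q).natDegree_pow, natDegree_X_sub_C]
    have := natDegree_X_sub_C (1 : K)
    rw [C_1] at this
    rw [this]; ring
  have hmap : ∀ q, DD.map (evalRingHom q) = Dq q := by
    intro q; simp [DD, Dq]
  let M : Matrix (Fin (a + b)) {e // e ∈ E} K[X] := fun t e => ((X ^ (e : ℕ)) %ₘ DD).coeff t
  have hM : ∀ (q : K) (v : {e // e ∈ E} → K) (t : Fin (a + b)),
      (M.map (eval q)).mulVec v t = ((∑ e, C (v e) * X ^ (e : ℕ)) %ₘ Dq q).coeff t := by
    intro q v t
    have h1 : (∑ e : {e // e ∈ E}, C (v e) * X ^ (e : ℕ)) %ₘ Dq q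
        = ∑ e : {e // e ∈ E}, C (v e) * ((X ^ (e : ℕ)) %ₘ Dq q) := by
      have h2 := map_sum (modByMonicHom (Dq q)) (fun e : {e // e ∈ E} => C (v e) * X ^ (e : ℕ)) Finset.univ
      simp only [modByMonicHom_apply] at h2
      rw [h2]
      refine Finset.sum_congr rfl fun e _ => ?_
      rw [← smul_eq_C_mul, ← smul_eq_C_mul, smul_modByMonic]
    rw [h1, finsetSum_coeff, Matrix.mulVec, dotProduct]
    refine Finset.sum_congr rfl fun e _ => ?_
    rw [coeff_C_mul, mul_comm, Matrix.map_apply]
    congr 1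
    simp only [M]
    rw [← hmap, ← coe_evalRingHom, ← coeff_map, map_modByMonic _ hDDm]
    simp
  have hinj1 : ∀ v : {e // e ∈ E} → K, (M.map (eval 1)).mulVec v = 0 → v = 0 := by
    intro v hv
    set P : K[X] := ∑ e : {e // e ∈ E}, C (v e) * X ^ (e : ℕ) with hP
    have hPc : ∀ e : {e // e ∈ E}, P.coeff e = v e := by
      intro e
      rw [hP, finsetSum_coeff, Finset.sum_eq_single e]
      · simp
      · intro b _ hb
        rw [coeff_C_mul, coeff_X_pow, if_neg, mul_zero]
        intro h1; exact hb (Subtype.ext h1.symm)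
      · simp
    have hPs : P.support ⊆ E := by
      intro e he
      by_contra hne
      rw [mem_support_iff] at he
      apply he
      rw [hP, finsetSum_coeff]
      refine Finset.sum_eq_zero fun b _ => ?_
      rw [coeff_C_mul, coeff_X_pow, if_neg, mul_zero]
      rintro rfl; exact hne b.2
    have h0 : P %ₘ Dq 1 = 0 := by
      ext t
      rw [coeff_zero]
      by_cases ht : t < a + b
      · have := congrFun hv ⟨t, ht⟩
        rw [hM] at this
        exact this
      · refine coeff_eq_zero_of_degree_lt ((degree_modByMonic_lt _ (hDqm 1)).trans_le ?_)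
        rw [degree_eq_natDegree (hDqm 1).ne_zero, hDdeg]
        exact_mod_cast not_lt.mp ht
    rw [modByMonic_eq_zero_iff_dvd (hDqm 1)] at h0
    have h2 : (X - C (1 : K)) ^ E.card ∣ P := by
      refine (pow_dvd_pow _ h).trans ?_
      refine dvd_trans (dvd_of_eq ?_) h0
      simp only [Dq]
      rw [C_1, ← pow_add]
    have h3 := lac 1 one_ne_zero E P hPs h2
    funext e
    rw [Pi.zero_apply, ← hPc, h3]; simp
  refine ((finite_bad M 1 hinj1).union (Set.finite_singleton (1 : K))).subset ?_
  intro q hq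
  by_contra hcon
  rw [Set.mem_union, not_or] at hcon
  obtain ⟨h1, h2⟩ := hcon
  simp only [Set.mem_ofPred_eq, not_not, Set.mem_singleton_iff] at h1 h2
  apply hq
  intro P hP ha hb
  have hcop : IsCoprime ((X - 1 : K[X]) ^ a) ((X - C q) ^ b) := by
    apply IsCoprime.pow
    have := isCoprime_X_sub_C_of_isUnit_sub (R := K) (a := 1) (b := q)
      (by rw [isUnit_iff_ne_zero]; exact sub_ne_zero.mpr (Ne.symm h2))
    rwa [C_1] at this
  have h3 : P %ₘ Dq q = 0 := by
    rw [modByMonic_eq_zero_iff_dvd (hDqm q)]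
    exact hcop.mul_dvd ha hb
  have h4 := h1 (fun e => P.coeff e) (by
    funext t
    rw [hM]
    have e1 : ∑ e : {e // e ∈ E}, C (P.coeff e) * X ^ (e : ℕ) = P := by
      conv_rhs => rw [eq_sum_of_support E P hP]
      rw [← Finset.sum_coe_sort E]
    rw [e1, h3]; simp)
  ext e
  by_cases he : e ∈ E
  · exact congrFun h4 ⟨e, he⟩
  · rw [coeff_zero]
    by_contra h5
    exact he (hP (mem_support_iff.mpr h5))

end

end MP_cea741_ag.Hil
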