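import Mathlib
import Pool.Agent.Lib.MP_cea741_ag.HLac

/-! The induction on the order of vanishing at the pole `q`. -/

namespace MP_cea741_ag.Hil

open Polynomial

noncomputable section

variable {K : Type*} [Field K]

/-- `∑ n_h Z^{N(D-h)} (w'+1)^h`, `Z = w - q`. -/
def Apol (q : K) (N D : ℕ) (n : ℕ → K[X]) : K[X][X] :=
  ∑ h ∈ Finset.range (D + 1), C (n h * (X - C q) ^ (N * (D - h))) * (X + 1) ^ h

theorem apol_comp (q : K) (N D : ℕ) (n : ℕ → K[X]) (h : ℕ) :
    ((Apol q N D n).comp (X - 1)).coeff h =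
      if h ≤ D then n h * (X - C q) ^ (N * (D - h)) else 0 := by
  rw [Apol, Polynomial.sum_comp, finsetSum_coeff]
  have h1 : ∀ i ∈ Finset.range (D + 1), ((C (n i * (X - C q) ^ (N * (D - i))) *
      (X + 1) ^ i : K[X][X]).comp (X - 1)).coeff h =
      if h = i then n i * (X - C q) ^ (N * (D - i)) else 0 := by
    intro i _
    have e : (C (n i * (X - C q) ^ (N * (D - i))) * (X + 1) ^ i : K[X][X]).comp (X - 1) =
      C (n i * (X - C q) ^ (N * (D - i))) * X ^ i := by
      rw [mul_comp, C_comp, pow_comp, add_comp, X_comp, one_comp, sub_add_cancel]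
    rw [e, coeff_C_mul_X_pow]
  rw [Finset.sum_congr rfl h1, Finset.sum_ite_eq]
  simp only [Finset.mem_range, Nat.lt_succ_iff]

theorem apol_coeff (q : K) (N D : ℕ) (n : ℕ → K[X]) (j : ℕ) :
    (Apol q N D n).coeff j =
      ∑ h ∈ Finset.range (D + 1), n h * (X - C q) ^ (N * (D - h)) * (h.choose j : K[X]) := by
  rw [Apol, finsetSum_coeff]
  refine Finset.sum_congr rfl fun h _ => ?_
  rw [coeff_C_mul]
  congr 1
  have := coeff_X_add_C_pow (1 : K[X]) h j
  rw [C_1, one_pow, one_mul] at this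
  exact this

theorem apol_coeff_gt (q : K) (N D : ℕ) (n : ℕ → K[X]) (j : ℕ) (hj : D < j) :
    (Apol q N D n).coeff j = 0 := by
  rw [apol_coeff]
  refine Finset.sum_eq_zero fun h hh => ?_
  rw [Finset.mem_range] at hh
  rw [Nat.choose_eq_zero_of_lt (by omega)]
  simp

theorem apol_coeff_top (q : K) (N D : ℕ) (n : ℕ → K[X]) :
    (Apol q N D n).coeff D = n D := by
  rw [apol_coeff, Finset.sum_eq_single D]
  · simp
  · intro h hh hne
    rw [Finset.mem_range] at hh
    rw [Nat.choose_eq_zero_of_lt (by omega)]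
    simp
  · simp

theorem apol_inj (q : K) (N D : ℕ) (n : ℕ → K[X]) (h0 : ∀ j ≤ D, (Apol q N D n).coeff j = 0) :
    ∀ h ≤ D, n h = 0 := by
  have h1 : Apol q N D n = 0 := by
    ext1 j
    rw [coeff_zero]
    by_cases hj : j ≤ D
    · exact h0 j hj
    · exact apol_coeff_gt q N D n j (by omega)
  intro h hh
  have h2 := apol_comp q N D n h
  rw [h1, zero_comp, coeff_zero, if_pos hh] at h2
  rcases mul_eq_zero.mp h2.symm with h3 | h3
  · exact h3
  · exact absurd h3 (pow_ne_zero _ (X_sub_C_ne_zero q))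

theorem apol_step [CharZero K] (q : K) (N D : ℕ) (hN : 1 ≤ N) (n : ℕ → K[X])
    (Zr : ℕ → Finset ℕ) (hsub : ∀ l, Zr l ⊆ Finset.range (D + 1))
    (hz : ∀ l < N * D, (∀ j, (X - C q) ^ l ∣ (Apol q N D n).coeff j) →
      ∀ j ∈ Zr l, (Apol q N D n).coeff j = 0)
    (hcount : ∀ l < N * D, l / N + 1 ≤ (Zr l).card) :
    ∀ l ≤ N * D, ∀ j, (X - C q) ^ l ∣ (Apol q N D n).coeff j := by
  classical
  intro l
  induction l with
  | zero => intro _ j; simp
  | succ l ih =>
    intro hl
    have hl' : l < N * D := by omega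
    have hdiv := ih (by omega)
    have hzl := hz l hl' hdiv
    have hcl := hcount l hl'
    have hlD : l / N < D := by
      rw [Nat.div_lt_iff_lt_mul (by omega)]; rwa [mul_comm] at hl'
    have hL6 := Nat.lt_mul_div_succ l (by omega : 0 < N)
    generalize l / N = L at hcl hlD hL6
    set A := Apol q N D n with hA
    obtain ⟨A', hA'⟩ : C ((X - C q) ^ l) ∣ A := (C_dvd_iff_dvd_coeff _ _).mpr hdiv
    set P : K[X] := A'.map (evalRingHom q) with hP
    have hZ : ∀ i, (X - C q : K[X]) ^ i ≠ 0 := fun i => pow_ne_zero _ (X_sub_C_ne_zero q)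
    have hcoef : ∀ j, A.coeff j = (X - C q) ^ l * A'.coeff j := by
      intro j; rw [hA', coeff_C_mul]
    have h1 : ∀ h < D - L, (P.comp (X - 1)).coeff h = 0 := by
      intro h hh
      have h2 : (A.comp (X - 1)).coeff h = (X - C q) ^ l * (A'.comp (X - 1)).coeff h := by
        rw [hA', mul_comp, C_comp, coeff_C_mul]
      rw [hA, apol_comp, if_pos (by omega)] at h2
      have h3 : l + 1 ≤ N * (D - h) := by
        have h4 : L + 1 ≤ D - h := by omega
        have h5 := Nat.mul_le_mul_left N h4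
        omega
      obtain ⟨u, hu⟩ := Nat.exists_eq_add_of_le h3
      have h7 : (A'.comp (X - 1)).coeff h = n h * (X - C q) ^ u * (X - C q) := by
        apply mul_left_cancel₀ (hZ l)
        rw [← h2, hu]; ring
      have h8 : (P.comp (X - 1)).coeff h = ((A'.comp (X - 1)).coeff h).eval q := by
        rw [← coe_evalRingHom, ← coeff_map, hP, Polynomial.map_comp]
        simp
      rw [h8, h7]
      simp
    have h2 : (X - C (-1 : K)) ^ (D - L) ∣ P := by
      obtain ⟨S, hS⟩ := (X_pow_dvd_iff.mpr h1)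
      refine ⟨S.comp (X + 1), ?_⟩
      have h3 : P = (P.comp (X - 1)).comp (X + 1) := by rw [comp_assoc]; simp
      rw [h3, hS, mul_comp, pow_comp, X_comp]
      simp
    have h3 : P.support ⊆ Finset.range (D + 1) \ Zr l := by
      intro j hj
      rw [mem_support_iff, hP, coeff_map, coe_evalRingHom] at hj
      rw [Finset.mem_sdiff, Finset.mem_range]
      have h4 : ∀ j, A.coeff j = 0 → A'.coeff j = 0 := by
        intro j h
        rw [hcoef] at h
        exact (mul_eq_zero.mp h).resolve_left (hZ l)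
      constructor
      · by_contra h5
        rw [h4 j (apol_coeff_gt q N D n j (by omega))] at hj
        simp at hj
      · intro h5
        rw [h4 j (hzl j h5)] at hj
        simp at hj
    have h4 : (Finset.range (D + 1) \ Zr l).card ≤ D - L := by
      rw [Finset.card_sdiff_of_subset (hsub l), Finset.card_range]
      omega
    have h5 : P = 0 := lac (-1) (by simp) _ P h3 ((pow_dvd_pow _ h4).trans h2)
    intro j
    have h6 : (A'.coeff j).eval q = 0 := by
      rw [← coe_evalRingHom, ← coeff_map, ← hP, h5, coeff_zero]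
    rw [hcoef, pow_succ]
    exact mul_dvd_mul_left _ (dvd_iff_isRoot.mpr h6)

theorem mem_Eset {s D e : ℕ} : e ∈ Eset s D ↔ e ≤ s * D ∧ e % s + e / s ≤ D := by
  rw [Eset, Finset.mem_filter, Finset.mem_range, Nat.lt_succ_iff]

theorem mem_Eset_of_le {s D e : ℕ} (hs : 1 ≤ s) (h : e + (s - 1) * (s - 2) ≤ s * D) :
    e ∈ Eset s D := by
  rw [mem_Eset]
  refine ⟨by omega, ?_⟩
  have h1 := Nat.mod_add_div e s
  have h2 := Nat.mod_lt e (show 0 < s by omega)
  set α := e % s
  set β := e / s
  by_contra hcon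
  push Not at hcon
  obtain ⟨t, rfl⟩ : ∃ t, s = t + 1 := ⟨s - 1, by omega⟩
  have h3 : t + 1 - 1 = t := by omega
  have h4 : t + 1 - 2 = t - 1 := by omega
  rw [h3, h4] at h
  rcases Nat.eq_zero_or_pos t with ht | ht
  · subst ht; omega
  · obtain ⟨u, rfl⟩ : ∃ u, t = u + 1 := ⟨t - 1, by omega⟩
    rw [Nat.add_sub_cancel] at h
    -- α ≤ u+1, D + 1 ≤ α + β
    have h5 : (u + 1 + 1) * (D + 1) ≤ (u + 1 + 1) * (α + β) := Nat.mul_le_mul_left _ hcon
    have h6 : (u + 1) * α ≤ (u + 1) * (u + 1) := Nat.mul_le_mul_left _ (by omega)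
    nlinarith

theorem monic_Z (q : K) (i : ℕ) : ((X - C q : K[X]) ^ i).Monic := (monic_X_sub_C q).pow i

theorem natDegree_Z (q : K) (i : ℕ) : ((X - C q : K[X]) ^ i).natDegree = i := by
  rw [(monic_X_sub_C q).natDegree_pow, natDegree_X_sub_C, mul_one]

theorem apol_part (s d N D : ℕ) (hs : 1 ≤ s) (q : K) (hDs : D * s ≤ d) (n : ℕ → K[X])
    (hn : ∀ h ≤ D, (n h).support ⊆ Eset s (d - h * s)) (j : ℕ) (hj : j ≤ D) :
    ((Apol q N D n).coeff j /ₘ (X - C q) ^ (N * (D - j))).support ⊆ Eset s (d - j * s) := by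
  classical
  set M : K[X] := (X - C q) ^ (N * (D - j)) with hM
  have hMm : M.Monic := monic_Z q _
  set T : K[X] := ∑ h ∈ (Finset.range (D + 1)).erase j,
    n h * (X - C q) ^ (N * (D - h)) * (h.choose j : K[X]) with hT
  have hA : (Apol q N D n).coeff j = M * n j + T := by
    rw [apol_coeff, hT, ← Finset.add_sum_erase _ _ (Finset.mem_range.mpr (by omega : j < D + 1))]
    simp only [Nat.choose_self, Nat.cast_one, mul_one]
    ring
  have hquot : (Apol q N D n).coeff j /ₘ M = n j + T /ₘ M := by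
    refine (div_modByMonic_unique (n j + T /ₘ M) (T %ₘ M) hMm ⟨?_, degree_modByMonic_lt _ hMm⟩).1
    rw [hA]
    linear_combination (modByMonic_add_div T M)
  rw [hquot]
  refine (support_add).trans (Finset.union_subset (hn j hj) ?_)
  intro e he
  have hTd : T.natDegree ≤ s * (d - (j + 1) * s) + N * (D - j) := by
    rw [hT]
    refine natDegree_sum_le_of_forall_le _ _ fun h hh => ?_
    rw [Finset.mem_erase, Finset.mem_range] at hh
    by_cases hlt : h < j
    · rw [Nat.choose_eq_zero_of_lt hlt]; simp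
    · refine natDegree_mul_le.trans ?_
      rw [natDegree_natCast, add_zero]
      refine natDegree_mul_le.trans ?_
      rw [natDegree_Z]
      have h1 : (n h).natDegree ≤ s * (d - h * s) := by
        by_cases h0 : n h = 0
        · rw [h0]; simp
        · exact (mem_Eset.mp (hn h (by omega) (natDegree_mem_support_of_nonzero h0))).1
      have h2 : s * (d - h * s) ≤ s * (d - (j + 1) * s) := by
        apply Nat.mul_le_mul_left
        have := Nat.mul_le_mul_right s (show j + 1 ≤ h by omega)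
        omega
      have h3 : N * (D - h) ≤ N * (D - j) := Nat.mul_le_mul_left _ (by omega)
      omega
  have hne : T ≠ 0 := by
    rintro h0
    rw [h0, zero_divByMonic] at he
    simp at he
  have hjD : j < D := by
    by_contra hcon
    have : j = D := by omega
    apply hne
    rw [hT]
    refine Finset.sum_eq_zero fun h hh => ?_
    rw [Finset.mem_erase, Finset.mem_range] at hh
    rw [Nat.choose_eq_zero_of_lt (by omega)]; simp
  have h4 : e ≤ (T /ₘ M).natDegree := le_natDegree_of_mem_supp e he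
  rw [natDegree_divByMonic T hMm, hM, natDegree_Z] at h4
  have h5 : e ≤ s * (d - (j + 1) * s) := by omega
  refine mem_Eset_of_le hs ?_
  have h6 : (j + 1) * s ≤ d := (Nat.mul_le_mul_right s hjD).trans hDs
  have h7 : d - j * s = (d - (j + 1) * s) + s := by
    have : (j + 1) * s = j * s + s := by ring
    omega
  rw [h7, mul_add]
  have h8 : (s - 1) * (s - 2) ≤ s * s := Nat.mul_le_mul (by omega) (by omega)
  omega

theorem isCoprime_Z (q : K) (hq1 : q ≠ 1) (a b : ℕ) :
    IsCoprime ((X - 1 : K[X]) ^ a) ((X - C q) ^ b) := by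
  apply IsCoprime.pow
  have := isCoprime_X_sub_C_of_isUnit_sub (R := K) (a := 1) (b := q)
    (by rw [isUnit_iff_ne_zero]; exact sub_ne_zero.mpr (Ne.symm hq1))
  rwa [C_1] at this

theorem apol_zero (s r m d N D : ℕ) (hs : 1 ≤ s) (q : K) (hq1 : q ≠ 1)
    (hDs : D * s ≤ d) (n : ℕ → K[X]) (hn : ∀ h ≤ D, (n h).support ⊆ Eset s (d - h * s))
    (hX : ∀ j ≤ D, (X - 1) ^ (r * (m - j)) ∣ (Apol q N D n).coeff j)
    (hg1 : ∀ j ≤ D, ∀ τ ≤ N * D, (Eset s (d - j * s)).card + τ ≤ r * (m - j) →
      G1 (Eset s (d - j * s)) τ (r * (m - j)) q)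
    (hg2 : ∀ j ≤ D, ∀ b ≤ N * D, (Eset s (d - j * s)).card ≤ r * (m - j) + b →
      G2 (Eset s (d - j * s)) (r * (m - j)) b q)
    (l j : ℕ) (hl : l ≤ N * D) (hj : j ≤ D) (hdiv : (X - C q) ^ l ∣ (Apol q N D n).coeff j)
    (hnum : (Eset s (d - j * s)).card + N * (D - j) ≤ r * (m - j) + l) :
    (Apol q N D n).coeff j = 0 := by
  have hpart := apol_part s d N D hs q hDs n hn j hj
  have hXj := hX j hj
  set A : K[X] := (Apol q N D n).coeff j with hA
  have hND : N * (D - j) ≤ N * D := Nat.mul_le_mul_left _ (by omega)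
  by_cases hle : l ≤ N * (D - j)
  · obtain ⟨τ, hτ⟩ := Nat.exists_eq_add_of_le hle
    obtain ⟨A', hA'⟩ := hdiv
    have hdm := modByMonic_add_div A' ((X - C q) ^ τ)
    set P := A' /ₘ (X - C q) ^ τ with hP
    set R := A' %ₘ (X - C q) ^ τ with hR
    have hRdeg : R.degree < (τ : WithBot ℕ) := by
      have := degree_modByMonic_lt A' (monic_Z q τ)
      rwa [degree_eq_natDegree (monic_Z q τ).ne_zero, natDegree_Z] at this
    have hquot : A /ₘ (X - C q) ^ (N * (D - j)) = P := by
      refine (div_modByMonic_unique P ((X - C q) ^ l * R) (monic_Z q _) ⟨?_, ?_⟩).1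
      · rw [hA', hτ, pow_add, ← hdm]; ring
      · by_cases hR0 : R = 0
        · rw [hR0, mul_zero, degree_zero, bot_lt_iff_ne_bot, Ne, degree_eq_bot]
          exact (monic_Z q _).ne_zero
        · rw [degree_mul, degree_eq_natDegree (monic_Z q l).ne_zero,
            degree_eq_natDegree (monic_Z q _).ne_zero, degree_eq_natDegree hR0, natDegree_Z,
            natDegree_Z]
          rw [degree_eq_natDegree hR0] at hRdeg
          have h1 : R.natDegree < τ := by exact_mod_cast hRdeg
          have h2 : l + R.natDegree < N * (D - j) := by omega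
          exact_mod_cast h2
    rw [hquot] at hpart
    have h1 : (X - 1) ^ (r * (m - j)) ∣ (X - C q) ^ τ * P + R := by
      have h2 : (X - C q) ^ τ * P + R = A' := by rw [← hdm]; ring
      rw [h2]
      refine (isCoprime_Z q hq1 _ l).dvd_of_dvd_mul_left ?_
      rw [← hA']; exact hXj
    obtain ⟨hP0, hR0⟩ := hg1 j hj τ (by omega) (by omega) P R hpart hRdeg h1
    rw [hA', ← hdm, hP0, hR0]
    simp
  · obtain ⟨b, hb⟩ := Nat.exists_eq_add_of_lt (not_le.mp hle)
    have h1 : (X - C q) ^ (N * (D - j)) ∣ A := (pow_dvd_pow _ (by omega)).trans hdiv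
    obtain ⟨P, hP⟩ := h1
    have hquot : A /ₘ (X - C q) ^ (N * (D - j)) = P := by
      rw [hP, mul_divByMonic_cancel_left _ (monic_Z q _)]
    rw [hquot] at hpart
    have h2 : (X - 1) ^ (r * (m - j)) ∣ P := by
      refine (isCoprime_Z q hq1 _ (N * (D - j))).dvd_of_dvd_mul_left ?_
      rw [← hP]; exact hXj
    have h3 : (X - C q) ^ (b + 1) ∣ P := by
      have h4 : (X - C q) ^ (N * (D - j)) * (X - C q) ^ (b + 1) ∣ (X - C q) ^ (N * (D - j)) * P := by
        rw [← pow_add, ← hP]
        exact (dvd_of_eq (by rw [hb]; ring)).trans hdiv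
      exact (mul_dvd_mul_iff_left (monic_Z q _).ne_zero).mp h4
    rw [hP, hg2 j hj (b + 1) (by omega) (by omega) P hpart h2 h3]
    simp

end

end MP_cea741_ag.Hil
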