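import Mathlib
import Pool.Agent.Lib.MP_cea741_ag.HEnd

/-! Counting the exponents. -/

namespace MP_cea741_ag.Hil

theorem card_Eset (s D : ℕ) (hs : 1 ≤ s) :
    (Eset s D).card = ∑ α ∈ Finset.range s, (D + 1 - α) := by
  classical
  rw [Finset.card_eq_sum_card_fiberwise (f := fun e => e % s) (t := Finset.range s)]
  · refine Finset.sum_congr rfl fun α hα => ?_
    rw [Finset.mem_range] at hα
    rw [← Finset.card_range (D + 1 - α)]
    symm
    refine Finset.card_nbij (fun β => α + s * β) ?_ ?_ ?_
    · intro β hβ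
      rw [Finset.mem_coe, Finset.mem_range] at hβ
      rw [Finset.mem_coe, Finset.mem_filter, mem_Eset]
      have h1 : (α + s * β) % s = α := by rw [Nat.add_mul_mod_self_left, Nat.mod_eq_of_lt hα]
      have h2 : (α + s * β) / s = β := by
        rw [Nat.add_mul_div_left _ _ (by omega), Nat.div_eq_of_lt hα, zero_add]
      rw [h1, h2]
      refine ⟨⟨?_, by omega⟩, rfl⟩
      calc α + s * β ≤ s * α + s * β := by nlinarith
        _ = s * (α + β) := by ring
        _ ≤ s * D := Nat.mul_le_mul_left _ (by omega)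
    · intro β _ β' _ h
      simp only at h
      exact Nat.eq_of_mul_eq_mul_left (by omega) (Nat.add_left_cancel h)
    · intro e he
      rw [Finset.mem_coe, Finset.mem_filter, mem_Eset] at he
      obtain ⟨⟨_, h2⟩, h3⟩ := he
      refine ⟨e / s, ?_, ?_⟩
      · rw [Finset.mem_coe, Finset.mem_range]; omega
      · simp only
        rw [← h3]; exact Nat.mod_add_div e s
  · intro e _
    rw [Finset.mem_coe, Finset.mem_range]
    exact Nat.mod_lt _ (by omega)

theorem card_Eset_large (s D : ℕ) (hs : 1 ≤ s) (h : s ≤ D + 2) :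
    2 * (Eset s D).card + s * (s - 1) = 2 * s * (D + 1) := by
  rw [card_Eset s D hs]
  have key : ∀ t ≤ D + 2, 2 * ∑ α ∈ Finset.range t, (D + 1 - α) + t * (t - 1) = 2 * t * (D + 1) := by
    intro t
    induction t with
    | zero => simp
    | succ t ih =>
      intro ht
      have h1 := ih (by omega)
      rw [Finset.sum_range_succ, Nat.add_sub_cancel]
      obtain ⟨u, hu⟩ : ∃ u, D + 1 = t + u := ⟨D + 1 - t, by omega⟩
      rw [hu] at h1 ⊢
      rw [Nat.add_sub_cancel_left]
      cases t with
      | zero => simp at h1 ⊢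
      | succ t =>
        rw [Nat.add_sub_cancel] at h1
        nlinarith
  exact key s h

theorem card_Eset_small (s D : ℕ) (h : D < s) : (Eset s D).card = (D + 2).choose 2 := by
  rw [card_Eset s D (by omega)]
  have key : ∀ D t : ℕ, D < t → ∑ α ∈ Finset.range t, (D + 1 - α) = (D + 2).choose 2 := by
    intro D
    induction D with
    | zero =>
      intro t ht
      obtain ⟨u, rfl⟩ : ∃ u, t = u + 1 := ⟨t - 1, by omega⟩
      rw [Finset.sum_range_succ', Finset.sum_eq_zero]
      · simp
      · intro x _; omega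
    | succ D ih =>
      intro t ht
      obtain ⟨u, rfl⟩ : ∃ u, t = u + 1 := ⟨t - 1, by omega⟩
      rw [Finset.sum_range_succ']
      have h1 := ih u (by omega)
      have h2 : ∑ α ∈ Finset.range u, (D + 1 + 1 - (α + 1)) = (D + 2).choose 2 := by
        rw [← h1]
        refine Finset.sum_congr rfl fun α _ => by omega
      rw [h2]
      have h3 : (D + 1 + 2).choose 2 = (D + 2).choose 1 + (D + 2).choose 2 := by
        rw [show D + 1 + 2 = (D + 2) + 1 by ring, Nat.choose_succ_succ' (D + 2) 1]
      rw [h3, Nat.choose_one_right]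
      omega
  exact key D s h

theorem card_Eset_le (s D : ℕ) (hs : 1 ≤ s) : (Eset s D).card ≤ s * (D + 1) := by
  rw [card_Eset s D hs]
  calc ∑ α ∈ Finset.range s, (D + 1 - α) ≤ ∑ _α ∈ Finset.range s, (D + 1) :=
        Finset.sum_le_sum fun α _ => Nat.sub_le _ _
    _ = s * (D + 1) := by simp

theorem two_choose (n : ℕ) : 2 * (n + 2).choose 2 = (n + 2) * (n + 1) := by
  rw [Nat.choose_two_right]
  have h : Even ((n + 2) * (n + 2 - 1)) := by
    rw [show n + 2 - 1 = n + 1 by omega, mul_comm]
    exact Nat.even_mul_succ_self (n + 1)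
  have := Nat.two_mul_div_two_of_even h
  rw [this]
  rfl

theorem two_choose' (m : ℕ) : 2 * (m + 1).choose 2 = (m + 1) * m := by
  rw [Nat.choose_two_right]
  have h : Even ((m + 1) * (m + 1 - 1)) := by
    rw [Nat.add_sub_cancel, mul_comm]
    exact Nat.even_mul_succ_self m
  have := Nat.two_mul_div_two_of_even h
  rw [this, Nat.add_sub_cancel]

/-- total number of coefficients -/
theorem sum_card (s : ℕ) (hs : 1 ≤ s) (d : ℕ) :
    ∑ h ∈ Finset.range (d / s + 1), (Eset s (d - h * s)).card = (d + 2).choose 2 := by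
  induction d using Nat.strong_induction_on with
  | _ d ih =>
    by_cases hd : d < s
    · rw [Nat.div_eq_of_lt hd]
      simp [card_Eset_small s d hd]
    · obtain ⟨d', rfl⟩ : ∃ d', d = d' + s := ⟨d - s, by omega⟩
      rw [Nat.add_div_right _ (by omega : 0 < s), Finset.sum_range_succ']
      have h1 := ih d' (by omega)
      have h2 : ∑ h ∈ Finset.range (d' / s + 1), (Eset s (d' + s - (h + 1) * s)).card =
          (d' + 2).choose 2 := by
        rw [← h1]
        refine Finset.sum_congr rfl fun h _ => ?_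
        have : d' + s - (h + 1) * s = d' - h * s := by
          have : (h + 1) * s = h * s + s := by ring
          omega
        rw [this]
      rw [h2, Nat.zero_mul, Nat.sub_zero]
      have h3 := card_Eset_large s (d' + s) hs (by omega)
      have h4 := two_choose (d' + s)
      have h5 := two_choose d'
      obtain ⟨u, rfl⟩ : ∃ u, s = u + 1 := ⟨s - 1, by omega⟩
      rw [Nat.add_sub_cancel] at h3
      nlinarith

/-- number of free parameters left by an arc on the curve -/
def nA (s r m d : ℕ) : ℕ := ∑ h ∈ Finset.range (d / s + 1), ((Eset s (d - h * s)).card - r * (m - h))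

theorem nA_small (s m d : ℕ) (hs : 1 ≤ s) (hd : d < m * s) : nA s (s ^ 2) m d = 0 := by
  rw [nA]
  refine Finset.sum_eq_zero fun h hh => ?_
  rw [Finset.mem_range, Nat.lt_succ_iff, Nat.le_div_iff_mul_le (by omega)] at hh
  have h1 := card_Eset_le s (d - h * s) hs
  have h2 : h < m := by
    by_contra hcon
    have := Nat.mul_le_mul_right s (not_lt.mp hcon)
    omega
  obtain ⟨k, rfl⟩ : ∃ k, m = h + k := ⟨m - h, by omega⟩
  rw [Nat.add_sub_cancel_left]
  have h3 : d - h * s + 1 ≤ k * s := by
    have : (h + k) * s = h * s + k * s := by ring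
    omega
  have h4 : s * (d - h * s + 1) ≤ s * (k * s) := Nat.mul_le_mul_left _ h3
  have h5 : s * (k * s) = s ^ 2 * k := by ring
  omega

theorem nA_large (s m d : ℕ) (hs : 1 ≤ s) (hd : m * s ≤ d) (hd2 : s ≤ 2 * (d - m * s) + 3) :
    nA s (s ^ 2) m d ≤ (d + 2).choose 2 - s ^ 2 * (m + 1).choose 2 := by
  have hm : m ≤ d / s := (Nat.le_div_iff_mul_le (by omega)).mpr hd
  have hle : ∀ h ∈ Finset.range (d / s + 1), s ^ 2 * (m - h) ≤ (Eset s (d - h * s)).card := by
    intro h hh
    rw [Finset.mem_range] at hh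
    by_cases hm2 : m ≤ h
    · rw [Nat.sub_eq_zero_of_le hm2]; simp
    · obtain ⟨k, rfl⟩ : ∃ k, m = h + k := ⟨m - h, by omega⟩
      obtain ⟨i, rfl⟩ : ∃ i, d = (h + k) * s + i := ⟨d - (h + k) * s, by omega⟩
      have hk : 1 ≤ k := by omega
      rw [Nat.add_sub_cancel_left] at hd2 ⊢
      have e1 : (h + k) * s + i - h * s = k * s + i := by
        have : (h + k) * s = h * s + k * s := by ring
        omega
      rw [e1]
      have h1 := card_Eset_large s (k * s + i) hs (by nlinarith)
      obtain ⟨u, rfl⟩ : ∃ u, s = u + 1 := ⟨s - 1, by omega⟩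
      rw [Nat.add_sub_cancel] at h1
      nlinarith
  have h1 : nA s (s ^ 2) m d + ∑ h ∈ Finset.range (d / s + 1), s ^ 2 * (m - h) = (d + 2).choose 2 := by
    rw [← sum_card s hs d, nA, ← Finset.sum_add_distrib]
    refine Finset.sum_congr rfl fun h hh => ?_
    exact Nat.sub_add_cancel (hle h hh)
  have h2 : ∑ h ∈ Finset.range (d / s + 1), s ^ 2 * (m - h) = s ^ 2 * (m + 1).choose 2 := by
    rw [← Finset.mul_sum]
    congr 1
    have key : ∀ m t : ℕ, m ≤ t → ∑ h ∈ Finset.range (t + 1), (m - h) = (m + 1).choose 2 := by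
      intro m
      induction m with
      | zero => intro t _; simp
      | succ m ih =>
        intro t ht
        obtain ⟨u, rfl⟩ : ∃ u, t = u + 1 := ⟨t - 1, by omega⟩
        rw [Finset.sum_range_succ']
        have h3 := ih u (by omega)
        have h4 : ∑ h ∈ Finset.range (u + 1), (m + 1 - (h + 1)) = (m + 1).choose 2 := by
          rw [← h3]
          refine Finset.sum_congr rfl fun h _ => by omega
        rw [h4]
        have h5 : (m + 1 + 1).choose 2 = (m + 1).choose 1 + (m + 1).choose 2 :=
          Nat.choose_succ_succ' (m + 1) 1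
        rw [h5, Nat.choose_one_right]
        omega
    exact key m _ hm
  omega

theorem nB_le (s m i ν : ℕ) (hν : 2 * ν + 2 * s * i + 3 * s = s * s) :
    (i + 2).choose 2 - ν * m ≤ (m * s + i + 2).choose 2 - s ^ 2 * (m + 1).choose 2 := by
  have h1 := two_choose i
  have h2 := two_choose (m * s + i)
  have h3 := two_choose' m
  have h4 : (m * s + i + 2).choose 2 + ν * m = (i + 2).choose 2 + s ^ 2 * (m + 1).choose 2 := by
    have h5 : 2 * ((m * s + i + 2).choose 2 + ν * m) =
        2 * ((i + 2).choose 2 + s ^ 2 * (m + 1).choose 2) := by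
      have h6 : 2 * ((i + 2).choose 2 + s ^ 2 * (m + 1).choose 2) =
        2 * (i + 2).choose 2 + s ^ 2 * (2 * (m + 1).choose 2) := by ring
      rw [h6, mul_add, h1, h2, h3]
      nlinarith
    omega
  omega

theorem card_mid (s k i ν : ℕ) (hs : 1 ≤ s) (hk : 1 ≤ k) (hν : 2 * ν + 2 * s * i + 3 * s = s * s) :
    (Eset s (k * s + i)).card + ν = s ^ 2 * k := by
  have h1 := card_Eset_large s (k * s + i) hs (by nlinarith)
  obtain ⟨u, rfl⟩ : ∃ u, s = u + 1 := ⟨s - 1, by omega⟩
  rw [Nat.add_sub_cancel] at h1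
  nlinarith

end MP_cea741_ag.Hil
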