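import Mathlib
import Pool.Agent.Lib.MP_cea741_ag.Setup
import Pool.Agent.Lib.MP_cea741_ag.HEnd

/-! Expansion along the curve `y = w^s`. -/

namespace MP_cea741_ag.Hil

open Polynomial

noncomputable section

/-- `F(w-1, y)` for the polynomial `F` with coefficient vector `v`. -/
def PP {A : Type*} [CommRing A] {d : ℕ} (v : Idx d → A) : A[X][X] :=
  ∑ p, C (C (v p) * (X - 1) ^ (p.1.1 : ℕ)) * X ^ (p.1.2 : ℕ)

/-- the coefficient of `z^h` in `F(w-1, w^s+z)`. -/
def Gh {A : Type*} [CommRing A] (s : ℕ) {d : ℕ} (v : Idx d → A) (h : ℕ) : A[X] :=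
  ((PP v).comp (X + C (X ^ s))).coeff h

variable {K : Type*} [Field K]

/-- total degree at most `d`. -/
def TD (H : K[X][X]) (d : ℕ) : Prop := ∀ b, H.coeff b ≠ 0 → (H.coeff b).natDegree + b ≤ d

theorem PP_coeff {d : ℕ} (v : Idx d → K) (b : ℕ) :
    (PP v).coeff b = ∑ p : Idx d, if (p.1.2 : ℕ) = b then C (v p) * (X - 1) ^ (p.1.1 : ℕ) else 0 := by
  rw [PP, finsetSum_coeff]
  refine Finset.sum_congr rfl fun p _ => ?_
  rw [coeff_C_mul_X_pow]
  simp only [eq_comm]

theorem TD_PP {d : ℕ} (v : Idx d → K) : TD (PP v) d := by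
  intro b hb
  rw [PP_coeff] at hb ⊢
  obtain ⟨p, _, hp⟩ := Finset.exists_ne_zero_of_sum_ne_zero hb
  have hpb : (p.1.2 : ℕ) = b := by
    by_contra h; rw [if_neg h] at hp; exact hp rfl
  have hbd : b ≤ d := by rw [← hpb]; have := p.2; omega
  have h1 : (∑ p : Idx d, if (p.1.2 : ℕ) = b then C (v p) * (X - 1) ^ (p.1.1 : ℕ) else 0).natDegree
      ≤ d - b := by
    refine natDegree_sum_le_of_forall_le _ _ fun p _ => ?_
    split_ifs with h
    · refine natDegree_mul_le.trans ?_
      rw [natDegree_C, zero_add]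
      refine natDegree_pow_le.trans ?_
      have h2 : (X - 1 : K[X]).natDegree = 1 := by
        have := natDegree_X_sub_C (1 : K); rwa [C_1] at this
      rw [h2]
      have := p.2
      omega
    · simp
  omega

theorem TD_div (s d : ℕ) (hs : 2 ≤ s) (H : K[X][X]) (hH : H ≠ 0)
    (h : TD ((X - C (X ^ s)) * H) d) : s ≤ d ∧ TD H (d - s) := by
  obtain ⟨b0, hb0, hmax⟩ := Finset.exists_max_image H.support
    (fun b => (H.coeff b).natDegree + b) (support_nonempty.mpr hH)
  rw [mem_support_iff] at hb0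
  have hc : ((X - C (X ^ s)) * H).coeff b0 = (X * H).coeff b0 - X ^ s * H.coeff b0 := by
    rw [sub_mul, coeff_sub, coeff_C_mul]
  have h1 : (X ^ s * H.coeff b0).natDegree = s + (H.coeff b0).natDegree := by
    rw [natDegree_mul (pow_ne_zero _ X_ne_zero) hb0, natDegree_X_pow]
  have h2 : ((X * H).coeff b0).natDegree < (X ^ s * H.coeff b0).natDegree := by
    rw [h1]
    cases b0 with
    | zero => rw [mul_coeff_zero, coeff_X_zero, zero_mul, natDegree_zero]; omega
    | succ b =>
      rw [coeff_X_mul]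
      by_cases h0 : H.coeff b = 0
      · rw [h0, natDegree_zero]; omega
      · have := hmax b (mem_support_iff.mpr h0)
        omega
  have h3 : (((X - C (X ^ s)) * H).coeff b0).natDegree = s + (H.coeff b0).natDegree := by
    rw [hc, natDegree_sub_eq_right_of_natDegree_lt h2, h1]
  have h4 : ((X - C (X ^ s)) * H).coeff b0 ≠ 0 := by
    intro h0; rw [h0, natDegree_zero] at h3; omega
  have h5 := h b0 h4
  rw [h3] at h5
  refine ⟨by omega, fun b hb => ?_⟩
  have := hmax b (mem_support_iff.mpr hb)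
  omega

theorem TD_pow (s : ℕ) (hs : 2 ≤ s) (H : K[X][X]) (hH : H ≠ 0) (h : ℕ) : ∀ d : ℕ,
    TD ((X - C (X ^ s)) ^ h * H) d → h * s ≤ d ∧ TD H (d - h * s) := by
  induction h with
  | zero => intro d hd; simpa using hd
  | succ h ih =>
    intro d hd
    have hne : (X - C (X ^ s) : K[X][X]) ≠ 0 := X_sub_C_ne_zero _
    have h1 := TD_div s d hs ((X - C (X ^ s)) ^ h * H) (mul_ne_zero (pow_ne_zero _ hne) hH) (by
      rw [← mul_assoc, ← pow_succ']; exact hd)
    have h2 := ih (d - s) h1.2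
    have h3 : (h + 1) * s = h * s + s := by ring
    refine ⟨by omega, ?_⟩
    have h4 : d - (h + 1) * s = d - s - h * s := by omega
    rw [h4]; exact h2.2

theorem support_eval_X_pow (s D : ℕ) (hs : 1 ≤ s) (H : K[X][X]) (hH : TD H D) :
    (H.eval (X ^ s)).support ⊆ Eset s D := by
  intro e he
  rw [mem_support_iff, eval_eq_sum, Polynomial.sum, finsetSum_coeff] at he
  obtain ⟨b, hb, hne⟩ := Finset.exists_ne_zero_of_sum_ne_zero he
  rw [← pow_mul, coeff_mul_X_pow'] at hne
  have hsb : s * b ≤ e := by by_contra h; rw [if_neg h] at hne; exact hne rfl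
  rw [if_pos hsb] at hne
  obtain ⟨a, rfl⟩ := Nat.exists_eq_add_of_le hsb
  rw [Nat.add_sub_cancel_left] at hne
  have h1 : a ≤ (H.coeff b).natDegree := le_natDegree_of_ne_zero hne
  have h2 := hH b (mem_support_iff.mp hb)
  have h3 : a + b ≤ D := by omega
  rw [mem_Eset]
  constructor
  · calc s * b + a ≤ s * b + s * a := by nlinarith
      _ = s * (a + b) := by ring
      _ ≤ s * D := Nat.mul_le_mul_left _ h3
  · rw [Nat.mul_add_mod, Nat.mul_add_div (by omega)]
    have h4 := Nat.mod_add_div a s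
    have h5 : a / s ≤ s * (a / s) := Nat.le_mul_of_pos_left _ (by omega)
    omega

theorem rkey (s d : ℕ) (hs : 2 ≤ s) (v : Idx d → K) (h : ℕ) (hlow : ∀ h' < h, Gh s v h' = 0) :
    (h * s ≤ d → (Gh s v h).support ⊆ Eset s (d - h * s)) ∧ (d < h * s → Gh s v h = 0) := by
  obtain ⟨U, hU⟩ := (X_pow_dvd_iff.mpr hlow : X ^ h ∣ (PP v).comp (X + C (X ^ s)))
  set H : K[X][X] := U.comp (X - C (X ^ s)) with hH
  have hGh : Gh s v h = H.eval (X ^ s) := by
    rw [Gh, hU]
    have e1 := coeff_X_pow_mul U h 0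
    rw [zero_add] at e1
    rw [e1, hH, eval_comp, coeff_zero_eq_eval_zero]
    simp
  have hPP : PP v = (X - C (X ^ s)) ^ h * H := by
    have h3 : PP v = ((PP v).comp (X + C (X ^ s))).comp (X - C (X ^ s)) := by
      rw [comp_assoc]; simp
    rw [h3, hU, mul_comp, pow_comp, X_comp]
  by_cases h0 : H = 0
  · rw [hGh, h0]; simp
  · have h4 := TD_pow s hs H h0 h d (by rw [← hPP]; exact TD_PP v)
    refine ⟨fun _ => ?_, fun hlt => absurd h4.1 (by omega)⟩
    rw [hGh]
    exact support_eval_X_pow s _ (by omega) H h4.2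

theorem PP_injective {d : ℕ} (v : Idx d → K) (h : PP v = 0) : v = 0 := by
  funext p0
  have h1 := congrArg (fun P => ((P.coeff (p0.1.2 : ℕ)).comp (X + 1)).coeff (p0.1.1 : ℕ)) h
  simp only [coeff_zero, zero_comp] at h1
  rw [PP_coeff, Polynomial.sum_comp, finsetSum_coeff, Finset.sum_eq_single p0] at h1
  · rw [if_pos rfl] at h1
    simpa using h1
  · intro p _ hp
    split_ifs with h2
    · simp only [mul_comp, C_comp, pow_comp, sub_comp, X_comp, one_comp, add_sub_cancel_right]
      rw [coeff_C_mul_X_pow, if_neg]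
      intro h3
      apply hp
      exact Subtype.ext (Prod.ext (Fin.ext h3.symm) (Fin.ext h2))
    · simp
  · simp

theorem eq_zero_of_Gh (s : ℕ) {d : ℕ} (v : Idx d → K) (h : ∀ h, Gh s v h = 0) : v = 0 := by
  apply PP_injective
  have h1 : (PP v).comp (X + C (X ^ s)) = 0 := by
    ext1 i
    rw [coeff_zero]
    exact h i
  have h3 : PP v = ((PP v).comp (X + C (X ^ s))).comp (X - C (X ^ s)) := by
    rw [comp_assoc]; simp
  rw [h3, h1, zero_comp]

end

end MP_cea741_ag.Hil
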