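import Mathlib
import Pool.Agent.Lib.MP_cea741_ag.HDeg
import Pool.Agent.Lib.MP_cea741_ag.Family

/-! The leading form of a family of curves along the arcs `y = w^s + t cc`. -/

namespace MP_cea741_ag.Hil

open Polynomial

noncomputable section

variable {K : Type*} [Field K] {B : Type*} [CommRing B] [Algebra K B]

/-- `y = ys + t ψ` in `B[ψ][t]` -/
def yhh (ys : B) : B[X][X] := C (C ys) + X * C X

/-- the map `K[t][x][z] → B[ψ][t]` -/
def etah (x ys : B) (g : K[X][X]) : K[X][X][X] →+* B[X][X] :=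
  eval₂RingHom (eval₂RingHom (zt K B) (C (C x))) (yhh ys - eval₂ (zt K B) (C (C x)) g)

theorem etah_C (x ys : B) (g : K[X][X]) (p : K[X][X]) :
    etah x ys g (C p) = eval₂ (zt K B) (C (C x)) p := by
  simp [etah]

theorem etah_X (x ys : B) (g : K[X][X]) :
    etah x ys g X = yhh ys - eval₂ (zt K B) (C (C x)) g := by
  simp [etah]

theorem etah_Wpol (x ys : B) (g : K[X][X]) {D : ℕ} (v : Idx D → K[X]) :
    etah x ys g (Wpol g v) =
      ∑ p, zt K B (v p) * (C (C x) ^ (p.1.1 : ℕ) * yhh ys ^ (p.1.2 : ℕ)) := by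
  rw [Wpol, map_sum]
  refine Finset.sum_congr rfl fun p _ => ?_
  rw [Upol, map_mul, map_mul, map_pow, map_pow, map_add, etah_C, etah_C, etah_C, etah_X, eval₂_C,
    eval₂_X, sub_add_cancel]

/-- The ideal `(ψ - cc, x^r)` of `B[ψ]`. -/
def Jh (x cc : B) (r : ℕ) : Ideal B[X] := Ideal.span {X - C cc, C (x ^ r)}

theorem etah_X_mem (x ys cc : B) (r : ℕ) (c : Fin r → K[X]) (a b : Fin r → K)
    (hc : ∀ l, c l = C (a l) + X * C (b l))
    (h1 : x ^ r ∣ ys - ∑ l : Fin r, algebraMap K B (a l) * x ^ (l : ℕ))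
    (h2 : x ^ r ∣ cc - ∑ l : Fin r, algebraMap K B (b l) * x ^ (l : ℕ)) :
    etah x ys (gpol r c) X ∈ (Jh x cc r).map (C : B[X] →+* B[X][X]) := by
  rw [etah_X]
  have h1' : eval₂ (zt K B) (C (C x)) (gpol r c) =
      C (C (∑ l : Fin r, algebraMap K B (a l) * x ^ (l : ℕ))) +
      X * C (C (∑ l : Fin r, algebraMap K B (b l) * x ^ (l : ℕ))) := by
    rw [gpol, eval₂_finsetSum, map_sum, map_sum, map_sum, map_sum, Finset.mul_sum,
      ← Finset.sum_add_distrib]
    refine Finset.sum_congr rfl fun l _ => ?_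
    rw [eval₂_mul, eval₂_C, eval₂_pow, eval₂_X, hc, map_add, map_mul]
    simp only [zt, coe_mapRingHom, map_C, map_X, RingHom.comp_apply, map_mul, map_pow]
    ring
  rw [h1', yhh]
  set S1 := ∑ l : Fin r, algebraMap K B (a l) * x ^ (l : ℕ) with hS1
  set S2 := ∑ l : Fin r, algebraMap K B (b l) * x ^ (l : ℕ) with hS2
  obtain ⟨d1, hd1⟩ := h1
  obtain ⟨d2, hd2⟩ := h2
  have e : C (C ys) + X * C X - (C (C S1) + X * C (C S2))
      = C (C d1) * C (C (x ^ r)) + X * C (C d2) * C (C (x ^ r))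
        + X * C (X - C cc) := by
    have e1 : (C (C ys) : B[X][X]) = C (C S1) + C (C (x ^ r)) * C (C d1) := by
      rw [← C_mul, ← C_mul, ← C_add, ← C_add, ← hd1]
      congr 2; ring
    have e2 : (C (C cc) : B[X][X])
        = C (C S2) + C (C (x ^ r)) * C (C d2) := by
      rw [← C_mul, ← C_mul, ← C_add, ← C_add, ← hd2]
      congr 2; ring
    rw [C_sub]
    linear_combination e1 + X * e2
  rw [e]
  have m1 : (C (C (x ^ r)) : B[X][X]) ∈ (Jh x cc r).map (C : B[X] →+* B[X][X]) :=
    Ideal.mem_map_of_mem _ (Ideal.subset_span (by simp))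
  have m2 : (C (X - C cc) : B[X][X]) ∈ (Jh x cc r).map (C : B[X] →+* B[X][X]) :=
    Ideal.mem_map_of_mem _ (Ideal.subset_span (by simp))
  exact Ideal.add_mem _ (Ideal.add_mem _ (Ideal.mul_mem_left _ _ m1) (Ideal.mul_mem_left _ _ m1))
    (Ideal.mul_mem_left _ _ m2)

theorem Vh_coeff_mem (x ys cc : B) (r m : ℕ) (c : Fin r → K[X]) (a b : Fin r → K)
    (hc : ∀ l, c l = C (a l) + X * C (b l))
    (h1 : x ^ r ∣ ys - ∑ l : Fin r, algebraMap K B (a l) * x ^ (l : ℕ))
    (h2 : x ^ r ∣ cc - ∑ l : Fin r, algebraMap K B (b l) * x ^ (l : ℕ))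
    {D : ℕ} (v : Idx D → K[X])
    (hv : Wpol (gpol r c) v ∈ (Ideal.span {X, C (X ^ r)} : Ideal K[X][X][X]) ^ m) (e : ℕ) :
    (∑ p, zt K B (v p) * (C (C x) ^ (p.1.1 : ℕ) * yhh ys ^ (p.1.2 : ℕ))).coeff e ∈
      (Jh x cc r) ^ m := by
  rw [← etah_Wpol x ys (gpol r c) v]
  have h1' := Ideal.mem_map_of_mem (etah x ys (gpol r c)) hv
  have h0' := Ideal.map_pow (etah x ys (gpol r c)) (Ideal.span {X, C (X ^ r)} : Ideal K[X][X][X]) m
  replace h1' := h0'.le h1'
  have h2' : Ideal.map (etah x ys (gpol r c)) (Ideal.span {X, C (X ^ r)}) ≤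
      (Jh x cc r).map (C : B[X] →+* B[X][X]) := by
    rw [Ideal.map_span, Ideal.span_le, Set.image_pair]
    intro w hw
    rcases hw with rfl | rfl
    · exact etah_X_mem x ys cc r c a b hc h1 h2
    · rw [etah_C, eval₂_pow, eval₂_X]
      have : (C (C x) : B[X][X]) ^ r = C (C (x ^ r)) := by simp
      rw [this]
      exact Ideal.mem_map_of_mem _ (Ideal.subset_span (by simp))
  have h3 := Ideal.pow_right_mono h2' m h1'
  rw [← Ideal.map_pow, Ideal.mem_map_C_iff] at h3
  exact h3 e

/-- `w ↦ 1 + x`, `z ↦ t ψ`. -/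
def phih (K : Type*) [Field K] {B : Type*} [CommRing B] [Algebra K B] (x : B) :
    K[X][X] →+* B[X][X] :=
  eval₂RingHom (((C : B[X] →+* B[X][X]).comp C).comp (aeval (1 + x) : K[X] →ₐ[K] B).toRingHom)
    (X * C X)

theorem phih_coeff (x : B) (U : K[X][X]) (h : ℕ) :
    (phih K x U).coeff h = C (aeval (1 + x) (U.coeff h)) * X ^ h := by
  induction U using Polynomial.induction_on' with
  | add p q hp hq => rw [map_add, coeff_add, hp, hq, coeff_add, map_add, C_add, add_mul]
  | monomial n a =>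
    rw [phih, coe_eval₂RingHom, eval₂_monomial, mul_pow, coeff_monomial]
    have e1 : (((C : B[X] →+* B[X][X]).comp C).comp (aeval (1 + x) : K[X] →ₐ[K] B).toRingHom) a
        = C (C (aeval (1 + x) a)) := rfl
    rw [e1]
    have e2 : (C (C (aeval (1 + x) a)) * (X ^ n * C X ^ n) : B[X][X])
        = C (C (aeval (1 + x) a) * X ^ n) * X ^ n := by
      rw [C_mul, C_pow]; ring
    rw [e2, coeff_C_mul_X_pow]
    by_cases hn : n = h
    · subst hn; simp
    · rw [if_neg hn, if_neg (Ne.symm hn)]; simp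

theorem phih_PP (x ys : B) (s : ℕ) (hys : ys = (1 + x) ^ s) {d : ℕ} (v : Idx d → K) :
    phih K x ((PP v).comp (X + C (X ^ s))) =
      ∑ p, C (C (algebraMap K B (v p))) * (C (C x) ^ (p.1.1 : ℕ) * yhh ys ^ (p.1.2 : ℕ)) := by
  rw [PP, Polynomial.sum_comp, map_sum]
  refine Finset.sum_congr rfl fun p _ => ?_
  have e0 : ∀ a : K[X], phih K x (C a) = C (C (aeval (1 + x) a)) := by
    intro a
    rw [phih, coe_eval₂RingHom, eval₂_C]; rfl
  have e1 : phih K x X = X * C X := by rw [phih, coe_eval₂RingHom, eval₂_X]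
  rw [mul_comp, C_comp, pow_comp, X_comp, map_mul, map_pow, map_add, e0, e0, e1]
  have e2 : (aeval (1 + x) (C (v p) * (X - 1) ^ (p.1.1 : ℕ)) : B)
      = algebraMap K B (v p) * x ^ (p.1.1 : ℕ) := by
    rw [map_mul, map_pow, map_sub, aeval_C, aeval_X, map_one, add_sub_cancel_left]
  have e3 : (aeval (1 + x) ((X : K[X]) ^ s) : B) = ys := by
    rw [map_pow, aeval_X, hys]
  rw [e2, e3, yhh, C_mul, C_mul, C_pow, C_pow]
  ring

theorem Vh_coeff (x ys : B) (s : ℕ) (hys : ys = (1 + x) ^ s) {D : ℕ} (v : Idx D → K[X]) (e : ℕ) :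
    (∑ p, zt K B (v p) * (C (C x) ^ (p.1.1 : ℕ) * yhh ys ^ (p.1.2 : ℕ))).coeff e =
      ∑ l ∈ Finset.HasAntidiagonal.antidiagonal e,
        C (aeval (1 + x) (Gh s (fun p => (v p).coeff l.1) l.2)) * X ^ l.2 := by
  have h1 : ∀ l ∈ Finset.HasAntidiagonal.antidiagonal e,
      (C (aeval (1 + x) (Gh s (fun p => (v p).coeff l.1) l.2)) * X ^ l.2 : B[X])
      = ∑ p, C (algebraMap K B ((v p).coeff l.1)) *
        ((C (C x) : B[X][X]) ^ (p.1.1 : ℕ) * yhh ys ^ (p.1.2 : ℕ)).coeff l.2 := by
    intro l _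
    rw [Gh, ← phih_coeff, phih_PP x ys s hys, finsetSum_coeff]
    refine Finset.sum_congr rfl fun p _ => ?_
    rw [coeff_C_mul]
  rw [Finset.sum_congr rfl h1, finsetSum_coeff, Finset.sum_comm]
  refine Finset.sum_congr rfl fun p _ => ?_
  rw [coeff_mul]
  refine Finset.sum_congr rfl fun l _ => ?_
  rw [zt, coe_mapRingHom, coeff_map]
  rfl

theorem aeval_psXh (q : K[X]) : aeval (PowerSeries.X : PowerSeries K) q = (q : PowerSeries K) := by
  induction q using Polynomial.induction_on' with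
  | add p q hp hq => rw [map_add, hp, hq]; simp
  | monomial n a =>
    rw [aeval_monomial, Polynomial.coe_monomial, PowerSeries.monomial_eq_mk, ← PowerSeries.C_eq_algebraMap]
    ext i
    rw [PowerSeries.coeff_C_mul, PowerSeries.coeff_X_pow, PowerSeries.coeff_mk]
    split_ifs <;> simp

/-- transport of divisibility from power series to polynomials. -/
theorem dvd_of_aeval (P : K[X]) (a : ℕ)
    (h : (PowerSeries.X : PowerSeries K) ^ a ∣ aeval (1 + PowerSeries.X : PowerSeries K) P) :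
    (X - 1) ^ a ∣ P := by
  rw [shift_dvd]
  intro t ht
  have h1 : aeval (1 + PowerSeries.X : PowerSeries K) P = ((P.comp (X + 1) : K[X]) : PowerSeries K) := by
    rw [← aeval_psXh, aeval_comp]
    congr 1
    simp [add_comm]
  rw [h1, PowerSeries.X_pow_dvd_iff] at h
  have := h t ht
  rwa [coeff_coe] at this

/-- the power series `1/(1-q+x)^N`. -/
def cser (q : K) (N : ℕ) : PowerSeries K := ((1 + PowerSeries.X - PowerSeries.C q)⁻¹) ^ N

theorem cser_mul (q : K) (hq : q ≠ 1) (N : ℕ) :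
    (1 + PowerSeries.X - PowerSeries.C q) ^ N * cser q N = 1 := by
  rw [cser, ← mul_pow, PowerSeries.mul_inv_cancel, one_pow]
  simp [sub_ne_zero, hq.symm]

/-- the coefficients of the arc `y = (1+x)^s + t/(1+x-q)^N`. -/
def cfamN (q : K) (s N r : ℕ) (l : Fin r) : K[X] :=
  C (PowerSeries.coeff (l : ℕ) ((1 + PowerSeries.X : PowerSeries K) ^ s)) +
    X * C (PowerSeries.coeff (l : ℕ) (cser q N))

theorem apol_of_mem (q : K) (hq : q ≠ 1) (N r m D : ℕ) (n : ℕ → K[X])
    (hmem : ∑ h ∈ Finset.range (D + 1),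
      C (aeval (1 + PowerSeries.X : PowerSeries K) (n h)) * X ^ h ∈
        (Jh (PowerSeries.X : PowerSeries K) (cser q N) r) ^ m) (j : ℕ) :
    (X - 1) ^ (r * (m - j)) ∣ (Apol q N D n).coeff j := by
  apply dvd_of_aeval
  set w : PowerSeries K := 1 + PowerSeries.X with hw
  set Z : PowerSeries K := w - PowerSeries.C q with hZ
  set cc := cser q N with hcc
  have hZc : Z ^ N * cc = 1 := cser_mul q hq N
  set AB : (PowerSeries K)[X] := (Apol q N D n).map (aeval w : K[X] →ₐ[K] PowerSeries K).toRingHom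
    with hAB
  have hcoef : aeval w ((Apol q N D n).coeff j) = AB.coeff j := by
    rw [hAB, coeff_map]; rfl
  have hABe : AB = C (Z ^ (N * D)) * (∑ h ∈ Finset.range (D + 1), C (aeval w (n h)) * X ^ h).comp
      (C cc * (X + 1)) := by
    rw [hAB, Apol, Polynomial.map_sum, Polynomial.sum_comp, Finset.mul_sum]
    refine Finset.sum_congr rfl fun h hh => ?_
    rw [Finset.mem_range] at hh
    have e1 : (aeval w : K[X] →ₐ[K] PowerSeries K).toRingHom (n h * (X - C q) ^ (N * (D - h)))
        = aeval w (n h) * Z ^ (N * (D - h)) := by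
      have : (aeval w : K[X] →ₐ[K] PowerSeries K).toRingHom (n h * (X - C q) ^ (N * (D - h)))
        = aeval w (n h * (X - C q) ^ (N * (D - h))) := rfl
      rw [this, map_mul, map_pow, map_sub, aeval_X, aeval_C]
      rfl
    rw [Polynomial.map_mul, map_C, e1, Polynomial.map_pow, Polynomial.map_add, map_X,
      Polynomial.map_one, mul_comp, C_comp, pow_comp, X_comp, mul_pow, ← C_pow]
    have e2 : Z ^ (N * D) * cc ^ h = Z ^ (N * (D - h)) := by
      have e3 : N * D = N * (D - h) + N * h := by rw [← mul_add, Nat.sub_add_cancel (by omega)]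
      rw [e3, pow_add, mul_assoc, pow_mul Z N h, ← mul_pow, hZc, one_pow, mul_one]
    rw [← e2, C_mul, C_mul]
    ring
  have hmem2 : AB ∈ (Ideal.span {X, C (PowerSeries.X ^ r)} : Ideal (PowerSeries K)[X]) ^ m := by
    rw [hABe]
    refine Ideal.mul_mem_left _ _ ?_
    have h2 := Ideal.mem_map_of_mem (Polynomial.compRingHom (C cc * (X + 1))) hmem
    rw [Ideal.map_pow, Jh, Ideal.map_span] at h2
    have h3 : Ideal.span ((Polynomial.compRingHom (C cc * (X + 1))) ''
        {X - C cc, C (PowerSeries.X ^ r)}) ≤ Ideal.span {X, C (PowerSeries.X ^ r)} := by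
      rw [Set.image_pair, Ideal.span_le]
      intro w' hw'
      rcases hw' with rfl | rfl
      · have e1 : (Polynomial.compRingHom (C cc * (X + 1))) (X - C cc) = C cc * X := by
          simp; ring
        rw [e1]
        exact Ideal.mul_mem_left _ _ (Ideal.subset_span (by simp))
      · have e1 : (Polynomial.compRingHom (C cc * (X + 1))) (C (PowerSeries.X ^ r))
            = C (PowerSeries.X ^ r) := by simp
        rw [e1]
        exact Ideal.subset_span (by simp)
    exact Ideal.pow_right_mono h3 m h2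
  have h4 := mon_coeff _ m _ hmem2 j
  rw [← pow_mul] at h4
  rw [hcoef]
  exact h4

/-- **Leading form.** -/
theorem family_lead (q : K) (hq : q ≠ 1) (s r m d N : ℕ) (hs : 2 ≤ s) (v : Idx d → K[X])
    (hv : Wpol (gpol r (cfamN q s N r)) v ∈ (Ideal.span {X, C (X ^ r)} : Ideal K[X][X][X]) ^ m)
    (hv0 : v ≠ 0) :
    ∃ (e : ℕ) (n : ℕ → K[X]), (∃ h ≤ d / s, n h ≠ 0) ∧
      (∀ h ≤ d / s, (n h).support ⊆ Eset s (d - h * s)) ∧
      (∀ h ≤ e, n h = Gh s (fun p => (v p).coeff (e - h)) h) ∧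
      (∀ h, e < h → n h = 0) ∧
      ∀ j, (X - 1) ^ (r * (m - j)) ∣ (Apol q N (d / s) n).coeff j := by
  classical
  set E : ℕ → Prop := fun e => ∀ l h, l + h < e → Gh s (fun p => (v p).coeff l) h = 0 with hE
  obtain ⟨e, he, he'⟩ : ∃ e, E e ∧ ¬ E (e + 1) := by
    by_contra hcon
    push Not at hcon
    have hall : ∀ e, E e := by
      intro e
      induction e with
      | zero => intro l h hlt; omega
      | succ e ih => exact hcon e ih
    apply hv0
    funext p
    ext l
    have h1 : (fun p => (v p).coeff l) = (0 : Idx d → K) :=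
      eq_zero_of_Gh s _ fun h => hall (l + h + 1) l h (by omega)
    have := congrFun h1 p
    simpa using this
  set n : ℕ → K[X] := fun h => if h ≤ e then Gh s (fun p => (v p).coeff (e - h)) h else 0 with hn
  have hrk : ∀ h ≤ e, (h * s ≤ d → (n h).support ⊆ Eset s (d - h * s)) ∧ (d < h * s → n h = 0) := by
    intro h hh
    have h1 := rkey s d hs (fun p => (v p).coeff (e - h)) h (fun h' hh' => he _ _ (by omega))
    simp only [hn, if_pos hh]
    exact h1
  have hgt : ∀ h, e < h → n h = 0 := by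
    intro h hh; simp only [hn]; rw [if_neg (by omega)]
  have hD : ∀ h, d / s < h → n h = 0 := by
    intro h hh
    by_cases hle : h ≤ e
    · refine (hrk h hle).2 ?_
      exact (Nat.div_lt_iff_lt_mul (by omega)).mp hh
    · exact hgt h (by omega)
  have hDs : ∀ h ≤ d / s, h * s ≤ d := fun h hh => (Nat.le_div_iff_mul_le (by omega)).mp hh
  refine ⟨e, n, ?_, ?_, ?_, hgt, ?_⟩
  · by_contra hcon
    push Not at hcon
    apply he'
    intro l h hlh
    by_cases hlt : l + h < e
    · exact he l h hlt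
    · have h1 : n h = Gh s (fun p => (v p).coeff l) h := by
        simp only [hn]; rw [if_pos (by omega), (by omega : e - h = l)]
      rw [← h1]
      by_cases h2 : h ≤ d / s
      · exact hcon h h2
      · exact hD h (by omega)
  · intro h hh
    by_cases hle : h ≤ e
    · exact (hrk h hle).1 (hDs h hh)
    · rw [hgt h (by omega)]; simp
  · intro h hh; simp only [hn]; rw [if_pos hh]
  · intro j
    apply apol_of_mem q hq
    set x : PowerSeries K := PowerSeries.X
    have h1 := Vh_coeff_mem (B := PowerSeries K) x ((1 + x) ^ s) (cser q N) r m (cfamN q s N r) _ _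
      (fun l => rfl) (trunc_dvd _ _) (trunc_dvd _ _) v hv e
    rw [Vh_coeff x ((1 + x) ^ s) s rfl] at h1
    have h2 : ∑ l ∈ Finset.HasAntidiagonal.antidiagonal e,
        (C (aeval (1 + x) (Gh s (fun p => (v p).coeff l.1) l.2)) * X ^ l.2 : (PowerSeries K)[X])
        = ∑ h ∈ Finset.range (d / s + 1), C (aeval (1 + x) (n h)) * X ^ h := by
      have h3 : ∑ l ∈ Finset.HasAntidiagonal.antidiagonal e,
          (C (aeval (1 + x) (Gh s (fun p => (v p).coeff l.1) l.2)) * X ^ l.2 : (PowerSeries K)[X])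
          = ∑ l ∈ Finset.HasAntidiagonal.antidiagonal e, C (aeval (1 + x) (n l.2)) * X ^ l.2 := by
        refine Finset.sum_congr rfl fun l hl => ?_
        rw [Finset.HasAntidiagonal.mem_antidiagonal] at hl
        simp only [hn]
        rw [if_pos (by omega), (by omega : e - l.2 = l.1)]
      rw [h3, ← Finset.Nat.sum_antidiagonal_swap]
      have h4 := Finset.Nat.sum_antidiagonal_eq_sum_range_succ_mk
        (fun l : ℕ × ℕ => (C (aeval (1 + x) (n l.1)) * X ^ l.1 : (PowerSeries K)[X])) e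
      simp only [Prod.snd_swap]
      rw [h4]
      have h5 : ∑ i ∈ Finset.range (e + 1), (C (aeval (1 + x) (n i)) * X ^ i : (PowerSeries K)[X])
          = ∑ i ∈ Finset.range (max e (d / s) + 1), C (aeval (1 + x) (n i)) * X ^ i := by
        refine Finset.sum_subset (Finset.range_mono (by omega)) fun i _ hi => ?_
        rw [Finset.mem_range] at hi
        rw [hgt i (by omega)]; simp
      have h6 : ∑ i ∈ Finset.range (d / s + 1), (C (aeval (1 + x) (n i)) * X ^ i : (PowerSeries K)[X])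
          = ∑ i ∈ Finset.range (max e (d / s) + 1), C (aeval (1 + x) (n i)) * X ^ i := by
        refine Finset.sum_subset (Finset.range_mono (by omega)) fun i _ hi => ?_
        rw [Finset.mem_range] at hi
        rw [hD i (by omega)]; simp
      rw [h5, h6]
    rw [← h2]
    exact h1

end

end MP_cea741_ag.Hil
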