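import Mathlib
import Pool.Agent.Lib.MP_cea741_ag.ArcA
import Pool.Agent.Lib.MP_cea741_ag.HCount

/-! Dimension of the space of forms: transfer from a special germ to general germs. -/

namespace MP_cea741_ag.Hil

open Polynomial

noncomputable section

theorem Wpol_add {A : Type*} [CommRing A] {d : ℕ} (g : A[X]) (v w : Idx d → A) :
    Wpol g (v + w) = Wpol g v + Wpol g w := by
  simp only [Wpol, Pi.add_apply, C_add, add_mul, Finset.sum_add_distrib]

theorem Wpol_smul {A : Type*} [CommRing A] {d : ℕ} (g : A[X]) (a : A) (v : Idx d → A) :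
    Wpol g (a • v) = C (C a) * Wpol g v := by
  simp only [Wpol, Pi.smul_apply, smul_eq_mul, C_mul, Finset.mul_sum, mul_assoc]

/-- the space of coefficient vectors of forms of degree `≤ d` in the `m`-th power. -/
def Sol (k : Type*) [Field k] (r m d : ℕ) (c : Fin r → k) : Submodule k (Idx d → k) where
  carrier := {v | Wpol (gpol r c) v ∈ (Ideal.span {X, C (X ^ r)} : Ideal k[X][X]) ^ m}
  add_mem' := by
    intro v w hv hw
    change Wpol (gpol r c) (v + w) ∈ (Ideal.span {X, C (X ^ r)} : Ideal k[X][X]) ^ m
    rw [Wpol_add]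
    exact Ideal.add_mem _ hv hw
  zero_mem' := by
    change Wpol (gpol r c) 0 ∈ (Ideal.span {X, C (X ^ r)} : Ideal k[X][X]) ^ m
    have : Wpol (gpol r c) (0 : Idx d → k) = 0 := by simp [Wpol]
    rw [this]; exact Ideal.zero_mem _
  smul_mem' := by
    intro a v hv
    change Wpol (gpol r c) (a • v) ∈ (Ideal.span {X, C (X ^ r)} : Ideal k[X][X]) ^ m
    rw [Wpol_smul]
    exact Ideal.mul_mem_left _ _ hv

theorem mem_Sol {k : Type*} [Field k] {r m d : ℕ} {c : Fin r → k} {v : Idx d → k} :
    v ∈ Sol k r m d c ↔
      Wpol (gpol r c) v ∈ (Ideal.span {X, C (X ^ r)} : Ideal k[X][X]) ^ m := Iff.rfl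

/-- conditions together with extra linear conditions. -/
def MM (k : Type*) [Field k] (r m d : ℕ) {T : Type*} (L : T → Idx d → k) :
    Matrix ((Fin m × Fin (r * m)) ⊕ T) (Idx d) (MvPolynomial (Fin r) k) := fun t p =>
  match t with
  | Sum.inl t => Mmat k r m d t p
  | Sum.inr τ => MvPolynomial.C (L τ p)

theorem MM_inl (k : Type*) [Field k] (r m d : ℕ) {T : Type*} (L : T → Idx d → k)
    {A' : Type*} [CommRing A'] (φ : MvPolynomial (Fin r) k →+* A') (v : Idx d → A')
    (t : Fin m × Fin (r * m)) :
    ((MM k r m d L).map φ).mulVec v (Sum.inl t) = ((Mmat k r m d).map φ).mulVec v t := rfl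

theorem MM_inr (k : Type*) [Field k] (r m d : ℕ) {T : Type*} (L : T → Idx d → k)
    {A' : Type*} [CommRing A'] (φ : MvPolynomial (Fin r) k →+* A') (v : Idx d → A') (τ : T) :
    ((MM k r m d L).map φ).mulVec v (Sum.inr τ) = ∑ p, φ (MvPolynomial.C (L τ p)) * v p := rfl

theorem transfer (k : Type*) {A : Type*} [Field k] [CommRing A] [IsDomain A] [Algebra k A]
    (r m d : ℕ) (c : Fin r → A) {T : Type*} [Fintype T] (L : T → Idx d → k)
    (h : ∀ v : Idx d → A, Wpol (gpol r c) v ∈ (Ideal.span {X, C (X ^ r)} : Ideal A[X][X]) ^ m →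
      (∀ τ, ∑ p, algebraMap k A (L τ p) * v p = 0) → v = 0) :
    ∃ Φ : MvPolynomial (Fin r) k, Φ ≠ 0 ∧ ∀ c' : Fin r → k, MvPolynomial.eval c' Φ ≠ 0 →
      Module.finrank k (Sol k r m d c') ≤ Fintype.card T := by
  classical
  obtain ⟨Φ, hΦ, hΦ'⟩ := generic_injective (A := A) (MM k r m d L) c (by
      intro v hv
      have hv' : ((MM k r m d L).map ((MvPolynomial.aeval c : MvPolynomial (Fin r) k →ₐ[k] A) :
              MvPolynomial (Fin r) k →+* A)).mulVec v = 0 := hv
      refine h v ?_ ?_
      · have h1 : ((Mmat k r m d).map ((MvPolynomial.aeval c : MvPolynomial (Fin r) k →ₐ[k] A) :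
              MvPolynomial (Fin r) k →+* A)).mulVec v = 0 := by
          funext t
          rw [← MM_inl, hv']; rfl
        rw [Mmat_mulVec_eq_zero_iff] at h1
        have h2 : (fun l => ((MvPolynomial.aeval c : MvPolynomial (Fin r) k →ₐ[k] A) :
              MvPolynomial (Fin r) k →+* A) (MvPolynomial.X l)) = c := by
          funext l
          simp
        rw [h2] at h1
        exact h1
      · intro τ
        have h1 := congrFun hv' (Sum.inr τ)
        rw [MM_inr] at h1
        simpa using h1)
  refine ⟨Φ, hΦ, fun c' hc' => ?_⟩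
  let f : Sol k r m d c' →ₗ[k] (T → k) :=
    { toFun := fun v τ => ∑ p, L τ p * v.1 p
      map_add' := by
        intro v w
        funext τ
        simp only [Submodule.coe_add, Pi.add_apply, mul_add, Finset.sum_add_distrib]
      map_smul' := by
        intro a v
        funext τ
        simp only [Submodule.coe_smul, Pi.smul_apply, smul_eq_mul, RingHom.id_apply, Finset.mul_sum]
        refine Finset.sum_congr rfl fun p _ => by ring }
  have hf : Function.Injective f := by
    rw [← LinearMap.ker_eq_bot, LinearMap.ker_eq_bot']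
    intro v hv
    have h1 := hΦ' c' hc' v.1 (by
      have h3 : ((MM k r m d L).map (MvPolynomial.eval c' : MvPolynomial (Fin r) k →+* k)).mulVec v.1 = 0 := by
        funext t
        rcases t with t | τ
        · rw [MM_inl]
          have h4 : ((Mmat k r m d).map (MvPolynomial.eval c' : MvPolynomial (Fin r) k →+* k)).mulVec
              v.1 = 0 := by
            rw [Mmat_mulVec_eq_zero_iff]
            have h5 : (fun l => (MvPolynomial.eval c' : MvPolynomial (Fin r) k →+* k)
              (MvPolynomial.X l)) = c' := by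
              funext l; simp
            rw [h5]
            exact v.2
          rw [h4]; rfl
        · rw [MM_inr]
          have h4 := congrFun hv τ
          simpa [f] using h4
      exact h3)
    exact Subtype.ext h1
  have h6 := LinearMap.finrank_le_finrank_of_injective hf
  rwa [Module.finrank_fintype_fun_eq_card] at h6

theorem card_Idx (d : ℕ) : Fintype.card (Idx d) = (d + 2).choose 2 := by
  classical
  rw [← card_Eset_small (d + 1) d (by omega), card_Eset (d + 1) d (by omega)]
  rw [Fintype.card_subtype, Finset.card_filter]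
  rw [Fintype.sum_prod_type, ← Fin.sum_univ_eq_sum_range (fun α => d + 1 - α) (d + 1)]
  refine Finset.sum_congr rfl fun a _ => ?_
  rw [Fin.sum_univ_eq_sum_range (fun b => if (a : ℕ) + b ≤ d then 1 else 0) (d + 1),
    ← Finset.card_filter]
  have : (Finset.range (d + 1)).filter (fun b => (a : ℕ) + b ≤ d) = Finset.range (d + 1 - a) := by
    ext b
    rw [Finset.mem_filter, Finset.mem_range, Finset.mem_range]
    omega
  rw [this, Finset.card_range]

theorem finrank_Sol_ge (k : Type*) [Field k] (r m d : ℕ) (c : Fin r → k) :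
    (d + 2).choose 2 - r * (m + 1).choose 2 ≤ Module.finrank k (Sol k r m d c) := by
  classical
  let f : (Idx d → k) →ₗ[k] ((Σ j : Fin m, Fin (r * (m - j))) → k) :=
    { toFun := fun v t => ((Wpol (gpol r c) v).coeff t.1).coeff t.2
      map_add' := by
        intro v w
        funext t
        simp only [Wpol_add, coeff_add, Pi.add_apply]
      map_smul' := by
        intro a v
        funext t
        simp only [Wpol_smul, coeff_C_mul, RingHom.id_apply, Pi.smul_apply, smul_eq_mul] }
  have hker : LinearMap.ker f ≤ Sol k r m d c := by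
    intro v hv
    rw [LinearMap.mem_ker] at hv
    rw [mem_Sol]
    refine mon_mem _ m _ fun j hj => ?_
    rw [← pow_mul, X_pow_dvd_iff]
    intro i hi
    exact congrFun hv ⟨⟨j, hj⟩, ⟨i, hi⟩⟩
  have h1 := LinearMap.finrank_range_add_finrank_ker f
  have h2 : Module.finrank k (LinearMap.range f) ≤ r * (m + 1).choose 2 := by
    refine (Submodule.finrank_le _).trans ?_
    rw [Module.finrank_fintype_fun_eq_card, Fintype.card_sigma]
    simp only [Fintype.card_fin]
    rw [← Finset.mul_sum]
    refine Nat.mul_le_mul_left _ ?_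
    have h3 : ∀ m : ℕ, ∑ i : Fin m, (m - (i : ℕ)) = (m + 1).choose 2 := by
      intro m
      rw [Fin.sum_univ_eq_sum_range (fun i => m - i) m]
      induction m with
      | zero => simp
      | succ m ih =>
        rw [Finset.sum_range_succ']
        have h4 : ∑ i ∈ Finset.range m, (m + 1 - (i + 1)) = (m + 1).choose 2 := by
          rw [← ih]
          refine Finset.sum_congr rfl fun i _ => by omega
        rw [h4]
        have h5 : (m + 1 + 1).choose 2 = (m + 1).choose 1 + (m + 1).choose 2 :=
          Nat.choose_succ_succ' (m + 1) 1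
        rw [h5, Nat.choose_one_right]
        omega
    rw [h3]
  have h3 : Module.finrank k (Idx d → k) = (d + 2).choose 2 := by
    rw [Module.finrank_fintype_fun_eq_card, card_Idx]
  have h4 := Submodule.finrank_mono hker
  omega

end

end MP_cea741_ag.Hil
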