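import Mathlib
import Pool.Agent.Lib.MP_cea741_ag.ArcA
import Pool.Agent.Lib.MP_cea741_ag.HTrans

/-! The space of forms of degree `≤ d` in the power of the ideal of the arc. -/

namespace MP_cea741_ag.Hil

open MvPolynomial MP_cea741_ag

noncomputable section

/-- forms (affine polynomials) of degree `≤ d` in the `m`-th power of the ideal of the arc. -/
def forms {k : Type*} [Field k] {r : ℕ} (m d : ℕ) (a : k) (c : Fin r → k) :
    Submodule k (MvPolynomial (Fin 2) k) :=
  MvPolynomial.restrictTotalDegree (Fin 2) k d ⊓ (Arc.arcIdeal a c ^ m).restrictScalars k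

theorem finrank_forms {k : Type*} [Field k] {r : ℕ} (m d : ℕ) (a : k) (c : Fin r → k) :
    Module.finrank k (forms m d a c) = Module.finrank k (Sol k r m d c) := by
  classical
  set τ : MvPolynomial (Fin 2) k →ₐ[k] MvPolynomial (Fin 2) k :=
    aeval ![X 0 + C a, X 1] with hτ
  set τ' : MvPolynomial (Fin 2) k →ₐ[k] MvPolynomial (Fin 2) k :=
    aeval ![X 0 - C a, X 1] with hτ'
  have hττ : τ'.comp τ = AlgHom.id k _ := by
    apply MvPolynomial.algHom_ext
    intro i
    fin_cases i
    · simp [hτ, hτ', ← algebraMap_eq]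
    · simp [hτ, hτ']
  have hττ' : τ.comp τ' = AlgHom.id k _ := by
    apply MvPolynomial.algHom_ext
    intro i
    fin_cases i
    · simp [hτ, hτ', ← algebraMap_eq]
    · simp [hτ, hτ']
  have hdeg : ∀ F : MvPolynomial (Fin 2) k, F.totalDegree ≤ d → (τ F).totalDegree ≤ d := by
    intro F hF
    refine (totalDegree_aeval_le _ ?_ F).trans hF
    intro i
    fin_cases i
    · refine (totalDegree_add _ _).trans ?_
      simp [totalDegree_X, totalDegree_C]
    · simp [totalDegree_X]
  have hdeg' : ∀ F : MvPolynomial (Fin 2) k, F.totalDegree ≤ d → (τ' F).totalDegree ≤ d := by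
    intro F hF
    refine (totalDegree_aeval_le _ ?_ F).trans hF
    intro i
    fin_cases i
    · refine (totalDegree_sub _ _).trans ?_
      simp [totalDegree_X, totalDegree_C]
    · simp [totalDegree_X]
  have hmemf : ∀ F : MvPolynomial (Fin 2) k, F ∈ forms m d a c ↔
      F.totalDegree ≤ d ∧ F ∈ Arc.arcIdeal a c ^ m := by
    intro F
    rw [forms, Submodule.mem_inf, mem_restrictTotalDegree]
    rfl
  let f : forms m d a c →ₗ[k] Sol k r m d c :=
    { toFun := fun F => ⟨fun p => (τ F.1).coeff (ex p), by
        obtain ⟨h1, h2⟩ := (hmemf _).mp F.2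
        rw [mem_Sol, Wpol_eq, polyOf_coeff _ (hdeg _ h1)]
        exact Arc.eta_mem r m a c F.1 h2⟩
      map_add' := by
        intro F G
        apply Subtype.ext
        funext p
        simp
      map_smul' := by
        intro b F
        apply Subtype.ext
        funext p
        simp }
  have hf : Function.Injective f := by
    rw [← LinearMap.ker_eq_bot, LinearMap.ker_eq_bot']
    intro F hF
    obtain ⟨h1, _⟩ := (hmemf _).mp F.2
    have h3 : (fun p : Idx d => (τ F.1).coeff (ex p)) = 0 := congrArg Subtype.val hF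
    have h4 : τ F.1 = 0 := by
      rw [← polyOf_coeff _ (hdeg _ h1), h3]; simp [polyOf]
    have h5 : τ' (τ F.1) = F.1 := by
      have := congrArg (fun φ => φ F.1) hττ
      simpa using this
    apply Subtype.ext
    rw [← h5, h4, map_zero]; rfl
  -- the inverse
  let θ : Polynomial (Polynomial k) →+* MvPolynomial (Fin 2) k :=
    Polynomial.eval₂RingHom (Polynomial.eval₂RingHom (C : k →+* MvPolynomial (Fin 2) k) (X 0 - C a))
      (X 1 - ∑ i, C (c i) * (X 0 - C a) ^ (i : ℕ))
  have hθg : θ (Polynomial.C (gpol r c)) = ∑ i, C (c i) * (X 0 - C a) ^ (i : ℕ) := by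
    simp only [θ, Polynomial.coe_eval₂RingHom, Polynomial.eval₂_C, gpol, Polynomial.eval₂_finsetSum,
      Polynomial.eval₂_mul, Polynomial.eval₂_pow, Polynomial.eval₂_X]
  have hθX : θ Polynomial.X = X 1 - ∑ i, C (c i) * (X 0 - C a) ^ (i : ℕ) := by
    simp only [θ, Polynomial.coe_eval₂RingHom, Polynomial.eval₂_X]
  have hθCX : θ (Polynomial.C Polynomial.X) = X 0 - C a := by
    simp only [θ, Polynomial.coe_eval₂RingHom, Polynomial.eval₂_C, Polynomial.eval₂_X]
  have hθCC : ∀ b, θ (Polynomial.C (Polynomial.C b)) = C b := by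
    intro b
    simp only [θ, Polynomial.coe_eval₂RingHom, Polynomial.eval₂_C]
  have hθW : ∀ v : Idx d → k, θ (Wpol (gpol r c) v) = τ' (polyOf v) := by
    intro v
    rw [Wpol, map_sum, hτ', aeval_polyOf]
    refine Finset.sum_congr rfl fun p _ => ?_
    rw [Upol, map_mul, map_mul, map_pow, map_pow, map_add, hθCC, hθCX, hθX, hθg, sub_add_cancel]
    rfl
  have hθmem : ∀ P, P ∈ (Ideal.span {Polynomial.X, Polynomial.C (Polynomial.X ^ r)} :
      Ideal (Polynomial (Polynomial k))) ^ m → θ P ∈ Arc.arcIdeal a c ^ m := by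
    intro P hP
    have h1 := Ideal.mem_map_of_mem θ hP
    rw [Ideal.map_pow, Ideal.map_span] at h1
    refine Ideal.pow_right_mono ?_ m h1
    rw [Set.image_pair, Arc.arcIdeal, Polynomial.C_pow, map_pow, hθX, hθCX]
  let g : Sol k r m d c →ₗ[k] forms m d a c :=
    { toFun := fun v => ⟨τ' (polyOf v.1), by
        rw [hmemf]
        refine ⟨hdeg' _ (polyOf_totalDegree _), ?_⟩
        rw [← hθW]
        exact hθmem _ v.2⟩
      map_add' := by
        intro v w
        apply Subtype.ext
        simp [polyOf, Finset.sum_add_distrib]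
      map_smul' := by
        intro b v
        apply Subtype.ext
        simp [polyOf, Finset.smul_sum, ← map_smul] }
  have hg : Function.Injective g := by
    rw [← LinearMap.ker_eq_bot, LinearMap.ker_eq_bot']
    intro v hv
    have h3 : τ' (polyOf v.1) = 0 := congrArg Subtype.val hv
    have h5 : τ (τ' (polyOf v.1)) = polyOf v.1 := by
      have := congrArg (fun φ => φ (polyOf v.1)) hττ'
      simpa using this
    rw [h3, map_zero] at h5
    apply Subtype.ext
    funext p
    rw [← coeff_polyOf v.1 p, ← h5]; simp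
  have : Module.Finite k (forms m d a c) := Module.Finite.of_injective f hf
  exact le_antisymm (LinearMap.finrank_le_finrank_of_injective hf)
    (LinearMap.finrank_le_finrank_of_injective hg)

end

end MP_cea741_ag.Hil
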