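import Mathlib
import Pool.Agent.Lib.MP_cea741_ag.HFam
import Pool.Agent.Lib.MP_cea741_ag.HCount

/-! Square numbers: the two special families of arcs. -/

namespace MP_cea741_ag.Hil

open Polynomial

noncomputable section

variable {K : Type*} [Field K]

theorem shift_dvd_q (q : K) (P : K[X]) (a : ℕ) :
    (X - C q) ^ a ∣ P ↔ ∀ t < a, (P.comp (X + C q)).coeff t = 0 := by
  rw [← X_pow_dvd_iff]
  constructor
  · rintro ⟨S, rfl⟩
    refine ⟨S.comp (X + C q), ?_⟩
    simp
  · rintro ⟨S, hS⟩
    refine ⟨S.comp (X - C q), ?_⟩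
    have h1 : P = (P.comp (X + C q)).comp (X - C q) := by rw [comp_assoc]; simp
    rw [h1, hS]; simp

/-- an arc on the curve -/
theorem arc_dvd (s r m : ℕ) {d : ℕ} (v : Idx d → K)
    (hv : Wpol (gpol r (fun l : Fin r => PowerSeries.coeff (l : ℕ)
      ((1 + PowerSeries.X : PowerSeries K) ^ s))) v ∈
      (Ideal.span {X, C (X ^ r)} : Ideal K[X][X]) ^ m) (h : ℕ) :
    (X - 1) ^ (r * (m - h)) ∣ Gh s v h := by
  apply dvd_of_aeval
  set x : PowerSeries K := PowerSeries.X with hx
  set ys : PowerSeries K := (1 + x) ^ s with hys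
  set g : K[X] := gpol r (fun l : Fin r => PowerSeries.coeff (l : ℕ) ys) with hg
  set gB : PowerSeries K := aeval x g with hgB
  have hdiv : x ^ r ∣ ys - gB := by
    have h1 := trunc_dvd ys r
    have h2 : gB = ∑ l : Fin r, algebraMap K (PowerSeries K) (PowerSeries.coeff (l : ℕ) ys) *
        PowerSeries.X ^ (l : ℕ) := by
      rw [hgB, hg, gpol, map_sum]
      refine Finset.sum_congr rfl fun l _ => ?_
      have h3 : aeval x ((X : K[X]) ^ (l : ℕ)) = x ^ (l : ℕ) := by simp
      rw [map_mul, aeval_C, h3]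
    rw [h2]; exact h1
  let ζ : K[X][X] →+* (PowerSeries K)[X] :=
    eval₂RingHom ((C : PowerSeries K →+* (PowerSeries K)[X]).comp
      (aeval x : K[X] →ₐ[K] PowerSeries K).toRingHom) (X + C ys - C gB)
  have hζC : ∀ a : K[X], ζ (C a) = C (aeval x a) := by
    intro a
    simp only [ζ, coe_eval₂RingHom, eval₂_C]; rfl
  have hζX : ζ X = X + C ys - C gB := by simp only [ζ, coe_eval₂RingHom, eval₂_X]
  have e1 : ζ (Wpol g v) = ((PP v).comp (X + C (X ^ s))).map
      (aeval (1 + x) : K[X] →ₐ[K] PowerSeries K).toRingHom := by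
    rw [PP, Polynomial.sum_comp, Polynomial.map_sum, Wpol, map_sum]
    refine Finset.sum_congr rfl fun p _ => ?_
    rw [Upol, map_mul, map_mul, map_pow, map_pow, map_add, hζC, hζC, hζC, hζX, aeval_X,
      mul_comp, C_comp, pow_comp, X_comp, Polynomial.map_mul, Polynomial.map_pow,
      Polynomial.map_add, map_C, map_C, map_X]
    have e2 : (aeval (1 + x) : K[X] →ₐ[K] PowerSeries K).toRingHom
        (C (v p) * (X - 1) ^ (p.1.1 : ℕ)) = aeval x (C (v p)) * x ^ (p.1.1 : ℕ) := by
      have : (aeval (1 + x) : K[X] →ₐ[K] PowerSeries K).toRingHom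
        (C (v p) * (X - 1) ^ (p.1.1 : ℕ)) = aeval (1 + x) (C (v p) * (X - 1) ^ (p.1.1 : ℕ)) := rfl
      rw [this, map_mul, map_pow, map_sub, aeval_C, aeval_X, map_one, add_sub_cancel_left, aeval_C]
    have e3 : (aeval (1 + x) : K[X] →ₐ[K] PowerSeries K).toRingHom ((X : K[X]) ^ s) = ys := by
      have : (aeval (1 + x) : K[X] →ₐ[K] PowerSeries K).toRingHom ((X : K[X]) ^ s)
        = aeval (1 + x) ((X : K[X]) ^ s) := rfl
      rw [this, map_pow, aeval_X]
    rw [e2, e3, ← hgB]
    simp only [C_mul, C_pow]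
    ring
  have hmem : ζ (Wpol g v) ∈ (Ideal.span {X, C (x ^ r)} : Ideal (PowerSeries K)[X]) ^ m := by
    have h2 := Ideal.mem_map_of_mem ζ hv
    rw [Ideal.map_pow, Ideal.map_span] at h2
    refine Ideal.pow_right_mono ?_ m h2
    rw [Set.image_pair, Ideal.span_le]
    intro w' hw'
    rcases hw' with rfl | rfl
    · rw [hζX]
      obtain ⟨t, ht⟩ := hdiv
      have e4 : (X + C ys - C gB : (PowerSeries K)[X]) = X + C t * C (x ^ r) := by
        rw [← C_mul, add_sub_assoc, ← C_sub, ht, mul_comm]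
      rw [e4]
      exact Ideal.add_mem _ (Ideal.subset_span (by simp))
        (Ideal.mul_mem_left _ _ (Ideal.subset_span (by simp)))
    · have h3 : aeval x ((X : K[X]) ^ r) = x ^ r := by simp
      rw [hζC, h3]
      exact Ideal.subset_span (by simp)
  have h4 := mon_coeff _ m _ hmem h
  rw [← pow_mul, e1, coeff_map] at h4
  exact h4

theorem case_A [CharZero K] (s r m : ℕ) (hs : 2 ≤ s) {d : ℕ} (v : Idx d → K)
    (hv : Wpol (gpol r (fun l : Fin r => PowerSeries.coeff (l : ℕ)
      ((1 + PowerSeries.X : PowerSeries K) ^ s))) v ∈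
      (Ideal.span {X, C (X ^ r)} : Ideal K[X][X]) ^ m)
    (hL : ∀ h ≤ d / s, ∀ τ < (Eset s (d - h * s)).card - r * (m - h),
      ((Gh s v h).comp (X + C 1)).coeff (r * (m - h) + τ) = 0) : v = 0 := by
  refine eq_zero_of_Gh s v fun h => ?_
  induction h using Nat.strong_induction_on with
  | _ h ih =>
    obtain ⟨h1, h2⟩ := rkey s d hs v h ih
    by_cases hd : d < h * s
    · exact h2 hd
    · have h3 := h1 (by omega)
      have hh : h ≤ d / s := (Nat.le_div_iff_mul_le (by omega)).mpr (by omega)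
      refine lac 1 one_ne_zero _ _ h3 ?_
      rw [shift_dvd_q]
      intro t ht
      by_cases htr : t < r * (m - h)
      · have h4 := arc_dvd s r m v hv h
        rw [← C_1, shift_dvd_q] at h4
        exact h4 t htr
      · have h5 := hL h hh (t - r * (m - h)) (by omega)
        rwa [(by omega : r * (m - h) + (t - r * (m - h)) = t)] at h5

/-- the genericity conditions on `q` -/
def GenQ (s r m d N D : ℕ) (q : K) : Prop := q ≠ 0 ∧ q ≠ 1 ∧
  (∀ j ≤ D, ∀ τ ≤ N * D, (Eset s (d - j * s)).card + τ ≤ r * (m - j) →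
      G1 (Eset s (d - j * s)) τ (r * (m - j)) q) ∧
  (∀ j ≤ D, ∀ b ≤ N * D, (Eset s (d - j * s)).card ≤ r * (m - j) + b →
      G2 (Eset s (d - j * s)) (r * (m - j)) b q)

theorem exists_genQ (K : Type*) [Field K] [CharZero K] (s r m d N D : ℕ) :
    ∃ q : K, GenQ s r m d N D q := by
  have h1 : (⋃ j ∈ Finset.range (D + 1), ⋃ τ ∈ Finset.range (N * D + 1),
      {q : K | ¬ ((Eset s (d - j * s)).card + τ ≤ r * (m - j) →
        G1 (Eset s (d - j * s)) τ (r * (m - j)) q)}).Finite := by
    refine Set.Finite.biUnion (Finset.finite_toSet _) fun j _ => ?_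
    refine Set.Finite.biUnion (Finset.finite_toSet _) fun τ _ => ?_
    by_cases h : (Eset s (d - j * s)).card + τ ≤ r * (m - j)
    · simp only [h, forall_const]
      exact g1_finite _ _ _ h
    · simp [h]
  have h2 : (⋃ j ∈ Finset.range (D + 1), ⋃ b ∈ Finset.range (N * D + 1),
      {q : K | ¬ ((Eset s (d - j * s)).card ≤ r * (m - j) + b →
        G2 (Eset s (d - j * s)) (r * (m - j)) b q)}).Finite := by
    refine Set.Finite.biUnion (Finset.finite_toSet _) fun j _ => ?_
    refine Set.Finite.biUnion (Finset.finite_toSet _) fun b _ => ?_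
    by_cases h : (Eset s (d - j * s)).card ≤ r * (m - j) + b
    · simp only [h, forall_const]
      exact g2_finite _ _ _ h
    · simp [h]
  have h3 : ({0, 1} : Set K).Finite := by simp
  obtain ⟨q, hq⟩ := ((h1.union h2).union h3).infinite_compl.nonempty
  simp only [Set.mem_compl_iff, Set.mem_union, not_or, Set.mem_iUnion, not_exists,
    Set.mem_insert_iff, Set.mem_singleton_iff, Finset.mem_range] at hq
  obtain ⟨⟨ha, hb⟩, hc, hd⟩ := hq
  refine ⟨q, hc, hd, ?_, ?_⟩
  · intro j hj τ hτ
    by_contra hcon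
    exact ha j (by omega) τ (by omega) hcon
  · intro j hj b hb'
    by_contra hcon
    exact hb j (by omega) b (by omega) hcon

theorem case_B [CharZero K] (s m i ν : ℕ) (hs : 2 ≤ s) (hν1 : 1 ≤ ν)
    (hν : 2 * ν + 2 * s * i + 3 * s = s * s) (q : K)
    (hq : GenQ s (s ^ 2) m (m * s + i) ν m q) (v : Idx (m * s + i) → K[X])
    (hv : Wpol (gpol (s ^ 2) (cfamN q s ν (s ^ 2))) v ∈
      (Ideal.span {X, C (X ^ (s ^ 2))} : Ideal K[X][X][X]) ^ m)
    (hL : ∀ l, ∀ τ < (i + 2).choose 2 - ν * m,
      ((Gh s (fun p => (v p).coeff l) m).comp (X + C q)).coeff (ν * m + τ) = 0) : v = 0 := by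
  classical
  by_contra hv0
  obtain ⟨hq0, hq1, hg1, hg2⟩ := hq
  have hi : i < s := by nlinarith
  have hD : (m * s + i) / s = m := by
    rw [mul_comm, Nat.mul_add_div (by omega), Nat.div_eq_of_lt hi, add_zero]
  obtain ⟨e, n, hne, hsup, hle, hgt, hX⟩ := family_lead q hq1 s (s ^ 2) m (m * s + i) ν hs v hv hv0
  rw [hD] at hne hsup hX
  have hnum : ∀ j < m, ∀ l, ν * (m - j - 1) ≤ l →
      (Eset s (m * s + i - j * s)).card + ν * (m - j) ≤ s ^ 2 * (m - j) + l := by
    intro j hj l hl
    obtain ⟨k, rfl⟩ : ∃ k, m = j + (k + 1) := ⟨m - j - 1, by omega⟩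
    have e1 : j + (k + 1) - j = k + 1 := by omega
    rw [e1, Nat.add_sub_cancel] at hl
    rw [e1]
    have e2 : (j + (k + 1)) * s + i - j * s = (k + 1) * s + i := by
      have : (j + (k + 1)) * s = j * s + (k + 1) * s := by ring
      omega
    rw [e2]
    have h1 := card_mid s (k + 1) i ν (by omega) (by omega) hν
    have h2 : ν * (k + 1) = ν * k + ν := by ring
    omega
  have hzero : ∀ l ≤ ν * m, ∀ j < m, ν * (m - j - 1) ≤ l →
      (X - C q) ^ l ∣ (Apol q ν m n).coeff j → (Apol q ν m n).coeff j = 0 := by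
    intro l hl j hj hlj hdiv
    exact apol_zero s (s ^ 2) m (m * s + i) ν m (by omega) q hq1 (by omega) n hsup
      (fun j _ => hX j) hg1 hg2 l j hl (by omega) hdiv (hnum j hj l hlj)
  have hstep := apol_step q ν m hν1 n
    (fun l => (Finset.range m).filter (fun j => ν * (m - j - 1) ≤ l))
    (fun l => by
      refine (Finset.filter_subset _ _).trans (Finset.range_mono (by omega)))
    (fun l hl hdiv j hj => by
      rw [Finset.mem_filter, Finset.mem_range] at hj
      exact hzero l (by omega) j hj.1 hj.2 (hdiv j))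
    (fun l hl => by
      have hL1 : l / ν < m := by
        rw [Nat.div_lt_iff_lt_mul (by omega)]; rwa [mul_comm] at hl
      have hL2 : ν * (l / ν) ≤ l := Nat.mul_div_le l ν
      generalize l / ν = L at hL1 hL2
      rw [← Finset.card_range (L + 1)]
      refine Finset.card_le_card_of_injOn (fun k => m - 1 - k) ?_ ?_
      · intro k hk
        rw [Finset.mem_coe, Finset.mem_range] at hk
        rw [Finset.mem_coe, Finset.mem_filter, Finset.mem_range]
        change m - 1 - k < m ∧ ν * (m - (m - 1 - k) - 1) ≤ l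
        refine ⟨by omega, ?_⟩
        have e1 : m - (m - 1 - k) - 1 = k := by omega
        rw [e1]
        exact (Nat.mul_le_mul_left ν (by omega)).trans hL2
      · intro k hk k' hk' hkk
        rw [Finset.mem_coe, Finset.mem_range] at hk hk'
        simp only at hkk
        omega)
  have hall := hstep (ν * m) le_rfl
  have hnm : n m = 0 := by
    by_cases hme : m ≤ e
    · have h1 := hall m
      rw [apol_coeff_top] at h1
      have h2 := hsup m le_rfl
      have e1 : m * s + i - m * s = i := by omega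
      rw [e1] at h2
      refine lac q hq0 _ _ h2 ?_
      rw [shift_dvd_q] at h1 ⊢
      intro t ht
      by_cases htr : t < ν * m
      · exact h1 t htr
      · rw [card_Eset_small s i hi] at ht
        have h5 := hL (e - m) (t - ν * m) (by omega)
        rw [(by omega : ν * m + (t - ν * m) = t)] at h5
        rw [hle m hme]
        exact h5
    · exact hgt m (by omega)
  obtain ⟨h, hh, hnh⟩ := hne
  apply hnh
  refine apol_inj q ν m n (fun j hj => ?_) h hh
  by_cases hjm : j < m
  · exact hzero (ν * m) le_rfl j hjm (Nat.mul_le_mul_left _ (by omega)) (hall j)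
  · have : j = m := by omega
    rw [this, apol_coeff_top, hnm]

end

end MP_cea741_ag.Hil
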