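import Mathlib

/-! Weighted orders on `K[x][z]`. -/

namespace MP_cea741_ag.NSq

open Polynomial

variable {K : Type*} [Field K]

/-- grading homomorphism on `K[x]`: `x ↦ x T` -/
noncomputable def Thx : K[X] →+* K[X][X][X] :=
  eval₂RingHom ((C : K[X][X] →+* K[X][X][X]).comp ((C : K[X] →+* K[X][X]).comp
    (C : K →+* K[X]))) ((C (C (X : K[X]) : K[X][X]) : K[X][X][X]) * (X : K[X][X][X]))

/-- grading homomorphism: `x ↦ x T`, `z ↦ z T^l` -/
noncomputable def Th (l : ℕ) : K[X][X] →+* K[X][X][X] :=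
  eval₂RingHom (Thx : K[X] →+* K[X][X][X]) ((C (X : K[X][X]) : K[X][X][X]) * (X : K[X][X][X]) ^ l)

theorem Th_monomial (l i j : ℕ) (a : K) :
    Th l (monomial j (monomial i a)) = monomial (i + l * j) (monomial j (monomial i a)) := by
  simp only [Th, Thx, coe_eval₂RingHom, eval₂_monomial, RingHom.comp_apply]
  rw [← C_mul_X_pow_eq_monomial, ← C_mul_X_pow_eq_monomial, ← C_mul_X_pow_eq_monomial]
  simp only [C_mul, C_pow, pow_add, pow_mul]
  ring

theorem Th_coeff (l : ℕ) (H : K[X][X]) (n i j : ℕ) :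
    (((Th l H).coeff n).coeff j).coeff i = if i + l * j = n then (H.coeff j).coeff i else 0 := by
  induction H using Polynomial.induction_on' with
  | add P Q hP hQ =>
    rw [map_add, coeff_add, coeff_add, coeff_add, hP, hQ, coeff_add, coeff_add]
    split_ifs <;> simp
  | monomial j' f =>
    induction f using Polynomial.induction_on' with
    | add P Q hP hQ =>
      rw [map_add, map_add, coeff_add, coeff_add, coeff_add, hP, hQ, coeff_add, coeff_add]
      split_ifs <;> simp
    | monomial i' a =>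
      rw [Th_monomial]
      simp only [coeff_monomial]
      by_cases h1 : i' + l * j' = n
      · by_cases h2 : j' = j
        · by_cases h3 : i' = i
          · subst h2; subst h3; simp [h1]
          · subst h2
            simp [h1, coeff_monomial, h3]
        · simp [h1, h2, coeff_monomial]
      · by_cases h2 : j' = j
        · by_cases h3 : i' = i
          · subst h2; subst h3; simp [h1]
          · subst h2
            simp [h1, coeff_monomial, h3]
        · simp [h1, h2]

theorem Th_injective (l : ℕ) : Function.Injective (Th (K := K) l) := by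
  rw [injective_iff_map_eq_zero]
  intro H hH
  ext j i
  have := Th_coeff l H (i + l * j) i j
  rw [hH] at this
  simpa using this.symm

theorem Th_ne_zero {l : ℕ} {H : K[X][X]} (h : H ≠ 0) : Th l H ≠ 0 :=
  (map_ne_zero_iff _ (Th_injective l)).mpr h

/-- weighted order (weights `(1,l)`). -/
noncomputable def val (l : ℕ) (H : K[X][X]) : ℕ := (Th l H).natTrailingDegree

/-- total degree -/
noncomputable def tdeg (H : K[X][X]) : ℕ := (Th 1 H).natDegree

theorem val_mul (l : ℕ) {P Q : K[X][X]} (hP : P ≠ 0) (hQ : Q ≠ 0) :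
    val l (P * Q) = val l P + val l Q := by
  rw [val, map_mul, natTrailingDegree_mul (Th_ne_zero hP) (Th_ne_zero hQ)]
  rfl

theorem tdeg_mul {P Q : K[X][X]} (hP : P ≠ 0) (hQ : Q ≠ 0) :
    tdeg (P * Q) = tdeg P + tdeg Q := by
  rw [tdeg, map_mul, natDegree_mul (Th_ne_zero hP) (Th_ne_zero hQ)]
  rfl

/-- all coefficients of weight `< M` vanish -/
def Vge (l M : ℕ) (H : K[X][X]) : Prop := ∀ i j, i + l * j < M → (H.coeff j).coeff i = 0

theorem Vge_iff_coeff (l M : ℕ) (H : K[X][X]) : Vge l M H ↔ ∀ n < M, (Th l H).coeff n = 0 := by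
  constructor
  · intro h n hn
    ext j i
    rw [Th_coeff]
    split_ifs with h1
    · rw [h i j (by omega)]; simp
    · simp
  · intro h i j hij
    have := Th_coeff l H (i + l * j) i j
    rw [h _ hij] at this
    simpa using this.symm

theorem Vge_iff {l M : ℕ} {H : K[X][X]} (hH : H ≠ 0) : Vge l M H ↔ M ≤ val l H := by
  rw [Vge_iff_coeff]
  constructor
  · intro h
    exact le_natTrailingDegree (Th_ne_zero hH) h
  · intro h n hn
    exact coeff_eq_zero_of_lt_natTrailingDegree (lt_of_lt_of_le hn h)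

theorem Vge_zero (l M : ℕ) : Vge l M (0 : K[X][X]) := by
  intro i j _; simp

theorem Vge_mono {l M M' : ℕ} (h : M' ≤ M) {H : K[X][X]} (hH : Vge l M H) : Vge l M' H :=
  fun i j hij => hH i j (lt_of_lt_of_le hij h)

theorem Vge_add {l M : ℕ} {P Q : K[X][X]} (hP : Vge l M P) (hQ : Vge l M Q) : Vge l M (P + Q) := by
  intro i j hij
  rw [coeff_add, coeff_add, hP i j hij, hQ i j hij, add_zero]

theorem Vge_mul {l M N : ℕ} {P Q : K[X][X]} (hP : Vge l M P) (hQ : Vge l N Q) :
    Vge l (M + N) (P * Q) := by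
  by_cases h1 : P = 0
  · rw [h1, zero_mul]; exact Vge_zero _ _
  by_cases h2 : Q = 0
  · rw [h2, mul_zero]; exact Vge_zero _ _
  rw [Vge_iff (mul_ne_zero h1 h2), val_mul l h1 h2]
  exact add_le_add ((Vge_iff h1).mp hP) ((Vge_iff h2).mp hQ)

/-- exactness of the valuation. -/
theorem Vge_of_mul {l N : ℕ} {P Q : K[X][X]} (hP : P ≠ 0) (h : Vge l (val l P + N) (P * Q)) :
    Vge l N Q := by
  by_cases h2 : Q = 0
  · rw [h2]; exact Vge_zero _ _
  rw [Vge_iff (mul_ne_zero hP h2), val_mul l hP h2] at h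
  rw [Vge_iff h2]
  omega

theorem tdeg_le_iff {n : ℕ} {H : K[X][X]} :
    tdeg H ≤ n ↔ ∀ i j, n < i + j → (H.coeff j).coeff i = 0 := by
  rw [tdeg, natDegree_le_iff_coeff_eq_zero]
  constructor
  · intro h i j hij
    have := Th_coeff 1 H (i + 1 * j) i j
    rw [h _ (by omega)] at this
    simpa using this.symm
  · intro h N hN
    ext j i
    rw [Th_coeff]
    split_ifs with h1
    · rw [h i j (by omega)]; simp
    · simp

theorem tdeg_zero : tdeg (0 : K[X][X]) = 0 := by simp [tdeg]

theorem tdeg_mul_le (P Q : K[X][X]) : tdeg (P * Q) ≤ tdeg P + tdeg Q := by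
  by_cases h1 : P = 0
  · simp [h1, tdeg_zero]
  by_cases h2 : Q = 0
  · simp [h2, tdeg_zero]
  exact (tdeg_mul h1 h2).le

theorem tdeg_add_le {n : ℕ} {P Q : K[X][X]} (hP : tdeg P ≤ n) (hQ : tdeg Q ≤ n) :
    tdeg (P + Q) ≤ n := by
  rw [tdeg_le_iff] at *
  intro i j hij
  rw [coeff_add, coeff_add, hP i j hij, hQ i j hij, add_zero]

/-- polynomials of total degree zero are constants -/
theorem eq_C_of_tdeg_eq_zero {H : K[X][X]} (h : tdeg H = 0) : H = C (C ((H.coeff 0).coeff 0)) := by
  have h1 := tdeg_le_iff.mp h.le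
  ext j i
  by_cases hij : 0 < i + j
  · rw [h1 i j hij, coeff_C]
    split_ifs with hj
    · rw [coeff_C, if_neg (by omega)]
    · simp
  · have hi : i = 0 := by omega
    have hj : j = 0 := by omega
    subst hi; subst hj; simp

end MP_cea741_ag.NSq
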