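import Mathlib
import Pool.Agent.Lib.MP_cea741_ag.NVal

/-! A Bezout-type inequality for weighted orders, by a dimension count. -/

namespace MP_cea741_ag.NSq

open Polynomial Finset

variable {K : Type*} [Field K]

/-- lattice points `⟨j,i⟩` with `i + l j < M` -/
def Tset (l M : ℕ) : Finset (Σ _ : ℕ, ℕ) := (range M).sigma (fun j => range (M - l * j))

/-- number of lattice points -/
def T (l M : ℕ) : ℕ := (Tset l M).card

theorem mem_Tset {l M : ℕ} (hl : 1 ≤ l) (p : Σ _ : ℕ, ℕ) : p ∈ Tset l M ↔ p.2 + l * p.1 < M := by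
  rw [Tset, mem_sigma, mem_range, mem_range]
  constructor
  · rintro ⟨_, h⟩; omega
  · intro h
    have : p.1 ≤ l * p.1 := Nat.le_mul_of_pos_left _ hl
    omega

theorem T_eq_sum {l : ℕ} (hl : 1 ≤ l) (M N : ℕ) (hN : M ≤ N) :
    T l M = ∑ j ∈ range N, (M - l * j) := by
  rw [T, Tset, card_sigma]
  simp only [card_range]
  refine sum_subset (fun x hx => ?_) (fun x _ hx => ?_)
  · rw [mem_range] at *; omega
  · rw [mem_range] at hx
    have : x ≤ l * x := Nat.le_mul_of_pos_left _ hl
    omega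

theorem T_rec {l : ℕ} (hl : 1 ≤ l) (M : ℕ) : T l (M + l) = T l M + (M + l) := by
  rw [T_eq_sum hl (M + l) (M + l + 1) (by omega), sum_range_succ', T_eq_sum hl M (M + l) (by omega)]
  congr 1
  refine sum_congr rfl fun j _ => ?_
  rw [mul_add]; omega

theorem T_small {l s : ℕ} (hl : 1 ≤ l) (h : s ≤ l) : T l s = s := by
  rw [T_eq_sum hl s (s + 1) (by omega), sum_range_succ']
  have : ∑ j ∈ range s, (s - l * (j + 1)) = 0 := by
    refine sum_eq_zero fun j _ => ?_
    have : l ≤ l * (j + 1) := Nat.le_mul_of_pos_right _ (by omega)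
    omega
  rw [this]; simp

theorem T_formula {l s : ℕ} (hl : 1 ≤ l) (h : s ≤ l) (q : ℕ) :
    2 * T l (l * q + s) = (q + 1) * (2 * s + l * q) := by
  induction q with
  | zero => simp [T_small hl h]
  | succ q ih =>
    have : l * (q + 1) + s = (l * q + s) + l := by ring
    rw [this, T_rec hl, mul_add, ih]
    ring

/-- coefficient extraction -/
noncomputable def cf (s : Finset (Σ _ : ℕ, ℕ)) : K[X][X] →ₗ[K] (s → K) :=
  LinearMap.pi fun p =>
    { toFun := fun H => (H.coeff p.1.1).coeff p.1.2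
      map_add' := by intro x y; simp
      map_smul' := by intro x y; simp }

theorem cf_apply (s : Finset (Σ _ : ℕ, ℕ)) (H : K[X][X]) (p : s) :
    cf s H p = (H.coeff p.1.1).coeff p.1.2 := rfl

/-- polynomial with given coefficients -/
noncomputable def mk (s : Finset (Σ _ : ℕ, ℕ)) : (s → K) →ₗ[K] K[X][X] where
  toFun := fun a => ∑ p : s, monomial p.1.1 (monomial p.1.2 (a p))
  map_add' := by
    intro x y
    rw [← sum_add_distrib]
    refine sum_congr rfl fun p _ => ?_
    simp
  map_smul' := by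
    intro c x
    rw [RingHom.id_apply, smul_sum]
    refine sum_congr rfl fun p _ => ?_
    simp [smul_monomial]

theorem mk_apply (s : Finset (Σ _ : ℕ, ℕ)) (a : s → K) :
    mk s a = ∑ p : s, monomial p.1.1 (monomial p.1.2 (a p)) := rfl

theorem mk_coeff_mem (s : Finset (Σ _ : ℕ, ℕ)) (a : s → K) (p : s) :
    ((mk s a).coeff p.1.1).coeff p.1.2 = a p := by
  rw [mk_apply, finsetSum_coeff, finsetSum_coeff, sum_eq_single p]
  · simp
  · intro q _ hq
    rw [coeff_monomial]
    split_ifs with h1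
    · rw [coeff_monomial, if_neg]
      intro h2
      exact hq (Subtype.ext (Sigma.ext h1 (by simpa using h2)))
    · simp
  · simp

theorem mk_coeff_not_mem (s : Finset (Σ _ : ℕ, ℕ)) (a : s → K) (i j : ℕ)
    (h : (⟨j, i⟩ : Σ _ : ℕ, ℕ) ∉ s) : ((mk s a).coeff j).coeff i = 0 := by
  rw [mk_apply, finsetSum_coeff, finsetSum_coeff]
  refine sum_eq_zero fun q _ => ?_
  rw [coeff_monomial]
  split_ifs with h1
  · rw [coeff_monomial, if_neg]
    intro h2
    apply h
    have : q.1 = ⟨j, i⟩ := Sigma.ext h1 (by simpa using h2)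
    rw [← this]; exact q.2
  · simp

theorem cf_mk (s : Finset (Σ _ : ℕ, ℕ)) (a : s → K) : cf s (mk s a) = a := by
  funext p
  rw [cf_apply, mk_coeff_mem]

/-- subtracting the truncation leaves an element of high order -/
theorem Vge_sub_mk {l M : ℕ} (hl : 1 ≤ l) (H : K[X][X]) :
    Vge l M (H - mk (Tset l M) (cf (Tset l M) H)) := by
  intro i j hij
  have hm : (⟨j, i⟩ : Σ _ : ℕ, ℕ) ∈ Tset l M := (mem_Tset hl _).mpr hij
  rw [coeff_sub, coeff_sub]
  have := mk_coeff_mem (Tset l M) (cf (Tset l M) H) ⟨⟨j, i⟩, hm⟩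
  simp only at this
  rw [this, cf_apply]; simp

theorem cf_eq_zero_of_Vge {l M : ℕ} (hl : 1 ≤ l) {H : K[X][X]} (h : Vge l M H) :
    cf (Tset l M) H = 0 := by
  funext p
  exact h _ _ ((mem_Tset hl _).mp p.2)

theorem Vge_of_cf_eq_zero {l M : ℕ} (hl : 1 ≤ l) {H : K[X][X]} (h : cf (Tset l M) H = 0) :
    Vge l M H := by
  intro i j hij
  exact congrFun h ⟨⟨j, i⟩, (mem_Tset hl _).mpr hij⟩

theorem mk_cf_of_tdeg {n : ℕ} {H : K[X][X]} (h : tdeg H ≤ n) :
    mk (Tset 1 (n + 1)) (cf (Tset 1 (n + 1)) H) = H := by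
  ext j i
  by_cases hij : (⟨j, i⟩ : Σ _ : ℕ, ℕ) ∈ Tset 1 (n + 1)
  · have := mk_coeff_mem (Tset 1 (n + 1)) (cf (Tset 1 (n + 1)) H) ⟨⟨j, i⟩, hij⟩
    simp only at this
    rw [this, cf_apply]
  · rw [mk_coeff_not_mem _ _ _ _ hij]
    rw [mem_Tset le_rfl] at hij
    exact (tdeg_le_iff.mp h i j (by simp only at hij; omega)).symm

theorem tdeg_mk_le {n : ℕ} (a : Tset 1 (n + 1) → K) : tdeg (mk (Tset 1 (n + 1)) a) ≤ n := by
  rw [tdeg_le_iff]
  intro i j hij
  refine mk_coeff_not_mem _ _ _ _ ?_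
  rw [mem_Tset le_rfl]
  simp only; omega

theorem two_card_V (n : ℕ) : 2 * T 1 (n + 1) = (n + 1) * (n + 2) := by
  have := T_formula (l := 1) (s := 1) le_rfl le_rfl n
  rw [one_mul] at this
  rw [this]; ring

theorem tdeg_sum_le {ι : Type*} (s : Finset ι) (f : ι → K[X][X]) (n : ℕ)
    (h : ∀ i ∈ s, tdeg (f i) ≤ n) : tdeg (∑ i ∈ s, f i) ≤ n := by
  classical
  induction s using Finset.induction_on with
  | empty => simp [tdeg_zero]
  | insert a s ha ih =>
    rw [sum_insert ha]
    exact tdeg_add_le (h a (mem_insert_self _ _)) (ih fun i hi => h i (mem_insert_of_mem hi))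

theorem tdeg_pow_le (P : K[X][X]) (n : ℕ) : tdeg (P ^ n) ≤ n * tdeg P := by
  induction n with
  | zero =>
    rw [pow_zero, zero_mul, tdeg_le_iff]
    intro i j hij
    rw [coeff_one]
    split_ifs with h
    · rw [coeff_one, if_neg (by omega)]
    · simp
  | succ n ih =>
    rw [pow_succ, add_mul, one_mul]
    exact (tdeg_mul_le _ _).trans (by omega)

theorem tdeg_shift_le {l : ℕ} (hl : 1 ≤ l) {φ : K[X]} (hφ : φ.natDegree ≤ l) :
    tdeg (X + C φ : K[X][X]) ≤ l := by
  rw [tdeg_le_iff]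
  intro i j hij
  rw [coeff_add, coeff_add, coeff_X, coeff_C]
  have h1 : ((if 1 = j then (1 : K[X]) else 0)).coeff i = 0 := by
    split_ifs with h
    · rw [coeff_one, if_neg (by omega)]
    · simp
  have h2 : ((if j = 0 then φ else 0)).coeff i = 0 := by
    split_ifs with h
    · exact coeff_eq_zero_of_natDegree_lt (by omega)
    · simp
  rw [h1, h2, add_zero]

theorem tdeg_taylor_mk_le {l M : ℕ} (hl : 1 ≤ l) {φ : K[X]} (hφ : φ.natDegree ≤ l)
    (a : Tset l M → K) : tdeg (taylor φ (mk (Tset l M) a)) ≤ M := by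
  rw [mk_apply, map_sum]
  refine tdeg_sum_le _ _ _ fun p _ => ?_
  rw [taylor_monomial]
  have h0 := (mem_Tset hl _).mp p.2
  have h1 : tdeg (C (monomial p.1.2 (a p)) : K[X][X]) ≤ p.1.2 := by
    rw [tdeg_le_iff]
    intro i j hij
    rw [coeff_C]
    split_ifs with h
    · rw [coeff_monomial, if_neg (by omega)]
    · simp
  have h2 := tdeg_pow_le (X + C φ : K[X][X]) p.1.1
  have h3 := Nat.mul_le_mul_left p.1.1 (tdeg_shift_le hl hφ)
  have h4 := tdeg_mul_le (C (monomial p.1.2 (a p)) : K[X][X]) ((X + C φ) ^ p.1.1)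
  have h5 : p.1.1 * l = l * p.1.1 := mul_comm _ _
  omega

/-- pure linear algebra -/
theorem rank_ineq {U V W U' : Type*} [AddCommGroup U] [Module K U] [FiniteDimensional K U]
    [AddCommGroup V] [Module K V] [FiniteDimensional K V]
    [AddCommGroup W] [Module K W] [FiniteDimensional K W]
    [AddCommGroup U'] [Module K U'] [FiniteDimensional K U']
    (L : U →ₗ[K] V) (q : V →ₗ[K] W) (hq : Function.Surjective q) (Ψ : U' →ₗ[K] W)
    (h : LinearMap.range (q ∘ₗ L) ≤ LinearMap.range Ψ) :
    Module.finrank K W + Module.finrank K U + Module.finrank K (LinearMap.ker Ψ) ≤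
      Module.finrank K U' + Module.finrank K V + Module.finrank K (LinearMap.ker L) := by
  have h1 := LinearMap.finrank_range_add_finrank_ker L
  have h2 := LinearMap.finrank_range_add_finrank_ker q
  have h3 := LinearMap.finrank_range_add_finrank_ker Ψ
  have h4 := Submodule.finrank_mono h
  have h5 : Module.finrank K (LinearMap.range q) = Module.finrank K W := by
    rw [LinearMap.range_eq_top.mpr hq, finrank_top]
  -- rank of the restriction of q to the range of L
  set q' : LinearMap.range L →ₗ[K] W := q ∘ₗ (LinearMap.range L).subtype with hq'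
  have h6 := LinearMap.finrank_range_add_finrank_ker q'
  have h7 : LinearMap.range q' = LinearMap.range (q ∘ₗ L) := by
    rw [hq', LinearMap.range_comp, LinearMap.range_comp, Submodule.range_subtype]
  have h8 : Module.finrank K (LinearMap.ker q') ≤ Module.finrank K (LinearMap.ker q) := by
    refine LinearMap.finrank_le_finrank_of_injective
      (f := ((LinearMap.range L).subtype ∘ₗ (LinearMap.ker q').subtype).codRestrict
        (LinearMap.ker q) (fun x => x.2)) ?_
    intro x y hxy
    have := congrArg Subtype.val hxy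
    simp only [LinearMap.codRestrict_apply, LinearMap.comp_apply, Submodule.subtype_apply] at this
    exact Subtype.ext (Subtype.ext this)
  rw [h7] at h6
  omega

theorem taylor_sub' (φ : K[X]) (A B : K[X][X]) : taylor φ (A - B) = taylor φ A - taylor φ B :=
  map_sub _ _ _

/-- **Bezout inequality** for a polynomial `F` of exact degree `d` and exact weighted order `a`
and a coprime polynomial `G` of degree `≤ e` and weighted order `≥ b`. -/
theorem bezout_count {l : ℕ} (hl : 1 ≤ l) {φ : K[X]} (hφ : φ.natDegree ≤ l) {F G : K[X][X]}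
    (hF : F ≠ 0) (hcop : ∀ A B : K[X][X], F * A + G * B = 0 → F ∣ B)
    {e b : ℕ} (he : tdeg G ≤ e) (hb : Vge l b (taylor φ G)) (M : ℕ) :
    T l (val l (taylor φ F) + b + M) + T l M ≤
      T l (val l (taylor φ F) + M) + T l (b + M) + tdeg F * e := by
  classical
  set d := tdeg F with hd
  set a := val l (taylor φ F) with ha
  set P := a + b + M with hP
  set N := d + e + P with hN
  have hσF : taylor φ F ≠ 0 := (taylor_eq_zero φ F).not.mpr hF
  have hbF : Vge l a (taylor φ F) := (Vge_iff hσF).mpr le_rfl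
  -- the map L
  set L : ((Tset 1 (e + P + 1) → K) × (Tset 1 (d + P + 1) → K)) →ₗ[K] (Tset 1 (N + 1) → K) :=
    (cf (Tset 1 (N + 1))) ∘ₗ
      ((LinearMap.mulLeft K F) ∘ₗ (mk _) ∘ₗ LinearMap.fst K _ _ +
        (LinearMap.mulLeft K G) ∘ₗ (mk _) ∘ₗ LinearMap.snd K _ _) with hL
  have hLa : ∀ A B, L (A, B) = cf (Tset 1 (N + 1)) (F * mk _ A + G * mk _ B) := fun A B => rfl
  have hdeg : ∀ A B, tdeg (F * mk (Tset 1 (e + P + 1)) A + G * mk (Tset 1 (d + P + 1)) B) ≤ N := by
    intro A B
    refine tdeg_add_le ((tdeg_mul_le _ _).trans ?_) ((tdeg_mul_le _ _).trans ?_)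
    · have := tdeg_mk_le A; omega
    · have := tdeg_mk_le B; omega
  set q : (Tset 1 (N + 1) → K) →ₗ[K] (Tset l P → K) :=
    (cf (Tset l P)) ∘ₗ ((taylor φ).restrictScalars K) ∘ₗ (mk _) with hq
  have hqa : ∀ A, q A = cf (Tset l P) (taylor φ (mk _ A)) := fun A => rfl
  have hqs : Function.Surjective q := by
    intro y
    refine ⟨cf _ (taylor (-φ) (mk (Tset l P) y)), ?_⟩
    rw [hqa]
    have h1 : tdeg (taylor (-φ) (mk (Tset l P) y)) ≤ N :=
      (tdeg_taylor_mk_le hl (by rw [natDegree_neg]; exact hφ) y).trans (by omega)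
    rw [mk_cf_of_tdeg h1, taylor_taylor, add_neg_cancel, taylor_zero, cf_mk]
  set Ψ : ((Tset l (b + M) → K) × (Tset l (a + M) → K)) →ₗ[K] (Tset l P → K) :=
    (cf (Tset l P)) ∘ₗ
      ((LinearMap.mulLeft K (taylor φ F)) ∘ₗ (mk _) ∘ₗ LinearMap.fst K _ _ +
        (LinearMap.mulLeft K (taylor φ G)) ∘ₗ (mk _) ∘ₗ LinearMap.snd K _ _) with hΨ
  have hΨa : ∀ A B, Ψ (A, B) = cf (Tset l P) (taylor φ F * mk _ A + taylor φ G * mk _ B) :=
    fun A B => rfl
  have hrange : LinearMap.range (q ∘ₗ L) ≤ LinearMap.range Ψ := by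
    rintro _ ⟨⟨A, B⟩, rfl⟩
    refine ⟨(cf _ (taylor φ (mk _ A)), cf _ (taylor φ (mk _ B))), ?_⟩
    change Ψ _ = q (L (A, B))
    rw [hLa, hqa, mk_cf_of_tdeg (hdeg A B), hΨa, map_add (taylor φ), taylor_mul, taylor_mul]
    rw [← sub_eq_zero, ← map_sub]
    refine cf_eq_zero_of_Vge hl ?_
    have e1 : taylor φ F * mk (Tset l (b + M)) (cf _ (taylor φ (mk _ A)))
        + taylor φ G * mk (Tset l (a + M)) (cf _ (taylor φ (mk _ B)))
        - (taylor φ F * taylor φ (mk _ A) + taylor φ G * taylor φ (mk _ B))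
        = taylor φ F * (-(taylor φ (mk _ A) - mk (Tset l (b + M)) (cf _ (taylor φ (mk _ A)))))
        + taylor φ G * (-(taylor φ (mk _ B) - mk (Tset l (a + M)) (cf _ (taylor φ (mk _ B))))) := by
      ring
    rw [e1]
    have neg : ∀ {n : ℕ} {H : K[X][X]}, Vge l n H → Vge l n (-H) := by
      intro n H h i j hij
      rw [coeff_neg, coeff_neg, h i j hij, neg_zero]
    refine Vge_add ?_ ?_
    · have := Vge_mul hbF (neg (Vge_sub_mk (M := b + M) hl (taylor φ (mk _ A))))
      refine Vge_mono ?_ this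
      omega
    · have := Vge_mul hb (neg (Vge_sub_mk (M := a + M) hl (taylor φ (mk _ B))))
      refine Vge_mono ?_ this
      omega
  have key := rank_ineq L q hqs Ψ hrange
  -- dimension of ker L
  have hker : Module.finrank K (LinearMap.ker L) ≤ T 1 (P + 1) := by
    set R : (Tset 1 (P + 1) → K) →ₗ[K] ((Tset 1 (e + P + 1) → K) × (Tset 1 (d + P + 1) → K)) :=
      LinearMap.prod (-((cf _) ∘ₗ (LinearMap.mulLeft K G) ∘ₗ (mk _)))
        ((cf _) ∘ₗ (LinearMap.mulLeft K F) ∘ₗ (mk _)) with hR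
    have hle : LinearMap.ker L ≤ LinearMap.range R := by
      rintro ⟨A, B⟩ hAB
      rw [LinearMap.mem_ker, hLa] at hAB
      have h0 : F * mk _ A + G * mk _ B = 0 := by
        rw [← mk_cf_of_tdeg (hdeg A B), hAB, map_zero]
      obtain ⟨Q, hQ⟩ := hcop _ _ h0
      have hA : mk _ A = -(G * Q) := by
        rw [hQ] at h0
        have : F * (mk _ A + G * Q) = 0 := by rw [← h0]; ring
        rcases mul_eq_zero.mp this with h | h
        · exact absurd h hF
        · exact eq_neg_of_add_eq_zero_left h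
      have hQd : tdeg Q ≤ P := by
        by_cases hQ0 : Q = 0
        · rw [hQ0, tdeg_zero]; exact Nat.zero_le _
        · have h1 := tdeg_mul hF hQ0
          have h2 := tdeg_mk_le B
          rw [hQ] at h2
          omega
      refine ⟨cf _ Q, ?_⟩
      rw [hR, LinearMap.prod_apply]
      refine Prod.ext ?_ ?_
      · change -(cf _ (G * mk _ (cf _ Q))) = A
        rw [mk_cf_of_tdeg hQd, ← map_neg, ← hA, cf_mk]
      · change cf _ (F * mk _ (cf _ Q)) = B
        rw [mk_cf_of_tdeg hQd, ← hQ, cf_mk]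
    refine (Submodule.finrank_mono hle).trans ((LinearMap.finrank_range_le R).trans ?_)
    rw [Module.finrank_fintype_fun_eq_card, Fintype.card_coe]
    exact le_rfl
  -- dimension of ker Ψ
  have hkerΨ : T l M ≤ Module.finrank K (LinearMap.ker Ψ) := by
    set R : (Tset l M → K) →ₗ[K] ((Tset l (b + M) → K) × (Tset l (a + M) → K)) :=
      LinearMap.prod (-((cf _) ∘ₗ (LinearMap.mulLeft K (taylor φ G)) ∘ₗ (mk _)))
        ((cf _) ∘ₗ (LinearMap.mulLeft K (taylor φ F)) ∘ₗ (mk _)) with hR
    have hRa : ∀ A, R A = (-(cf _ (taylor φ G * mk _ A)), cf _ (taylor φ F * mk _ A)) := fun A => rfl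
    have hRinj : Function.Injective R := by
      rw [← LinearMap.ker_eq_bot, LinearMap.ker_eq_bot']
      intro A hA
      rw [hRa] at hA
      have h1 := congrArg Prod.snd hA
      simp only [Prod.snd_zero] at h1
      have h2 : Vge l (a + M) (taylor φ F * mk _ A) := Vge_of_cf_eq_zero hl h1
      have h3 : Vge l M (mk _ A) := Vge_of_mul hσF h2
      have h4 := cf_eq_zero_of_Vge hl h3
      rwa [cf_mk] at h4
    have hRker : ∀ A, R A ∈ LinearMap.ker Ψ := by
      intro A
      rw [LinearMap.mem_ker, hRa, hΨa, map_neg]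
      set U := taylor φ G * mk _ A
      set V := taylor φ F * mk _ A
      have e2 : taylor φ F * -(mk (Tset l (b + M)) (cf _ U)) + taylor φ G * mk (Tset l (a + M)) (cf _ V)
          = taylor φ F * (U - mk (Tset l (b + M)) (cf _ U))
            + (- (taylor φ G * (V - mk (Tset l (a + M)) (cf _ V)))) := by
        have : taylor φ F * U = taylor φ G * V := by
          simp only [U, V]; ring
        rw [mul_sub, mul_sub, this]; ring
      rw [e2]
      refine cf_eq_zero_of_Vge hl ?_
      have neg : ∀ {n : ℕ} {H : K[X][X]}, Vge l n H → Vge l n (-H) := by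
        intro n H h i j hij
        rw [coeff_neg, coeff_neg, h i j hij, neg_zero]
      refine Vge_add ?_ (neg ?_)
      · refine Vge_mono ?_ (Vge_mul hbF (Vge_sub_mk (M := b + M) hl U))
        omega
      · refine Vge_mono ?_ (Vge_mul hb (Vge_sub_mk (M := a + M) hl V))
        omega
    have h5 := LinearMap.finrank_le_finrank_of_injective
      (f := R.codRestrict (LinearMap.ker Ψ) hRker) (by
        intro x y hxy
        exact hRinj (congrArg Subtype.val hxy))
    rw [Module.finrank_fintype_fun_eq_card, Fintype.card_coe] at h5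
    exact h5
  rw [Module.finrank_prod, Module.finrank_prod] at key
  simp only [Module.finrank_fintype_fun_eq_card, Fintype.card_coe] at key
  change T l P + (T 1 (e + P + 1) + T 1 (d + P + 1)) + _ ≤
    T l (b + M) + T l (a + M) + T 1 (N + 1) + _ at key
  have c1 := two_card_V (e + P)
  have c2 := two_card_V (d + P)
  have c3 := two_card_V N
  have c4 := two_card_V P
  have c5 : (N + 1) * (N + 2) + (P + 1) * (P + 2) =
      (e + P + 1) * (e + P + 2) + (d + P + 1) * (d + P + 2) + 2 * (d * e) := by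
    rw [hN]; ring
  omega

end MP_cea741_ag.NSq
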