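import Mathlib
import Pool.Agent.Lib.MP_cea741_ag.NBezout

/-! Numerical part. -/

namespace MP_cea741_ag.NSq

theorem sq_mod16 (d : ℤ) : (d * d) % 16 = 0 ∨ (d * d) % 16 = 1 ∨ (d * d) % 16 = 4 ∨
    (d * d) % 16 = 9 := by
  have h : d % 16 = 0 ∨ d % 16 = 1 ∨ d % 16 = 2 ∨ d % 16 = 3 ∨ d % 16 = 4 ∨ d % 16 = 5 ∨
    d % 16 = 6 ∨ d % 16 = 7 ∨ d % 16 = 8 ∨ d % 16 = 9 ∨ d % 16 = 10 ∨ d % 16 = 11 ∨
    d % 16 = 12 ∨ d % 16 = 13 ∨ d % 16 = 14 ∨ d % 16 = 15 := by omega
  rcases h with h | h | h | h | h | h | h | h | h | h | h | h | h | h | h | h <;>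
    simp [Int.mul_emod, h]

theorem sq_mod9 (d : ℤ) : (d * d) % 9 = 0 ∨ (d * d) % 9 = 1 ∨ (d * d) % 9 = 4 ∨
    (d * d) % 9 = 7 := by
  have h : d % 9 = 0 ∨ d % 9 = 1 ∨ d % 9 = 2 ∨ d % 9 = 3 ∨ d % 9 = 4 ∨ d % 9 = 5 ∨
    d % 9 = 6 ∨ d % 9 = 7 ∨ d % 9 = 8 := by omega
  rcases h with h | h | h | h | h | h | h | h | h <;> simp [Int.mul_emod, h]

theorem numeric_int (r l w d b1 b2 : ℤ) (hr : 10 ≤ r) (hl1 : 1 ≤ l) (hl : l ≤ r)
    (hw : w = l * b1 + b2 + 1) (hb1 : 0 ≤ b1) (hb2 : 0 ≤ b2) (hb2l : b2 < l) (hd : 1 ≤ d)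
    (h : l * (b1 * b1) + 2 * b1 * b2 + b1 + b2 ≤ d * d)
    (hexc1 : ¬ (l = r ∧ w = r ∧ d * d = r - 1))
    (hexc2 : ¬ (l = r ∧ w = r + 1 ∧ d * d = r + 1)) :
    4 * (w * w) ≤ (4 * r + 1) * (d * d) := by
  have h16 := sq_mod16 d
  have h9 := sq_mod9 d
  have he1 : 1 ≤ d * d := by nlinarith
  rcases lt_or_eq_of_le hl with hlr | hlr
  · -- l < r
    have hmul : w * w - w ≤ l * (d * d) := by
      have h1 : l * (l * (b1 * b1) + 2 * b1 * b2 + b1 + b2) ≤ l * (d * d) :=
        mul_le_mul_of_nonneg_left h (by omega)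
      have h2 : w * w - w + b2 * (l - 1 - b2) = l * (l * (b1 * b1) + 2 * b1 * b2 + b1 + b2) := by
        rw [hw]; ring
      have h3 : 0 ≤ b2 * (l - 1 - b2) := mul_nonneg hb2 (by omega)
      linarith
    rcases lt_or_ge b1 1 with hb | hb
    · have hb0 : b1 = 0 := by omega
      subst hb0
      simp only [mul_zero, zero_mul, zero_add, add_zero] at h hw
      rcases lt_or_ge w 5 with hw5 | hw5
      · have : w = 1 ∨ w = 2 ∨ w = 3 ∨ w = 4 := by omega
        rcases this with h5 | h5 | h5 | h5
        · rw [h5]; nlinarith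
        · rw [h5]; nlinarith
        · rw [h5]; nlinarith
        · rw [h5]; nlinarith
      · have h6 : w ≤ l := by omega
        nlinarith [mul_nonneg (by omega : (0:ℤ) ≤ r - 1 - w) (by omega : (0:ℤ) ≤ d * d)]
    · have h7 : 4 * w ≤ 5 * (d * d) := by
        rw [hw]
        nlinarith [mul_nonneg (by omega : (0:ℤ) ≤ l) (mul_nonneg hb1 (by omega : (0:ℤ) ≤ b1 - 1)),
          mul_nonneg hb1 hb2, mul_nonneg (by omega : (0:ℤ) ≤ b1 - 1) hb2,
          mul_nonneg (by omega : (0:ℤ) ≤ l) hb1]
      nlinarith [mul_nonneg (by omega : (0:ℤ) ≤ r - 1 - l) (by omega : (0:ℤ) ≤ d * d)]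
  · subst hlr
    rcases lt_or_ge b1 4 with hb4 | hb4
    · have hcases : b1 = 0 ∨ b1 = 1 ∨ b1 = 2 ∨ b1 = 3 := by omega
      rcases hcases with hb | hb | hb | hb
      · subst hb
        simp only [mul_zero, zero_mul, zero_add, add_zero] at h hw
        rcases lt_or_ge w 2 with h1 | h1
        · have : w = 1 := by omega
          rw [this]; nlinarith
        rcases lt_or_ge w l with h2 | h2
        · have hw2 : w - 1 ≤ d * d := by omega
          have := mul_le_mul_of_nonneg_left hw2 (by omega : (0:ℤ) ≤ 4 * l + 1)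
          nlinarith [mul_nonneg (by omega : (0:ℤ) ≤ w - 2) (by omega : (0:ℤ) ≤ l - 1 - w)]
        · have hwl : w = l := by omega
          have : d * d ≠ l - 1 := fun h3 => hexc1 ⟨rfl, hwl, h3⟩
          have h4 : l ≤ d * d := by omega
          rw [hwl]; nlinarith
      · subst hb
        simp only [mul_one] at h hw
        by_cases c0 : b2 = 0
        · subst c0
          have hwl : w = l + 1 := by omega
          have : d * d ≠ l + 1 := fun h3 => hexc2 ⟨rfl, hwl, h3⟩
          have h4 : l + 2 ≤ d * d := by omega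
          rw [hwl]; nlinarith
        by_cases c1 : b2 = 1
        · subst c1
          have hwl : w = l + 2 := by omega
          have h4 : l + 4 ≤ d * d := by omega
          rcases lt_or_ge l 12 with h5 | h5
          · have h6 : 16 ≤ d * d := by
              have : 4 ≤ d := by
                by_contra h7
                have : d ≤ 3 := by omega
                nlinarith
              nlinarith
            have : l = 10 ∨ l = 11 := by omega
            rcases this with h7 | h7
            · rw [hwl, h7]; omega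
            · rw [hwl, h7]; omega
          · rw [hwl]; nlinarith
        by_cases c2 : b2 = l - 1
        · have hwl : w = 2 * l := by omega
          have h4 : 4 * l ≤ d * d := by omega
          rw [hwl]; nlinarith
        by_cases c3 : b2 = l - 2
        · have hwl : w = 2 * l - 1 := by omega
          have h4 : 4 * l - 4 ≤ d * d := by omega
          rw [hwl]; nlinarith
        · have h2 : 2 ≤ b2 := by omega
          have h3 : b2 ≤ l - 3 := by omega
          have hw2 : l + 1 + 3 * b2 ≤ d * d := by omega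
          have := mul_le_mul_of_nonneg_left hw2 (by omega : (0:ℤ) ≤ 4 * l + 1)
          rw [hw]
          nlinarith [mul_nonneg (by omega : (0:ℤ) ≤ b2 - 2) (by omega : (0:ℤ) ≤ l - 3 - b2)]
      · subst hb
        by_cases c0 : b2 = 0
        · subst c0
          have hwl : w = 2 * l + 1 := by omega
          have h4 : 4 * l + 4 ≤ d * d := by omega
          rw [hwl]; nlinarith
        by_cases c1 : b2 = 1
        · subst c1
          have hwl : w = 2 * l + 2 := by omega
          have h4 : 4 * l + 8 ≤ d * d := by omega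
          rw [hwl]; nlinarith
        by_cases c2 : b2 = l - 1
        · have hwl : w = 3 * l := by omega
          have h4 : 9 * l - 2 ≤ d * d := by omega
          rw [hwl]; nlinarith
        by_cases c3 : b2 = l - 2
        · have hwl : w = 3 * l - 1 := by omega
          have h4 : 9 * l - 8 ≤ d * d := by omega
          rcases lt_or_ge l 12 with h5 | h5
          · have h6 : 100 ≤ d * d := by
              have : 10 ≤ d := by
                by_contra h7
                have : d ≤ 9 := by omega
                nlinarith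
              nlinarith
            have : l = 10 ∨ l = 11 := by omega
            rcases this with h7 | h7
            · rw [hwl, h7]; omega
            · rw [hwl, h7]; omega
          · rw [hwl]; nlinarith
        · have h2 : 2 ≤ b2 := by omega
          have h3 : b2 ≤ l - 3 := by omega
          have hw2 : 4 * l + 2 + 5 * b2 ≤ d * d := by omega
          have := mul_le_mul_of_nonneg_left hw2 (by omega : (0:ℤ) ≤ 4 * l + 1)
          rw [hw]
          nlinarith [mul_nonneg (by omega : (0:ℤ) ≤ b2 - 2) (by omega : (0:ℤ) ≤ l - 3 - b2)]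
      · subst hb
        by_cases c0 : b2 = 0
        · subst c0
          have hwl : w = 3 * l + 1 := by omega
          have h4 : 9 * l + 4 ≤ d * d := by omega
          rw [hwl]; nlinarith
        by_cases c2 : b2 = l - 1
        · have hwl : w = 4 * l := by omega
          have h4 : 16 * l - 3 ≤ d * d := by omega
          rw [hwl]; nlinarith
        · have h2 : 1 ≤ b2 := by omega
          have h3 : b2 ≤ l - 2 := by omega
          have hw2 : 9 * l + 3 + 7 * b2 ≤ d * d := by omega
          have := mul_le_mul_of_nonneg_left hw2 (by omega : (0:ℤ) ≤ 4 * l + 1)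
          rw [hw]
          nlinarith [mul_nonneg (by omega : (0:ℤ) ≤ b2 - 1) (by omega : (0:ℤ) ≤ l - 2 - b2)]
    · have hmul : w * w - w ≤ l * (d * d) := by
        have h1 : l * (l * (b1 * b1) + 2 * b1 * b2 + b1 + b2) ≤ l * (d * d) :=
          mul_le_mul_of_nonneg_left h (by omega)
        have h2 : w * w - w + b2 * (l - 1 - b2) = l * (l * (b1 * b1) + 2 * b1 * b2 + b1 + b2) := by
          rw [hw]; ring
        have h3 : 0 ≤ b2 * (l - 1 - b2) := mul_nonneg hb2 (by omega)
        linarith
      have h7 : 4 * w ≤ d * d := by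
        rw [hw]
        nlinarith [mul_nonneg (by omega : (0:ℤ) ≤ l) (mul_nonneg hb1 (by omega : (0:ℤ) ≤ b1 - 4)),
          mul_nonneg hb1 hb2, mul_nonneg (by omega : (0:ℤ) ≤ b1 - 4) hb2,
          mul_nonneg (by omega : (0:ℤ) ≤ l) hb1]
      nlinarith

/-- The refined Bezout inequality when `val F = b + 1` and `G` has order `≥ b`. -/
theorem bezout_special {K : Type*} [Field K] {l : ℕ} (hl : 1 ≤ l) {φ : Polynomial K}
    (hφ : φ.natDegree ≤ l) {F G : Polynomial (Polynomial K)}
    (hF : F ≠ 0) (hcop : ∀ A B : Polynomial (Polynomial K), F * A + G * B = 0 → F ∣ B)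
    (he : tdeg G ≤ tdeg F) {b1 b2 : ℕ} (hb2 : b2 < l)
    (hval : val l (Polynomial.taylor φ F) = l * b1 + b2 + 1)
    (hb : Vge l (l * b1 + b2) (Polynomial.taylor φ G)) :
    l * (b1 * b1) + 2 * b1 * b2 + b1 + b2 ≤ tdeg F * tdeg F := by
  set b := l * b1 + b2 with hbdef
  have h := bezout_count hl hφ hF hcop he hb ((l - 1) * b)
  rw [hval] at h
  have e0 : (l - 1) * b + b = l * b := by
    rw [← Nat.succ_mul]
    congr 1; omega
  have e1 : b + 1 + b + (l - 1) * b = l * (b + b1) + (b2 + 1) := by
    have : b + 1 + b + (l - 1) * b = ((l - 1) * b + b) + b + 1 := by ring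
    rw [this, e0, mul_add, hbdef]; ring
  have e2 : b + 1 + (l - 1) * b = l * b + 1 := by
    have : b + 1 + (l - 1) * b = ((l - 1) * b + b) + 1 := by ring
    rw [this, e0]
  have e3 : b + (l - 1) * b = l * b + 0 := by
    rw [add_comm, e0, add_zero]
  rw [e1, e2, e3] at h
  have t1 := T_formula hl (by omega : b2 + 1 ≤ l) (b + b1)
  have t2 := T_formula hl hl b
  have t3 := T_formula hl (Nat.zero_le l) b
  have hb1b : b1 ≤ b := by
    rw [hbdef]
    have : b1 ≤ l * b1 := Nat.le_mul_of_pos_left _ hl
    omega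
  have t4 : 2 * T l ((l - 1) * b) + (b - b1) * (2 * b2) = (b - b1) * (l * (b - b1) + l) := by
    rcases Nat.eq_zero_or_pos (b - b1) with hb0 | hb0
    · have h1 : b = b1 := by omega
      have h2 : (l - 1) * b1 + b1 = l * b1 := by
        rw [← Nat.succ_mul]
        congr 1; omega
      have h3 : (l - 1) * b1 = 0 := by omega
      rw [hb0, h1, h3]; simp [T, Tset]
    · obtain ⟨c, hc⟩ : ∃ c, b - b1 = c + 1 := ⟨b - b1 - 1, by omega⟩
      have e4 : (l - 1) * b = l * c + (l - b2) := by
        have : (l - 1) * b + b = (l * c + (l - b2)) + b := by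
          rw [e0]
          have : b = b1 + (c + 1) := by omega
          calc l * b = l * (b1 + (c + 1)) := by rw [← this]
            _ = l * b1 + l * c + l := by ring
            _ = l * c + (l - b2) + (l * b1 + b2) := by omega
        omega
      have t5 := T_formula hl (Nat.sub_le l b2) c
      rw [e4, t5, hc]
      have : 2 * (l - b2) + 2 * b2 = 2 * l := by omega
      calc (c + 1) * (2 * (l - b2) + l * c) + (c + 1) * (2 * b2)
          = (c + 1) * ((2 * (l - b2) + 2 * b2) + l * c) := by ring
        _ = (c + 1) * (l * (c + 1) + l) := by rw [this]; ring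
  obtain ⟨c, hc⟩ : ∃ c, b = b1 + c := ⟨b - b1, by omega⟩
  have hc' : b - b1 = c := by omega
  rw [hc'] at t4
  have h2 := Nat.mul_le_mul_left 2 h
  zify at h2 t1 t2 t3 t4 hc ⊢
  have hbz : (b : ℤ) = l * b1 + b2 := by rw [hbdef]; push_cast; ring
  have hcz : (c : ℤ) = l * b1 + b2 - b1 := by linarith
  rw [hcz] at t4
  rw [hbz] at t1 t2 t3
  linarith

end MP_cea741_ag.NSq
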