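import Mathlib
import Pool.Agent.Lib.MP_cea741_ag.NNumeric

/-! Derivatives of the coefficients and the bound for irreducible polynomials. -/

namespace MP_cea741_ag.NSq

open Polynomial

section dX

variable {A : Type*} [CommRing A]

/-- apply a derivation to the coefficients -/
noncomputable def dX (D : Derivation ℤ A A) : Derivation ℤ A[X] A[X] :=
  PolynomialModule.equivPolynomialSelf.compDer D.mapCoeffs

theorem coeff_dX (D : Derivation ℤ A A) (p : A[X]) (i : ℕ) : (dX D p).coeff i = D (p.coeff i) := rfl

theorem dX_X (D : Derivation ℤ A A) : dX D X = 0 := by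
  ext i
  rw [coeff_dX, coeff_X]
  split_ifs <;> simp

theorem dX_C (D : Derivation ℤ A A) (a : A) : dX D (C a) = C (D a) := by
  ext i
  rw [coeff_dX, coeff_C, coeff_C]
  split_ifs <;> simp

theorem dX_C_mul_X_pow (D : Derivation ℤ A A) (a : A) (n : ℕ) :
    dX D (C a * X ^ n) = C (D a) * X ^ n := by
  rw [Derivation.leibniz, Derivation.leibniz_pow, dX_X, dX_C]
  rw [smul_zero, smul_zero, smul_zero, zero_add, smul_eq_mul]
  ring

end dX

variable {K : Type*} [Field K]

/-- apply a derivation to the coefficients of a bivariate polynomial -/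
noncomputable def dXX (D : Derivation ℤ K K) : Derivation ℤ K[X][X] K[X][X] := dX (dX D)

theorem coeff_dXX (D : Derivation ℤ K K) (F : K[X][X]) (i j : ℕ) :
    ((dXX D F).coeff j).coeff i = D ((F.coeff j).coeff i) := rfl

theorem dXX_taylor (D : Derivation ℤ K K) (φ : K[X]) (F : K[X][X]) :
    dXX D (taylor φ F) = taylor φ (dXX D F) + C (dX D φ) * derivative (taylor φ F) := by
  induction F using Polynomial.induction_on' with
  | add P Q hP hQ =>
    simp only [map_add, hP, hQ]
    ring
  | monomial j f =>
    have h1 : dXX D (monomial j f) = monomial j (dX D f) := by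
      rw [← C_mul_X_pow_eq_monomial, ← C_mul_X_pow_eq_monomial]
      exact dX_C_mul_X_pow (dX D) f j
    rw [h1, taylor_monomial, taylor_monomial]
    have h2 : dXX D (X + C φ : K[X][X]) = C (dX D φ) := by
      rw [map_add]
      change dX (dX D) X + dX (dX D) (C φ) = _
      rw [dX_X, dX_C, zero_add]
      rfl
    have h3 : dXX D (C f : K[X][X]) = C (dX D f) := dX_C _ _
    rw [Derivation.leibniz, Derivation.leibniz_pow, h2, h3]
    simp only [derivative_mul, derivative_C, derivative_X_add_C, derivative_pow, zero_mul, zero_add,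
      mul_one, smul_eq_mul, nsmul_eq_mul, map_natCast]
    ring

theorem tdeg_dXX_le (D : Derivation ℤ K K) (F : K[X][X]) : tdeg (dXX D F) ≤ tdeg F := by
  rw [tdeg_le_iff]
  intro i j hij
  rw [coeff_dXX, tdeg_le_iff.mp le_rfl i j hij, map_zero]

/-- the derivative loses at most one in the weighted order -/
theorem Vge_dXX {l w : ℕ} (hl : 1 ≤ l) (D : Derivation ℤ K K) {φ : K[X]}
    (hφ : dX D φ = X ^ (l - 1)) {F : K[X][X]} (h : Vge l (w + 1) (taylor φ F)) :
    Vge l w (taylor φ (dXX D F)) := by
  intro i j hij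
  have h1 : taylor φ (dXX D F) = dXX D (taylor φ F) - C (X ^ (l - 1)) * derivative (taylor φ F) := by
    rw [dXX_taylor, hφ]; ring
  rw [h1, coeff_sub, coeff_sub, coeff_dXX, h i j (by omega), map_zero, coeff_C_mul,
    coeff_derivative, zero_sub, neg_eq_zero, ← mul_assoc]
  have h2 : (X ^ (l - 1) * (taylor φ F).coeff (j + 1) * ((j : K[X]) + 1)).coeff i = 0 := by
    have h3 : ((j : K[X]) + 1) = C ((j : K) + 1) := by simp
    rw [h3, coeff_mul_C, coeff_X_pow_mul']
    split_ifs with h4
    · rw [h (i - (l - 1)) (j + 1) ?_, zero_mul]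
      have : l * (j + 1) = l * j + l := by ring
      omega
    · rw [zero_mul]
  exact h2

/-- passing to the lower level -/
theorem Vge_lower_aux [CharZero K] {l w : ℕ} (D : Derivation ℤ K K) {φ : K[X]}
    (hφ : dX D φ = X ^ l) {F : K[X][X]} (h0 : dXX D F = 0) (h : Vge (l + 1) w (taylor φ F)) :
    Vge l w (taylor φ F) := by
  have key : ∀ i j, D (((taylor φ F).coeff j).coeff (i + l)) =
      ((taylor φ F).coeff (j + 1)).coeff i * ((j : K) + 1) := by
    intro i j
    have h1 := dXX_taylor D φ F
    rw [h0, map_zero, zero_add, hφ] at h1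
    have h2 := congrArg (fun P : K[X][X] => (P.coeff j).coeff (i + l)) h1
    simp only [coeff_dXX] at h2
    rw [h2, coeff_C_mul, coeff_derivative, ← mul_assoc]
    have h3 : ((j : K[X]) + 1) = C ((j : K) + 1) := by simp
    rw [h3, coeff_mul_C, coeff_X_pow_mul]
  intro i j
  induction j generalizing i with
  | zero =>
    intro hi
    exact h i 0 (by omega)
  | succ j ih =>
    intro hi
    have h1 := key i j
    have h2 : l * (j + 1) = l * j + l := by ring
    rw [ih (i + l) (by omega), map_zero] at h1
    rcases mul_eq_zero.mp h1.symm with h3 | h3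
    · exact h3
    · exfalso
      have : ((j + 1 : ℕ) : K) = 0 := by push_cast; exact h3
      exact Nat.succ_ne_zero j (Nat.cast_eq_zero.mp this)

theorem Vge_pow {l M : ℕ} {P : K[X][X]} (h : Vge l M P) (n : ℕ) : Vge l (n * M) (P ^ n) := by
  induction n with
  | zero => intro i j hij; omega
  | succ n ih =>
    rw [pow_succ, add_mul, one_mul]
    exact Vge_mul ih h

theorem Vge_sum {ι : Type*} {l M : ℕ} (s : Finset ι) (f : ι → K[X][X])
    (h : ∀ i ∈ s, Vge l M (f i)) : Vge l M (∑ i ∈ s, f i) := by
  classical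
  induction s using Finset.induction_on with
  | empty => simpa using Vge_zero l M
  | insert a s ha ih =>
    rw [Finset.sum_insert ha]
    exact Vge_add (h a (Finset.mem_insert_self _ _)) (ih fun i hi => h i (Finset.mem_insert_of_mem hi))

/-- the order is unchanged by a homogeneous shift -/
theorem Vge_taylor_hom {l w : ℕ} {H : K[X][X]} (h : Vge l w H) (c : K) :
    Vge l w (taylor (C c * X ^ l) H) := by
  have h1 : Vge l l (X + C (C c * X ^ l) : K[X][X]) := by
    intro i j hij
    rw [coeff_add, coeff_add, coeff_X, coeff_C]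
    have e1 : ((if 1 = j then (1 : K[X]) else 0)).coeff i = 0 := by
      split_ifs with h
      · subst h; omega
      · simp
    have e2 : ((if j = 0 then (C c * X ^ l : K[X]) else 0)).coeff i = 0 := by
      split_ifs with h
      · rw [coeff_C_mul, coeff_X_pow, if_neg, mul_zero]
        subst h; omega
      · simp
    rw [e1, e2, add_zero]
  rw [H.as_sum_range_C_mul_X_pow, map_sum]
  refine Vge_sum _ _ fun j _ => ?_
  rw [taylor_mul, taylor_C, taylor_X_pow]
  have h2 : Vge l (w - l * j) (C (H.coeff j)) := by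
    intro i j' hij
    rw [coeff_C]
    split_ifs with h3
    · subst h3
      exact h i j (by omega)
    · simp
  have h3 := Vge_mul h2 (Vge_pow h1 j)
  refine Vge_mono ?_ h3
  have : j * l = l * j := mul_comm _ _
  omega

/-- arc polynomial of level `l` -/
noncomputable def ph (u : ℕ → K) (l : ℕ) : K[X] := ∑ i ∈ Finset.range l, C (u i) * X ^ i

theorem ph_succ (u : ℕ → K) (l : ℕ) : ph u (l + 1) = ph u l + C (u l) * X ^ l := by
  rw [ph, Finset.sum_range_succ]; rfl

theorem ph_natDegree_le (u : ℕ → K) (l : ℕ) : (ph u l).natDegree ≤ l := by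
  refine natDegree_sum_le_of_forall_le _ _ fun i hi => ?_
  refine (natDegree_C_mul_X_pow_le _ _).trans ?_
  rw [Finset.mem_range] at hi; omega

theorem Vge_lower [CharZero K] {l w : ℕ} (D : Derivation ℤ K K) (u : ℕ → K)
    (hφ : dX D (ph u (l + 1)) = X ^ l) {F : K[X][X]} (h0 : dXX D F = 0)
    (h : Vge (l + 1) w (taylor (ph u (l + 1)) F)) : Vge l w (taylor (ph u l) F) := by
  have h1 := Vge_taylor_hom (Vge_lower_aux D hφ h0 h) (-(u l))
  rw [taylor_taylor] at h1
  have h2 : C (-(u l)) * X ^ l + ph u (l + 1) = ph u l := by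
    rw [ph_succ, C_neg]; ring
  rwa [h2] at h1

theorem dX_ph (D : Derivation ℤ K K) (u : ℕ → K) (l : ℕ) (h : ∀ i < l, D (u i) = 0)
    (h1 : D (u l) = 1) : dX D (ph u (l + 1)) = X ^ l := by
  rw [ph_succ, map_add, dX_C_mul_X_pow, h1, ph, map_sum]
  rw [Finset.sum_eq_zero, zero_add, C_1, one_mul]
  intro i hi
  rw [dX_C_mul_X_pow, h i (Finset.mem_range.mp hi), C_0, zero_mul]

/-- a nonzero derivative of a normalised irreducible polynomial is coprime to it -/
theorem coprime_dXX (D : Derivation ℤ K K) {F : K[X][X]} (hF : Irreducible F)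
    (hn : ∃ i j, (F.coeff j).coeff i = 1) (h0 : dXX D F ≠ 0) (A B : K[X][X])
    (h : F * A + dXX D F * B = 0) : F ∣ B := by
  have hp : Prime F := hF.prime
  have h1 : F ∣ dXX D F * B := by
    refine ⟨-A, ?_⟩
    linear_combination h
  rcases hp.dvd_or_dvd h1 with h2 | h2
  · exfalso
    obtain ⟨Q, hQ⟩ := h2
    have hQ0 : Q ≠ 0 := by rintro rfl; rw [mul_zero] at hQ; exact h0 hQ
    have h3 := tdeg_mul hF.ne_zero hQ0
    rw [← hQ] at h3
    have h4 := tdeg_dXX_le D F
    have h5 : tdeg Q = 0 := by omega
    obtain ⟨i, j, hij⟩ := hn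
    rw [eq_C_of_tdeg_eq_zero h5] at hQ
    have h6 := congrArg (fun P : K[X][X] => (P.coeff j).coeff i) hQ
    simp only [coeff_dXX, coeff_mul_C, hij, one_mul] at h6
    rw [Derivation.map_one_eq_zero] at h6
    rw [← h6] at hQ
    simp only [map_zero, mul_zero] at hQ
    exact h0 hQ
  · exact h2

/-- main bound, irreducible and normalised case -/
theorem irr_bound_aux [CharZero K] {r : ℕ} (hr : 10 ≤ r) (u : ℕ → K) (D : ℕ → Derivation ℤ K K)
    (hD : ∀ i < r, ∀ j < r, D i (u j) = if i = j then 1 else 0)
    (hexp : ∀ F : K[X][X], (tdeg F + 1) * (tdeg F + 2) ≤ 2 * r →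
      Vge r r (taylor (ph u r) F) → F = 0)
    {F : K[X][X]} (hF : Irreducible F) (hn : ∃ i j, (F.coeff j).coeff i = 1) :
    4 * (val r (taylor (ph u r) F) * val r (taylor (ph u r) F)) ≤
      (4 * r + 1) * (tdeg F * tdeg F) := by
  set w := val r (taylor (ph u r) F) with hw
  have hd : 1 ≤ tdeg F := by
    by_contra h
    have h1 : tdeg F = 0 := by omega
    have h2 := eq_C_of_tdeg_eq_zero h1
    by_cases h3 : (F.coeff 0).coeff 0 = 0
    · rw [h3] at h2; exact hF.ne_zero (by rw [h2]; simp)
    · apply hF.not_isUnit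
      rw [h2]
      exact (isUnit_C.mpr (isUnit_C.mpr (isUnit_iff_ne_zero.mpr h3)))
  have main : ∀ l ≤ r, Vge l w (taylor (ph u l) F) →
      4 * (w * w) ≤ (4 * r + 1) * (tdeg F * tdeg F) := by
    intro l
    induction l with
    | zero =>
      intro _ h
      have h1 : ph u 0 = 0 := by simp [ph]
      rw [h1, taylor_zero] at h
      have h2 : (C X : K[X][X]) ^ w ∣ F := by
        rw [← C_pow, C_dvd_iff_dvd_coeff]
        intro j
        rw [X_pow_dvd_iff]
        intro i hi
        exact h i j (by omega)
      have h3 : w ≤ 1 := by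
        by_contra hcon
        have h4 : (C X : K[X][X]) ^ 2 ∣ F := (pow_dvd_pow _ (by omega)).trans h2
        obtain ⟨Q, hQ⟩ := h4
        rw [pow_two, mul_assoc] at hQ
        have hXu : ¬ IsUnit (C X : K[X][X]) := by
          rw [isUnit_C]; exact not_isUnit_X
        rcases hF.isUnit_or_isUnit hQ with h5 | h5
        · exact hXu h5
        · exact hXu (isUnit_of_mul_isUnit_left h5)
      have h5 : w * w ≤ 1 := by nlinarith
      have h6 : 1 ≤ tdeg F * tdeg F := by nlinarith
      nlinarith
    | succ l ih =>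
      intro hl h
      have hlr : l < r := by omega
      have hdX : dX (D l) (ph u (l + 1)) = X ^ l :=
        dX_ph (D l) u l (fun i hi => by rw [hD l hlr i (by omega), if_neg (by omega)])
          (by rw [hD l hlr l hlr, if_pos rfl])
      by_cases h0 : dXX (D l) F = 0
      · exact ih (by omega) (Vge_lower (D l) u hdX h0 h)
      · have hσ : taylor (ph u (l + 1)) F ≠ 0 := (taylor_eq_zero _ F).not.mpr hF.ne_zero
        set w' := val (l + 1) (taylor (ph u (l + 1)) F) with hw'
        have hww : w ≤ w' := (Vge_iff hσ).mp h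
        rcases Nat.eq_zero_or_pos w' with h1 | h1
        · have : w = 0 := by omega
          rw [this]; simp
        · set b1 := (w' - 1) / (l + 1) with hb1
          set b2 := (w' - 1) % (l + 1) with hb2
          have hb : (l + 1) * b1 + b2 = w' - 1 := Nat.div_add_mod _ _
          have hb2l : b2 < l + 1 := Nat.mod_lt _ (by omega)
          have hval : val (l + 1) (taylor (ph u (l + 1)) F) = (l + 1) * b1 + b2 + 1 := by omega
          have hG : Vge (l + 1) ((l + 1) * b1 + b2) (taylor (ph u (l + 1)) (dXX (D l) F)) := by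
            refine Vge_dXX (by omega) (D l) (by simpa using hdX) ?_
            rw [← hval]
            exact (Vge_iff hσ).mpr le_rfl
          have hS := bezout_special (by omega) (ph_natDegree_le u (l + 1)) hF.ne_zero
            (fun A B hAB => coprime_dXX (D l) hF hn h0 A B hAB) (tdeg_dXX_le (D l) F) hb2l hval hG
          have hSz : ((l + 1 : ℕ) : ℤ) * ((b1 : ℤ) * b1) + 2 * b1 * b2 + b1 + b2
              ≤ (tdeg F : ℤ) * tdeg F := by exact_mod_cast hS
          have key := numeric_int (r : ℤ) ((l + 1 : ℕ) : ℤ) (w' : ℤ) (tdeg F : ℤ) b1 b2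
            (by exact_mod_cast hr) (by exact_mod_cast (by omega : 1 ≤ l + 1))
            (by exact_mod_cast hl) (by
              have : w' = (l + 1) * b1 + b2 + 1 := by omega
              rw [this]; push_cast; ring) (by positivity) (by positivity)
            (by exact_mod_cast hb2l) (by exact_mod_cast hd) hSz
            (by
              rintro ⟨h2, h3, h4⟩
              have h2' : l + 1 = r := by exact_mod_cast h2
              have h3' : w' = r := by exact_mod_cast h3
              have h5 : tdeg F * tdeg F + 1 = r := by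
                have : (tdeg F : ℤ) * tdeg F + 1 = r := by linarith
                exact_mod_cast this
              have h6 : 3 ≤ tdeg F := by
                by_contra h7
                have : tdeg F ≤ 2 := by omega
                nlinarith
              refine hF.ne_zero (hexp F ?_ ?_)
              · nlinarith
              · rw [h2'] at hσ hw'
                rw [Vge_iff hσ, ← hw', h3'])
            (by
              rintro ⟨h2, h3, h4⟩
              have h2' : l + 1 = r := by exact_mod_cast h2
              have h3' : w' = r + 1 := by exact_mod_cast h3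
              have h5 : tdeg F * tdeg F = r + 1 := by exact_mod_cast h4
              have h6 : 4 ≤ tdeg F := by
                by_contra h7
                have : tdeg F ≤ 3 := by omega
                nlinarith
              refine hF.ne_zero (hexp F ?_ ?_)
              · nlinarith
              · rw [h2'] at hσ hw'
                rw [Vge_iff hσ, ← hw', h3']
                omega)
          have key' : 4 * (w' * w') ≤ (4 * r + 1) * (tdeg F * tdeg F) := by exact_mod_cast key
          have : w * w ≤ w' * w' := Nat.mul_le_mul hww hww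
          omega
  refine main r le_rfl ?_
  exact (Vge_iff ((taylor_eq_zero _ F).not.mpr hF.ne_zero)).mpr le_rfl

theorem val_const_mul (l : ℕ) {c : K} (hc : c ≠ 0) {F : K[X][X]} (hF : F ≠ 0) :
    val l (C (C c) * F) = val l F := by
  have h1 : (C (C c) : K[X][X]) ≠ 0 := by simpa using hc
  rw [val_mul l h1 hF]
  have : val l (C (C c) : K[X][X]) = 0 := by
    by_contra h
    have h2 : Vge l 1 (C (C c) : K[X][X]) := by
      rw [Vge_iff h1]; omega
    have := h2 0 0 (by omega)
    simp at this
    exact hc this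
  rw [this, zero_add]

theorem tdeg_const {c : K} : tdeg (C (C c) : K[X][X]) = 0 := by
  have : tdeg (C (C c) : K[X][X]) ≤ 0 := by
    rw [tdeg_le_iff]
    intro i j hij
    rw [coeff_C]
    split_ifs with h
    · rw [coeff_C, if_neg (by omega)]
    · simp
  omega

theorem tdeg_const_mul {c : K} (hc : c ≠ 0) {F : K[X][X]} (hF : F ≠ 0) :
    tdeg (C (C c) * F) = tdeg F := by
  have h1 : (C (C c) : K[X][X]) ≠ 0 := by simpa using hc
  rw [tdeg_mul h1 hF, tdeg_const, zero_add]

theorem irr_bound [CharZero K] {r : ℕ} (hr : 10 ≤ r) (u : ℕ → K) (D : ℕ → Derivation ℤ K K)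
    (hD : ∀ i < r, ∀ j < r, D i (u j) = if i = j then 1 else 0)
    (hexp : ∀ F : K[X][X], (tdeg F + 1) * (tdeg F + 2) ≤ 2 * r →
      Vge r r (taylor (ph u r) F) → F = 0)
    {F : K[X][X]} (hF : Irreducible F) :
    4 * (val r (taylor (ph u r) F) * val r (taylor (ph u r) F)) ≤
      (4 * r + 1) * (tdeg F * tdeg F) := by
  obtain ⟨i, j, hij⟩ : ∃ i j, (F.coeff j).coeff i ≠ 0 := by
    by_contra hcon
    push Not at hcon
    apply hF.ne_zero
    ext j i
    rw [hcon]; simp
  set c := ((F.coeff j).coeff i)⁻¹ with hc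
  have hc0 : c ≠ 0 := inv_ne_zero hij
  have hu : IsUnit (C (C c) : K[X][X]) := isUnit_C.mpr (isUnit_C.mpr (isUnit_iff_ne_zero.mpr hc0))
  have hirr : Irreducible (C (C c) * F) := (irreducible_isUnit_mul hu).mpr hF
  have h1 := irr_bound_aux hr u D hD hexp hirr ⟨i, j, by
    rw [coeff_C_mul, coeff_C_mul, hc, inv_mul_cancel₀ hij]⟩
  have hσ : taylor (ph u r) F ≠ 0 := (taylor_eq_zero _ F).not.mpr hF.ne_zero
  rw [taylor_mul, taylor_C, val_const_mul r hc0 hσ, tdeg_const_mul hc0 hF.ne_zero] at h1
  exact h1

/-- the general bound -/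
theorem general_bound [CharZero K] {r : ℕ} (hr : 10 ≤ r) (u : ℕ → K) (D : ℕ → Derivation ℤ K K)
    (hD : ∀ i < r, ∀ j < r, D i (u j) = if i = j then 1 else 0)
    (hexp : ∀ F : K[X][X], (tdeg F + 1) * (tdeg F + 2) ≤ 2 * r →
      Vge r r (taylor (ph u r) F) → F = 0)
    (F : K[X][X]) : F ≠ 0 →
    4 * (val r (taylor (ph u r) F) * val r (taylor (ph u r) F)) ≤
      (4 * r + 1) * (tdeg F * tdeg F) := by
  induction F using WfDvdMonoid.induction_on_irreducible with
  | zero => intro h; exact absurd rfl h
  | unit U hU =>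
    intro h0
    have h1 : ∃ c : K, c ≠ 0 ∧ U = C (C c) := by
      obtain ⟨a, ha, rfl⟩ := Polynomial.isUnit_iff.mp hU
      obtain ⟨c, hc, rfl⟩ := Polynomial.isUnit_iff.mp ha
      exact ⟨c, hc.ne_zero, rfl⟩
    obtain ⟨c, hc, rfl⟩ := h1
    have h2 : val r (taylor (ph u r) (C (C c) : K[X][X])) = 0 := by
      rw [taylor_C]
      have h3 := val_const_mul r hc (F := (1 : K[X][X])) one_ne_zero
      rw [mul_one] at h3
      rw [h3]
      by_contra h
      have h4 : Vge r 1 (1 : K[X][X]) := by
        rw [Vge_iff one_ne_zero]; omega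
      have := h4 0 0 (by omega)
      simp at this
    rw [h2]; simp
  | mul F P hF0 hP ih =>
    intro _
    have h1 := irr_bound hr u D hD hexp hP
    have h2 := ih hF0
    have hσF : taylor (ph u r) F ≠ 0 := (taylor_eq_zero _ F).not.mpr hF0
    have hσP : taylor (ph u r) P ≠ 0 := (taylor_eq_zero _ P).not.mpr hP.ne_zero
    rw [taylor_mul, val_mul r hσP hσF, tdeg_mul hP.ne_zero hF0]
    set a := val r (taylor (ph u r) P)
    set b := val r (taylor (ph u r) F)
    set s := tdeg P
    set t := tdeg F
    have h3 : 4 * (a * b) ≤ (4 * r + 1) * (s * t) := by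
      have h4 : (4 * (a * b)) * (4 * (a * b)) ≤ ((4 * r + 1) * (s * t)) * ((4 * r + 1) * (s * t)) := by
        calc (4 * (a * b)) * (4 * (a * b)) = (4 * (a * a)) * (4 * (b * b)) := by ring
          _ ≤ ((4 * r + 1) * (s * s)) * ((4 * r + 1) * (t * t)) := Nat.mul_le_mul h1 h2
          _ = ((4 * r + 1) * (s * t)) * ((4 * r + 1) * (s * t)) := by ring
      exact Nat.mul_self_le_mul_self_iff.mp h4
    calc 4 * ((a + b) * (a + b)) = 4 * (a * a) + 4 * (b * b) + 2 * (4 * (a * b)) := by ring
      _ ≤ (4 * r + 1) * (s * s) + (4 * r + 1) * (t * t) + 2 * ((4 * r + 1) * (s * t)) := by omega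
      _ = (4 * r + 1) * ((s + t) * (s + t)) := by ring

end MP_cea741_ag.NSq
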