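import Mathlib
import Pool.Agent.Lib.MP_cea741_ag.NDeriv

/-! Contact of the exponential arc with curves. -/

namespace MP_cea741_ag.NSq

open Polynomial Finset

variable {k : Type*} [Field k] [CharZero k]

/-- `∑_{j<n} p_j e^{jx}` with `p_j` of degree `< ν_j` vanishes to order less than `∑ ν_j`. -/
theorem exp_indep (n : ℕ) : ∀ (ν : ℕ → ℕ) (p : ℕ → k[X]),
    (∀ j < n, ∀ i, ν j ≤ i → (p j).coeff i = 0) →
    (PowerSeries.X : PowerSeries k) ^ (∑ j ∈ range n, ν j) ∣
      ∑ j ∈ range n, (p j : PowerSeries k) * (PowerSeries.exp k) ^ j →
    ∀ j < n, p j = 0 := by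
  induction n with
  | zero => intro ν p _ _ j hj; omega
  | succ n ihn =>
    intro ν
    induction hN : ν 0 generalizing ν with
    | zero =>
      intro p hp hdiv
      have h0 : p 0 = 0 := by
        ext i
        rw [hp 0 (by omega) i (by omega)]; simp
      rw [sum_range_succ', hN, add_zero, sum_range_succ', h0] at hdiv
      have e1 : ∑ j ∈ range n, ((p (j + 1) : k[X]) : PowerSeries k) * (PowerSeries.exp k) ^ (j + 1)
          + ((0 : k[X]) : PowerSeries k) * (PowerSeries.exp k) ^ 0
          = PowerSeries.exp k * ∑ j ∈ range n, ((p (j + 1) : k[X]) : PowerSeries k)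
            * (PowerSeries.exp k) ^ j := by
        rw [Polynomial.coe_zero, zero_mul, add_zero, mul_sum]
        refine sum_congr rfl fun j _ => ?_
        rw [pow_succ]; ring
      rw [e1, (PowerSeries.isUnit_exp k).dvd_mul_left] at hdiv
      have h1 := ihn (fun j => ν (j + 1)) (fun j => p (j + 1))
        (fun j hj i hi => hp (j + 1) (by omega) i hi) hdiv
      intro j hj
      cases j with
      | zero => exact h0
      | succ j => exact h1 j (by omega)
    | succ N ihN =>
      intro p hp hdiv
      set q : ℕ → k[X] := fun j => derivative (p j) + (j : k[X]) * p j with hq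
      set S' := ∑ j ∈ range n, ν (j + 1) with hS'
      have hsum : ∑ j ∈ range (n + 1), ν j = S' + N + 1 := by
        rw [sum_range_succ', hN]; ring
      -- derivative is divisible
      obtain ⟨R, hR⟩ := hdiv
      have hder : PowerSeries.derivative k
          (∑ j ∈ range (n + 1), ((p j : k[X]) : PowerSeries k) * (PowerSeries.exp k) ^ j)
          = ∑ j ∈ range (n + 1), ((q j : k[X]) : PowerSeries k) * (PowerSeries.exp k) ^ j := by
        rw [map_sum]
        refine sum_congr rfl fun j _ => ?_
        rw [Derivation.leibniz, Derivation.leibniz_pow, PowerSeries.derivative_exp,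
          PowerSeries.derivative_coe]
        simp only [hq, smul_eq_mul, nsmul_eq_mul, Polynomial.coe_add, Polynomial.coe_mul]
        have e2 : (((j : k[X]) : k[X]) : PowerSeries k) = (j : PowerSeries k) :=
          map_natCast (Polynomial.coeToPowerSeries.ringHom (R := k)) j
        rw [e2]
        rcases Nat.eq_zero_or_pos j with h | h
        · subst h; simp
        · have e3 : (PowerSeries.exp k) ^ j = (PowerSeries.exp k) ^ (j - 1) * PowerSeries.exp k := by
            rw [← pow_succ]; congr 1; omega
          rw [e3]; ring
      have hdiv' : (PowerSeries.X : PowerSeries k) ^ (S' + N) ∣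
          ∑ j ∈ range (n + 1), ((q j : k[X]) : PowerSeries k) * (PowerSeries.exp k) ^ j := by
        rw [← hder, hR, hsum, Derivation.leibniz, Derivation.leibniz_pow]
        refine dvd_add ?_ ?_
        · rw [smul_eq_mul, pow_succ, mul_assoc]
          exact dvd_mul_right _ _
        · rw [Nat.add_sub_cancel]
          simp only [smul_eq_mul, nsmul_eq_mul]
          exact ⟨R * (((S' + N + 1 : ℕ) : PowerSeries k) * PowerSeries.derivative k PowerSeries.X),
            by ring⟩
      have hqz := ihN (fun j => if j = 0 then N else ν j) (by simp) q
        (by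
          intro j hj i hi
          simp only [hq, coeff_add, coeff_derivative]
          have e4 : ((j : k[X]) * p j).coeff i = (j : k) * (p j).coeff i := by
            rw [← C_eq_natCast, coeff_C_mul]
          rw [e4]
          by_cases hj0 : j = 0
          · subst hj0
            simp only [if_true] at hi
            rw [hp 0 (by omega) (i + 1) (by omega)]; simp
          · rw [if_neg hj0] at hi
            rw [hp j hj (i + 1) (by omega), hp j hj i hi]; simp)
        (by
          have : ∑ j ∈ range (n + 1), (if j = 0 then N else ν j) = S' + N := by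
            rw [sum_range_succ']; simp [hS']
          rw [this]; exact hdiv')
      have hpos : ∀ j < n + 1, j ≠ 0 → p j = 0 := by
        intro j hj hj0
        by_contra hne
        have h1 := hqz j hj
        have h2 := congrArg (fun P : k[X] => P.coeff (p j).natDegree) h1
        simp only [hq, coeff_add, coeff_derivative, coeff_zero] at h2
        have e4 : ((j : k[X]) * p j).coeff (p j).natDegree = (j : k) * (p j).coeff (p j).natDegree := by
          rw [← C_eq_natCast, coeff_C_mul]
        rw [e4, coeff_eq_zero_of_natDegree_lt (Nat.lt_succ_self _), zero_mul, zero_add] at h2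
        rcases mul_eq_zero.mp h2 with h3 | h3
        · exact hj0 (Nat.cast_eq_zero.mp h3)
        · exact hne (leadingCoeff_eq_zero.mp h3)
      have h0 : p 0 = 0 := by
        have h1 := hqz 0 (by omega)
        simp only [hq, Nat.cast_zero, zero_mul, add_zero] at h1
        have h2 := Polynomial.derivative_eq_zero.mp h1
        have h3 := eq_C_of_natDegree_eq_zero h2
        have h4 : ∑ j ∈ range (n + 1), ((p j : k[X]) : PowerSeries k) * (PowerSeries.exp k) ^ j
            = ((p 0 : k[X]) : PowerSeries k) := by
          rw [sum_eq_single 0]
          · simp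
          · intro j hj hj0
            rw [hpos j (mem_range.mp hj) hj0]; simp
          · simp
        rw [h4, hsum, pow_succ] at hR
        have h5 := congrArg (PowerSeries.constantCoeff (R := k)) hR
        simp at h5
        rw [h3, h5, C_0]
      intro j hj
      by_cases hj0 : j = 0
      · rw [hj0]; exact h0
      · exact hpos j hj hj0

end MP_cea741_ag.NSq
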