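import Mathlib
import Pool.Agent.Lib.MP_cea741_ag.NExp
import Pool.Agent.Lib.MP_cea741_ag.Mon
import Pool.Agent.Lib.MP_cea741_ag.Setup

/-! The generic arc. -/

namespace MP_cea741_ag.NSq

open Polynomial

/-! ### extension of derivations to the fraction field -/

section ext

variable {A L : Type*} [CommRing A] [Field L] [Algebra A L]

/-- ring map `a ↦ a + ε D a` -/
noncomputable def toTS (δ : A → A) (h1 : δ 1 = 0) (hadd : ∀ a b, δ (a + b) = δ a + δ b)
    (hmul : ∀ a b, δ (a * b) = a * δ b + b * δ a) : A →+* TrivSqZeroExt L L where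
  toFun a := TrivSqZeroExt.inl (algebraMap A L a) + TrivSqZeroExt.inr (algebraMap A L (δ a))
  map_one' := by
    rw [h1, map_one, map_zero, TrivSqZeroExt.inr_zero, add_zero]; rfl
  map_zero' := by
    have h0 : δ 0 = 0 := by
      have := hadd 0 0
      rw [add_zero] at this
      exact left_eq_add.mp this
    rw [h0, map_zero, TrivSqZeroExt.inr_zero, add_zero]; rfl
  map_add' a b := by
    rw [hadd, map_add, map_add, TrivSqZeroExt.inl_add, TrivSqZeroExt.inr_add]
    exact add_add_add_comm _ _ _ _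
  map_mul' a b := by
    refine TrivSqZeroExt.ext ?_ ?_
    · rw [TrivSqZeroExt.fst_mul]
      simp only [TrivSqZeroExt.fst_add, TrivSqZeroExt.fst_inl, TrivSqZeroExt.fst_inr, add_zero,
        map_mul]
    · rw [TrivSqZeroExt.snd_mul]
      simp only [TrivSqZeroExt.fst_add, TrivSqZeroExt.fst_inl, TrivSqZeroExt.fst_inr, add_zero,
        TrivSqZeroExt.snd_add, TrivSqZeroExt.snd_inl, TrivSqZeroExt.snd_inr, zero_add, hmul,
        map_add, map_mul, smul_eq_mul, MulOpposite.smul_eq_mul_unop, MulOpposite.unop_op]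
      ring

variable [IsDomain A] [IsFractionRing A L]

theorem exists_derivation (δ : A → A) (h1 : δ 1 = 0) (hadd : ∀ a b, δ (a + b) = δ a + δ b)
    (hmul : ∀ a b, δ (a * b) = a * δ b + b * δ a) :
    ∃ D : Derivation ℤ L L, ∀ a, D (algebraMap A L a) = algebraMap A L (δ a) := by
  set f : A →+* TrivSqZeroExt L L := toTS δ h1 hadd hmul with hf
  have hfst : ∀ a, (f a).fst = algebraMap A L a := by
    intro a
    change (TrivSqZeroExt.inl (algebraMap A L a) + TrivSqZeroExt.inr (algebraMap A L (δ a)) :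
      TrivSqZeroExt L L).fst = _
    rw [TrivSqZeroExt.fst_add, TrivSqZeroExt.fst_inl, TrivSqZeroExt.fst_inr, add_zero]
  have hsnd : ∀ a, (f a).snd = algebraMap A L (δ a) := by
    intro a
    change (TrivSqZeroExt.inl (algebraMap A L a) + TrivSqZeroExt.inr (algebraMap A L (δ a)) :
      TrivSqZeroExt L L).snd = _
    rw [TrivSqZeroExt.snd_add, TrivSqZeroExt.snd_inl, TrivSqZeroExt.snd_inr, zero_add]
  have hunit : ∀ y : nonZeroDivisors A, IsUnit (f y) := by
    intro y
    rw [TrivSqZeroExt.isUnit_iff_isUnit_fst, hfst, isUnit_iff_ne_zero]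
    intro h
    exact nonZeroDivisors.ne_zero y.2 ((IsFractionRing.injective A L) (by rw [h, map_zero]))
  set g : L →+* TrivSqZeroExt L L := IsLocalization.lift (M := nonZeroDivisors A) hunit with hg
  have hgf : ∀ a, g (algebraMap A L a) = f a := fun a => IsLocalization.lift_eq _ _
  have hgfst : ∀ x, (g x).fst = x := by
    have h : ((TrivSqZeroExt.fstHom L L L : TrivSqZeroExt L L →ₐ[L] L) :
        TrivSqZeroExt L L →+* L).comp g = RingHom.id L := by
      apply IsLocalization.ringHom_ext (nonZeroDivisors A)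
      ext a
      change (g (algebraMap A L a)).fst = algebraMap A L a
      rw [hgf, hfst]
    intro x
    exact congrArg (fun φ => φ x) h
  refine ⟨Derivation.mk' (AddMonoidHom.toIntLinearMap
    { toFun := fun x => (g x).snd
      map_zero' := by rw [map_zero]; rfl
      map_add' := by intro x y; rw [map_add]; rfl }) ?_, ?_⟩
  · intro x y
    change (g (x * y)).snd = x • (g y).snd + y • (g x).snd
    rw [map_mul, TrivSqZeroExt.snd_mul, hgfst, hgfst]
    simp only [smul_eq_mul, MulOpposite.smul_eq_mul_unop, MulOpposite.unop_op]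
    ring
  · intro a
    change (g (algebraMap A L a)).snd = _
    rw [hgf, hsnd]

end ext

/-- injectivity at a special point implies injectivity at the generic point. -/
theorem gen_of_special {k σ τ ι A : Type*} [Field k] [Fintype τ] [Fintype ι] [DecidableEq ι]
    [Field A] (φ : MvPolynomial σ k →+* A) (hφ : Function.Injective φ)
    (M : Matrix τ ι (MvPolynomial σ k)) (p : σ → k)
    (h : ∀ v : ι → k, (M.map (MvPolynomial.eval p)).mulVec v = 0 → v = 0) :
    ∀ v : ι → A, (M.map φ).mulVec v = 0 → v = 0 := by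
  classical
  set M0 : Matrix τ ι k := M.map (MvPolynomial.eval p) with hM0
  have hinj : Function.Injective (Matrix.mulVecLin M0) := by
    rw [← LinearMap.ker_eq_bot, LinearMap.ker_eq_bot']
    intro v hv
    exact h v hv
  obtain ⟨g, hg⟩ := LinearMap.exists_leftInverse_of_injective (Matrix.mulVecLin M0)
    (LinearMap.ker_eq_bot.mpr hinj)
  set N : Matrix ι τ k := LinearMap.toMatrix' g with hN
  have hNM : N * M0 = 1 := by
    have : LinearMap.toMatrix' (g ∘ₗ Matrix.mulVecLin M0) = 1 := by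
      rw [hg]; exact LinearMap.toMatrix'_id
    rw [LinearMap.toMatrix'_comp] at this
    rwa [← Matrix.toLin'_apply', LinearMap.toMatrix'_toLin'] at this
  set NC : Matrix ι τ (MvPolynomial σ k) := N.map MvPolynomial.C with hNC
  have hdet : (NC * M).det ≠ 0 := by
    intro h0
    have h1 : MvPolynomial.eval p (NC * M).det = 1 := by
      rw [RingHom.map_det]
      have : (MvPolynomial.eval p).mapMatrix (NC * M) = N * M0 := by
        ext i j
        simp only [RingHom.mapMatrix_apply, Matrix.map_apply, Matrix.mul_apply, map_sum, map_mul,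
          MvPolynomial.eval_C, hNC, hM0]
      rw [this, hNM, Matrix.det_one]
    rw [h0] at h1; simp at h1
  intro v hv
  have h2 : (φ.mapMatrix (NC * M)).det ≠ 0 := by
    rw [← RingHom.map_det]
    intro h0
    exact hdet (hφ (by rw [h0, map_zero]))
  refine Matrix.eq_zero_of_mulVec_eq_zero h2 ?_
  have h3 : φ.mapMatrix (NC * M) = (NC.map φ) * (M.map φ) := by
    rw [RingHom.mapMatrix_apply, Matrix.map_mul]
  rw [h3, ← Matrix.mulVec_mulVec, hv, Matrix.mulVec_zero]

/-! ### dictionary between vectors and polynomials -/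

variable {K : Type*} [Field K]

/-- polynomial with given coefficients -/
noncomputable def Fof {D : ℕ} (v : Idx D → K) : K[X][X] :=
  ∑ p : Idx D, monomial (p.1.2 : ℕ) (monomial (p.1.1 : ℕ) (v p))

theorem taylor_Fof {D : ℕ} (g : K[X]) (v : Idx D → K) : taylor g (Fof v) = Wpol g v := by
  rw [Fof, Wpol, map_sum]
  refine Finset.sum_congr rfl fun p _ => ?_
  rw [taylor_monomial, Upol, ← C_mul_X_pow_eq_monomial, C_mul, C_pow]
  ring

theorem Fof_coeff {D : ℕ} (v : Idx D → K) (p : Idx D) :
    ((Fof v).coeff (p.1.2 : ℕ)).coeff (p.1.1 : ℕ) = v p := by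
  rw [Fof, finsetSum_coeff, finsetSum_coeff, Finset.sum_eq_single p]
  · simp
  · intro q _ hq
    rw [coeff_monomial]
    split_ifs with h1
    · rw [coeff_monomial, if_neg]
      intro h2
      exact hq (Subtype.ext (Prod.ext (Fin.ext h2) (Fin.ext h1)))
    · simp
  · simp

theorem Fof_coeff_not {D : ℕ} (v : Idx D → K) (i j : ℕ) (h : D < i + j) :
    ((Fof v).coeff j).coeff i = 0 := by
  rw [Fof, finsetSum_coeff, finsetSum_coeff]
  refine Finset.sum_eq_zero fun q _ => ?_
  rw [coeff_monomial]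
  split_ifs with h1
  · rw [coeff_monomial, if_neg]
    intro h2
    have := q.2
    omega
  · simp

theorem tdeg_Fof_le {D : ℕ} (v : Idx D → K) : tdeg (Fof v) ≤ D := by
  rw [tdeg_le_iff]
  exact fun i j hij => Fof_coeff_not v i j hij

theorem Fof_eq {D : ℕ} {F : K[X][X]} (h : tdeg F ≤ D) :
    Fof (D := D) (fun p => (F.coeff (p.1.2 : ℕ)).coeff (p.1.1 : ℕ)) = F := by
  ext j i
  rcases Nat.lt_or_ge D (i + j) with h1 | h1
  · rw [Fof_coeff_not _ _ _ h1, tdeg_le_iff.mp h i j h1]
  · have := Fof_coeff (fun p : Idx D => (F.coeff (p.1.2 : ℕ)).coeff (p.1.1 : ℕ))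
      ⟨(⟨i, by omega⟩, ⟨j, by omega⟩), h1⟩
    simpa using this

theorem Fof_eq_zero {D : ℕ} {v : Idx D → K} (h : Fof v = 0) : v = 0 := by
  funext p
  rw [← Fof_coeff v p, h]; simp

theorem mem_iff_Vge {r m : ℕ} (P : K[X][X]) :
    P ∈ (Ideal.span {X, C (X ^ r)} : Ideal K[X][X]) ^ m ↔ Vge r (r * m) P := by
  constructor
  · intro h i j hij
    have h1 := mon_coeff _ m _ h j
    rw [← pow_mul, X_pow_dvd_iff] at h1
    refine h1 i ?_
    rw [Nat.mul_sub]; omega
  · intro h
    refine mon_mem _ m _ fun j hj => ?_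
    rw [← pow_mul, X_pow_dvd_iff]
    intro i hi
    refine h i j ?_
    rw [Nat.mul_sub] at hi; omega

/-- the exponential arc -/
noncomputable def expPt (k : Type*) [Field k] (r : ℕ) : Fin r → k := fun i => ((i : ℕ).factorial : k)⁻¹

/-- no curve of degree `D` with `(D+1)(D+2)/2 ≤ r` has contact `r` with the exponential arc -/
theorem special_inj (k : Type*) [Field k] [CharZero k] (r D : ℕ) (hD : (D + 1) * (D + 2) ≤ 2 * r)
    (v : Idx D → k) (h : Vge r r (taylor (gpol r (expPt k r)) (Fof v))) : v = 0 := by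
  apply Fof_eq_zero
  set F := Fof v with hF
  set g := gpol r (expPt k r) with hg
  have h1 : (X : k[X]) ^ r ∣ F.eval g := by
    rw [X_pow_dvd_iff]
    intro i hi
    rw [← taylor_coeff_zero]
    exact h i 0 (by omega)
  have hFdeg := tdeg_Fof_le v
  have hFn : F.natDegree < D + 1 := by
    rw [Nat.lt_succ_iff, natDegree_le_iff_coeff_eq_zero]
    intro N hN
    ext i
    rw [tdeg_le_iff.mp hFdeg i N (by omega)]; simp
  -- `g` agrees with `exp` modulo `x^r`
  have hgexp : (PowerSeries.X : PowerSeries k) ^ r ∣ ((g : k[X]) : PowerSeries k) - PowerSeries.exp k := by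
    rw [PowerSeries.X_pow_dvd_iff]
    intro i hi
    rw [map_sub, Polynomial.coeff_coe, PowerSeries.coeff_exp, hg, gpol, finsetSum_coeff,
      Finset.sum_eq_single ⟨i, hi⟩]
    · simp [expPt]
    · intro b _ hb
      rw [coeff_C_mul, coeff_X_pow, if_neg, mul_zero]
      intro h2
      exact hb (Fin.ext h2.symm)
    · simp
  have h2 : (PowerSeries.X : PowerSeries k) ^ r ∣
      ∑ j ∈ Finset.range (D + 1), ((F.coeff j : k[X]) : PowerSeries k) * (PowerSeries.exp k) ^ j := by
    have h3 : (PowerSeries.X : PowerSeries k) ^ r ∣ ((F.eval g : k[X]) : PowerSeries k) := by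
      obtain ⟨Q, hQ⟩ := h1
      refine ⟨(Q : PowerSeries k), ?_⟩
      rw [hQ]; simp
    rw [eval_eq_sum_range' hFn] at h3
    have h4 : ((∑ j ∈ Finset.range (D + 1), F.coeff j * g ^ j : k[X]) : PowerSeries k)
        = ∑ j ∈ Finset.range (D + 1), ((F.coeff j : k[X]) : PowerSeries k) *
          ((g : k[X]) : PowerSeries k) ^ j := by
      have h40 : ((∑ j ∈ Finset.range (D + 1), F.coeff j * g ^ j : k[X]) : PowerSeries k)
        = ∑ j ∈ Finset.range (D + 1), ((F.coeff j * g ^ j : k[X]) : PowerSeries k) := by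
        simp only [← Polynomial.coeToPowerSeries.ringHom_apply, map_sum]
      rw [h40]
      refine Finset.sum_congr rfl fun j _ => ?_
      rw [Polynomial.coe_mul, Polynomial.coe_pow]
    rw [h4] at h3
    have h5 : (PowerSeries.X : PowerSeries k) ^ r ∣
        (∑ j ∈ Finset.range (D + 1), ((F.coeff j : k[X]) : PowerSeries k) *
          ((g : k[X]) : PowerSeries k) ^ j) -
        ∑ j ∈ Finset.range (D + 1), ((F.coeff j : k[X]) : PowerSeries k) * (PowerSeries.exp k) ^ j := by
      rw [← Finset.sum_sub_distrib]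
      refine Finset.dvd_sum fun j _ => ?_
      rw [← mul_sub]
      exact dvd_mul_of_dvd_right (hgexp.trans (sub_dvd_pow_sub_pow _ _ j)) _
    have h6 := dvd_sub h3 h5
    rwa [sub_sub_cancel] at h6
  have hsum : ∑ j ∈ Finset.range (D + 1), (D + 1 - j) ≤ r := by
    have h7 : ∑ j ∈ Finset.range (D + 1), (D + 1 - j) = ∑ j ∈ Finset.range (D + 1), (j + 1) := by
      rw [← Finset.sum_range_reflect]
      refine Finset.sum_congr rfl fun j hj => ?_
      rw [Finset.mem_range] at hj
      omega
    have h8 : 2 * ∑ j ∈ Finset.range (D + 1), (j + 1) = (D + 1) * (D + 2) := by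
      clear * -
      induction D with
      | zero => simp
      | succ D ih => rw [Finset.sum_range_succ, mul_add, ih]; ring
    omega
  have h9 := exp_indep (D + 1) (fun j => D + 1 - j) (fun j => F.coeff j)
    (fun j hj i hi => tdeg_le_iff.mp hFdeg i j (by omega)) ((pow_dvd_pow _ hsum).trans h2)
  ext j i
  rcases Nat.lt_or_ge j (D + 1) with h10 | h10
  · have h11 : F.coeff j = 0 := h9 j h10
    rw [h11]; simp
  · rw [tdeg_le_iff.mp hFdeg i j (by omega)]; simp

/-! ### the generic arc -/

section generic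

variable {k : Type*} [Field k] {r : ℕ} {L : Type*} [Field L]
  [Algebra (MvPolynomial (Fin r) k) L] [IsFractionRing (MvPolynomial (Fin r) k) L]

variable (k r L) in
/-- the generic coefficients -/
noncomputable def uu : ℕ → L := fun i =>
  if h : i < r then algebraMap (MvPolynomial (Fin r) k) L (MvPolynomial.X ⟨i, h⟩) else 0

variable (k r L) in
/-- partial derivatives on the function field -/
theorem exists_DD : ∃ D : ℕ → Derivation ℤ L L,
    ∀ i < r, ∀ j < r, D i (uu k r L j) = if i = j then 1 else 0 := by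
  classical
  have h : ∀ i : ℕ, ∃ D : Derivation ℤ L L, ∀ hi : i < r, ∀ p : MvPolynomial (Fin r) k,
      D (algebraMap (MvPolynomial (Fin r) k) L p) =
        algebraMap (MvPolynomial (Fin r) k) L (MvPolynomial.pderiv ⟨i, hi⟩ p) := by
    intro i
    by_cases hi : i < r
    · have a1 : (MvPolynomial.pderiv (⟨i, hi⟩ : Fin r) : Derivation k (MvPolynomial (Fin r) k)
          (MvPolynomial (Fin r) k)) 1 = 0 := Derivation.map_one_eq_zero _
      have a2 : ∀ a b : MvPolynomial (Fin r) k,
          MvPolynomial.pderiv (⟨i, hi⟩ : Fin r) (a + b) =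
          MvPolynomial.pderiv (⟨i, hi⟩ : Fin r) a + MvPolynomial.pderiv (⟨i, hi⟩ : Fin r) b :=
        fun a b => Derivation.map_add _ a b
      have a3 : ∀ a b : MvPolynomial (Fin r) k,
          MvPolynomial.pderiv (⟨i, hi⟩ : Fin r) (a * b) =
          a * MvPolynomial.pderiv (⟨i, hi⟩ : Fin r) b + b * MvPolynomial.pderiv (⟨i, hi⟩ : Fin r) a :=
        fun a b => Derivation.leibniz _ a b
      obtain ⟨D, hD⟩ := exists_derivation (A := MvPolynomial (Fin r) k) (L := L)
        (fun p : MvPolynomial (Fin r) k => (MvPolynomial.pderiv (⟨i, hi⟩ : Fin r) p :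
          MvPolynomial (Fin r) k)) a1 a2 a3
      exact ⟨D, fun _ p => hD p⟩
    · exact ⟨0, fun h => absurd h hi⟩
  choose D hD using h
  refine ⟨D, fun i hi j hj => ?_⟩
  rw [uu, dif_pos hj, hD i hi, MvPolynomial.pderiv_X]
  by_cases h : i = j
  · subst h
    rw [Pi.single_eq_same, map_one, if_pos rfl]
  · rw [if_neg h, Pi.single_eq_of_ne, map_zero]
    intro h2
    exact h (Fin.mk.inj_iff.mp h2).symm

variable (k r L) in
omit [IsFractionRing (MvPolynomial (Fin r) k) L] in
theorem ph_uu : ph (uu k r L) r =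
    gpol r (fun l => algebraMap (MvPolynomial (Fin r) k) L (MvPolynomial.X l)) := by
  rw [ph, gpol, ← Fin.sum_univ_eq_sum_range (fun i => C (uu k r L i) * X ^ i) r]
  refine Finset.sum_congr rfl fun l _ => ?_
  rw [uu, dif_pos l.2]

theorem generic_exp [CharZero k] (F : L[X][X])
    (h1 : (tdeg F + 1) * (tdeg F + 2) ≤ 2 * r) (h2 : Vge r r (taylor (ph (uu k r L) r) F)) :
    F = 0 := by
  classical
  obtain ⟨D, hD⟩ : ∃ D, tdeg F = D := ⟨_, rfl⟩
  rw [hD] at h1
  rw [← Fof_eq (le_of_eq hD)] at h2 ⊢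
  set v : Idx D → L := fun p => (F.coeff (p.1.2 : ℕ)).coeff (p.1.1 : ℕ) with hv
  have h3 : v = 0 := by
    refine gen_of_special (algebraMap (MvPolynomial (Fin r) k) L)
      (IsFractionRing.injective _ _) (Mmat k r 1 D) (expPt k r) ?_ v ?_
    · intro w hw
      have h4 : ((Mmat k r 1 D).map (MvPolynomial.eval (expPt k r) :
        MvPolynomial (Fin r) k →+* k)).mulVec w = 0 := hw
      rw [Mmat_mulVec_eq_zero_iff, mem_iff_Vge, ← taylor_Fof] at h4
      have h5 : (fun l => (MvPolynomial.eval (expPt k r) : MvPolynomial (Fin r) k →+* k)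
          (MvPolynomial.X l)) = expPt k r := by
        funext l; exact MvPolynomial.eval_X l
      rw [h5, mul_one] at h4
      exact special_inj k r D h1 w h4
    · rw [Mmat_mulVec_eq_zero_iff, mem_iff_Vge, ← taylor_Fof, ← ph_uu, mul_one]
      exact h2
  rw [h3]
  simp [Fof]

/-- the generic injectivity -/
theorem generic_inj [CharZero k] [Algebra k L] (m d : ℕ) (hr : 9 < r)
    (hd : (4 * r + 1) * d ^ 2 < 4 * r ^ 2 * m ^ 2) (v : Idx d → L)
    (h1 : Vge r (r * m) (taylor (ph (uu k r L) r) (Fof v))) : v = 0 := by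
  have : CharZero L := charZero_of_injective_algebraMap (algebraMap k L).injective
  obtain ⟨DD, hDD⟩ := exists_DD k r L
  by_contra hv0
  have hF : Fof v ≠ 0 := fun h0 => hv0 (Fof_eq_zero h0)
  have hσ : taylor (ph (uu k r L) r) (Fof v) ≠ 0 := (taylor_eq_zero _ _).not.mpr hF
  have h3 := general_bound (K := L) (r := r) (by omega) (uu k r L) DD hDD
    generic_exp (Fof v) hF
  have h4 := (Vge_iff hσ).mp h1
  have h5 := tdeg_Fof_le v
  have h6 : (r * m) * (r * m) ≤ val r (taylor (ph (uu k r L) r) (Fof v)) *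
    val r (taylor (ph (uu k r L) r) (Fof v)) := Nat.mul_le_mul h4 h4
  have h7 : tdeg (Fof v) * tdeg (Fof v) ≤ d * d := Nat.mul_le_mul h5 h5
  have h8 : (4 * r + 1) * (tdeg (Fof v) * tdeg (Fof v)) ≤ (4 * r + 1) * (d * d) :=
    Nat.mul_le_mul_left _ h7
  have h9 : 4 * ((r * m) * (r * m)) = 4 * r ^ 2 * m ^ 2 := by ring
  have h10 : (4 * r + 1) * (d * d) = (4 * r + 1) * d ^ 2 := by ring
  omega

variable (k r L) in
theorem nsq_open_aux [CharZero k] [Algebra k L] (m d : ℕ) (hr : 9 < r)
    (hd : (4 * r + 1) * d ^ 2 < 4 * r ^ 2 * m ^ 2) :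
    ∃ Φ : MvPolynomial (Fin r) k, Φ ≠ 0 ∧ ∀ c : Fin r → k, MvPolynomial.eval c Φ ≠ 0 →
      ∀ v : Idx d → k,
        Wpol (gpol r c) v ∈ (Ideal.span {X, C (X ^ r)} : Ideal k[X][X]) ^ m → v = 0 := by
  classical
  obtain ⟨Φ, hΦ, h⟩ := generic_injective (A := L) (Mmat k r m d)
    (fun l => algebraMap (MvPolynomial (Fin r) k) L (MvPolynomial.X l)) (by
      intro v hv
      have h1 : ((Mmat k r m d).map
          ((MvPolynomial.aeval (fun l => algebraMap (MvPolynomial (Fin r) k) L
            (MvPolynomial.X l)) : MvPolynomial (Fin r) k →ₐ[k] L) :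
              MvPolynomial (Fin r) k →+* L)).mulVec v = 0 := hv
      rw [Mmat_mulVec_eq_zero_iff, mem_iff_Vge] at h1
      have h2 : (fun l => ((MvPolynomial.aeval (fun l => algebraMap (MvPolynomial (Fin r) k)
          L (MvPolynomial.X l)) : MvPolynomial (Fin r) k →ₐ[k] L) :
            MvPolynomial (Fin r) k →+* L) (MvPolynomial.X l))
          = fun l => algebraMap (MvPolynomial (Fin r) k) L (MvPolynomial.X l) := by
        funext l
        exact MvPolynomial.aeval_X _ l
      rw [h2, ← ph_uu, ← taylor_Fof] at h1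
      exact generic_inj m d hr hd v h1)
  refine ⟨Φ, hΦ, fun c hc v hv => h c hc v ?_⟩
  have h3 : ((Mmat k r m d).map (MvPolynomial.eval c : MvPolynomial (Fin r) k →+* k)).mulVec v = 0 := by
    rw [Mmat_mulVec_eq_zero_iff]
    have h4 : (fun l => (MvPolynomial.eval c : MvPolynomial (Fin r) k →+* k) (MvPolynomial.X l)) = c := by
      funext l; exact MvPolynomial.eval_X l
    rw [h4]
    exact hv
  exact h3

end generic

/-- **The open set**, nonsquare case. -/
theorem nsq_open (k : Type*) [Field k] [CharZero k] (r m d : ℕ) (hr : 9 < r)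
    (hd : (4 * r + 1) * d ^ 2 < 4 * r ^ 2 * m ^ 2) :
    ∃ Φ : MvPolynomial (Fin r) k, Φ ≠ 0 ∧ ∀ c : Fin r → k, MvPolynomial.eval c Φ ≠ 0 →
      ∀ v : Idx d → k,
        Wpol (gpol r c) v ∈ (Ideal.span {X, C (X ^ r)} : Ideal k[X][X]) ^ m → v = 0 :=
  nsq_open_aux k r (FractionRing (MvPolynomial (Fin r) k)) m d hr hd

end MP_cea741_ag.NSq
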