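import Mathlib

/-!
Lacunary polynomials with a high order zero at `1`, and the number of elements of the numerical
semigroup generated by `e - 1` and `e` below a bound.
-/

namespace MP_cea741_ag.Vir

open Polynomial

/-- A polynomial with at most `n` monomials in characteristic zero is zero if it vanishes at `1`
to order `n`. -/
theorem lacunary {K : Type*} [Field K] [CharZero K] : ∀ (n : ℕ) (f : K[X]),
    f.support.card ≤ n → (X - 1) ^ n ∣ f → f = 0 := by
  intro n
  induction n with
  | zero =>
    intro f hf _
    rw [Nat.le_zero, Finset.card_eq_zero, support_eq_empty] at hf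
    exact hf
  | succ n ih =>
    intro f hf hdvd
    by_contra hf0
    obtain ⟨f1, hf1⟩ : X ^ f.natTrailingDegree ∣ f := by
      rw [X_pow_dvd_iff]
      intro d hd
      exact coeff_eq_zero_of_lt_natTrailingDegree hd
    set i := f.natTrailingDegree with hi
    have h10 : f1 ≠ 0 := by
      rintro rfl
      exact hf0 (by rw [hf1, mul_zero])
    have hc0 : f1.coeff 0 ≠ 0 := by
      have h1 : f.coeff i = f1.coeff 0 := by
        conv_lhs => rw [hf1]
        rw [coeff_X_pow_mul', if_pos le_rfl, Nat.sub_self]
      rw [← h1, hi]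
      exact (mem_support_iff.1 (natTrailingDegree_mem_support_of_nonzero hf0))
    have hcard : f1.support.card ≤ n + 1 := by
      refine le_trans ?_ hf
      refine Finset.card_le_card_of_injOn (fun j => j + i) ?_ ?_
      · intro j hj
        have hj' : f1.coeff j ≠ 0 := mem_support_iff.1 hj
        refine mem_support_iff.2 ?_
        rw [hf1, mul_comm, coeff_mul_X_pow]
        exact hj'
      · intro a _ b _ h
        exact Nat.add_right_cancel h
    have hd1 : (X - 1) ^ (n + 1) ∣ f1 := by
      have hco : IsCoprime ((X - 1 : K[X]) ^ (n + 1)) (X ^ i) := by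
        refine IsCoprime.pow ?_
        exact ⟨-1, 1, by ring⟩
      rw [hf1] at hdvd
      exact hco.dvd_of_dvd_mul_left hdvd
    have hder : derivative f1 = 0 := by
      refine ih _ ?_ ?_
      · have h2 : (derivative f1).support.card ≤ (f1.support.erase 0).card := by
          refine Finset.card_le_card_of_injOn (fun j => j + 1) ?_ ?_
          · intro j hj
            have hj' : (derivative f1).coeff j ≠ 0 := mem_support_iff.1 hj
            rw [coeff_derivative] at hj'
            refine Finset.mem_coe.2 (Finset.mem_erase.2 ⟨Nat.succ_ne_zero j, mem_support_iff.2 ?_⟩)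
            exact left_ne_zero_of_mul hj'
          · intro a _ b _ h
            exact Nat.add_right_cancel h
        rw [Finset.card_erase_of_mem (mem_support_iff.2 hc0)] at h2
        omega
      · obtain ⟨q, hq⟩ := hd1
        rw [hq, derivative_mul, derivative_pow]
        simp only [map_natCast, Nat.add_sub_cancel]
        refine dvd_add ?_ ?_
        · refine Dvd.dvd.mul_right ?_ _
          refine Dvd.dvd.mul_right ?_ _
          exact Dvd.intro_left _ rfl
        · exact (pow_dvd_pow _ (Nat.le_succ n)).mul_right _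
    have hconst : f1 = C (f1.coeff 0) := eq_C_of_derivative_eq_zero hder
    rw [hconst] at hd1
    have h3 := natDegree_le_of_dvd hd1 (by rwa [Ne, C_eq_zero])
    rw [natDegree_C, natDegree_pow] at h3
    have h4 : (X - 1 : K[X]).natDegree = 1 := by
      have := natDegree_X_sub_C (1 : K)
      simpa using this
    rw [h4] at h3
    omega

/-- in any characteristic the order of the zero is at most the degree -/
theorem order_le {K : Type*} [Field K] {f : K[X]} (hf : f ≠ 0) {n w : ℕ}
    (h : (X - 1) ^ n ∣ f) (hw : f.natDegree ≤ w) : n ≤ w := by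
  have h3 := natDegree_le_of_dvd h hf
  rw [natDegree_pow] at h3
  have h4 : (X - 1 : K[X]).natDegree = 1 := by
    have := natDegree_X_sub_C (1 : K)
    simpa using this
  rw [h4] at h3
  omega

/-- `σ = e b - a` with `0 ≤ a ≤ b`, `a < e`: the semigroup generated by `e - 1` and `e`. -/
def NG (e σ : ℕ) : Prop := ∃ a b : ℕ, a < e ∧ a ≤ b ∧ σ + a = e * b

/-- The number of gaps is `(e-1)(e-2)/2`. -/
theorem gaps (e w : ℕ) (he : 3 ≤ e) (hw : (e - 1) * (e - 2) ≤ w + 1) (S : Finset ℕ)
    (hS : ∀ σ ∈ S, σ ≤ w ∧ NG e σ) : 2 * S.card + (e - 1) * (e - 2) ≤ 2 * (w + 1) := by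
  classical
  set P : Finset (Σ _ : ℕ, ℕ) := (Finset.range (e - 2)).sigma (fun b => Finset.range (e - 2 - b))
    with hP
  have hPcard : 2 * P.card = (e - 1) * (e - 2) := by
    rw [hP, Finset.card_sigma]
    simp only [Finset.card_range]
    obtain ⟨t, rfl⟩ : ∃ t, e = t + 2 := ⟨e - 2, by omega⟩
    have h1 : ∀ t : ℕ, 2 * ∑ i ∈ Finset.range t, (t - i) = (t + 1) * t := by
      intro t
      have h2 : ∑ i ∈ Finset.range t, (t - i) = ∑ i ∈ Finset.range t, (i + 1) := by
        rw [← Finset.sum_range_reflect (fun i => i + 1) t]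
        refine Finset.sum_congr rfl fun i hi => ?_
        have := Finset.mem_range.1 hi
        omega
      rw [h2, Finset.sum_add_distrib, mul_add, mul_comm 2 (∑ i ∈ Finset.range t, i),
        Finset.sum_range_id_mul_two]
      simp only [Finset.sum_const, Finset.card_range, smul_eq_mul, mul_one]
      rcases t with _ | t
      · simp
      · simp only [Nat.add_sub_cancel]; ring
    have h3 := h1 t
    have e1 : t + 2 - 2 = t := by omega
    have e2 : t + 2 - 1 = t + 1 := by omega
    rw [e1, e2]
    exact h3
  set f : (Σ _ : ℕ, ℕ) → ℕ := fun p => e * p.1 + 1 + p.2 with hf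
  have hinj : Set.InjOn f (P : Set (Σ _ : ℕ, ℕ)) := by
    rintro ⟨b, i⟩ h1 ⟨b', i'⟩ h2 h
    rw [hP, Finset.mem_coe, Finset.mem_sigma, Finset.mem_range, Finset.mem_range] at h1 h2
    simp only [hf] at h h1 h2
    have hb : b = b' := by
      by_contra hne
      rcases Nat.lt_or_ge b b' with hlt | hge
      · have : e * (b + 1) ≤ e * b' := Nat.mul_le_mul_left _ hlt
        rw [mul_add, mul_one] at this
        omega
      · have : e * (b' + 1) ≤ e * b := Nat.mul_le_mul_left _ (by omega)
        rw [mul_add, mul_one] at this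
        omega
    subst hb
    have hi : i = i' := by omega
    subst hi
    rfl
  have hmem : ∀ p ∈ P, f p ≤ w ∧ ¬ NG e (f p) := by
    rintro ⟨b, i⟩ h1
    rw [hP, Finset.mem_sigma, Finset.mem_range, Finset.mem_range] at h1
    simp only [hf] at h1 ⊢
    constructor
    · have h2 : e * b + 1 + i ≤ (e - 1) * (b + 1) - 1 := by
        obtain ⟨t, rfl⟩ : ∃ t, e = t + 2 := ⟨e - 2, by omega⟩
        have e2 : t + 2 - 1 = t + 1 := by omega
        have e3 : t + 2 - 2 = t := by omega
        rw [e2]
        rw [e3] at h1
        have : (t + 1) * (b + 1) = (t + 2) * b + (t + 1) - b := by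
          zify [show b ≤ (t + 2) * b + (t + 1) by nlinarith]
          ring
        omega
      have h3 : (e - 1) * (b + 1) ≤ (e - 1) * (e - 2) := Nat.mul_le_mul_left _ (by omega)
      have h4 : 1 ≤ (e - 1) * (b + 1) := Nat.mul_pos (by omega) (by omega)
      omega
    · rintro ⟨a, b', ha, hab, h⟩
      have hb' : b' = b + 1 := by
        have h2 : e * b < e * b' := by omega
        have h3 := Nat.lt_of_mul_lt_mul_left h2
        have h5 : e * b' < e * (b + 2) := by
          rw [mul_add]
          omega
        have h6 := Nat.lt_of_mul_lt_mul_left h5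
        omega
      subst hb'
      rw [mul_add, mul_one] at h
      omega
  have hdisj : Disjoint S (P.image f) := by
    rw [Finset.disjoint_left]
    intro σ h1 h2
    obtain ⟨p, hp, rfl⟩ := Finset.mem_image.1 h2
    exact (hmem p hp).2 (hS _ h1).2
  have hsub : S ∪ P.image f ⊆ Finset.range (w + 1) := by
    intro σ hσ
    rw [Finset.mem_range]
    rcases Finset.mem_union.1 hσ with h | h
    · have := (hS σ h).1; omega
    · obtain ⟨p, hp, rfl⟩ := Finset.mem_image.1 h
      have := (hmem p hp).1; omega
  have hcard := Finset.card_le_card hsub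
  rw [Finset.card_union_of_disjoint hdisj, Finset.card_image_of_injOn hinj, Finset.card_range]
    at hcard
  omega

/-- Below the conductor at most half of the numbers are in the semigroup. -/
theorem half (e w : ℕ) (he : 3 ≤ e) (hw : w + 1 < (e - 1) * (e - 2)) (S : Finset ℕ)
    (hS : ∀ σ ∈ S, σ ≤ w ∧ NG e σ) : 2 * S.card ≤ w + 2 := by
  classical
  -- elements of the block
  have hblock : ∀ B σ : ℕ, (e - 1) * B ≤ σ → σ < (e - 1) * (B + 1) → NG e σ →
      σ ≤ (e - 1) * B + B := by
    rintro B σ h1 h2 ⟨a, b, ha, hab, h⟩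
    have hb : b ≤ B := by
      by_contra hlt
      push Not at hlt
      have h3 : (e - 1) * (B + 1) ≤ (e - 1) * b := Nat.mul_le_mul_left _ hlt
      have h4 : e * b = (e - 1) * b + b := by
        obtain ⟨t, rfl⟩ : ∃ t, e = t + 1 := ⟨e - 1, by omega⟩
        simp only [Nat.add_sub_cancel]; ring
      omega
    have h5 : e * b ≤ e * B := Nat.mul_le_mul_left _ hb
    have h6 : e * B = (e - 1) * B + B := by
      obtain ⟨t, rfl⟩ : ∃ t, e = t + 1 := ⟨e - 1, by omega⟩
      simp only [Nat.add_sub_cancel]; ring
    omega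
  -- partial counts
  have hA : ∀ B : ℕ, 2 * (S.filter (fun σ => σ < (e - 1) * B)).card ≤ B * (B + 1) := by
    intro B
    induction B with
    | zero => simp
    | succ B ih =>
      have hsub : S.filter (fun σ => σ < (e - 1) * (B + 1)) ⊆
          S.filter (fun σ => σ < (e - 1) * B) ∪ Finset.Icc ((e - 1) * B) ((e - 1) * B + B) := by
        intro σ hσ
        obtain ⟨h1, h2⟩ := Finset.mem_filter.1 hσ
        rcases Nat.lt_or_ge σ ((e - 1) * B) with h3 | h3
        · exact Finset.mem_union_left _ (Finset.mem_filter.2 ⟨h1, h3⟩)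
        · exact Finset.mem_union_right _ (Finset.mem_Icc.2 ⟨h3, hblock B σ h3 h2 (hS σ h1).2⟩)
      have h4 := Finset.card_le_card hsub
      have h5 := Finset.card_union_le (S.filter (fun σ => σ < (e - 1) * B))
        (Finset.Icc ((e - 1) * B) ((e - 1) * B + B))
      rw [Nat.card_Icc] at h5
      have h6 : (B + 1) * (B + 1 + 1) = B * (B + 1) + 2 * (B + 1) := by ring
      omega
  set B := w / (e - 1) with hB
  have he1 : 0 < e - 1 := by omega
  have hB1 : (e - 1) * B ≤ w := Nat.mul_div_le w (e - 1)
  have hB2 : w < (e - 1) * (B + 1) := by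
    have := Nat.lt_mul_div_succ w he1
    rwa [← hB] at this
  have hB3 : B + 2 < e := by
    by_contra hge
    push Not at hge
    have h1 : (e - 1) * (e - 2) ≤ (e - 1) * B := Nat.mul_le_mul_left _ (by omega)
    omega
  have hsub : S ⊆ S.filter (fun σ => σ < (e - 1) * B) ∪
      Finset.Icc ((e - 1) * B) (min w ((e - 1) * B + B)) := by
    intro σ h1
    rcases Nat.lt_or_ge σ ((e - 1) * B) with h3 | h3
    · exact Finset.mem_union_left _ (Finset.mem_filter.2 ⟨h1, h3⟩)
    · refine Finset.mem_union_right _ (Finset.mem_Icc.2 ⟨h3, le_min (hS σ h1).1 ?_⟩)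
      exact hblock B σ h3 (lt_of_le_of_lt (hS σ h1).1 hB2) (hS σ h1).2
  have h4 := Finset.card_le_card hsub
  have h5 := Finset.card_union_le (S.filter (fun σ => σ < (e - 1) * B))
    (Finset.Icc ((e - 1) * B) (min w ((e - 1) * B + B)))
  rw [Nat.card_Icc] at h5
  have h6 := hA B
  -- `2 min(w', B) ≤ w' + B` and `B^2 + 2 B ≤ (e-1) B`
  have h7 : B * (B + 1) + B ≤ (e - 1) * B := by
    have : B * (B + 1) + B = (B + 2) * B := by ring
    rw [this]
    exact Nat.mul_le_mul_right _ (by omega)
  have h8 : min w ((e - 1) * B + B) ≤ w := min_le_left _ _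
  have h9 : min w ((e - 1) * B + B) ≤ (e - 1) * B + B := min_le_right _ _
  have h10 : (e - 1) * B ≤ min w ((e - 1) * B + B) := le_min hB1 (Nat.le_add_right _ _)
  generalize min w ((e - 1) * B + B) = k at *
  omega

end MP_cea741_ag.Vir
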