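import Mathlib
import Pool.Agent.Lib.MP_cea741_ag.NVal
import Pool.Agent.Lib.MP_cea741_ag.SmoothA
import Pool.Agent.Lib.MP_cea741_ag.VirA

/-!
The virtual curve `x^N ψ = 1` on the normal cone of `y = x^e`, against polynomials `Φ(x, ψ)` that
vanish along an arc with exact contact `κ`.
-/

namespace MP_cea741_ag.Vir

open Polynomial MP_cea741_ag.NSq

noncomputable section

variable {K : Type*} [Field K]

/-- The coefficient of `ψ^k` is a combination of monomials `x^(a + e b)` with `a < e`,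
`a + b ≤ d - e k`. -/
def WD (e d : ℕ) (Φ : K[X][X]) : Prop :=
  ∀ k n, (Φ.coeff k).coeff n ≠ 0 → e * k + (n % e + n / e) ≤ d

/-- `x ↦ x + 1` -/
def sh : K[X] →+* K[X] := compRingHom (X + 1)

/-- `x ↦ x + 1` on the coefficients -/
def Sh : K[X][X] →+* K[X][X] := mapRingHom (sh : K[X] →+* K[X])

theorem sh_apply (f : K[X]) : sh f = f.comp (X + 1) := rfl

theorem sh_X : sh (X : K[X]) = X + 1 := by rw [sh_apply, X_comp]

theorem sh_comp (f : K[X]) : (sh f).comp (X - 1) = f := by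
  rw [sh_apply, comp_assoc]
  simp

theorem sh_ne_zero {f : K[X]} (h : f ≠ 0) : sh f ≠ 0 := by
  intro h0
  apply h
  rw [← sh_comp f, h0, zero_comp]

theorem dvd_of_dvd_sh {n : ℕ} {f : K[X]} (h : X ^ n ∣ sh f) : (X - 1) ^ n ∣ f := by
  obtain ⟨q, hq⟩ := h
  refine ⟨q.comp (X - 1), ?_⟩
  rw [← sh_comp f, hq, mul_comp, pow_comp, X_comp]

theorem Sh_coeff (Φ : K[X][X]) (k : ℕ) : (Sh Φ).coeff k = sh (Φ.coeff k) := by
  rw [Sh, coe_mapRingHom, coeff_map]

/-- the curve `x^N ψ = 1` -/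
def Fc (K : Type*) [Field K] (N : ℕ) : K[X][X] := C (X ^ N) * X - 1

theorem Fc_natDegree (N : ℕ) : (Fc K N).natDegree = 1 := by
  have h : Fc K N = C (X ^ N) * X + C (-1) := by rw [Fc]; simp [sub_eq_add_neg]
  rw [h]
  exact natDegree_linear (pow_ne_zero _ X_ne_zero)

theorem Fc_leadingCoeff (N : ℕ) : (Fc K N).leadingCoeff = X ^ N := by
  have h : Fc K N = C (X ^ N) * X + C (-1) := by rw [Fc]; simp [sub_eq_add_neg]
  rw [h]
  exact leadingCoeff_linear (pow_ne_zero _ X_ne_zero)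

theorem Fc_ne_zero (N : ℕ) : Fc K N ≠ 0 := by
  intro h
  have := Fc_natDegree (K := K) N
  rw [h] at this
  simp at this

/-- `x^(N M) P(x, x^(-N))` -/
def Bp (N M : ℕ) (P : K[X][X]) : K[X] := ∑ k ∈ Finset.range (M + 1), P.coeff k * X ^ (N * (M - k))

theorem Bp_dvd (N M : ℕ) (P : K[X][X]) (hP : P.natDegree ≤ M) (h : Bp N M P = 0) :
    Fc K N ∣ P := by
  -- `x^(N M) P ≡ B` modulo `F`
  have h1 : ∀ k, Fc K N ∣ C (X ^ (N * k)) * X ^ k - 1 := by
    intro k
    have e : (C (X ^ (N * k)) * X ^ k : K[X][X]) = (C (X ^ N) * X) ^ k := by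
      rw [mul_pow, ← C_pow, ← pow_mul]
    rw [e]
    have := sub_dvd_pow_sub_pow (C (X ^ N) * X : K[X][X]) 1 k
    rw [one_pow] at this
    exact this
  have h2 : Fc K N ∣ C (X ^ (N * M)) * P - C (Bp N M P) := by
    have e0 : C (X ^ (N * M)) * P =
        ∑ k ∈ Finset.range (M + 1), C (X ^ (N * M)) * monomial k (P.coeff k) := by
      conv_lhs => rw [P.as_sum_range' (M + 1) (by omega)]
      rw [Finset.mul_sum]
    rw [e0, Bp, map_sum, ← Finset.sum_sub_distrib]
    refine Finset.dvd_sum fun k hk => ?_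
    have hk' : k ≤ M := by have := Finset.mem_range.1 hk; omega
    have e : C (X ^ (N * M)) * monomial k (P.coeff k) - C (P.coeff k * X ^ (N * (M - k))) =
        C (P.coeff k * X ^ (N * (M - k))) * (C (X ^ (N * k)) * X ^ k - 1 : K[X][X]) := by
      have e1 : N * M = N * (M - k) + N * k := by rw [← mul_add]; congr 1; omega
      rw [← C_mul_X_pow_eq_monomial, e1, pow_add]
      simp only [C_mul, C_pow]
      ring
    rw [e]
    exact (h1 k).mul_left _
  rw [h, C_0, sub_zero] at h2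
  have hco : IsCoprime (Fc K N) (C (X ^ (N * M))) := by
    have e : (C (X ^ (N * M)) : K[X][X]) = (C (X ^ N)) ^ M := by rw [← C_pow, ← pow_mul]
    rw [e]
    refine IsCoprime.pow_right ?_
    exact ⟨-1, X, by rw [Fc]; ring⟩
  exact hco.dvd_of_dvd_mul_left h2

/-- evaluation at `ψ = x^(-N)` over the rational functions -/
theorem Bp_eval (N M : ℕ) (P : K[X][X]) (hP : P.natDegree ≤ M) :
    algebraMap K[X] (RatFunc K) (Bp N M P) =
      algebraMap K[X] (RatFunc K) (X ^ (N * M)) *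
        eval ((algebraMap K[X] (RatFunc K) (X ^ N))⁻¹) (P.map (algebraMap K[X] (RatFunc K))) := by
  have hx : algebraMap K[X] (RatFunc K) (X ^ N) ≠ 0 := by
    rw [Ne, map_eq_zero_iff _ (RatFunc.algebraMap_injective K)]
    exact pow_ne_zero _ X_ne_zero
  rw [eval_map, eval₂_eq_sum_range' _ (lt_of_le_of_lt hP (Nat.lt_succ_self M)), Finset.mul_sum,
    Bp, map_sum]
  refine Finset.sum_congr rfl fun k hk => ?_
  have hk' : k ≤ M := by have := Finset.mem_range.1 hk; omega
  have e1 : (X : K[X]) ^ (N * M) = X ^ (N * (M - k)) * (X ^ N) ^ k := by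
    rw [← pow_mul, ← pow_add, ← mul_add]; congr 2; omega
  rw [e1, map_mul, map_mul, map_pow _ (X ^ N) k, inv_pow]
  field_simp

/-- The `l`-th Taylor coefficient of `F^l P` at `ψ = x^(-N)`. -/
theorem taylor_id (N M l : ℕ) (P : K[X][X]) (hP : P.natDegree ≤ M) :
    ∑ k ∈ Finset.range (M + 1), (Nat.choose (k + l) l : K[X]) * ((Fc K N) ^ l * P).coeff (k + l) *
      X ^ (N * (M - k)) = X ^ (N * l) * Bp N M P := by
  apply RatFunc.algebraMap_injective K
  set ι := algebraMap K[X] (RatFunc K) with hι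
  set y := (ι (X ^ N))⁻¹ with hy
  have hx : ι (X ^ N) ≠ 0 := by
    rw [Ne, map_eq_zero_iff _ (RatFunc.algebraMap_injective K)]
    exact pow_ne_zero _ X_ne_zero
  have hdeg : ((Fc K N) ^ l * P).natDegree ≤ M + l := by
    refine natDegree_mul_le.trans ?_
    refine (add_le_add natDegree_pow_le le_rfl).trans ?_
    rw [Fc_natDegree]; omega
  -- Taylor expansion
  have h1 : (taylor y (((Fc K N) ^ l * P).map ι)).coeff l =
      ι (X ^ N) ^ l * eval y (P.map ι) := by
    rw [Polynomial.map_mul, Polynomial.map_pow, taylor_mul, taylor_pow]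
    have e : taylor y ((Fc K N).map ι) = C (ι (X ^ N)) * X := by
      rw [Fc, Polynomial.map_sub, Polynomial.map_mul, map_C, map_X, Polynomial.map_one,
        taylor_apply, sub_comp, mul_comp, C_comp, X_comp, one_comp, mul_add, ← C_mul, hy,
        mul_inv_cancel₀ hx, C_1]
      ring
    rw [e, mul_pow, ← C_pow, mul_assoc, coeff_C_mul, mul_comm (X ^ l), coeff_mul_X_pow',
      if_pos le_rfl, Nat.sub_self, taylor_coeff_zero]
  rw [taylor_coeff, eval_eq_sum_range' (n := M + 1)] at h1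
  · have h2 := Bp_eval N M P hP
    rw [← hι] at h2
    rw [map_mul, h2, ← hy]
    have h3 : ι (X ^ (N * l)) = ι (X ^ N) ^ l := by rw [← map_pow, ← pow_mul]
    rw [h3, show ι (X ^ N) ^ l * (ι (X ^ (N * M)) * eval y (P.map ι)) =
      ι (X ^ (N * M)) * (ι (X ^ N) ^ l * eval y (P.map ι)) by ring, ← h1, map_sum, Finset.mul_sum]
    refine Finset.sum_congr rfl fun k hk => ?_
    have hk' : k ≤ M := by have := Finset.mem_range.1 hk; omega
    rw [hasseDeriv_coeff, coeff_map, map_mul, map_mul, map_natCast]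
    have e1 : (X : K[X]) ^ (N * M) = X ^ (N * (M - k)) * (X ^ N) ^ k := by
      rw [← pow_mul, ← pow_add, ← mul_add]; congr 2; omega
    rw [e1, map_mul, map_pow _ (X ^ N) k, hy, inv_pow]
    field_simp
  · refine lt_of_le_of_lt (natDegree_hasseDeriv_le _ _) ?_
    have := natDegree_map_le (f := ι) (p := (Fc K N) ^ l * P)
    omega

/-- maximal power of the curve -/
theorem exists_mult (N : ℕ) (Φ : K[X][X]) (hΦ : Φ ≠ 0) :
    ∃ (l : ℕ) (P : K[X][X]), Φ = (Fc K N) ^ l * P ∧ ¬ Fc K N ∣ P := by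
  have hfin : FiniteMultiplicity (Fc K N) Φ := by
    refine FiniteMultiplicity.of_not_isUnit ?_ hΦ
    intro hu
    have := natDegree_eq_zero_of_isUnit hu
    rw [Fc_natDegree] at this
    exact one_ne_zero this
  obtain ⟨P, hP1, hP2⟩ := hfin.exists_eq_pow_mul_and_not_dvd
  exact ⟨_, P, hP1, hP2⟩

end

end MP_cea741_ag.Vir
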