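import Mathlib
import Pool.Agent.Lib.MP_cea741_ag.VirB

/-!
Orders along the arc, and the main structure theorem.
-/

namespace MP_cea741_ag.Vir

open Polynomial MP_cea741_ag.NSq

noncomputable section

variable {K : Type*} [Field K]

theorem val_pow (r : ℕ) {P : K[X][X]} (hP : P ≠ 0) (l : ℕ) : val r (P ^ l) = l * val r P := by
  induction l with
  | zero =>
    rw [pow_zero, zero_mul]
    have h := val_mul r (P := (1 : K[X][X])) (Q := 1) one_ne_zero one_ne_zero
    rw [mul_one] at h
    omega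
  | succ l ih =>
    rw [pow_succ, val_mul r (pow_ne_zero _ hP) hP, ih]
    ring

/-- the curve in the coordinates of the arc -/
theorem taylor_Fc (N : ℕ) (g : K[X]) : taylor g (Sh (Fc K N)) =
    C ((X + 1) ^ N) * X + C ((X + 1) ^ N * g - 1) := by
  rw [Fc, map_sub, map_mul, map_one]
  have e1 : Sh (C (X ^ N) : K[X][X]) = C ((X + 1) ^ N) := by
    rw [Sh, coe_mapRingHom, map_C, map_pow, sh_X]
  have e2 : Sh (X : K[X][X]) = X := by rw [Sh, coe_mapRingHom, map_X]
  rw [e1, e2, taylor_apply, sub_comp, mul_comp, C_comp, X_comp, one_comp, C_sub, C_mul, C_1]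
  ring

theorem coeff_taylor_Fc (N : ℕ) (g : K[X]) (j : ℕ) : (taylor g (Sh (Fc K N))).coeff j =
    if j = 0 then (X + 1) ^ N * g - 1 else if j = 1 then (X + 1) ^ N else 0 := by
  rw [taylor_Fc, coeff_add, coeff_C_mul, coeff_X, coeff_C]
  rcases j with _ | _ | j
  · simp
  · simp
  · simp

theorem one_le_val (N r κ : ℕ) (hκ : κ ≤ r) (g : K[X])
    (hg : X ^ r ∣ (X + 1) ^ N * g - 1 - (X + 1) ^ N * X ^ κ) :
    Vge r κ (taylor g (Sh (Fc K N))) := by
  intro i j hij
  rw [coeff_taylor_Fc]
  split_ifs with h0 h1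
  · subst h0
    obtain ⟨a, ha⟩ := hg
    have e : (X + 1) ^ N * g - 1 = (X ^ κ : K[X]) * (X + 1) ^ N + X ^ r * a := by
      rw [← ha]; ring
    rw [e, coeff_add, coeff_X_pow_mul', coeff_X_pow_mul', if_neg (by omega), if_neg (by omega),
      add_zero]
  · subst h1
    omega
  · simp

theorem val_le (N r κ : ℕ) (hκ : κ ≤ r) (g : K[X])
    (hg : X ^ r ∣ (X + 1) ^ N * g - 1 - (X + 1) ^ N * X ^ κ) :
    ¬ Vge r (κ + 1) (taylor g (Sh (Fc K N))) := by
  intro h
  have h1 : ((X + 1 : K[X]) ^ N).coeff 0 = 1 := by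
    rw [coeff_zero_eq_eval_zero]; simp
  rcases hκ.lt_or_eq with hlt | heq
  · have h2 := h κ 0 (by omega)
    rw [coeff_taylor_Fc, if_pos rfl] at h2
    obtain ⟨a, ha⟩ := hg
    have e : (X + 1) ^ N * g - 1 = (X ^ κ : K[X]) * (X + 1) ^ N + X ^ r * a := by
      rw [← ha]; ring
    rw [e, coeff_add, coeff_X_pow_mul', coeff_X_pow_mul', if_pos le_rfl, if_neg (by omega),
      add_zero, Nat.sub_self, h1] at h2
    exact one_ne_zero h2
  · have h2 := h 0 1 (by omega)
    rw [coeff_taylor_Fc, if_neg one_ne_zero, if_pos rfl, h1] at h2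
    exact one_ne_zero h2

theorem taylor_Sh_ne_zero {g : K[X]} {P : K[X][X]} (hP : P ≠ 0) : taylor g (Sh P) ≠ 0 := by
  rw [Ne, taylor_eq_zero]
  intro h
  obtain ⟨k, hk⟩ : ∃ k, P.coeff k ≠ 0 := by
    by_contra hcon
    push Not at hcon
    exact hP (Polynomial.ext (by simpa using hcon))
  have := Sh_coeff P k
  rw [h, coeff_zero] at this
  exact sh_ne_zero hk this.symm

theorem val_Fc (N r κ : ℕ) (hκ : κ ≤ r) (g : K[X])
    (hg : X ^ r ∣ (X + 1) ^ N * g - 1 - (X + 1) ^ N * X ^ κ) :
    val r (taylor g (Sh (Fc K N))) = κ := by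
  have h0 := taylor_Sh_ne_zero (g := g) (Fc_ne_zero (K := K) N)
  have h1 := (Vge_iff h0).1 (one_le_val N r κ hκ g hg)
  have h2 : ¬ κ + 1 ≤ val r (taylor g (Sh (Fc K N))) := fun h => val_le N r κ hκ g hg ((Vge_iff h0).2 h)
  omega

/-- removing `l` copies of the curve -/
theorem Vge_cancel (N r κ m l : ℕ) (hκ : κ ≤ r) (g : K[X])
    (hg : X ^ r ∣ (X + 1) ^ N * g - 1 - (X + 1) ^ N * X ^ κ) (P : K[X][X])
    (h : Vge r (r * m) (taylor g (Sh ((Fc K N) ^ l * P)))) :
    Vge r (r * m - κ * l) (taylor g (Sh P)) := by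
  rcases le_total (r * m) (κ * l) with hle | hle
  · rw [Nat.sub_eq_zero_of_le hle]
    intro i j hij
    omega
  have h0 := taylor_Sh_ne_zero (g := g) (Fc_ne_zero (K := K) N)
  refine Vge_of_mul (P := (taylor g (Sh (Fc K N))) ^ l) (pow_ne_zero _ h0) ?_
  rw [val_pow r h0, val_Fc N r κ hκ g hg]
  have e : taylor g (Sh ((Fc K N) ^ l * P)) = (taylor g (Sh (Fc K N))) ^ l * taylor g (Sh P) := by
    rw [map_mul, map_pow, taylor_mul, taylor_pow]
  rw [e] at h
  have e2 : l * κ + (r * m - κ * l) = r * m := by rw [mul_comm l κ]; omega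
  rw [e2]
  exact h

/-- The order of `x^(NM) P(x, x^(-N))` at `1`. -/
theorem order_Bp (N r κ n ρ M : ℕ) (hκ : κ ≤ r) (g : K[X])
    (hg : X ^ r ∣ (X + 1) ^ N * g - 1 - (X + 1) ^ N * X ^ κ) (P : K[X][X])
    (hP : P.natDegree ≤ M) (h : Vge r n (taylor g (Sh P))) (hρ : ∀ j, ρ ≤ (n - r * j) + κ * j) :
    (X - 1) ^ ρ ∣ Bp N M P := by
  apply dvd_of_dvd_sh
  rw [← Sm.coe_X_pow_dvd]
  set cs := (Polynomial.coeToPowerSeries.ringHom (R := K)) with hcs
  have hcsa : ∀ f : K[X], cs f = (f : PowerSeries K) := fun f => rfl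
  set u : PowerSeries K := cs ((X + 1) ^ N) with hu
  have hu0 : PowerSeries.constantCoeff u ≠ 0 := by
    rw [hu, hcsa, Polynomial.constantCoeff_coe, coeff_zero_eq_eval_zero]
    simp
  set q : PowerSeries K := u⁻¹ with hq
  have huq : u * q = 1 := PowerSeries.mul_inv_cancel u hu0
  -- `q - g` is divisible by `X^κ`
  have hqg : (PowerSeries.X : PowerSeries K) ^ κ ∣ q - cs g := by
    obtain ⟨a, ha⟩ := hg
    have h1 := congrArg cs ha
    rw [map_sub, map_sub, map_mul, map_mul, map_mul, map_one, map_pow cs X κ, map_pow cs X r,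
      ← hu] at h1
    have hX : cs X = (PowerSeries.X : PowerSeries K) := by rw [hcsa]; simp
    rw [hX] at h1
    obtain ⟨s, hs⟩ : ∃ s, r = κ + s := ⟨r - κ, by omega⟩
    refine ⟨-(1 + q * (PowerSeries.X ^ s * cs a)), ?_⟩
    have e1 : q - cs g = -(q * (u * cs g - 1)) := by
      linear_combination (cs g) * huq
    have e2 : u * cs g - 1 = u * PowerSeries.X ^ κ + PowerSeries.X ^ r * cs a := by
      linear_combination h1
    rw [e1, e2, hs, pow_add]
    linear_combination (-PowerSeries.X ^ κ) * huq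
  -- the value
  have hval : (((sh (Bp N M P) : K[X])) : PowerSeries K) = u ^ M * eval₂ cs q (Sh P) := by
    have hdeg : (Sh P).natDegree < M + 1 := by
      have := natDegree_map_le (f := (sh : K[X] →+* K[X])) (p := P)
      rw [Sh, coe_mapRingHom]
      omega
    rw [eval₂_eq_sum_range' _ hdeg, Finset.mul_sum, ← hcsa, Bp, map_sum, map_sum]
    refine Finset.sum_congr rfl fun k hk => ?_
    have hk' : k ≤ M := by have := Finset.mem_range.1 hk; omega
    rw [map_mul, map_pow, sh_X, pow_mul, map_mul, map_pow, ← hu, Sh_coeff]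
    have e1 : u ^ M = u ^ (M - k) * u ^ k := by rw [← pow_add]; congr 1; omega
    have e2 : u ^ k * q ^ k = 1 := by rw [← mul_pow, huq, one_pow]
    rw [e1]
    linear_combination (-(cs (sh (P.coeff k))) * u ^ (M - k)) * e2
  rw [hval]
  refine Dvd.dvd.mul_left ?_ _
  have hcomp : eval₂ cs q (Sh P) = eval₂ cs (q - cs g) (taylor g (Sh P)) := by
    have e1 : Sh P = (taylor g (Sh P)).comp (X - C g) := by
      rw [taylor_apply, comp_assoc]
      simp
    conv_lhs => rw [e1]
    rw [eval₂_comp, eval₂_sub, eval₂_X, eval₂_C]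
  rw [hcomp, eval₂_eq_sum_range]
  refine Finset.dvd_sum fun j _ => ?_
  have h1 : (X : K[X]) ^ (n - r * j) ∣ (taylor g (Sh P)).coeff j := by
    rw [X_pow_dvd_iff]
    intro i hi
    exact h i j (by omega)
  obtain ⟨a, ha⟩ := h1
  obtain ⟨b, hb⟩ := hqg
  rw [ha, hb, mul_pow, ← pow_mul, map_mul, map_pow]
  have hX : cs X = (PowerSeries.X : PowerSeries K) := by rw [hcsa]; simp
  rw [hX]
  refine (pow_dvd_pow _ (hρ j)).trans ?_
  rw [pow_add]
  exact mul_dvd_mul (Dvd.intro _ rfl) (Dvd.intro _ rfl)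

/-- **Structure of a nonzero `Φ`.** -/
theorem core (e N r κ m d : ℕ) (he : 1 ≤ e) (hκ : κ ≤ r) (hr : 0 < r) (g : K[X])
    (hg : X ^ r ∣ (X + 1) ^ N * g - 1 - (X + 1) ^ N * X ^ κ) (Φ : K[X][X]) (hΦ : Φ ≠ 0)
    (hW : WD e d Φ) (hV : Vge r (r * m) (taylor g (Sh Φ))) :
    ∃ (l M' : ℕ) (B : K[X]), B ≠ 0 ∧ l ≤ M' ∧ e ^ 2 * M' + N * l ≤ e * d ∧
      (∀ n, B.coeff n ≠ 0 → ∃ σ, NG e σ ∧ n + σ + e ^ 2 * l + 2 * N * l = e * d + N * M') ∧
      (X - 1) ^ ((κ * (r * m - κ * l) + r - 1) / r) ∣ B := by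
  obtain ⟨l, P, hΦP, hnd⟩ := exists_mult N Φ hΦ
  have hP0 : P ≠ 0 := by
    rintro rfl
    exact hnd (dvd_zero _)
  set M := P.natDegree with hM
  have hdegΦ : Φ.natDegree = l + M := by
    rw [hΦP, natDegree_mul (pow_ne_zero _ (Fc_ne_zero N)) hP0, natDegree_pow, Fc_natDegree, mul_one]
  have hlead : Φ.coeff (l + M) = X ^ (N * l) * P.leadingCoeff := by
    rw [← hdegΦ, coeff_natDegree, hΦP, leadingCoeff_mul, leadingCoeff_pow, Fc_leadingCoeff,
      ← pow_mul]
  refine ⟨l, l + M, Bp N M P, ?_, Nat.le_add_right _ _, ?_, ?_, ?_⟩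
  · intro h0
    exact hnd (Bp_dvd N M P le_rfl h0)
  · -- the leading coefficient
    obtain ⟨n, hn⟩ : ∃ n, P.leadingCoeff.coeff n ≠ 0 := by
      by_contra hcon
      push Not at hcon
      exact (leadingCoeff_ne_zero.2 hP0) (Polynomial.ext (by simpa using hcon))
    have h1 : (Φ.coeff (l + M)).coeff (n + N * l) ≠ 0 := by
      rw [hlead, mul_comm, coeff_mul_X_pow]
      exact hn
    have h2 := hW _ _ h1
    have h3 := Nat.div_add_mod (n + N * l) e
    have h4 : n + N * l ≤ e * ((n + N * l) % e + (n + N * l) / e) := by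
      calc n + N * l = e * ((n + N * l) / e) + (n + N * l) % e := h3.symm
        _ ≤ e * ((n + N * l) / e) + e * ((n + N * l) % e) :=
          Nat.add_le_add_left (Nat.le_mul_of_pos_left _ (by omega)) _
        _ = _ := by ring
    have h5 := Nat.mul_le_mul_left e h2
    rw [mul_add] at h5
    have h6 : e * (e * (l + M)) = e ^ 2 * (l + M) := by ring
    omega
  · intro n hn
    have h1 : (X ^ (N * l) * Bp N M P).coeff (n + N * l) ≠ 0 := by
      rw [mul_comm, coeff_mul_X_pow]
      exact hn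
    rw [← taylor_id N M l P le_rfl, finsetSum_coeff] at h1
    obtain ⟨k, hk, h2⟩ := Finset.exists_ne_zero_of_sum_ne_zero h1
    have hkM : k ≤ M := by have := Finset.mem_range.1 hk; omega
    rw [coeff_mul_X_pow'] at h2
    split_ifs at h2 with h3
    swap
    · exact absurd rfl h2
    rw [← hΦP, ← C_eq_natCast, coeff_C_mul] at h2
    have h4 := hW _ _ (right_ne_zero_of_mul h2)
    set n0 := n + N * l - N * (M - k) with hn0
    have hn0' : n0 + N * (M - k) = n + N * l := by omega
    have h5 := Nat.div_add_mod n0 e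
    set α := n0 % e with hα
    set β := n0 / e with hβ
    have hαe : α < e := Nat.mod_lt _ (by omega)
    -- `σ = e (d - e l - β) - α + N k`
    rcases Nat.eq_zero_or_pos k with hk0 | hk0
    · -- the term `k = l`
      subst hk0
      rw [zero_add] at h4
      refine ⟨e * (d - e * l - β) - α, ⟨α, d - e * l - β, hαe, by omega, ?_⟩, ?_⟩
      · have : α ≤ e * (d - e * l - β) := by
          calc α ≤ d - e * l - β := by omega
            _ ≤ _ := Nat.le_mul_of_pos_left _ (by omega)
        omega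
      · have h6 : α ≤ e * (d - e * l - β) := by
          calc α ≤ d - e * l - β := by omega
            _ ≤ _ := Nat.le_mul_of_pos_left _ (by omega)
        have h7 : e * (d - e * l - β) + e * (e * l) + e * β = e * d := by
          rw [← mul_add, ← mul_add]; congr 1; omega
        have h8 : e * (e * l) = e ^ 2 * l := by ring
        have h9 : N * (l + M) + N * l = 2 * N * l + N * (M - 0) := by
          rw [Nat.sub_zero]; ring
        omega
    · -- the terms `k > l`
      have h6 : e * l + e + (α + β) ≤ d := by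
        have : e * (k + l) ≥ e * l + e := by
          calc e * l + e = e * (l + 1) := by ring
            _ ≤ e * (k + l) := Nat.mul_le_mul_left _ (by omega)
        omega
      set b' := d - e * l - β with hb'
      have hb1 : e + α ≤ b' := by omega
      have h7 : e * b' + e * (e * l) + e * β = e * d := by
        rw [← mul_add, ← mul_add]; congr 1; omega
      have h8 : e * (e * l) = e ^ 2 * l := by ring
      have hαb : α ≤ e * b' := by
        calc α ≤ b' := by omega
          _ ≤ _ := Nat.le_mul_of_pos_left _ (by omega)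
      have h9 : e ^ 2 + α ≤ e * b' := by
        calc e ^ 2 + α ≤ e * (e + α) := by
              rw [mul_add, ← pow_two]
              exact Nat.add_le_add_left (Nat.le_mul_of_pos_left _ (by omega)) _
          _ ≤ e * b' := Nat.mul_le_mul_left _ hb1
      refine ⟨e * b' - α + N * k, ?_, ?_⟩
      · -- large numbers are not gaps
        set σ := e * b' - α + N * k with hσ
        have hσe : e ^ 2 ≤ σ := by omega
        have h10 := Nat.div_add_mod (σ + e - 1) e
        have h11 : (σ + e - 1) % e < e := Nat.mod_lt _ (by omega)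
        set b := (σ + e - 1) / e with hb
        have h12 : e ≤ b := by
          rw [hb, Nat.le_div_iff_mul_le (by omega)]
          have : e * e = e ^ 2 := by ring
          omega
        refine ⟨e * b - σ, b, by omega, ?_, by omega⟩
        omega
      · have h13 : N * (M - k) + N * k = N * M := by
          rw [← mul_add, Nat.sub_add_cancel hkM]
        have h14 : N * (l + M) = N * l + N * M := by ring
        have h15 : 2 * N * l = N * l + N * l := by ring
        omega
  · refine order_Bp N r κ (r * m - κ * l) _ M hκ g hg P le_rfl ?_ ?_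
    · refine Vge_cancel N r κ m l hκ g hg P ?_
      rw [← hΦP]
      exact hV
    · intro j
      exact Sm.ceil_le r κ (r * m - κ * l) j hr hκ

end

end MP_cea741_ag.Vir
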