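import Mathlib
import Pool.Agent.Lib.MP_cea741_ag.VirC

/-!
Vanishing on the special arc.
-/

namespace MP_cea741_ag.Vir

open Polynomial MP_cea741_ag.NSq

noncomputable section

variable {K : Type*} [Field K]

/-- the basic inequality -/
theorem basic (e N r κ m d l M' ρ : ℤ) (hr : 0 < r) (he : 0 < e) (hN : 0 ≤ N)
    (hT : e ^ 2 * M' + N * l ≤ e * d) (hC : κ * (r * m - κ * l) ≤ r * ρ) (s : ℤ)
    (hZ : ρ + s + e ^ 2 * l + 2 * N * l ≤ e * d + N * M') :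
    e ^ 2 * κ * r * m + r * e ^ 2 * s ≤
      r * e * d * (e ^ 2 + N) - l * (r * (e ^ 2 + N) ^ 2 - e ^ 2 * κ ^ 2) := by
  have h1 : e ^ 2 * (ρ + s) ≤ e * d * (e ^ 2 + N) - l * (e ^ 2 + N) ^ 2 := by
    have h2 : e ^ 2 * (ρ + s + e ^ 2 * l + 2 * N * l) ≤ e ^ 2 * (e * d + N * M') :=
      mul_le_mul_of_nonneg_left hZ (by positivity)
    have h3 : N * (e ^ 2 * M' + N * l) ≤ N * (e * d) := mul_le_mul_of_nonneg_left hT hN
    nlinarith
  have h4 : e ^ 2 * (κ * (r * m - κ * l)) ≤ e ^ 2 * (r * ρ) :=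
    mul_le_mul_of_nonneg_left hC (by positivity)
  have h5 := mul_le_mul_of_nonneg_left h1 hr.le
  nlinarith

/-- numerical contradiction, any characteristic -/
theorem numeric_any (e N r κ m d l M' ρ : ℤ) (hr : 0 < r) (he : 0 < e) (hN : 0 ≤ N) (hκ : 0 ≤ κ)
    (hl : 0 ≤ l) (hd : 0 ≤ d)
    (hlM : l ≤ M') (hT : e ^ 2 * M' + N * l ≤ e * d) (hC : κ * (r * m - κ * l) ≤ r * ρ)
    (hZ : ρ + e ^ 2 * l + 2 * N * l ≤ e * d + N * M')
    (hcase : ((e * κ) ^ 2 ≤ r * (e ^ 2 + N) ^ 2 ∧ (e ^ 2 + N) * d < e * κ * m) ∨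
      (r * (e ^ 2 + N) ^ 2 ≤ (e * κ) ^ 2 ∧ e * κ * d < r * (e ^ 2 + N) * m)) : False := by
  have hf : 0 < e ^ 2 + N := by positivity
  have hB := basic e N r κ m d l M' ρ hr he hN hT hC 0 (by linarith)
  rcases hcase with ⟨h1, h2⟩ | ⟨h1, h2⟩
  · have h3 : 0 ≤ l * (r * (e ^ 2 + N) ^ 2 - e ^ 2 * κ ^ 2) :=
      mul_nonneg hl (by nlinarith)
    have h4 : r * e * ((e ^ 2 + N) * d) < r * e * (e * κ * m) :=
      mul_lt_mul_of_pos_left h2 (by positivity)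
    nlinarith
  · have hκ0 : 0 < κ := by
      rcases hκ.lt_or_eq with h | h
      · exact h
      · subst h
        have : 0 < r * (e ^ 2 + N) ^ 2 := by positivity
        nlinarith
    have hlf : l * (e ^ 2 + N) ≤ e * d := by nlinarith [mul_le_mul_of_nonneg_left hlM (by positivity : 0 ≤ e ^ 2)]
    have h3 : 0 ≤ e ^ 2 * κ ^ 2 - r * (e ^ 2 + N) ^ 2 := by nlinarith
    have h4 : (e ^ 2 * κ ^ 2 - r * (e ^ 2 + N) ^ 2) * (l * (e ^ 2 + N)) ≤
        (e ^ 2 * κ ^ 2 - r * (e ^ 2 + N) ^ 2) * (e * d) := mul_le_mul_of_nonneg_left hlf h3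
    have h5 := mul_le_mul_of_nonneg_right hB hf.le
    have h6 : (e ^ 2 * κ) * (r * (e ^ 2 + N) * m) ≤ (e ^ 2 * κ) * (e * κ * d) := by nlinarith
    have h7 := le_of_mul_le_mul_left h6 (by positivity)
    linarith

/-- numerical contradiction with the gain from the gaps -/
theorem numeric_zero (e N r κ m d l M' ρ w G : ℤ) (hr : 0 < r) (he : 0 < e) (hN : 0 ≤ N)
    (hκ : 0 ≤ κ) (hl : 0 ≤ l) (hd : 0 ≤ d) (hm : 0 ≤ m)
    (hlM : l ≤ M') (hT : e ^ 2 * M' + N * l ≤ e * d) (hC : κ * (r * m - κ * l) ≤ r * ρ)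
    (hw : w + e ^ 2 * l + 2 * N * l = e * d + N * M')
    (hZ : 2 * ρ + G ≤ 2 * w ∨ 2 * ρ ≤ w)
    (h1 : (e * κ) ^ 2 ≤ r * (e ^ 2 + N) ^ 2) (h2 : r * (e ^ 2 + N) ^ 2 ≤ 2 * (e * κ) ^ 2)
    (h3 : d ^ 2 < m ^ 2 * r) (h4 : 2 * (e ^ 2 + N) * d < e * (2 * κ * m + G)) : False := by
  have hf : 0 < e ^ 2 + N := by positivity
  -- `e² w ≤ f (e d - l f)`
  have hwb : e ^ 2 * w ≤ e * d * (e ^ 2 + N) - l * (e ^ 2 + N) ^ 2 := by
    have h3 : N * (e ^ 2 * M' + N * l) ≤ N * (e * d) := mul_le_mul_of_nonneg_left hT hN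
    have h5 : e ^ 2 * (w + e ^ 2 * l + 2 * N * l) = e ^ 2 * (e * d + N * M') := by rw [hw]
    nlinarith
  have hC' : e ^ 2 * (κ * (r * m - κ * l)) ≤ e ^ 2 * (r * ρ) :=
    mul_le_mul_of_nonneg_left hC (by positivity)
  rcases hZ with hZ | hZ
  · have h5 : 0 ≤ l * (r * (e ^ 2 + N) ^ 2 - e ^ 2 * κ ^ 2) := mul_nonneg hl (by nlinarith)
    have h6 : r * e ^ 2 * (2 * ρ + G) ≤ r * e ^ 2 * (2 * w) :=
      mul_le_mul_of_nonneg_left hZ (by positivity)
    have h7 : r * (e ^ 2 * w) ≤ r * (e * d * (e ^ 2 + N) - l * (e ^ 2 + N) ^ 2) :=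
      mul_le_mul_of_nonneg_left hwb hr.le
    have h8 : r * e * (2 * (e ^ 2 + N) * d) < r * e * (e * (2 * κ * m + G)) :=
      mul_lt_mul_of_pos_left h4 (by positivity)
    nlinarith
  · have hκ0 : 0 < κ := by
      rcases hκ.lt_or_eq with h | h
      · exact h
      · subst h
        have : 0 < r * (e ^ 2 + N) ^ 2 := by positivity
        nlinarith
    have hlf : l * (e ^ 2 + N) ≤ e * d := by
      nlinarith [mul_le_mul_of_nonneg_left hlM (by positivity : 0 ≤ e ^ 2)]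
    have h5 : 0 ≤ 2 * (e ^ 2 * κ ^ 2) - r * (e ^ 2 + N) ^ 2 := by nlinarith
    have h6 : (2 * (e ^ 2 * κ ^ 2) - r * (e ^ 2 + N) ^ 2) * (l * (e ^ 2 + N)) ≤
        (2 * (e ^ 2 * κ ^ 2) - r * (e ^ 2 + N) ^ 2) * (e * d) := mul_le_mul_of_nonneg_left hlf h5
    have h7 : r * e ^ 2 * (2 * ρ) ≤ r * e ^ 2 * w := mul_le_mul_of_nonneg_left hZ (by positivity)
    have h8 : r * (e ^ 2 * w) ≤ r * (e * d * (e ^ 2 + N) - l * (e ^ 2 + N) ^ 2) :=
      mul_le_mul_of_nonneg_left hwb hr.le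
    have h9 : 2 * (e ^ 2 * κ * r * m) ≤
        r * e * d * (e ^ 2 + N) + l * (2 * (e ^ 2 * κ ^ 2) - r * (e ^ 2 + N) ^ 2) := by nlinarith
    have h10 := mul_le_mul_of_nonneg_right h9 hf.le
    have h11 : (2 * e ^ 2 * κ) * (r * (e ^ 2 + N) * m) ≤ (2 * e ^ 2 * κ) * (e * κ * d) := by
      nlinarith
    have h12 := le_of_mul_le_mul_left h11 (by positivity)
    have h13 : (r * (e ^ 2 + N) * m) ^ 2 ≤ (e * κ * d) ^ 2 :=
      pow_le_pow_left₀ (by positivity) h12 2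
    have h14 : (e * κ * d) ^ 2 ≤ r * (e ^ 2 + N) ^ 2 * d ^ 2 := by
      have := mul_le_mul_of_nonneg_right h1 (sq_nonneg d)
      nlinarith
    have h15 : r * (e ^ 2 + N) ^ 2 * d ^ 2 < r * (e ^ 2 + N) ^ 2 * (m ^ 2 * r) :=
      mul_lt_mul_of_pos_left h3 (by positivity)
    nlinarith

theorem cast_C {r κ m l ρ : ℕ} (h : κ * (r * m - κ * l) ≤ r * ρ) :
    (κ : ℤ) * ((r : ℤ) * m - κ * l) ≤ r * ρ := by
  have h1 : ((r : ℤ) * m - κ * l) ≤ ((r * m - κ * l : ℕ) : ℤ) := by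
    rcases le_total (κ * l) (r * m) with hh | hh
    · rw [Nat.cast_sub hh]; push_cast; exact le_rfl
    · rw [Nat.sub_eq_zero_of_le hh]
      have : ((r * m : ℕ) : ℤ) ≤ ((κ * l : ℕ) : ℤ) := by exact_mod_cast hh
      push_cast at this ⊢; linarith
  calc (κ : ℤ) * ((r : ℤ) * m - κ * l) ≤ κ * ((r * m - κ * l : ℕ) : ℤ) :=
        mul_le_mul_of_nonneg_left h1 (by positivity)
    _ = ((κ * (r * m - κ * l) : ℕ) : ℤ) := by push_cast; ring
    _ ≤ ((r * ρ : ℕ) : ℤ) := by exact_mod_cast h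
    _ = _ := by push_cast; ring

/-- **Vanishing on the special arc, any characteristic.** -/
theorem vanish_any (e N r κ m d : ℕ) (he : 1 ≤ e) (hκ : κ ≤ r) (hr : 0 < r) (g : K[X])
    (hg : X ^ r ∣ (X + 1) ^ N * g - 1 - (X + 1) ^ N * X ^ κ)
    (hcase : ((e * κ) ^ 2 ≤ r * (e ^ 2 + N) ^ 2 ∧ (e ^ 2 + N) * d < e * κ * m) ∨
      (r * (e ^ 2 + N) ^ 2 ≤ (e * κ) ^ 2 ∧ e * κ * d < r * (e ^ 2 + N) * m))
    (Φ : K[X][X]) (hW : WD e d Φ) (hV : Vge r (r * m) (taylor g (Sh Φ))) : Φ = 0 := by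
  by_contra hΦ
  obtain ⟨l, M', B, hB0, hlM, hT, hB, hdvd⟩ := core e N r κ m d he hκ hr g hg Φ hΦ hW hV
  set ρ := (κ * (r * m - κ * l) + r - 1) / r with hρ
  have hC := Sm.le_ceil r κ (r * m - κ * l) hr
  rw [← hρ] at hC
  have hn : B.coeff B.natDegree ≠ 0 := by
    rw [coeff_natDegree]; exact leadingCoeff_ne_zero.2 hB0
  obtain ⟨σ, _, hσ⟩ := hB _ hn
  have hle := order_le hB0 hdvd le_rfl
  refine numeric_any e N r κ m d l M' ρ (by exact_mod_cast hr) (by exact_mod_cast he)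
    (by positivity) (by positivity) (by positivity) (by positivity) (by exact_mod_cast hlM)
    (by exact_mod_cast hT) (cast_C hC) ?_ ?_
  · have : ρ + e ^ 2 * l + 2 * N * l ≤ e * d + N * M' := by omega
    exact_mod_cast this
  · rcases hcase with ⟨h1, h2⟩ | ⟨h1, h2⟩
    · left
      exact ⟨by exact_mod_cast h1, by exact_mod_cast h2⟩
    · right
      exact ⟨by exact_mod_cast h1, by exact_mod_cast h2⟩

/-- **Vanishing on the special arc, characteristic zero, with the gain from the gaps.** -/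
theorem vanish_zero [CharZero K] (e N r κ m d : ℕ) (he : 3 ≤ e) (hκ : κ ≤ r) (hr : 0 < r) (g : K[X])
    (hg : X ^ r ∣ (X + 1) ^ N * g - 1 - (X + 1) ^ N * X ^ κ)
    (h1 : (e * κ) ^ 2 ≤ r * (e ^ 2 + N) ^ 2) (h2 : r * (e ^ 2 + N) ^ 2 ≤ 2 * (e * κ) ^ 2)
    (h3 : d ^ 2 < m ^ 2 * r)
    (h4 : 2 * (e ^ 2 + N) * d < e * (2 * κ * m + (e - 1) * (e - 2)))
    (Φ : K[X][X]) (hW : WD e d Φ) (hV : Vge r (r * m) (taylor g (Sh Φ))) : Φ = 0 := by
  classical
  by_contra hΦ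
  obtain ⟨l, M', B, hB0, hlM, hT, hB, hdvd⟩ := core e N r κ m d (by omega) hκ hr g hg Φ hΦ hW hV
  set ρ := (κ * (r * m - κ * l) + r - 1) / r with hρ
  have hC := Sm.le_ceil r κ (r * m - κ * l) hr
  rw [← hρ] at hC
  -- the number `w`
  have hn : B.coeff B.natDegree ≠ 0 := by
    rw [coeff_natDegree]; exact leadingCoeff_ne_zero.2 hB0
  obtain ⟨σ0, _, hσ0⟩ := hB _ hn
  obtain ⟨w, hw⟩ : ∃ w, w = B.natDegree + σ0 := ⟨_, rfl⟩
  have hw' : w + e ^ 2 * l + 2 * N * l = e * d + N * M' := by omega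
  -- the exponents
  have hsupp : ∀ n ∈ B.support, n ≤ w ∧ NG e (w - n) := by
    intro n hn'
    obtain ⟨σ, h5, h6⟩ := hB n (mem_support_iff.1 hn')
    have h7 : n + σ = w := by omega
    have h8 : w - n = σ := by omega
    exact ⟨by omega, by rw [h8]; exact h5⟩
  set S : Finset ℕ := B.support.image (fun n => w - n) with hS
  have hScard : S.card = B.support.card := by
    rw [hS, Finset.card_image_of_injOn]
    intro a ha b hb hab
    have ha' := (hsupp a ha).1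
    have hb' := (hsupp b hb).1
    simp only at hab
    omega
  have hSm : ∀ σ ∈ S, σ ≤ w ∧ NG e σ := by
    intro σ hσ
    obtain ⟨n, hn', rfl⟩ := Finset.mem_image.1 hσ
    exact ⟨Nat.sub_le _ _, (hsupp n hn').2⟩
  have hlac : ρ + 1 ≤ S.card := by
    by_contra hlt
    exact hB0 (lacunary ρ B (by omega) hdvd)
  have hcast : ((((e - 1) * (e - 2) : ℕ)) : ℤ) = ((e : ℤ) - 1) * ((e : ℤ) - 2) := by
    rw [Nat.cast_mul, Nat.cast_sub (by omega), Nat.cast_sub (by omega)]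
    push_cast; ring
  have hZ : 2 * ρ + (e - 1) * (e - 2) ≤ 2 * w ∨ 2 * ρ ≤ w := by
    by_cases hc : (e - 1) * (e - 2) ≤ w + 1
    · left
      have := gaps e w he hc S hSm
      omega
    · right
      have := half e w he (by omega) S hSm
      omega
  refine numeric_zero e N r κ m d l M' ρ w ((((e - 1) * (e - 2) : ℕ)) : ℤ)
    (by exact_mod_cast hr) (by exact_mod_cast (by omega : 0 < e))
    (by positivity) (by positivity) (by positivity) (by positivity) (by positivity)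
    (by exact_mod_cast hlM) (by exact_mod_cast hT) (cast_C hC) (by exact_mod_cast hw') ?_
    (by exact_mod_cast h1) (by exact_mod_cast h2) (by exact_mod_cast h3) (by exact_mod_cast h4)
  rcases hZ with h | h
  · left; exact_mod_cast h
  · right; exact_mod_cast h

end

end MP_cea741_ag.Vir
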