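import Mathlib
import Pool.Agent.Lib.MP_cea741_ag.VirD
import Pool.Agent.Lib.MP_cea741_ag.ArcA
import Pool.Agent.Lib.MP_cea741_ag.NGen

/-!
Degeneration to the normal cone of `y = x^e`: the arcs `y = x^e + t g(x)` for `t → 0`.
-/

namespace MP_cea741_ag.Vir

open Polynomial MP_cea741_ag.NSq

noncomputable section

variable {k : Type*} [Field k]

/-- `y = x^e + t ψ` in `k[x][ψ][t]` -/
def yh (k : Type*) [Field k] (e : ℕ) : k[X][X][X] := C (C (X ^ e)) + X * C X

/-- `k[t] → k[x][ψ][t]` -/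
def zt (k : Type*) [Field k] : k[X] →+* k[X][X][X] :=
  mapRingHom ((C : k[X] →+* k[X][X]).comp (C : k →+* k[X]))

theorem zt_X : zt k X = X := by rw [zt, coe_mapRingHom, map_X]

theorem zt_C (a : k) : zt k (C a) = C (C (C a)) := by rw [zt, coe_mapRingHom, map_C]; rfl

theorem zt_coeff (f : k[X]) (i : ℕ) : (zt k f).coeff i = C (C (f.coeff i)) := by
  rw [zt, coe_mapRingHom, coeff_map]; rfl

/-- the additive span of the `c(t) x^a y^b (y - x^e)^l` with `a < e`, `a + b + e l ≤ d` -/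
def Sp (k : Type*) [Field k] (e d : ℕ) : AddSubmonoid k[X][X][X] :=
  AddSubmonoid.closure {u | ∃ (c : k[X]) (a b l : ℕ), a < e ∧ a + b + e * l ≤ d ∧
    u = zt k c * (C (C (X ^ a)) * yh k e ^ b * (X * C X) ^ l)}

theorem Sp_mono {e d d' : ℕ} (h : d ≤ d') {u : k[X][X][X]} (hu : u ∈ Sp k e d) : u ∈ Sp k e d' := by
  refine AddSubmonoid.closure_mono ?_ hu
  rintro u ⟨c, a, b, l, h1, h2, h3⟩
  exact ⟨c, a, b, l, h1, h2.trans h, h3⟩

theorem Sp_zt {e d : ℕ} (f : k[X]) {u : k[X][X][X]} (hu : u ∈ Sp k e d) :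
    zt k f * u ∈ Sp k e d := by
  induction hu using AddSubmonoid.closure_induction with
  | mem u hu =>
    obtain ⟨c, a, b, l, h1, h2, rfl⟩ := hu
    refine AddSubmonoid.subset_closure ⟨f * c, a, b, l, h1, h2, ?_⟩
    rw [map_mul]; ring
  | zero => rw [mul_zero]; exact AddSubmonoid.zero_mem _
  | add u w _ _ h1 h2 => rw [mul_add]; exact AddSubmonoid.add_mem _ h1 h2

theorem Sp_mul {e d : ℕ} {u : k[X][X][X]} (hu : u ∈ Sp k e d) :
    u * (X * C X) ∈ Sp k e (d + e) := by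
  induction hu using AddSubmonoid.closure_induction with
  | mem u hu =>
    obtain ⟨c, a, b, l, h1, h2, rfl⟩ := hu
    refine AddSubmonoid.subset_closure ⟨c, a, b, l + 1, h1, by rw [mul_add]; omega, ?_⟩
    rw [pow_succ]; ring
  | zero => rw [zero_mul]; exact AddSubmonoid.zero_mem _
  | add u w _ _ h1 h2 => rw [add_mul]; exact AddSubmonoid.add_mem _ h1 h2

theorem Sp_mono_mem (e : ℕ) (he : 1 ≤ e) : ∀ (n b : ℕ),
    C (C (X ^ n)) * yh k e ^ b ∈ Sp k e (n + b) := by
  intro n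
  induction n using Nat.strong_induction_on with
  | _ n ih =>
    intro b
    rcases Nat.lt_or_ge n e with h | h
    · refine AddSubmonoid.subset_closure ⟨1, n, b, 0, h, by omega, ?_⟩
      rw [map_one, one_mul, pow_zero, mul_one]
    · have h1 : C (C (X ^ n)) * yh k e ^ b = C (C (X ^ (n - e))) * yh k e ^ (b + 1) +
          zt k (C (-1)) * (C (C (X ^ (n - e))) * yh k e ^ b * (X * C X)) := by
        have e1 : (C (C (X ^ n)) : k[X][X][X]) = C (C (X ^ (n - e))) * C (C (X ^ e)) := by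
          rw [← C_mul, ← C_mul, ← pow_add, Nat.sub_add_cancel h]
        rw [e1, pow_succ, zt_C]
        simp only [C_neg, C_1]
        rw [yh]
        ring
      rw [h1]
      refine AddSubmonoid.add_mem _ ?_ ?_
      · exact Sp_mono (by omega) (ih (n - e) (by omega) (b + 1))
      · refine Sp_zt _ (Sp_mono ?_ (Sp_mul (ih (n - e) (by omega) b)))
        omega

theorem Sp_poly (e : ℕ) (he : 1 ≤ e) (f : k[X]) (b d : ℕ) (h : f.natDegree + b ≤ d) :
    C (C f) * yh k e ^ b ∈ Sp k e d := by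
  have hf : (C (C f) : k[X][X][X]) =
      ∑ i ∈ Finset.range (f.natDegree + 1), C (C (C (f.coeff i) * X ^ i)) := by
    conv_lhs => rw [f.as_sum_range_C_mul_X_pow]
    rw [map_sum, map_sum]
  rw [hf, Finset.sum_mul]
  refine AddSubmonoid.sum_mem _ fun i hi => ?_
  have hi' := Finset.mem_range.1 hi
  have e1 : (C (C (C (f.coeff i) * X ^ i)) : k[X][X][X]) * yh k e ^ b =
      zt k (C (f.coeff i)) * (C (C (X ^ i)) * yh k e ^ b) := by
    rw [zt_C, C_mul, C_mul]; ring
  rw [e1]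
  exact Sp_zt _ (Sp_mono (by omega) (Sp_mono_mem e he i b))

/-- triples -/
def Tr (e d : ℕ) : Finset (ℕ × ℕ × ℕ) :=
  (Finset.range e ×ˢ Finset.range (d + 1) ×ˢ Finset.range (d + 1)).filter
    (fun p => p.1 + p.2.1 + e * p.2.2 ≤ d)

theorem mem_Tr {e d : ℕ} (he : 1 ≤ e) {p : ℕ × ℕ × ℕ} :
    p ∈ Tr e d ↔ p.1 < e ∧ p.1 + p.2.1 + e * p.2.2 ≤ d := by
  rw [Tr, Finset.mem_filter, Finset.mem_product, Finset.mem_product, Finset.mem_range,
    Finset.mem_range, Finset.mem_range]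
  constructor
  · rintro ⟨⟨h1, _, _⟩, h4⟩
    exact ⟨h1, h4⟩
  · rintro ⟨h1, h4⟩
    have : p.2.2 ≤ e * p.2.2 := Nat.le_mul_of_pos_left _ (by omega)
    exact ⟨⟨h1, by omega, by omega⟩, h4⟩

theorem Sp_repr (e d : ℕ) (he : 1 ≤ e) {u : k[X][X][X]} (hu : u ∈ Sp k e d) :
    ∃ c : ℕ × ℕ × ℕ → k[X], u = ∑ p ∈ Tr e d, zt k (c p) *
      (C (C (X ^ p.1)) * yh k e ^ p.2.1 * (X * C X) ^ p.2.2) := by
  classical
  induction hu using AddSubmonoid.closure_induction with
  | mem u hu =>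
    obtain ⟨c, a, b, l, h1, h2, rfl⟩ := hu
    refine ⟨fun p => if p = (a, b, l) then c else 0, ?_⟩
    rw [Finset.sum_eq_single (a, b, l)]
    · simp
    · intro p _ hp
      simp only [if_neg hp]
      rw [map_zero, zero_mul]
    · intro h
      exact absurd ((mem_Tr he).2 ⟨h1, h2⟩) h
  | zero => exact ⟨fun _ => 0, by simp⟩
  | add u w _ _ h1 h2 =>
    obtain ⟨c1, h1⟩ := h1
    obtain ⟨c2, h2⟩ := h2
    refine ⟨fun p => c1 p + c2 p, ?_⟩
    rw [h1, h2, ← Finset.sum_add_distrib]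
    refine Finset.sum_congr rfl fun p _ => ?_
    rw [map_add]; ring

/-- the leading coefficient in `t` of an element of the span -/
theorem Sp_lead (e d : ℕ) (he : 1 ≤ e) {u : k[X][X][X]} (hu : u ∈ Sp k e d) (hu0 : u ≠ 0) :
    ∃ i, u.coeff i ≠ 0 ∧ WD e d (u.coeff i) := by
  classical
  obtain ⟨c, hc⟩ := Sp_repr e d he hu
  set D : ℕ × ℕ × ℕ → k[X] := fun p => X ^ p.2.2 * c p with hD
  set W : ℕ × ℕ × ℕ → k[X][X][X] := fun p => C (C (X ^ p.1)) * yh k e ^ p.2.1 * C (X ^ p.2.2) with hW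
  have hu1 : u = ∑ p ∈ Tr e d, zt k (D p) * W p := by
    rw [hc]
    refine Finset.sum_congr rfl fun p _ => ?_
    simp only [hD, hW]
    have hz : zt k (X ^ p.2.2) = X ^ p.2.2 := by rw [map_pow, zt_X]
    have h3 : (X * C X : k[X][X][X]) ^ p.2.2 = X ^ p.2.2 * C (X ^ p.2.2) := by
      have h4 := mul_pow (X : k[X][X][X]) (C X) p.2.2
      rw [h4, map_pow]
    rw [map_mul, hz, h3]
    ring
  -- some `D p ≠ 0`
  have hne : ((Tr e d).filter (fun p => D p ≠ 0)).Nonempty := by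
    by_contra hcon
    rw [Finset.not_nonempty_iff_eq_empty, Finset.filter_eq_empty_iff] at hcon
    apply hu0
    rw [hu1]
    refine Finset.sum_eq_zero fun p hp => ?_
    have := hcon hp
    push Not at this
    rw [this, map_zero, zero_mul]
  obtain ⟨p0, hp0, hmin⟩ := Finset.exists_min_image _ (fun p => (D p).natTrailingDegree) hne
  set i := (D p0).natTrailingDegree with hi
  have hdiv : ∀ p ∈ Tr e d, ∃ E : k[X], D p = X ^ i * E := by
    intro p hp
    by_cases h0 : D p = 0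
    · exact ⟨0, by rw [h0, mul_zero]⟩
    · have h1 := hmin p (Finset.mem_filter.2 ⟨hp, h0⟩)
      obtain ⟨E, hE⟩ : X ^ i ∣ D p := by
        rw [X_pow_dvd_iff]
        intro j hj
        exact coeff_eq_zero_of_lt_natTrailingDegree (lt_of_lt_of_le hj h1)
      exact ⟨E, hE⟩
  have hdiv' : ∀ p, ∃ E : k[X], p ∈ Tr e d → D p = X ^ i * E := by
    intro p
    by_cases hp : p ∈ Tr e d
    · obtain ⟨E, hE⟩ := hdiv p hp
      exact ⟨E, fun _ => hE⟩
    · exact ⟨0, fun h => absurd h hp⟩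
  choose E hE using hdiv'
  have hE0 : (E p0).coeff 0 ≠ 0 := by
    have h1 := hE p0 (Finset.mem_filter.1 hp0).1
    have h2 : (D p0).coeff i = (E p0).coeff 0 := by
      conv_lhs => rw [h1]
      rw [coeff_X_pow_mul', if_pos le_rfl, Nat.sub_self]
    rw [← h2, hi]
    exact mem_support_iff.1 (natTrailingDegree_mem_support_of_nonzero (Finset.mem_filter.1 hp0).2)
  have hW0 : ∀ p, (W p).coeff 0 = monomial p.2.2 (X ^ (p.1 + e * p.2.1)) := by
    intro p
    simp only [hW, yh]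
    rw [coeff_zero_eq_eval_zero, eval_mul, eval_mul, eval_pow, eval_add, eval_mul, eval_C, eval_C,
      eval_X, zero_mul, add_zero, eval_C, ← C_mul_X_pow_eq_monomial, ← C_pow, ← C_mul, pow_add,
      pow_mul]
  have hcoef : u.coeff i = ∑ p ∈ Tr e d, monomial p.2.2 (monomial (p.1 + e * p.2.1) ((E p).coeff 0)) := by
    have h1 : u = X ^ i * ∑ p ∈ Tr e d, zt k (E p) * W p := by
      rw [hu1, Finset.mul_sum]
      refine Finset.sum_congr rfl fun p hp => ?_
      rw [hE p hp, map_mul, map_pow, zt_X]; ring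
    rw [h1, coeff_X_pow_mul', if_pos le_rfl, Nat.sub_self, finsetSum_coeff]
    refine Finset.sum_congr rfl fun p _ => ?_
    rw [mul_coeff_zero, zt_coeff, hW0, ← C_mul_X_pow_eq_monomial, ← C_mul_X_pow_eq_monomial,
      ← C_mul_X_pow_eq_monomial, ← mul_assoc, ← C_mul]
  have hcc : ∀ l n, ((u.coeff i).coeff l).coeff n =
      ∑ p ∈ Tr e d, if p.2.2 = l ∧ p.1 + e * p.2.1 = n then (E p).coeff 0 else 0 := by
    intro l n
    rw [hcoef, finsetSum_coeff, finsetSum_coeff]
    refine Finset.sum_congr rfl fun p _ => ?_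
    rw [coeff_monomial]
    by_cases h1 : p.2.2 = l
    · rw [if_pos h1, coeff_monomial]
      by_cases h2 : p.1 + e * p.2.1 = n
      · rw [if_pos h2, if_pos ⟨h1, h2⟩]
      · rw [if_neg h2, if_neg (fun h => h2 h.2)]
    · rw [if_neg h1, if_neg (fun h => h1 h.1), coeff_zero]
  refine ⟨i, ?_, ?_⟩
  · intro h0
    have h1 := hcc p0.2.2 (p0.1 + e * p0.2.1)
    rw [h0, coeff_zero, coeff_zero] at h1
    have hp0T := (Finset.mem_filter.1 hp0).1
    rw [Finset.sum_eq_single p0] at h1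
    · rw [if_pos ⟨rfl, rfl⟩] at h1
      exact hE0 h1.symm
    · intro p hp hpne
      rw [if_neg]
      rintro ⟨h2, h3⟩
      apply hpne
      have ha := ((mem_Tr he).1 hp).1
      have ha0 := ((mem_Tr he).1 hp0T).1
      have h4 : p.2.1 = p0.2.1 := by
        have h5 := congrArg (fun z => z / e) h3
        simp only [Nat.add_mul_div_left _ _ (by omega : 0 < e), Nat.div_eq_of_lt ha,
          Nat.div_eq_of_lt ha0, zero_add] at h5
        exact h5
      have h6 : p.1 = p0.1 := by rw [h4] at h3; omega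
      exact Prod.ext h6 (Prod.ext h4 h2)
    · intro h; exact absurd hp0T h
  · intro l n hln
    rw [hcc] at hln
    obtain ⟨p, hp, h1⟩ := Finset.exists_ne_zero_of_sum_ne_zero hln
    split_ifs at h1 with h2
    swap
    · exact absurd rfl h1
    obtain ⟨h3, h4⟩ := (mem_Tr he).1 hp
    rw [← h2.1, ← h2.2, Nat.add_mul_mod_self_left, Nat.mod_eq_of_lt h3,
      Nat.add_mul_div_left _ _ (by omega : 0 < e), Nat.div_eq_of_lt h3]
    omega

end

end MP_cea741_ag.Vir
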