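import Mathlib
import Pool.Agent.Lib.MP_cea741_ag.VirE
import Pool.Agent.Lib.MP_cea741_ag.Family

/-!
Degeneration to the normal cone: from arcs `y = f(x) + t g(x)` over `k[t]` to polynomials in `x, ψ`
(general part).
-/

namespace MP_cea741_ag.Vir

open Polynomial MP_cea741_ag.NSq

noncomputable section

section general

variable {K : Type*} [Field K] {B : Type*} [CommRing B] [Algebra K B]

/-- `y = f + t ψ` in `B[ψ][t]` -/
def yG (xe : B) : B[X][X] := C (C xe) + X * C X

/-- the map `K[t][x][z] → B[ψ][t]` -/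
def etaG (x xe : B) (g : K[X][X]) : K[X][X][X] →+* B[X][X] :=
  eval₂RingHom (eval₂RingHom (MP_cea741_ag.zt K B) (C (C x)))
    (yG xe - eval₂ (MP_cea741_ag.zt K B) (C (C x)) g)

theorem etaG_C (x xe : B) (g : K[X][X]) (p : K[X][X]) :
    etaG x xe g (C p) = eval₂ (MP_cea741_ag.zt K B) (C (C x)) p := by
  simp [etaG]

theorem etaG_X (x xe : B) (g : K[X][X]) :
    etaG x xe g X = yG xe - eval₂ (MP_cea741_ag.zt K B) (C (C x)) g := by
  simp [etaG]

/-- the element `F(x, f + t ψ)` -/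
def UG (x xe : B) {D : ℕ} (v : Idx D → K[X]) : B[X][X] :=
  ∑ p, MP_cea741_ag.zt K B (v p) * (C (C x) ^ (p.1.1 : ℕ) * yG xe ^ (p.1.2 : ℕ))

theorem etaG_Wpol (x xe : B) (g : K[X][X]) {D : ℕ} (v : Idx D → K[X]) :
    etaG x xe g (Wpol g v) = UG x xe v := by
  rw [Wpol, map_sum, UG]
  refine Finset.sum_congr rfl fun p _ => ?_
  rw [Upol, map_mul, map_mul, map_pow, map_pow, map_add, etaG_C, etaG_C, etaG_C, etaG_X, eval₂_C,
    eval₂_X, sub_add_cancel]

theorem etaG_X_mem (x xe gb : B) (r : ℕ) (c : Fin r → K[X]) (a b : Fin r → K)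
    (hc : ∀ l, c l = C (a l) + X * C (b l))
    (h1 : ∑ l : Fin r, algebraMap K B (a l) * x ^ (l : ℕ) = xe)
    (h2 : ∑ l : Fin r, algebraMap K B (b l) * x ^ (l : ℕ) = gb) :
    etaG x xe (gpol r c) X ∈
      (Ideal.span {X - C gb, C (x ^ r)} : Ideal B[X]).map (C : B[X] →+* B[X][X]) := by
  rw [etaG_X]
  have h1' : eval₂ (MP_cea741_ag.zt K B) (C (C x)) (gpol r c) =
      C (C (∑ l : Fin r, algebraMap K B (a l) * x ^ (l : ℕ))) +
      X * C (C (∑ l : Fin r, algebraMap K B (b l) * x ^ (l : ℕ))) := by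
    rw [gpol, eval₂_finsetSum, map_sum, map_sum, map_sum, map_sum, Finset.mul_sum,
      ← Finset.sum_add_distrib]
    refine Finset.sum_congr rfl fun l _ => ?_
    rw [eval₂_mul, eval₂_C, eval₂_pow, eval₂_X, hc, map_add, map_mul]
    simp only [MP_cea741_ag.zt, coe_mapRingHom, map_C, map_X, RingHom.comp_apply, map_mul, map_pow]
    ring
  rw [h1', h1, h2, yG]
  have e2 : (C (C xe) + X * C X - (C (C xe) + X * C (C gb)) : B[X][X]) = X * C (X - C gb) := by
    rw [C_sub]; ring
  rw [e2]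
  exact Ideal.mul_mem_left _ _ (Ideal.mem_map_of_mem _ (Ideal.subset_span (by simp)))

theorem UG_coeff_mem (x xe gb : B) (r m : ℕ) (c : Fin r → K[X]) (a b : Fin r → K)
    (hc : ∀ l, c l = C (a l) + X * C (b l))
    (h1 : ∑ l : Fin r, algebraMap K B (a l) * x ^ (l : ℕ) = xe)
    (h2 : ∑ l : Fin r, algebraMap K B (b l) * x ^ (l : ℕ) = gb)
    {D : ℕ} (v : Idx D → K[X])
    (hv : Wpol (gpol r c) v ∈ (Ideal.span {X, C (X ^ r)} : Ideal K[X][X][X]) ^ m) (i : ℕ) :
    (UG x xe v).coeff i ∈ (Ideal.span {X - C gb, C (x ^ r)} : Ideal B[X]) ^ m := by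
  rw [← etaG_Wpol x xe (gpol r c) v]
  have h1' := Ideal.mem_map_of_mem (etaG x xe (gpol r c)) hv
  have h0' := Ideal.map_pow (etaG x xe (gpol r c)) (Ideal.span {X, C (X ^ r)} : Ideal K[X][X][X]) m
  replace h1' := h0'.le h1'
  have h2' : Ideal.map (etaG x xe (gpol r c)) (Ideal.span {X, C (X ^ r)}) ≤
      (Ideal.span {X - C gb, C (x ^ r)} : Ideal B[X]).map (C : B[X] →+* B[X][X]) := by
    rw [Ideal.map_span, Ideal.span_le, Set.image_pair]
    intro w hw
    rcases hw with rfl | rfl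
    · exact etaG_X_mem x xe gb r c a b hc h1 h2
    · rw [etaG_C, eval₂_pow, eval₂_X]
      have : (C (C x) : B[X][X]) ^ r = C (C (x ^ r)) := by simp
      rw [this]
      exact Ideal.mem_map_of_mem _ (Ideal.subset_span (by simp))
  have h3 := Ideal.pow_right_mono h2' m h1'
  rw [← Ideal.map_pow, Ideal.mem_map_C_iff] at h3
  exact h3 i

/-- the exchange of `t` and `ψ` -/
def swp (B : Type*) [CommRing B] : B[X][X] →+* B[X][X] :=
  eval₂RingHom (mapRingHom (C : B →+* B[X])) (C X)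

/-- `K[t][x] → B[t]` -/
def lam (K : Type*) [Field K] {B : Type*} [CommRing B] [Algebra K B] (x : B) : K[X][X] →+* B[X] :=
  eval₂RingHom (mapRingHom (algebraMap K B)) (C x)

theorem swp_zt (f : K[X]) : swp B (MP_cea741_ag.zt K B f) = C (f.map (algebraMap K B)) := by
  have h : (swp B).comp (MP_cea741_ag.zt K B) =
      (C : B[X] →+* B[X][X]).comp (mapRingHom (algebraMap K B)) := by
    refine Polynomial.ringHom_ext (fun a => ?_) ?_
    · simp [swp, MP_cea741_ag.zt]
    · simp [swp, MP_cea741_ag.zt]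
  exact congrArg (fun φ => φ f) (congrArg DFunLike.coe h)

theorem swp_yG (xe : B) : swp B (yG xe) = C (C xe) + C X * X := by
  simp [swp, yG]

theorem swp_CC (x : B) : swp B (C (C x)) = C (C x) := by
  simp [swp]

/-- polynomial with given coefficients -/
def Ff {A : Type*} [CommRing A] {D : ℕ} (v : Idx D → A) : A[X][X] :=
  ∑ p : Idx D, monomial (p.1.2 : ℕ) (monomial (p.1.1 : ℕ) (v p))

theorem Ff_eq_zero {A : Type*} [CommRing A] {D : ℕ} (v : Idx D → A) (h : Ff v = 0) : v = 0 := by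
  funext p
  have h1 : ((Ff v).coeff (p.1.2 : ℕ)).coeff (p.1.1 : ℕ) = v p := by
    rw [Ff, finsetSum_coeff, finsetSum_coeff, Finset.sum_eq_single p]
    · simp
    · intro q _ hq
      rw [coeff_monomial]
      split_ifs with h1
      · rw [coeff_monomial, if_neg]
        intro h2
        exact hq (Subtype.ext (Prod.ext (Fin.ext h2) (Fin.ext h1)))
      · simp
    · simp
  rw [← h1, h]; simp

theorem swp_UG (x xe : B) {D : ℕ} (v : Idx D → K[X]) :
    swp B (UG x xe v) = ((Ff v).map (lam K x)).comp (C (C xe) + C X * X) := by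
  have h0 : ((Ff v).map (lam K x)).comp (C (C xe) + C X * X) =
      compRingHom (C (C xe) + C X * X) ((mapRingHom (lam K x)) (Ff v)) := rfl
  rw [h0, Ff, UG, map_sum, map_sum, map_sum]
  refine Finset.sum_congr rfl fun p _ => ?_
  rw [map_mul, map_mul, map_pow, map_pow, swp_zt, swp_CC, swp_yG, coe_mapRingHom, map_monomial,
    coe_compRingHom_apply, monomial_comp, lam, coe_eval₂RingHom, eval₂_monomial, C_mul, C_pow,
    coe_mapRingHom]
  ring

theorem UG_eq_zero [IsDomain B] (x xe : B) (hinj : Function.Injective (lam K x)) {D : ℕ}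
    (v : Idx D → K[X]) (h : UG x xe v = 0) : v = 0 := by
  apply Ff_eq_zero
  have h1 := swp_UG x xe v
  rw [h, map_zero] at h1
  have h2 := h1.symm
  rw [comp_eq_zero_iff] at h2
  rcases h2 with h2 | ⟨-, h2⟩
  · rw [Polynomial.map_eq_zero_iff hinj] at h2
    exact h2
  · exfalso
    have h3 := congrArg (fun p => p.coeff 1) h2
    simp at h3

end general

end

end MP_cea741_ag.Vir
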