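import Mathlib
import Pool.Agent.Lib.MP_cea741_ag.VirF

/-!
The germ `y = (x+1)^e + t g(x)` and the transfer to general germs.
-/

namespace MP_cea741_ag.Vir

open Polynomial MP_cea741_ag.NSq

noncomputable section

variable {k : Type*} [Field k]

/-- `∑ b_l (x-1)^l` -/
def gB {r : ℕ} (b : Fin r → k) : k[X] := ∑ l : Fin r, C (b l) * (X - 1) ^ (l : ℕ)

/-- The ideal `(ψ - g, (x-1)^r)` of `k[x][ψ]`. -/
def JB {r : ℕ} (b : Fin r → k) : Ideal k[X][X] := Ideal.span {X - C (gB b), C ((X - 1) ^ r)}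

/-- the coefficients of `(x+1)^e + t g(x)` -/
def cB (e : ℕ) {r : ℕ} (b : Fin r → k) (l : Fin r) : k[X] :=
  C (((X + 1 : k[X]) ^ e).coeff (l : ℕ)) + X * C (b l)

theorem sum_coeff_pow (e r : ℕ) (h : e < r) :
    ∑ l : Fin r, algebraMap k k[X] (((X + 1 : k[X]) ^ e).coeff (l : ℕ)) * (X - 1) ^ (l : ℕ) =
      X ^ e := by
  have h1 : ((X + 1 : k[X]) ^ e).comp (X - 1) = X ^ e := by
    rw [pow_comp, add_comp, X_comp, one_comp, sub_add_cancel]
  have h2 : ((X + 1 : k[X]) ^ e).natDegree < r := by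
    refine lt_of_le_of_lt (natDegree_pow_le) ?_
    have h3 : (X + 1 : k[X]).natDegree ≤ 1 := by
      refine (natDegree_add_le _ _).trans ?_
      rw [natDegree_X, natDegree_one]; simp
    calc e * (X + 1 : k[X]).natDegree ≤ e * 1 := Nat.mul_le_mul_left _ h3
      _ < r := by omega
  rw [← h1]
  conv_rhs => rw [comp, eval₂_eq_sum_range' C h2]
  exact Fin.sum_univ_eq_sum_range
    (fun l => C (((X + 1 : k[X]) ^ e).coeff l) * (X - 1) ^ l) r

theorem UU_mem (e : ℕ) (he : 1 ≤ e) {D : ℕ} (v : Idx D → k[X]) :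
    UG (X - 1 : k[X]) (X ^ e) v ∈ Sp k e D := by
  rw [UG]
  refine AddSubmonoid.sum_mem _ fun p _ => ?_
  have h1 : (C (C (X - 1)) : k[X][X][X]) ^ (p.1.1 : ℕ) = C (C ((X - 1) ^ (p.1.1 : ℕ))) := by
    rw [map_pow, map_pow]
  rw [h1]
  refine Sp_zt _ ?_
  refine Sp_poly e he _ _ _ ?_
  have h2 : ((X - 1 : k[X]) ^ (p.1.1 : ℕ)).natDegree ≤ p.1.1 := by
    refine natDegree_pow_le.trans ?_
    have h3 : (X - 1 : k[X]).natDegree ≤ 1 := by
      refine (natDegree_sub_le _ _).trans ?_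
      rw [natDegree_X, natDegree_one]; simp
    calc (p.1.1 : ℕ) * (X - 1 : k[X]).natDegree ≤ p.1.1 * 1 := Nat.mul_le_mul_left _ h3
      _ = p.1.1 := mul_one _
  have h4 := p.2
  omega

/-- translation to the point `x = 1` -/
theorem Vge_of_mem {r m : ℕ} (b : Fin r → k) {Φ : k[X][X]} (h : Φ ∈ (JB b) ^ m) :
    Vge r (r * m) (taylor (gpol r b) (Sh Φ)) := by
  rw [← mem_iff_Vge]
  set τ : k[X][X] →+* k[X][X] := ((taylorAlgHom (gpol r b)) : k[X][X] →+* k[X][X]).comp Sh with hτ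
  have hτa : ∀ Ψ, τ Ψ = taylor (gpol r b) (Sh Ψ) := by
    intro Ψ
    rw [hτ]; rfl
  have h1 : τ Φ ∈ ((JB b) ^ m).map τ := Ideal.mem_map_of_mem _ h
  rw [Ideal.map_pow, JB, Ideal.map_span, Set.image_pair] at h1
  have hS : ∀ f : k[X], Sh (C f) = C (sh f) := by
    intro f
    rw [Sh, coe_mapRingHom, map_C]
  have hSX : Sh (X : k[X][X]) = X := by
    rw [Sh, coe_mapRingHom, map_X]
  have hsx : sh (X - 1 : k[X]) = X := by
    rw [map_sub, map_one, sh_X, add_sub_cancel_right]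
  have hg : sh (gB b) = gpol r b := by
    rw [gB, gpol, map_sum]
    refine Finset.sum_congr rfl fun l _ => ?_
    rw [map_mul, map_pow, hsx, sh_apply, C_comp]
  have e1 : τ (X - C (gB b)) = X := by
    rw [hτa, map_sub, hSX, hS, hg, map_sub, taylor_X, taylor_C, add_sub_cancel_right]
  have e2 : τ (C ((X - 1) ^ r)) = C (X ^ r) := by
    rw [hτa, hS, taylor_C, map_pow, hsx]
  rw [e1, e2, hτa] at h1
  exact h1

/-- `k[x][t] → k[t][x̂]` -/
def mu (k : Type*) [Field k] : k[X][X] →+* k[X][X] :=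
  eval₂RingHom (eval₂RingHom ((C : k[X] →+* k[X][X]).comp C) (X + 1)) (C X)

theorem mu_lam : (mu k).comp (lam k (X - 1 : k[X])) = RingHom.id _ := by
  refine Polynomial.ringHom_ext (fun f => ?_) ?_
  · have h : ((mu k).comp (lam k (X - 1 : k[X]))).comp (C : k[X] →+* k[X][X]) =
        (C : k[X] →+* k[X][X]) := by
      refine Polynomial.ringHom_ext (fun a => ?_) ?_
      · simp [mu, lam]
      · simp [mu, lam]
    exact congrArg (fun φ => φ f) (congrArg DFunLike.coe h)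
  · simp [mu, lam]

theorem lam_injective : Function.Injective (lam k (X - 1 : k[X])) := by
  intro a b h
  have h1 : ((mu k).comp (lam k (X - 1 : k[X]))) a = ((mu k).comp (lam k (X - 1 : k[X]))) b := by
    rw [RingHom.comp_apply, RingHom.comp_apply, h]
  rwa [mu_lam] at h1

/-- **The degeneration.** If no nonzero `Φ(x, ψ)` with the degree condition vanishes to the weighted
order `r m` along `ψ = g`, then the family `y = (x+1)^e + t g(x)` imposes independent conditions on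
the polynomials of degree `≤ d`. -/
theorem family_injective (e r m d : ℕ) (he : 1 ≤ e) (her : e < r) (b : Fin r → k)
    (hvan : ∀ Φ : k[X][X], WD e d Φ → Vge r (r * m) (taylor (gpol r b) (Sh Φ)) → Φ = 0)
    (v : Idx d → k[X])
    (hv : Wpol (gpol r (cB e b)) v ∈ (Ideal.span {X, C (X ^ r)} : Ideal k[X][X][X]) ^ m) :
    v = 0 := by
  refine UG_eq_zero (X - 1 : k[X]) (X ^ e) lam_injective v ?_
  by_contra h0
  obtain ⟨i, hi, hW⟩ := Sp_lead e d he (UU_mem e he v) h0
  apply hi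
  apply hvan _ hW
  refine Vge_of_mem b ?_
  exact UG_coeff_mem (X - 1 : k[X]) (X ^ e) (gB b) r m (cB e b)
    (fun l => ((X + 1 : k[X]) ^ e).coeff (l : ℕ)) b (fun l => rfl) (sum_coeff_pow e r her) rfl v hv i

end

end MP_cea741_ag.Vir
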