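import Mathlib
import Pool.Agent.Lib.MP_cea741_ag.VirG

/-!
From an injective family of germs over a domain to general germs; the two vanishing criteria.
-/

namespace MP_cea741_ag.Vir

open MvPolynomial MP_cea741_ag MP_cea741_ag.Arc


/-- the translation of the support -/
theorem open_shift (k : Type*) [Field k] (r m d : ℕ) (Φ : MvPolynomial (Fin r) k)
    (h : ∀ c : Fin r → k, eval c Φ ≠ 0 → ∀ v : Idx d → k, Wpol (gpol r c) v ∈
      (Ideal.span {Polynomial.X, Polynomial.C (Polynomial.X ^ r)} :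
        Ideal (Polynomial (Polynomial k))) ^ m → v = 0) :
      ∀ (a : k) (c : Fin r → k), eval c Φ ≠ 0 →
        ∀ F : MvPolynomial (Fin 2) k, F.totalDegree ≤ d → F ∈ arcIdeal a c ^ m → F = 0 := by
  classical
  intro a c' hc F hF hmem
  have h5 := eta_mem r m a c' F hmem
  set τ : MvPolynomial (Fin 2) k →ₐ[k] MvPolynomial (Fin 2) k :=
    aeval ![X 0 + C a, X 1] with hτ
  set τ' : MvPolynomial (Fin 2) k →ₐ[k] MvPolynomial (Fin 2) k :=
    aeval ![X 0 - C a, X 1] with hτ'
  have hττ : τ'.comp τ = AlgHom.id k _ := by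
    apply MvPolynomial.algHom_ext
    intro i
    fin_cases i
    · simp [hτ, hτ', ← algebraMap_eq]
    · simp [hτ, hτ']
  set F' := τ F with hF'
  have hF'deg : F'.totalDegree ≤ d := by
    refine (totalDegree_aeval_le _ ?_ F).trans hF
    intro i
    fin_cases i
    · refine (totalDegree_add _ _).trans ?_
      simp [totalDegree_X, totalDegree_C]
    · simp [totalDegree_X]
  have hv := h c' hc (fun p => F'.coeff (ex p)) (by
    rw [Wpol_eq, polyOf_coeff F' hF'deg]
    exact h5)
  have hF'0 : F' = 0 := by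
    rw [← polyOf_coeff F' hF'deg, hv]
    simp [polyOf]
  have := congrArg τ' hF'0
  rw [hF', map_zero] at this
  have h6 : τ' (τ F) = F := by
    have := congrArg (fun φ => φ F) hττ
    simpa using this
  rw [← h6]
  exact this

/-- from an injective family over `k[t]` to general germs. -/
theorem open_of_family (k : Type*) [Field k] {A : Type*} [CommRing A] [IsDomain A] [Algebra k A]
    (r m d : ℕ) (c : Fin r → A)
    (h : ∀ v : Idx d → A, Wpol (gpol r c) v ∈ (Ideal.span {Polynomial.X,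
      Polynomial.C (Polynomial.X ^ r)} : Ideal (Polynomial (Polynomial A))) ^ m → v = 0) :
    ∃ Φ : MvPolynomial (Fin r) k, Φ ≠ 0 ∧
      ∀ (a : k) (c : Fin r → k), eval c Φ ≠ 0 →
        ∀ F : MvPolynomial (Fin 2) k, F.totalDegree ≤ d → F ∈ arcIdeal a c ^ m → F = 0 := by
  classical
  obtain ⟨Φ, hΦ, hΦ'⟩ := generic_injective (A := A) (Mmat k r m d) c (by
      intro v hv
      have h1 : ((Mmat k r m d).map ((aeval c : MvPolynomial (Fin r) k →ₐ[k] A) :
              MvPolynomial (Fin r) k →+* A)).mulVec v = 0 := hv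
      rw [Mmat_mulVec_eq_zero_iff] at h1
      have h2 : (fun l => ((aeval c : MvPolynomial (Fin r) k →ₐ[k] A) :
              MvPolynomial (Fin r) k →+* A) (X l)) = c := by
        funext l
        simp
      rw [h2] at h1
      exact h v h1)
  refine ⟨Φ, hΦ, open_shift k r m d Φ fun c hc v hv => hΦ' c hc v ?_⟩
  have h3 : ((Mmat k r m d).map (eval c : MvPolynomial (Fin r) k →+* k)).mulVec v = 0 := by
    rw [Mmat_mulVec_eq_zero_iff]
    have h4 : (fun l => (eval c : MvPolynomial (Fin r) k →+* k) (X l)) = c := by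
      funext l; simp
    rw [h4]
    exact hv
  exact h3

/-- the truncation of `(1+x)^(-N) + x^κ`. -/
noncomputable def germ (k : Type*) [Field k] (N κ r : ℕ) (l : Fin r) : k :=
  PowerSeries.coeff (l : ℕ) ((((1 + PowerSeries.X : PowerSeries k)⁻¹) ^ N) + PowerSeries.X ^ κ)

theorem germ_dvd (k : Type*) [Field k] (N κ r : ℕ) :
    (Polynomial.X : Polynomial k) ^ r ∣ (Polynomial.X + 1) ^ N * gpol r (germ k N κ r) - 1 -
      (Polynomial.X + 1) ^ N * Polynomial.X ^ κ := by
  have h1 : (PowerSeries.X : PowerSeries k) ^ r ∣ ((gpol r (germ k N κ r) : Polynomial k) :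
      PowerSeries k) - ((((1 + PowerSeries.X : PowerSeries k)⁻¹) ^ N) + PowerSeries.X ^ κ) := by
    rw [PowerSeries.X_pow_dvd_iff]
    intro i hi
    rw [map_sub, Polynomial.coeff_coe, gpol, Polynomial.finsetSum_coeff,
      Finset.sum_eq_single (⟨i, hi⟩ : Fin r)]
    · rw [Polynomial.coeff_C_mul, Polynomial.coeff_X_pow, if_pos rfl, mul_one, germ, sub_self]
    · intro b _ hb
      rw [Polynomial.coeff_C_mul, Polynomial.coeff_X_pow, if_neg, mul_zero]
      intro h
      exact hb (Fin.ext h.symm)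
    · simp
  have h2 : (1 + PowerSeries.X : PowerSeries k) * (1 + PowerSeries.X : PowerSeries k)⁻¹ = 1 := by
    apply PowerSeries.mul_inv_cancel
    simp
  have h3 : (1 + PowerSeries.X : PowerSeries k) ^ N *
      (((1 + PowerSeries.X : PowerSeries k)⁻¹) ^ N) = 1 := by
    rw [← mul_pow, h2, one_pow]
  have h4 : (PowerSeries.X : PowerSeries k) ^ r ∣
      (((Polynomial.X + 1) ^ N * gpol r (germ k N κ r) - 1 -
        (Polynomial.X + 1) ^ N * Polynomial.X ^ κ : Polynomial k) : PowerSeries k) := by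
    have h5 : (((Polynomial.X + 1) ^ N * gpol r (germ k N κ r) - 1 -
        (Polynomial.X + 1) ^ N * Polynomial.X ^ κ : Polynomial k) : PowerSeries k) =
        (1 + PowerSeries.X) ^ N * (((gpol r (germ k N κ r) : Polynomial k) :
      PowerSeries k) - ((((1 + PowerSeries.X : PowerSeries k)⁻¹) ^ N) + PowerSeries.X ^ κ)) := by
      push_cast
      linear_combination (exp := 1) h3
    rw [h5]
    exact dvd_mul_of_dvd_right h1 _
  rw [PowerSeries.X_pow_dvd_iff] at h4
  rw [Polynomial.X_pow_dvd_iff]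
  intro i hi
  have := h4 i hi
  rwa [Polynomial.coeff_coe] at this

/-- **First criterion** (any characteristic). -/
theorem open_any (k : Type*) [Field k] (r m d e N κ : ℕ) (he : 1 ≤ e) (her : e < r) (hκ : κ ≤ r)
    (hcase : ((e * κ) ^ 2 ≤ r * (e ^ 2 + N) ^ 2 ∧ (e ^ 2 + N) * d < e * κ * m) ∨
      (r * (e ^ 2 + N) ^ 2 ≤ (e * κ) ^ 2 ∧ e * κ * d < r * (e ^ 2 + N) * m)) :
    ∃ Φ : MvPolynomial (Fin r) k, Φ ≠ 0 ∧
      ∀ (a : k) (c : Fin r → k), eval c Φ ≠ 0 →
        ∀ F : MvPolynomial (Fin 2) k, F.totalDegree ≤ d → F ∈ arcIdeal a c ^ m → F = 0 :=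
  open_of_family k (A := Polynomial k) r m d (cB e (germ k N κ r)) fun v hv =>
    family_injective e r m d he her (germ k N κ r)
      (fun Φ hW hV => vanish_any e N r κ m d he hκ (by omega) _ (germ_dvd k N κ r) hcase Φ hW hV)
      v hv

/-- **Second criterion** (characteristic zero). -/
theorem open_zero (k : Type*) [Field k] [CharZero k] (r m d e N κ : ℕ) (he : 3 ≤ e) (her : e < r)
    (hκ : κ ≤ r) (h1 : (e * κ) ^ 2 ≤ r * (e ^ 2 + N) ^ 2)
    (h2 : r * (e ^ 2 + N) ^ 2 ≤ 2 * (e * κ) ^ 2) (h3 : d ^ 2 < m ^ 2 * r)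
    (h4 : 2 * (e ^ 2 + N) * d < e * (2 * κ * m + (e - 1) * (e - 2))) :
    ∃ Φ : MvPolynomial (Fin r) k, Φ ≠ 0 ∧
      ∀ (a : k) (c : Fin r → k), eval c Φ ≠ 0 →
        ∀ F : MvPolynomial (Fin 2) k, F.totalDegree ≤ d → F ∈ arcIdeal a c ^ m → F = 0 :=
  open_of_family k (A := Polynomial k) r m d (cB e (germ k N κ r)) fun v hv =>
    family_injective e r m d (by omega) her (germ k N κ r)
      (fun Φ hW hV => vanish_zero e N r κ m d he hκ (by omega) _ (germ_dvd k N κ r) h1 h2 h3 h4
        Φ hW hV) v hv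

end MP_cea741_ag.Vir
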