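import Mathlib
import Pool.Agent.Lib.MP_cea741_ag.VirH

/-!
Iterated degenerations: polynomials in `x, Ψ` of bounded weighted degree and the substitutions
`Ψ = x^N + t Ψ'`.
-/

namespace MP_cea741_ag.Sup

open Polynomial

universe u

/-- weighted degree bound: every monomial `x^n Ψ^k` satisfies `n + a k ≤ b`. -/
def Wd {A : Type*} [CommRing A] (a b : ℝ) (F : A[X][X]) : Prop :=
  ∀ k n, (F.coeff k).coeff n ≠ 0 → (n : ℝ) + a * k ≤ b

/-- order at least `w` along `Ψ = g(x)` at `x = 1` for the weights `(1, r)`. -/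
def Ord {A : Type*} [CommRing A] (r w : ℕ) (g : A[X]) (F : A[X][X]) : Prop :=
  ∀ j, (X - 1 : A[X]) ^ (w - r * j) ∣ (taylor g F).coeff j

section basic

variable {A : Type*} [CommRing A]

theorem wd_div {a b : ℝ} {N : ℕ} (haN : a ≤ N) {P : A[X][X]}
    (h : Wd a b ((X - C (X ^ N)) * P)) : Wd a (b - N) P := by
  intro k
  induction k using Nat.strong_induction_on with
  | _ k ih =>
    intro n hn
    by_contra hlt
    push Not at hlt
    have hc : (((X - C (X ^ N)) * P).coeff k).coeff (n + N) ≠ 0 := by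
      rw [sub_mul, coeff_sub, coeff_C_mul, coeff_sub, mul_comm (X ^ N) (P.coeff k),
        coeff_mul_X_pow]
      have h0 : ((X * P).coeff k).coeff (n + N) = 0 := by
        rcases k with _ | k
        · simp
        · rw [coeff_X_mul]
          by_contra h1
          have h2 := ih k (Nat.lt_succ_self k) (n + N) h1
          push_cast at h2 hlt
          nlinarith
      rw [h0, zero_sub]
      exact neg_ne_zero.2 hn
    have h3 := h k (n + N) hc
    push_cast at h3
    linarith

theorem wd_div_pow {a : ℝ} {N : ℕ} (haN : a ≤ N) {P : A[X][X]} (l : ℕ) :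
    ∀ {b : ℝ}, Wd a b ((X - C (X ^ N)) ^ l * P) → Wd a (b - l * N) P := by
  induction l with
  | zero => intro b h; simpa using h
  | succ l ih =>
    intro b h
    have h1 : Wd a (b - N) ((X - C (X ^ N)) ^ l * P) := by
      apply wd_div haN
      rw [pow_succ, mul_comm ((X - C (X ^ N)) ^ l) _, mul_assoc] at h
      exact h
    have h2 := ih h1
    have e : b - ((l + 1 : ℕ) : ℝ) * N = b - N - l * N := by push_cast; ring
    rw [e]
    exact h2

theorem coeff_eval_le {a b : ℝ} {N : ℕ} (ha : 0 < a) (haN : a ≤ N) {P : A[X][X]}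
    (h : Wd a b P) (m : ℕ) (hm : (P.eval (X ^ N)).coeff m ≠ 0) : (m : ℝ) ≤ N / a * b := by
  rw [eval_eq_sum_range, finsetSum_coeff] at hm
  obtain ⟨k, _, hk⟩ := Finset.exists_ne_zero_of_sum_ne_zero hm
  rw [← pow_mul, coeff_mul_X_pow'] at hk
  split_ifs at hk with h1
  swap
  · exact absurd rfl hk
  have h2 := h k _ hk
  rw [Nat.cast_sub h1] at h2
  push_cast at h2
  have hN : (0 : ℝ) < N := lt_of_lt_of_le ha haN
  have h3 : (m : ℝ) - N * k + N * k ≤ N / a * ((m : ℝ) - N * k + a * k) := by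
    have h4 : (0 : ℝ) ≤ (m : ℝ) - N * k := by
      have : ((N * k : ℕ) : ℝ) ≤ m := by exact_mod_cast h1
      push_cast at this; linarith
    have h5 : (1 : ℝ) ≤ N / a := by rw [le_div_iff₀ ha]; linarith
    have h6 : N / a * ((m : ℝ) - N * k + a * k) = N / a * ((m : ℝ) - N * k) + N * k := by
      field_simp
    rw [h6]
    nlinarith
  have h7 : N / a * ((m : ℝ) - N * k + a * k) ≤ N / a * b :=
    mul_le_mul_of_nonneg_left h2 (by positivity)
  linarith

theorem wd_nonneg {a b : ℝ} (ha : 0 ≤ a) {P : A[X][X]} (h : Wd a b P) (hP : P ≠ 0) : 0 ≤ b := by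
  obtain ⟨k, hk⟩ : ∃ k, P.coeff k ≠ 0 := by
    by_contra hcon
    push Not at hcon
    exact hP (Polynomial.ext (by simpa using hcon))
  obtain ⟨n, hn⟩ : ∃ n, (P.coeff k).coeff n ≠ 0 := by
    by_contra hcon
    push Not at hcon
    exact hk (Polynomial.ext (by simpa using hcon))
  have h1 := h k n hn
  have h2 : (0 : ℝ) ≤ (n : ℝ) + a * k := by positivity
  linarith

/-- factor out the curve `Ψ = ξ`. -/
theorem exists_factor (ξ : A[X]) {F : A[X][X]} (hF : F ≠ 0) :
    ∃ (l : ℕ) (P : A[X][X]), F = (X - C ξ) ^ l * P ∧ P.eval ξ ≠ 0 ∧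
      ∀ j, (taylor ξ F).coeff (l + j) = (taylor ξ P).coeff j := by
  set G := taylor ξ F with hG
  have hG0 : G ≠ 0 := (taylor_eq_zero ξ F).not.mpr hF
  set l := G.natTrailingDegree with hl
  obtain ⟨G1, hG1⟩ : X ^ l ∣ G := by
    rw [X_pow_dvd_iff]
    intro d hd
    exact coeff_eq_zero_of_lt_natTrailingDegree hd
  refine ⟨l, taylor (-ξ) G1, ?_, ?_, ?_⟩
  · have h1 : F = taylor (-ξ) G := by
      rw [hG, taylor_taylor, neg_add_cancel, taylor_zero]
    rw [h1, hG1, taylor_mul, taylor_X_pow, C_neg, ← sub_eq_add_neg]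
  · have h1 : (taylor (-ξ) G1).eval ξ = G1.coeff 0 := by
      rw [← taylor_coeff_zero, taylor_taylor, add_neg_cancel, taylor_zero]
    rw [h1]
    have h2 : G.coeff l = G1.coeff 0 := by
      conv_lhs => rw [hG1]
      rw [coeff_X_pow_mul', if_pos le_rfl, Nat.sub_self]
    rw [← h2, hl]
    exact mem_support_iff.1 (natTrailingDegree_mem_support_of_nonzero hG0)
  · intro j
    rw [taylor_taylor, add_neg_cancel, taylor_zero]
    conv_lhs => rw [hG1]
    rw [coeff_X_pow_mul', if_pos (Nat.le_add_right _ _), Nat.add_sub_cancel_left]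

/-- the last step -/
theorem final [IsDomain A] {a b : ℝ} {r w N : ℕ} (ha : 0 < a) (haN : a ≤ N)
    (h1 : (N : ℝ) * b / a < w) (h2 : r * ((N : ℝ) * b / a) < (N : ℝ) ^ 2 / a * w)
    (F : A[X][X]) (hW : Wd a b F) (hO : Ord r w (X ^ N) F) : F = 0 := by
  by_contra hF
  obtain ⟨l, P, hFP, hP0, hc⟩ := exists_factor (X ^ N : A[X]) hF
  have hP : P ≠ 0 := by rintro rfl; simp at hP0
  have hWP : Wd a (b - l * N) P := by
    apply wd_div_pow haN l
    rw [← hFP]; exact hW
  have hb := wd_nonneg ha.le hWP hP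
  have hN : (0 : ℝ) < N := lt_of_lt_of_le ha haN
  -- the restriction
  have hd : (X - 1 : A[X]) ^ (w - r * l) ∣ P.eval (X ^ N) := by
    have h3 := hO l
    have h4 := hc 0
    rw [add_zero] at h4
    rw [h4, taylor_coeff_zero] at h3
    exact h3
  have hdeg : (w - r * l : ℕ) ≤ (P.eval (X ^ N)).natDegree := by
    have h5 : (X - 1 : A[X]) = X - C 1 := by simp
    rw [h5] at hd
    have := natDegree_le_of_dvd hd hP0
    rwa [natDegree_pow, natDegree_X_sub_C, mul_one] at this
  have hle := coeff_eval_le ha haN hWP _ (by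
    rw [coeff_natDegree]; exact leadingCoeff_ne_zero.2 hP0)
  have h6 : (w : ℝ) - r * l ≤ ((w - r * l : ℕ) : ℝ) := by
    rcases le_total (r * l) w with h | h
    · rw [Nat.cast_sub h]; push_cast; exact le_rfl
    · have : ((w : ℕ) : ℝ) ≤ ((r * l : ℕ) : ℝ) := by exact_mod_cast h
      push_cast at this
      have h7 : (0 : ℝ) ≤ ((w - r * l : ℕ) : ℝ) := by positivity
      linarith
  have h8 : ((w - r * l : ℕ) : ℝ) ≤ ((P.eval (X ^ N)).natDegree : ℝ) := by exact_mod_cast hdeg
  -- `w - r l ≤ N/a (b - l N)`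
  have key : (w : ℝ) - r * l ≤ N / a * (b - l * N) := by linarith
  have e1 : (N : ℝ) / a * (b - l * N) = N * b / a - N ^ 2 / a * l := by field_simp
  rw [e1] at key
  set a' := (N : ℝ) ^ 2 / a with ha'
  set b' := (N : ℝ) * b / a with hb'
  have ha'0 : 0 < a' := by positivity
  have hl : a' * l ≤ b' := by
    have : b' - a' * l = N / a * (b - l * N) := by rw [← e1]
    have h9 : 0 ≤ N / a * (b - l * N) := by positivity
    linarith
  have hl0 : (0 : ℝ) ≤ l := by positivity
  rcases le_total (r : ℝ) a' with h9 | h9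
  · nlinarith
  · have h10 : (r - a') * (a' * l) ≤ (r - a') * b' := mul_le_mul_of_nonneg_left hl (by linarith)
    nlinarith

end basic

end MP_cea741_ag.Sup
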