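import Mathlib
import Pool.Agent.Lib.MP_cea741_ag.SupA

/-!
The step `Ψ = x^N + t Ψ'` of the iterated degeneration.
-/

namespace MP_cea741_ag.Sup

open Polynomial

section tc

variable {R : Type*} [CommRing R]

/-- coefficient of `t^i` of an element of `R[t][Ψ]` -/
noncomputable def tc (i : ℕ) (H : R[X][X]) : R[X] :=
  ∑ l ∈ Finset.range (H.natDegree + 1), monomial l ((H.coeff l).coeff i)

theorem coeff_tc (i : ℕ) (H : R[X][X]) (l : ℕ) : (tc i H).coeff l = (H.coeff l).coeff i := by
  rw [tc, finsetSum_coeff]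
  by_cases hl : l ∈ Finset.range (H.natDegree + 1)
  · rw [Finset.sum_eq_single l]
    · simp
    · intro b _ hb
      rw [coeff_monomial, if_neg hb]
    · intro h; exact absurd hl h
  · rw [Finset.sum_eq_zero]
    · rw [Finset.mem_range] at hl
      have h0 : H.coeff l = 0 := coeff_eq_zero_of_natDegree_lt (by omega)
      rw [h0, coeff_zero]
    · intro b hb
      rw [coeff_monomial, if_neg]
      rintro rfl
      exact hl hb

theorem tc_add (i : ℕ) (H K : R[X][X]) : tc i (H + K) = tc i H + tc i K := by
  ext l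
  simp only [coeff_tc, coeff_add]

theorem tc_taylor (i : ℕ) (ξ : R) (H : R[X][X]) : tc i (taylor (C ξ) H) = taylor ξ (tc i H) := by
  induction H using Polynomial.induction_on' with
  | add P Q hP hQ => rw [map_add, tc_add, tc_add, hP, hQ, map_add]
  | monomial j f =>
    have h1 : tc i (monomial j f) = monomial j (f.coeff i) := by
      ext l
      rw [coeff_tc, coeff_monomial, coeff_monomial]
      split_ifs <;> simp
    rw [h1, taylor_monomial, taylor_monomial]
    have h2 : ((X : R[X][X]) + C (C ξ)) ^ j = ((X + C ξ) ^ j : R[X]).map C := by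
      simp
    ext l
    rw [coeff_tc, h2, coeff_C_mul, coeff_map, coeff_mul_C, coeff_C_mul]

end tc

/-- factor out a power of the curve `Ψ = ξ`. -/
theorem exists_factor' {R : Type*} [CommRing R] (ξ : R) (F : R[X]) (l : ℕ)
    (h : ∀ j < l, (taylor ξ F).coeff j = 0) :
    ∃ P : R[X], F = (X - C ξ) ^ l * P ∧ P.eval ξ = (taylor ξ F).coeff l := by
  obtain ⟨G1, hG1⟩ : X ^ l ∣ taylor ξ F := X_pow_dvd_iff.2 h
  refine ⟨taylor (-ξ) G1, ?_, ?_⟩
  · have h1 : F = taylor (-ξ) (taylor ξ F) := by
      rw [taylor_taylor, neg_add_cancel, taylor_zero]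
    rw [h1, hG1, taylor_mul, taylor_X_pow, C_neg, ← sub_eq_add_neg]
  · rw [← taylor_coeff_zero, taylor_taylor, add_neg_cancel, taylor_zero, hG1,
      coeff_X_pow_mul', if_pos le_rfl, Nat.sub_self]

section step

variable {A : Type*} [CommRing A] [IsDomain A]

/-- exchange `t` and `x` in the coefficients -/
noncomputable def swF (F : A[X][X][X]) : A[X][X][X] :=
  F.map (Bivariate.swap (R := A) : A[X][X] →+* A[X][X])

theorem coeff_swap (p : A[X][X]) (i n : ℕ) :
    ((Bivariate.swap (R := A) p).coeff i).coeff n = (p.coeff n).coeff i := by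
  induction p using Polynomial.induction_on' with
  | add P Q hP hQ => simp only [map_add, coeff_add, hP, hQ]
  | monomial j f =>
    induction f using Polynomial.induction_on' with
    | add P Q hP hQ =>
      rw [map_add, map_add, coeff_add, coeff_add, hP, hQ, coeff_add, coeff_add]
    | monomial i' a =>
      rw [Bivariate.swap_monomial_monomial]
      simp only [coeff_monomial]
      by_cases h1 : i' = i <;> by_cases h2 : j = n <;> simp [h1, h2, coeff_monomial]

theorem coeff_swF (F : A[X][X][X]) (k i n : ℕ) :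
    (((swF F).coeff k).coeff i).coeff n = ((F.coeff k).coeff n).coeff i := by
  rw [swF, coeff_map]
  exact coeff_swap _ _ _

theorem swF_ne_zero {F : A[X][X][X]} (h : F ≠ 0) : swF F ≠ 0 := by
  intro h0
  apply h
  ext k n i
  rw [← coeff_swF, h0]; simp

/-- the arc of the next level -/
noncomputable def nxt (N : ℕ) (g : A[X]) : A[X][X] := X ^ N + C X * g.map C

theorem swap_nxt (N : ℕ) (g : A[X]) :
    (Bivariate.swap (R := A) : A[X][X] →+* A[X][X]) (nxt N g) = C (X ^ N) + X * C g := by
  change Bivariate.swap (R := A) (nxt N g) = _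
  rw [nxt, map_add, map_mul, map_pow, Bivariate.swap_Y, Bivariate.swap_X, Bivariate.swap_map_C,
    C_pow]

/-- **One step of the iterated degeneration.** -/
theorem step {a b : ℝ} {r w N : ℕ} (ha : 0 < a) (haN : a ≤ N) (g : A[X])
    (h : ∀ F : A[X][X], Wd ((N : ℝ) ^ 2 / a) ((N : ℝ) * b / a) F → Ord r w g F → F = 0)
    (F : A[X][X][X]) (hW : Wd a b F) (hO : Ord r w (nxt N g) F) : F = 0 := by
  classical
  by_contra hF
  set Ft := swF F with hFt
  have hFt0 : Ft ≠ 0 := swF_ne_zero hF
  set Fh : A[X][X][X] := (taylor (C (X ^ N)) Ft).comp (C X * X) with hFh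
  have hcoef : ∀ l, Fh.coeff l = (taylor (C (X ^ N)) Ft).coeff l * X ^ l := by
    intro l
    rw [hFh, comp_C_mul_X_coeff]
  -- the coefficients of the expansion
  have hco : ∀ l i, (Fh.coeff l).coeff (i + l) = (taylor (X ^ N) (tc i Ft)).coeff l := by
    intro l i
    rw [hcoef, coeff_mul_X_pow, ← tc_taylor, coeff_tc]
  have hco0 : ∀ l m, m < l → (Fh.coeff l).coeff m = 0 := by
    intro l m hm
    rw [hcoef, coeff_mul_X_pow', if_neg (by omega)]
  -- some coefficient is nonzero
  have hex : ∃ μ, tc μ Fh ≠ 0 := by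
    by_contra hcon
    push Not at hcon
    apply (taylor_eq_zero (C (X ^ N)) Ft).not.mpr hFt0
    ext1 l
    have h1 : Fh.coeff l = 0 := by
      ext1 μ
      rw [← coeff_tc, hcon μ]; simp
    rw [hcoef] at h1
    rw [coeff_zero]
    rcases mul_eq_zero.1 h1 with h2 | h2
    · exact h2
    · exact absurd h2 (pow_ne_zero _ X_ne_zero)
  set μ := Nat.find hex with hμ
  have hμ0 : tc μ Fh ≠ 0 := Nat.find_spec hex
  have hμlt : ∀ ν < μ, tc ν Fh = 0 := fun ν hν => by
    have := Nat.find_min hex hν
    push Not at this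
    exact this
  apply hμ0
  apply h
  · -- degree
    intro l n hln
    rw [coeff_tc] at hln
    have hlμ : l ≤ μ := by
      by_contra hcon
      push Not at hcon
      rw [hco0 l μ hcon] at hln
      simp at hln
    obtain ⟨i, hi⟩ : ∃ i, μ = i + l := ⟨μ - l, by omega⟩
    rw [hi, hco] at hln
    obtain ⟨P, hP1, hP2⟩ := exists_factor' (X ^ N : A[X]) (tc i Ft) l (by
      intro j hj
      rw [← hco, ← coeff_tc, hμlt (i + j) (by omega), coeff_zero])
    have hWi : Wd a b (tc i Ft) := by
      intro k n' hn'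
      apply hW k n'
      intro h0
      apply hn'
      rw [coeff_tc, hFt, coeff_swF, h0, coeff_zero]
    rw [hP1] at hWi
    have hWP := wd_div_pow haN l hWi
    have hle := coeff_eval_le ha haN hWP n (by rw [hP2]; exact hln)
    have e1 : (N : ℝ) / a * (b - l * N) = N * b / a - N ^ 2 / a * l := by field_simp
    rw [e1] at hle
    linarith
  · -- order
    intro j
    have h1 : taylor (C g) Fh = (taylor (C (X ^ N) + X * C g) Ft).comp (C X * X) := by
      rw [hFh, taylor_apply, taylor_apply, taylor_apply, comp_assoc, comp_assoc, comp_assoc]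
      congr 1
      simp only [add_comp, mul_comp, X_comp, C_comp, map_add, map_mul]
      ring
    have h2 : taylor (C (X ^ N) + X * C g) Ft =
        (taylor (nxt N g) F).map (Bivariate.swap (R := A) : A[X][X] →+* A[X][X]) := by
      rw [hFt, swF, taylor_apply, taylor_apply, Polynomial.map_comp, Polynomial.map_add, map_X,
        map_C, swap_nxt]
    have h3 : (C ((X - 1 : A[X]) ^ (w - r * j)) : A[X][X]) ∣ (taylor (C g) Fh).coeff j := by
      rw [h1, comp_C_mul_X_coeff, h2, coeff_map]
      refine Dvd.dvd.mul_right ?_ _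
      have h4 := map_dvd (Bivariate.swap (R := A) : A[X][X] →+* A[X][X]) (hO j)
      have h5 : (Bivariate.swap (R := A) : A[X][X] →+* A[X][X]) ((X - 1) ^ (w - r * j)) =
          C ((X - 1 : A[X]) ^ (w - r * j)) := by
        rw [map_pow, map_sub, map_one]
        have : (Bivariate.swap (R := A) : A[X][X] →+* A[X][X]) X = C X := Bivariate.swap_Y
        rw [this, C_pow, C_sub, C_1]
      rw [h5] at h4
      exact h4
    rw [C_dvd_iff_dvd_coeff] at h3
    have h6 := h3 μ
    rw [← coeff_tc, tc_taylor] at h6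
    exact h6

end step

end MP_cea741_ag.Sup
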