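import Mathlib
import Pool.Agent.Lib.MP_cea741_ag.SupB

/-!
Chains of degenerations and the passage to general germs.
-/

namespace MP_cea741_ag.Sup

open Polynomial

universe u

/-- Over some domain `A ⊇ k` there is an arc `g` such that only `F = 0` has weighted degree bounded
by `(a, b)` and order at least `w` along the arc. -/
def Good (k : Type u) [Field k] (r w : ℕ) (a b : ℝ) : Prop :=
  ∃ (A : Type u) (_ : CommRing A) (_ : IsDomain A) (_ : Algebra k A) (g : A[X]),
    ∀ F : A[X][X], Wd a b F → Ord r w g F → F = 0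

theorem good_final (k : Type u) [Field k] {a b : ℝ} {r w N : ℕ} (ha : 0 < a) (haN : a ≤ N)
    (h1 : (N : ℝ) * b / a < w) (h2 : r * ((N : ℝ) * b / a) < (N : ℝ) ^ 2 / a * w) :
    Good k r w a b :=
  ⟨k, inferInstance, inferInstance, inferInstance, X ^ N, fun F hW hO =>
    final ha haN h1 h2 F hW hO⟩

theorem good_step (k : Type u) [Field k] {a b : ℝ} {r w N : ℕ} (ha : 0 < a) (haN : a ≤ N)
    (h : Good k r w ((N : ℝ) ^ 2 / a) ((N : ℝ) * b / a)) : Good k r w a b := by
  obtain ⟨A, i1, i2, i3, g, hg⟩ := h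
  exact ⟨A[X], inferInstance, inferInstance, inferInstance, nxt N g, fun F hW hO =>
    step ha haN g hg F hW hO⟩

section vec

variable {A : Type*} [CommRing A]

theorem natDegree_comp_sub_one (f : A[X]) : (f.comp (X - 1)).natDegree ≤ f.natDegree := by
  refine natDegree_comp_le.trans ?_
  have h3 : (X - 1 : A[X]).natDegree ≤ 1 := by
    refine (natDegree_sub_le _ _).trans ?_
    rw [natDegree_one]
    exact max_le natDegree_X_le (Nat.zero_le _)
  calc f.natDegree * (X - 1 : A[X]).natDegree ≤ f.natDegree * 1 := Nat.mul_le_mul_left _ h3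
    _ = f.natDegree := mul_one _

theorem taylor_Ff {D : ℕ} (g : A[X]) (v : Idx D → A) : taylor g (Vir.Ff v) = Wpol g v := by
  rw [Vir.Ff, Wpol, map_sum]
  refine Finset.sum_congr rfl fun p _ => ?_
  rw [taylor_monomial, Upol, ← C_mul_X_pow_eq_monomial, C_mul, C_pow]
  ring

theorem Ff_coeff_not {D : ℕ} (v : Idx D → A) (i j : ℕ) (h : D < i + j) :
    ((Vir.Ff v).coeff j).coeff i = 0 := by
  rw [Vir.Ff, finsetSum_coeff, finsetSum_coeff]
  refine Finset.sum_eq_zero fun q _ => ?_
  rw [coeff_monomial]
  split_ifs with h1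
  · rw [coeff_monomial, if_neg]
    intro h2
    have := q.2
    omega
  · simp

/-- truncation of the arc -/
theorem exists_trunc (r : ℕ) (f : A[X]) :
    ∃ q : A[X], f = gpol r (fun l : Fin r => f.coeff (l : ℕ)) + X ^ r * q := by
  obtain ⟨q, hq⟩ : X ^ r ∣ f - gpol r (fun l : Fin r => f.coeff (l : ℕ)) := by
    rw [X_pow_dvd_iff]
    intro i hi
    rw [coeff_sub, gpol, finsetSum_coeff, Finset.sum_eq_single (⟨i, hi⟩ : Fin r)]
    · rw [coeff_C_mul, coeff_X_pow, if_pos rfl, mul_one, sub_self]
    · intro b _ hb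
      rw [coeff_C_mul, coeff_X_pow, if_neg, mul_zero]
      intro h
      exact hb (Fin.ext h.symm)
    · simp
  exact ⟨q, by rw [← hq]; ring⟩

theorem taylor_mem (r m : ℕ) (q : A[X]) (P : A[X][X])
    (h : P ∈ (Ideal.span {X, C (X ^ r)} : Ideal A[X][X]) ^ m) :
    taylor (X ^ r * q) P ∈ (Ideal.span {X, C (X ^ r)} : Ideal A[X][X]) ^ m := by
  set τ : A[X][X] →+* A[X][X] := ((taylorAlgHom (X ^ r * q)) : A[X][X] →+* A[X][X]) with hτ
  have hτa : ∀ Ψ, τ Ψ = taylor (X ^ r * q) Ψ := fun Ψ => rfl
  have h1 : τ P ∈ ((Ideal.span {X, C (X ^ r)} : Ideal A[X][X]) ^ m).map τ :=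
    Ideal.mem_map_of_mem _ h
  rw [Ideal.map_pow] at h1
  have h2 : (Ideal.span {X, C (X ^ r)} : Ideal A[X][X]).map τ ≤ Ideal.span {X, C (X ^ r)} := by
    rw [Ideal.map_span, Ideal.span_le, Set.image_pair]
    intro u hu
    rcases hu with rfl | rfl
    · rw [hτa, taylor_X, C_mul]
      refine Ideal.add_mem _ (Ideal.subset_span (by simp)) ?_
      exact Ideal.mul_mem_right _ _ (Ideal.subset_span (by simp))
    · rw [hτa, taylor_C]
      exact Ideal.subset_span (by simp)
  exact Ideal.pow_right_mono h2 m h1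

end vec

/-- From one arc over a domain to general germs. -/
theorem good_open (k : Type u) [Field k] (r m d : ℕ) (h : Good k r (r * m) 1 d) :
    ∃ Φ : MvPolynomial (Fin r) k, Φ ≠ 0 ∧
      ∀ (a : k) (c : Fin r → k), MvPolynomial.eval c Φ ≠ 0 →
        ∀ F : MvPolynomial (Fin 2) k, F.totalDegree ≤ d → F ∈ Arc.arcIdeal a c ^ m → F = 0 := by
  obtain ⟨A, i1, i2, i3, g, hg⟩ := h
  refine Vir.open_of_family k (A := A) r m d (fun l => (g.comp (X + 1)).coeff (l : ℕ)) ?_
  intro v hv
  obtain ⟨q, hq⟩ := exists_trunc r (g.comp (X + 1))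
  set s : A[X] →+* A[X] := compRingHom (X - 1) with hs
  have hsa : ∀ f : A[X], s f = f.comp (X - 1) := fun f => rfl
  have hF : (Vir.Ff v).map s = 0 := by
    apply hg
    · intro k n hn
      have h1 : n + k ≤ d := by
        by_contra hcon
        push Not at hcon
        apply hn
        rw [coeff_map, hsa]
        have hdeg : ((Vir.Ff v).coeff k).natDegree < n ∨ (Vir.Ff v).coeff k = 0 := by
          by_cases h0 : (Vir.Ff v).coeff k = 0
          · exact Or.inr h0
          · left
            by_contra h2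
            push Not at h2
            have h3 : ((Vir.Ff v).coeff k).leadingCoeff ≠ 0 := leadingCoeff_ne_zero.2 h0
            rw [← coeff_natDegree] at h3
            exact h3 (Ff_coeff_not v _ _ (by omega))
        rcases hdeg with h4 | h4
        · exact coeff_eq_zero_of_natDegree_lt (lt_of_le_of_lt (natDegree_comp_sub_one _) h4)
        · rw [h4]; simp
      have h2 : ((n + k : ℕ) : ℝ) ≤ d := by exact_mod_cast h1
      push_cast at h2
      linarith
    · intro j
      have h1 : taylor (g.comp (X + 1)) (Vir.Ff v) ∈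
          (Ideal.span {X, C (X ^ r)} : Ideal A[X][X]) ^ m := by
        have e : taylor (g.comp (X + 1)) (Vir.Ff v) = taylor (X ^ r * q)
            (taylor (gpol r fun l : Fin r => (g.comp (X + 1)).coeff (l : ℕ)) (Vir.Ff v)) := by
          have hq' : X ^ r * q + (gpol r fun l : Fin r => (g.comp (X + 1)).coeff (l : ℕ)) =
              g.comp (X + 1) := (add_comm _ _).trans hq.symm
          rw [taylor_taylor, hq']
        rw [e]
        apply taylor_mem
        rw [taylor_Ff]
        exact hv
      have h2 := mon_coeff _ m _ h1 j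
      have h3 := map_dvd s h2
      have h4 : (taylor g ((Vir.Ff v).map s)) = (taylor (g.comp (X + 1)) (Vir.Ff v)).map s := by
        rw [taylor_apply, taylor_apply, Polynomial.map_comp, Polynomial.map_add, map_X, map_C, hsa,
          comp_assoc]
        congr 3
        simp
      rw [h4, coeff_map]
      have h5 : s ((X ^ r) ^ (m - j)) = (X - 1) ^ (r * m - r * j) := by
        rw [← pow_mul, Nat.mul_sub, map_pow, hsa, X_comp]
      rw [h5] at h3
      exact h3
  apply Vir.Ff_eq_zero
  have hinj : Function.Injective s := by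
    intro f1 f2 h12
    have h5 := congrArg (fun f : A[X] => f.comp (X + 1)) h12
    simp only [hsa, comp_assoc, sub_comp, X_comp, one_comp, add_sub_cancel_right, comp_X] at h5
    exact h5
  exact (Polynomial.map_eq_zero_iff hinj).1 hF

end MP_cea741_ag.Sup
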