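import Mathlib
import Pool.Agent.Lib.MP_cea741_ag.SupC

/-!
Reduction to one parametrised arc `(x(ξ), y(ξ))` over one field extension.
-/

namespace MP_cea741_ag.Nod

open Polynomial

universe u

/-- every power series is a polynomial in a uniformiser modulo `ξ^n` -/
theorem exists_approx {K : Type*} [Field K] (x2 y : PowerSeries K)
    (hx : PowerSeries.constantCoeff x2 ≠ 0) (n : ℕ) :
    ∃ c : Fin n → K, (PowerSeries.X : PowerSeries K) ^ n ∣
      y - eval₂ (PowerSeries.C) (PowerSeries.X * x2) (gpol n c) := by
  induction n with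
  | zero => exact ⟨fun i => i.elim0, by simp⟩
  | succ n ih =>
    obtain ⟨c, e, he⟩ := ih
    refine ⟨Fin.snoc c (PowerSeries.constantCoeff e / (PowerSeries.constantCoeff x2) ^ n), ?_⟩
    have h1 : gpol (n + 1) (Fin.snoc (α := fun _ => K) c
        (PowerSeries.constantCoeff e / (PowerSeries.constantCoeff x2) ^ n)) =
        gpol n c + C (PowerSeries.constantCoeff e / (PowerSeries.constantCoeff x2) ^ n) * X ^ n := by
      rw [gpol, gpol, Fin.sum_univ_castSucc]
      simp
    rw [h1, eval₂_add, eval₂_mul, eval₂_C, eval₂_pow, eval₂_X, ← sub_sub, he, pow_succ, mul_pow]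
    have h2 : (PowerSeries.X : PowerSeries K) ∣
        e - PowerSeries.C (PowerSeries.constantCoeff e / (PowerSeries.constantCoeff x2) ^ n) *
          x2 ^ n := by
      rw [PowerSeries.X_dvd_iff]
      simp only [map_sub, map_mul, map_pow, PowerSeries.constantCoeff_C]
      field_simp
      ring
    obtain ⟨e', he'⟩ := h2
    refine ⟨e', ?_⟩
    rw [mul_assoc, ← he']
    ring

/-- From one arc over a field to general germs. -/
theorem vanishing_of_arc (k : Type u) [Field k] (r m d : ℕ) (K : Type u) [Field K] [Algebra k K]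
    (x y : PowerSeries K) (hx : PowerSeries.coeff 1 x ≠ 0)
    (h : ∀ F : K[X][X], (∀ j n, (F.coeff j).coeff n ≠ 0 → n + j ≤ d) →
      (∀ j, (PowerSeries.X : PowerSeries K) ^ (r * m - r * j) ∣
        (taylor y (F.map (eval₂RingHom (PowerSeries.C) x))).coeff j) → F = 0) :
    ∃ Φ : MvPolynomial (Fin r) k, Φ ≠ 0 ∧
      ∀ (a : k) (c : Fin r → k), MvPolynomial.eval c Φ ≠ 0 →
        ∀ F : MvPolynomial (Fin 2) k, F.totalDegree ≤ d → F ∈ Arc.arcIdeal a c ^ m → F = 0 := by
  set a := PowerSeries.constantCoeff x with ha
  obtain ⟨x2, hx2⟩ : (PowerSeries.X : PowerSeries K) ∣ x - PowerSeries.C a := by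
    rw [PowerSeries.X_dvd_iff]; simp [ha]
  have hx20 : PowerSeries.constantCoeff x2 ≠ 0 := by
    have h1 := congrArg (PowerSeries.coeff 1) hx2
    rw [map_sub, PowerSeries.coeff_C, if_neg one_ne_zero, sub_zero, mul_comm,
      PowerSeries.coeff_succ_mul_X, PowerSeries.coeff_zero_eq_constantCoeff_apply] at h1
    rw [← h1]; exact hx
  obtain ⟨c, q, hq⟩ := exists_approx x2 y hx20 r
  refine Vir.open_of_family k (A := K) r m d c ?_
  intro v hv
  set s : K[X] →+* K[X] := compRingHom (X - C a) with hs
  have hsa : ∀ f : K[X], s f = f.comp (X - C a) := fun f => rfl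
  set φ : K[X] →+* PowerSeries K := eval₂RingHom (PowerSeries.C) x with hφ
  set φ1 : K[X] →+* PowerSeries K := eval₂RingHom (PowerSeries.C) (PowerSeries.X * x2) with hφ1
  have hφs : φ.comp s = φ1 := by
    apply Polynomial.ringHom_ext
    · intro b
      simp [hφ, hφ1, hsa]
    · simp only [RingHom.comp_apply, hsa, X_comp, hφ, hφ1, coe_eval₂RingHom, eval₂_sub, eval₂_X,
        eval₂_C]
      exact hx2
  have hF : (Vir.Ff v).map s = 0 := by
    apply h
    · intro k n hn
      by_contra hcon
      push Not at hcon
      apply hn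
      rw [coeff_map, hsa]
      have hdeg : ((Vir.Ff v).coeff k).natDegree < n ∨ (Vir.Ff v).coeff k = 0 := by
        by_cases h0 : (Vir.Ff v).coeff k = 0
        · exact Or.inr h0
        · left
          by_contra h2
          push Not at h2
          have h3 : ((Vir.Ff v).coeff k).leadingCoeff ≠ 0 := leadingCoeff_ne_zero.2 h0
          rw [← coeff_natDegree] at h3
          exact h3 (Sup.Ff_coeff_not v _ _ (by omega))
      rcases hdeg with h4 | h4
      · refine coeff_eq_zero_of_natDegree_lt (lt_of_le_of_lt ?_ h4)
        refine natDegree_comp_le.trans ?_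
        rw [natDegree_X_sub_C, mul_one]
      · rw [h4]; simp
    · intro j
      have e1 : taylor y (((Vir.Ff v).map s).map φ) =
          taylor (PowerSeries.X ^ r * q) ((taylor (gpol r c) (Vir.Ff v)).map φ1) := by
        have e2 : (taylor (gpol r c) (Vir.Ff v)).map φ1 = taylor (φ1 (gpol r c))
            ((Vir.Ff v).map φ1) := by
          rw [taylor_apply, taylor_apply, Polynomial.map_comp, Polynomial.map_add, map_X, map_C]
        rw [e2, taylor_taylor, map_map, hφs]
        congr 1
        have : φ1 (gpol r c) = eval₂ (PowerSeries.C) (PowerSeries.X * x2) (gpol r c) := rfl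
        rw [this, ← hq]
        ring_nf
      rw [e1]
      have h1 : (taylor (gpol r c) (Vir.Ff v)).map φ1 ∈
          (Ideal.span {X, C (PowerSeries.X ^ r)} : Ideal (PowerSeries K)[X]) ^ m := by
        rw [Sup.taylor_Ff]
        have h2 := Ideal.mem_map_of_mem (mapRingHom φ1) hv
        rw [Ideal.map_pow] at h2
        refine Ideal.pow_right_mono ?_ m h2
        rw [Ideal.map_span, Ideal.span_le, Set.image_pair]
        intro u hu
        rcases hu with rfl | rfl
        · refine Ideal.subset_span ?_
          simp
        · rw [coe_mapRingHom, map_C, map_pow]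
          have e3 : φ1 (X ^ r) = PowerSeries.X ^ r * x2 ^ r := by simp [hφ1, mul_pow]
          rw [e3, C_mul, map_pow]
          exact Ideal.mul_mem_right _ _ (Ideal.subset_span (by simp))
      have h3 : taylor (PowerSeries.X ^ r * q) ((taylor (gpol r c) (Vir.Ff v)).map φ1) ∈
          (Ideal.span {X, C (PowerSeries.X ^ r)} : Ideal (PowerSeries K)[X]) ^ m := by
        set τ : (PowerSeries K)[X] →+* (PowerSeries K)[X] :=
          ((taylorAlgHom (PowerSeries.X ^ r * q)) : (PowerSeries K)[X] →+* (PowerSeries K)[X])
          with hτ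
        have hτa : ∀ Ψ, τ Ψ = taylor (PowerSeries.X ^ r * q) Ψ := fun Ψ => rfl
        have h4 := Ideal.mem_map_of_mem τ h1
        rw [Ideal.map_pow] at h4
        refine Ideal.pow_right_mono ?_ m h4
        rw [Ideal.map_span, Ideal.span_le, Set.image_pair]
        intro u hu
        rcases hu with rfl | rfl
        · rw [hτa, taylor_X, C_mul]
          refine Ideal.add_mem _ (Ideal.subset_span (by simp)) ?_
          exact Ideal.mul_mem_right _ _ (Ideal.subset_span (by simp))
        · rw [hτa, taylor_C]
          exact Ideal.subset_span (by simp)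
      have h5 := mon_coeff _ m _ h3 j
      rw [← pow_mul, Nat.mul_sub] at h5
      exact h5
  apply Vir.Ff_eq_zero
  have hinj : Function.Injective s := by
    intro f1 f2 h12
    have h5 := congrArg (fun f : K[X] => f.comp (X + C a)) h12
    simp only [hsa, comp_assoc, sub_comp, X_comp, C_comp, add_sub_cancel_right, comp_X] at h5
    exact h5
  exact (Polynomial.map_eq_zero_iff hinj).1 hF

end MP_cea741_ag.Nod
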