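import Mathlib
import Pool.Agent.Lib.MP_cea741_ag.SupB

/-!
Steps B and C: the normal cone of `Y = 1` and of `ψ = X^M`.
-/

namespace MP_cea741_ag.Nod

open Polynomial Sup

section basic

variable {A : Type*} [CommRing A] [IsDomain A]

/-- A nonzero multiple of `Q`, `Q(0) ≠ 0`, has two exponents at distance at least `deg Q`. -/
theorem fib {Q p : A[X]} (hp : p ≠ 0) (hQ0 : Q.coeff 0 ≠ 0) (hQ : Q ∣ p) :
    ∃ i j, p.coeff i ≠ 0 ∧ p.coeff j ≠ 0 ∧ i + Q.natDegree ≤ j := by
  refine ⟨p.natTrailingDegree, p.natDegree, ?_, ?_, ?_⟩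
  · exact mem_support_iff.1 (natTrailingDegree_mem_support_of_nonzero hp)
  · rw [coeff_natDegree]; exact leadingCoeff_ne_zero.2 hp
  · obtain ⟨R, rfl⟩ := hQ
    have hR : R ≠ 0 := right_ne_zero_of_mul hp
    have hQ' : Q ≠ 0 := left_ne_zero_of_mul hp
    rw [natTrailingDegree_mul hQ' hR, natDegree_mul hQ' hR]
    have h0 : Q.natTrailingDegree = 0 := by
      rw [natTrailingDegree_eq_zero]
      exact Or.inr hQ0
    have h1 := natTrailingDegree_le_natDegree R
    omega

theorem fib_one {p : A[X]} {l : ℕ} (h : ∀ j < l, (taylor 1 p).coeff j = 0)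
    (hl : (taylor 1 p).coeff l ≠ 0) :
    ∃ i j, p.coeff i ≠ 0 ∧ p.coeff j ≠ 0 ∧ i + l ≤ j := by
  obtain ⟨P, hP1, _⟩ := exists_factor' (1 : A) p l h
  have hp : p ≠ 0 := by rintro rfl; simp at hl
  have hm : ((X - C (1 : A)) ^ l).natDegree = l := by
    rw [natDegree_pow, natDegree_X_sub_C, mul_one]
  obtain ⟨i, j, h1, h2, h3⟩ := fib (Q := (X - C (1 : A)) ^ l) hp (by
    rw [coeff_zero_eq_eval_zero]; simp) ⟨P, hP1⟩
  exact ⟨i, j, h1, h2, by rw [hm] at h3; exact h3⟩

/-- **Step C.** -/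
theorem stepC {a c D : ℝ} {d M S : ℕ} (hac : a + c = 3) (hc : 0 ≤ c) (hD : 3 * D = M + 3 * c)
    (hD0 : 0 < D) (hM : 3 * a ≤ M) (Q : ℕ → A[X]) (hQ0 : ∀ l, (Q l).coeff 0 ≠ 0)
    (hQ : ∀ l : ℕ, (l : ℝ) * D ≤ d → d * D - D ^ 2 * l < (Q l).natDegree)
    (J : A[X][X]) (ha : ∀ k n, (J.coeff k).coeff n ≠ 0 → (n : ℝ) + 3 * a * k ≤ d * a + S)
    (hb : ∀ k n, (J.coeff k).coeff n ≠ 0 → -(n : ℝ) + 3 * c * k ≤ d * c - S)
    (hO : ∀ j, Q j ∣ (taylor (X ^ M) J).coeff j) : J = 0 := by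
  by_contra hJ
  obtain ⟨l, P, hJP, hP0, hco⟩ := exists_factor (X ^ M : A[X]) hJ
  set J' : A[X][X] := J.comp (C (X ^ M) * X) with hJ'
  have hJ'c : ∀ k, J'.coeff k = J.coeff k * (X ^ M) ^ k := fun k => by
    rw [hJ', comp_C_mul_X_coeff]
  have hT : taylor (C (1 : A)) J' = (taylor (X ^ M) J).comp (C (X ^ M) * X) := by
    rw [hJ', taylor_apply, taylor_apply, comp_assoc, comp_assoc]
    congr 1
    simp only [add_comp, mul_comp, X_comp, C_comp, C_1]
    ring
  have hTc : ∀ k, (taylor (C (1 : A)) J').coeff k = (taylor (X ^ M) J).coeff k * (X ^ M) ^ k :=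
    fun k => by rw [hT, comp_C_mul_X_coeff]
  have hlow : ∀ j < l, (taylor (X ^ M : A[X]) J).coeff j = 0 := by
    intro j hj
    rw [hJP, taylor_mul, taylor_pow, map_sub, taylor_X, taylor_C, add_sub_cancel_right,
      coeff_X_pow_mul', if_neg (by omega)]
  have hl0 : (taylor (X ^ M : A[X]) J).coeff l ≠ 0 := by
    have := hco 0
    rw [add_zero, taylor_coeff_zero] at this
    rw [this]; exact hP0
  -- bounds of the exponents
  have key : ∀ E, ((taylor (C (1 : A)) J').coeff l).coeff E ≠ 0 →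
      3 * D * l - d * c + S ≤ E ∧ 9 * (E : ℝ) ≤ 3 * M * d + 9 * S - 3 * D * (M - 3 * a) * l := by
    intro E hE
    obtain ⟨k1, k2, h1, h2, h3⟩ := fib_one (p := tc E J') (l := l) (by
      intro j hj
      rw [← tc_taylor, coeff_tc, hTc, hlow j hj, zero_mul, coeff_zero]) (by
      rw [← tc_taylor, coeff_tc]; exact hE)
    rw [coeff_tc, hJ'c, ← pow_mul, coeff_mul_X_pow'] at h1 h2
    split_ifs at h1 h2 with h4 h5
    · have e1 := ha _ _ h1
      have e2 := hb _ _ h2
      rw [Nat.cast_sub h4] at e1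
      rw [Nat.cast_sub h5] at e2
      push_cast at e1 e2
      have h3' : (k1 : ℝ) + l ≤ k2 := by exact_mod_cast h3
      have hk1 : (0 : ℝ) ≤ k1 := by positivity
      have e3 : 3 * D * k2 ≤ E + d * c - S := by rw [hD]; linarith
      have e4 : 3 * D * (k1 + l) ≤ 3 * D * k2 := by
        apply mul_le_mul_of_nonneg_left h3'; linarith
      constructor
      · nlinarith
      · have e5 : (E : ℝ) ≤ d * a + S + (M - 3 * a) * k1 := by linarith
        have e6 : (M - 3 * a) * (3 * D * (k1 + l)) ≤ (M - 3 * a) * (E + d * c - S) :=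
          mul_le_mul_of_nonneg_left (e4.trans e3) (by linarith)
        have e7 : 3 * D * (E : ℝ) ≤ 3 * D * (d * a + S + (M - 3 * a) * k1) :=
          mul_le_mul_of_nonneg_left e5 (by linarith)
        have e8 : 3 * D * (E : ℝ) - (M - 3 * a) * E = 9 * E := by
          have : 3 * D - (M - 3 * a) = 9 := by rw [hD]; linarith
          linear_combination (E : ℝ) * this
        have e9 : 3 * D * (d * a + S) + (M - 3 * a) * (d * c - S) = 3 * M * d + 9 * S := by
          have h9 : 3 * D = M + 3 * c := hD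
          have ha' : a = 3 - c := by linarith
          rw [h9, ha']; ring
        linarith [e6, e7, e8, e9]
    · exact absurd rfl h2
    · exact absurd rfl h1
    · exact absurd rfl h1
  have hN0 : (taylor (C (1 : A)) J').coeff l ≠ 0 := by
    rw [hTc]
    exact mul_ne_zero hl0 (pow_ne_zero _ (pow_ne_zero _ X_ne_zero))
  obtain ⟨E1, E2, h1, h2, h3⟩ := fib (Q := Q l) hN0 (hQ0 l) (by
    rw [hTc]; exact Dvd.dvd.mul_right (hO l) _)
  have b1 := (key E1 h1).1
  have b2 := (key E2 h2).2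
  have h3' : (E1 : ℝ) + (Q l).natDegree ≤ E2 := by exact_mod_cast h3
  have e1 : 3 * M * d + 9 * S - 3 * D * (M - 3 * a) * l - 9 * (3 * D * l - d * c + S) =
      9 * (d * D - D ^ 2 * l) := by
    have hM' : (M : ℝ) = 3 * D - 3 * c := by linarith
    have ha' : a = 3 - c := by linarith
    rw [hM', ha']; ring
  have e2 : ((Q l).natDegree : ℝ) ≤ d * D - D ^ 2 * l := by linarith
  have e3 : (l : ℝ) * D ≤ d := by
    have : (0 : ℝ) ≤ (Q l).natDegree := by positivity
    have h5 : 0 ≤ D * (d - l * D) := by nlinarith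
    have := nonneg_of_mul_nonneg_right h5 hD0
    linarith
  have := hQ l e3
  linarith

/-- One step `Ψ = ξ + t Ψ'` with general regions. -/
theorem step_gen (N : ℕ) (g : A[X]) (Q : ℕ → A[X]) (Reg Reg' : ℕ → ℕ → Prop)
    (hReg : ∀ G : A[X][X], (∀ k n, (G.coeff k).coeff n ≠ 0 → Reg k n) → ∀ l n,
      (∀ j < l, (taylor (X ^ N) G).coeff j = 0) → ((taylor (X ^ N) G).coeff l).coeff n ≠ 0 →
      Reg' l n)
    (h : ∀ F : A[X][X], (∀ k n, (F.coeff k).coeff n ≠ 0 → Reg' k n) →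
      (∀ j, Q j ∣ (taylor g F).coeff j) → F = 0)
    (F : A[X][X][X]) (hW : ∀ k n, (F.coeff k).coeff n ≠ 0 → Reg k n)
    (hO : ∀ j, (Q j).map C ∣ (taylor (nxt N g) F).coeff j) : F = 0 := by
  classical
  by_contra hF
  set Ft := swF F with hFt
  have hFt0 : Ft ≠ 0 := swF_ne_zero hF
  set Fh : A[X][X][X] := (taylor (C (X ^ N)) Ft).comp (C X * X) with hFh
  have hcoef : ∀ l, Fh.coeff l = (taylor (C (X ^ N)) Ft).coeff l * X ^ l := by
    intro l
    rw [hFh, comp_C_mul_X_coeff]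
  -- the coefficients of the expansion
  have hco : ∀ l i, (Fh.coeff l).coeff (i + l) = (taylor (X ^ N) (tc i Ft)).coeff l := by
    intro l i
    rw [hcoef, coeff_mul_X_pow, ← tc_taylor, coeff_tc]
  have hco0 : ∀ l m, m < l → (Fh.coeff l).coeff m = 0 := by
    intro l m hm
    rw [hcoef, coeff_mul_X_pow', if_neg (by omega)]
  -- some coefficient is nonzero
  have hex : ∃ μ, tc μ Fh ≠ 0 := by
    by_contra hcon
    push Not at hcon
    apply (taylor_eq_zero (C (X ^ N)) Ft).not.mpr hFt0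
    ext1 l
    have h1 : Fh.coeff l = 0 := by
      ext1 μ
      rw [← coeff_tc, hcon μ]; simp
    rw [hcoef] at h1
    rw [coeff_zero]
    rcases mul_eq_zero.1 h1 with h2 | h2
    · exact h2
    · exact absurd h2 (pow_ne_zero _ X_ne_zero)
  set μ := Nat.find hex with hμ
  have hμ0 : tc μ Fh ≠ 0 := Nat.find_spec hex
  have hμlt : ∀ ν < μ, tc ν Fh = 0 := fun ν hν => by
    have := Nat.find_min hex hν
    push Not at this
    exact this
  apply hμ0
  apply h
  · -- degree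
    intro l n hln
    rw [coeff_tc] at hln
    have hlμ : l ≤ μ := by
      by_contra hcon
      push Not at hcon
      rw [hco0 l μ hcon] at hln
      simp at hln
    obtain ⟨i, hi⟩ : ∃ i, μ = i + l := ⟨μ - l, by omega⟩
    rw [hi, hco] at hln
    refine hReg (tc i Ft) ?_ l n ?_ hln
    · intro k n' hn'
      apply hW k n'
      intro h0
      apply hn'
      rw [coeff_tc, hFt, coeff_swF, h0, coeff_zero]
    · intro j hj
      rw [← hco, ← coeff_tc, hμlt (i + j) (by omega), coeff_zero]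
  · -- order
    intro j
    have h1 : taylor (C g) Fh = (taylor (C (X ^ N) + X * C g) Ft).comp (C X * X) := by
      rw [hFh, taylor_apply, taylor_apply, taylor_apply, comp_assoc, comp_assoc, comp_assoc]
      congr 1
      simp only [add_comp, mul_comp, X_comp, C_comp, map_add, map_mul]
      ring
    have h2 : taylor (C (X ^ N) + X * C g) Ft =
        (taylor (nxt N g) F).map (Bivariate.swap (R := A) : A[X][X] →+* A[X][X]) := by
      rw [hFt, swF, taylor_apply, taylor_apply, Polynomial.map_comp, Polynomial.map_add, map_X,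
        map_C, swap_nxt]
    have h3 : (C (Q j) : A[X][X]) ∣ (taylor (C g) Fh).coeff j := by
      rw [h1, comp_C_mul_X_coeff, h2, coeff_map]
      refine Dvd.dvd.mul_right ?_ _
      have h4 := map_dvd (Bivariate.swap (R := A) : A[X][X] →+* A[X][X]) (hO j)
      have h5 : (Bivariate.swap (R := A) : A[X][X] →+* A[X][X]) ((Q j).map C) = C (Q j) :=
        Bivariate.swap_map_C _
      rw [h5] at h4
      exact h4
    rw [C_dvd_iff_dvd_coeff] at h3
    have h6 := h3 μ
    rw [← coeff_tc, tc_taylor] at h6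
    exact h6

/-- **Step B.** -/
theorem stepB {a c D : ℝ} {d M S : ℕ} (hac : a + c = 3) (hc : 0 ≤ c) (ha0 : 0 ≤ a)
    (hD : 3 * D = M + 3 * c)
    (hD0 : 0 < D) (hM : 3 * a ≤ M) (Q : ℕ → A[X]) (hQ0 : ∀ l, (Q l).coeff 0 ≠ 0)
    (hQ : ∀ l : ℕ, (l : ℝ) * D ≤ d → d * D - D ^ 2 * l < (Q l).natDegree)
    (H : A[X][X][X])
    (ha : ∀ k n, (H.coeff k).coeff n ≠ 0 → (n : ℝ) + 3 * a * k ≤ d * a + S)
    (hb : ∀ k n, (H.coeff k).coeff n ≠ 0 →
      (3 * c - 1) * (n : ℝ) + 3 * c * k ≤ d * c + (3 * c - 1) * S)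
    (hi : ∀ k n, (H.coeff k).coeff n ≠ 0 → S ≤ n + k)
    (hO : ∀ j, (Q j).map C ∣ (taylor (nxt 0 (X ^ M)) H).coeff j) : H = 0 := by
  apply step_gen 0 (X ^ M) Q
    (fun k n => (n : ℝ) + 3 * a * k ≤ d * a + S ∧
      (3 * c - 1) * (n : ℝ) + 3 * c * k ≤ d * c + (3 * c - 1) * S ∧ S ≤ n + k)
    (fun k n => (n : ℝ) + 3 * a * k ≤ d * a + S ∧ -(n : ℝ) + 3 * c * k ≤ d * c - S) ?_ ?_ H
    (fun k n h => ⟨ha k n h, hb k n h, hi k n h⟩) hO
  · intro G hG l n h1 h2
    obtain ⟨k1, k2, e1, e2, e3⟩ := fib_one (p := tc n G) (l := l) (by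
      intro j hj
      rw [← tc_taylor, coeff_tc, C_1, ← pow_zero X, h1 j hj, coeff_zero]) (by
      rw [← tc_taylor, coeff_tc, C_1, ← pow_zero X]; exact h2)
    rw [coeff_tc] at e1 e2
    obtain ⟨_, _, g1⟩ := hG _ _ e1
    obtain ⟨f1, f2, _⟩ := hG _ _ e2
    have hk2 : (l : ℝ) ≤ k2 := by
      have : l ≤ k2 := by omega
      exact_mod_cast this
    have hi2 : (l : ℝ) ≤ n + k2 - S := by
      have : S + l ≤ n + k2 := by omega
      have : ((S + l : ℕ) : ℝ) ≤ ((n + k2 : ℕ) : ℝ) := by exact_mod_cast this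
      push_cast at this
      linarith
    constructor
    · have := mul_le_mul_of_nonneg_left hk2 (by linarith : 0 ≤ 3 * a)
      linarith
    · have := mul_le_mul_of_nonneg_left hi2 (by linarith : 0 ≤ 3 * c)
      linarith
  · intro F hF hFO
    exact stepC hac hc hD hD0 hM Q hQ0 hQ F (fun k n h => (hF k n h).1) (fun k n h => (hF k n h).2)
      hFO

end basic

end MP_cea741_ag.Nod
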