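import Mathlib
import Pool.Agent.Lib.MP_cea741_ag.SupB

/-!
Section 1: the node of the nodal cubic `y² = xy + x³`, `x = t² - t`, `y = t³ - t² + z`.
-/

namespace MP_cea741_ag.Nod

open Polynomial Sup

section basic

variable {A : Type*} [CommRing A]

/-- `F(t² - t, t³ - t² + z)`, inner variable `t`, outer variable `z`. -/
noncomputable def star : A[X][X] →+* A[X][X] :=
  ((taylorAlgHom (X ^ 3 - X ^ 2 : A[X])) : A[X][X] →+* A[X][X]).comp
    (mapRingHom (compRingHom (X ^ 2 - X)))

theorem star_apply (F : A[X][X]) :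
    star F = taylor (X ^ 3 - X ^ 2) (F.map (compRingHom (X ^ 2 - X))) := rfl

/-- the nodal cubic -/
noncomputable def nod : A[X][X] := X ^ 2 - C X * X - C (X ^ 3)

theorem star_nod : star (nod : A[X][X]) = X * (X + C (2 * X ^ 3 - 3 * X ^ 2 + X)) := by
  rw [nod, map_sub, map_sub, map_mul, map_pow]
  have h1 : star (X : A[X][X]) = X + C (X ^ 3 - X ^ 2) := by
    rw [star_apply, map_X, taylor_X]
  have h2 : ∀ f : A[X], star (C f : A[X][X]) = C (f.comp (X ^ 2 - X)) := by
    intro f
    rw [star_apply, map_C, taylor_C]; rfl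
  rw [h1, h2, h2, X_comp, pow_comp, X_comp]
  have e2 : (C (C (2 : A)) : A[X][X]) = 2 := by rw [map_ofNat, map_ofNat]
  have e3 : (C (C (3 : A)) : A[X][X]) = 3 := by rw [map_ofNat, map_ofNat]
  have e2' : (C (2 : A[X]) : A[X][X]) = 2 := map_ofNat _ _
  have e3' : (C (3 : A[X]) : A[X][X]) = 3 := map_ofNat _ _
  simp only [C_sub, C_add, C_mul, C_pow, e2', e3']
  ring

/-- total degree at most `d` -/
def Dg (d : ℕ) (F : A[X][X]) : Prop := ∀ k n, (F.coeff k).coeff n ≠ 0 → n + k ≤ d

theorem sum_mon (F : A[X][X]) : F = ∑ k ∈ Finset.range (F.natDegree + 1),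
    ∑ n ∈ Finset.range ((F.coeff k).natDegree + 1), monomial k (monomial n ((F.coeff k).coeff n)) := by
  conv_lhs => rw [F.as_sum_range]
  refine Finset.sum_congr rfl fun k _ => ?_
  conv_lhs => rw [(F.coeff k).as_sum_range]
  rw [map_sum]

/-- division with remainder by the nodal cubic -/
def Dv (d : ℕ) (F : A[X][X]) : Prop := ∃ Q R : A[X][X], F = nod * Q + R ∧
  (∀ k n, (Q.coeff k).coeff n ≠ 0 → n + k + 3 ≤ d) ∧ (∀ k n, (R.coeff k).coeff n ≠ 0 → n ≤ 2)

theorem Dv.zero (d : ℕ) : Dv d (0 : A[X][X]) := ⟨0, 0, by simp, by simp, by simp⟩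

theorem Dv.add {d : ℕ} {F G : A[X][X]} (hF : Dv d F) (hG : Dv d G) : Dv d (F + G) := by
  obtain ⟨Q, R, h1, h2, h3⟩ := hF
  obtain ⟨Q', R', h1', h2', h3'⟩ := hG
  refine ⟨Q + Q', R + R', by rw [h1, h1']; ring, ?_, ?_⟩
  · intro k n h
    rw [coeff_add, coeff_add] at h
    by_cases h0 : (Q.coeff k).coeff n = 0
    · rw [h0, zero_add] at h; exact h2' k n h
    · exact h2 k n h0
  · intro k n h
    rw [coeff_add, coeff_add] at h
    by_cases h0 : (R.coeff k).coeff n = 0
    · rw [h0, zero_add] at h; exact h3' k n h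
    · exact h3 k n h0

theorem coeff_mon2 (k n k' n' : ℕ) (c : A) :
    ((monomial k (monomial n c) : A[X][X]).coeff k').coeff n' = if k = k' ∧ n = n' then c else 0 := by
  rw [coeff_monomial]
  by_cases h : k = k'
  · rw [if_pos h, coeff_monomial]
    by_cases h' : n = n' <;> simp [h, h']
  · simp [h]

theorem Dv.mon {d : ℕ} : ∀ (n k : ℕ) (c : A), n + k ≤ d → Dv d (monomial k (monomial n c)) := by
  intro n
  induction n using Nat.strong_induction_on with
  | _ n ih =>
    intro k c hnk
    rcases Nat.lt_or_ge n 3 with hn | hn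
    · refine ⟨0, monomial k (monomial n c), by simp, by simp, ?_⟩
      intro k' n' h
      rw [coeff_mon2] at h
      split_ifs at h with h1
      · omega
      · exact absurd rfl h
    · obtain ⟨m, rfl⟩ : ∃ m, n = m + 3 := ⟨n - 3, by omega⟩
      have e : (monomial k (monomial (m + 3) c) : A[X][X]) =
          nod * (monomial k (monomial m (-c))) +
            (monomial (k + 2) (monomial m c) + monomial (k + 1) (monomial (m + 1) (-c))) := by
        simp only [nod, ← C_mul_X_pow_eq_monomial, C_mul, C_pow, C_neg]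
        ring
      rw [e]
      refine Dv.add ⟨monomial k (monomial m (-c)), 0, by simp, ?_, by simp⟩
        (Dv.add (ih m (by omega) (k + 2) c (by omega)) (ih (m + 1) (by omega) (k + 1) (-c)
          (by omega)))
      intro k' n' h
      rw [coeff_mon2] at h
      split_ifs at h with h1
      · omega
      · exact absurd rfl h

theorem Dv.of_Dg {d : ℕ} {F : A[X][X]} (h : Dg d F) : Dv d F := by
  rw [sum_mon F]
  refine Finset.sum_induction _ (Dv d) (fun _ _ => Dv.add) (Dv.zero d) fun k _ => ?_
  refine Finset.sum_induction _ (Dv d) (fun _ _ => Dv.add) (Dv.zero d) fun n _ => ?_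
  by_cases h0 : (F.coeff k).coeff n = 0
  · rw [h0]; simpa using Dv.zero d
  · exact Dv.mon _ _ _ (h k n h0)

/-- the restriction to the nodal cubic -/
theorem star_coeff_zero (F : A[X][X]) : (star F).coeff 0 =
    (F.map (compRingHom (X ^ 2 - X))).eval (X ^ 3 - X ^ 2) := by
  rw [star_apply, taylor_coeff_zero]

theorem star_coeff_zero_sum (F : A[X][X]) : (star F).coeff 0 =
    ∑ k ∈ Finset.range (F.natDegree + 1), ∑ n ∈ Finset.range ((F.coeff k).natDegree + 1),
      C ((F.coeff k).coeff n) * ((X ^ 2 - X) ^ n * (X ^ 3 - X ^ 2) ^ k) := by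
  rw [star_coeff_zero]
  conv_lhs => rw [sum_mon F]
  rw [Polynomial.map_sum, eval_finset_sum]
  refine Finset.sum_congr rfl fun k _ => ?_
  rw [Polynomial.map_sum, eval_finset_sum]
  refine Finset.sum_congr rfl fun n _ => ?_
  rw [map_monomial, eval_monomial]
  change ((monomial n) ((F.coeff k).coeff n)).comp (X ^ 2 - X) * _ = _
  rw [monomial_comp]
  ring

theorem monic_x : (X ^ 2 - X : A[X]).Monic := by
  monicity!

theorem monic_y : (X ^ 3 - X ^ 2 : A[X]).Monic := by
  monicity!

theorem natDegree_x [Nontrivial A] : (X ^ 2 - X : A[X]).natDegree = 2 := by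
  compute_degree!

theorem natDegree_y [Nontrivial A] : (X ^ 3 - X ^ 2 : A[X]).natDegree = 3 := by
  compute_degree!

theorem natDegree_xy [Nontrivial A] (n k : ℕ) :
    ((X ^ 2 - X : A[X]) ^ n * (X ^ 3 - X ^ 2) ^ k).natDegree = 2 * n + 3 * k := by
  rw [(monic_x.pow n).natDegree_mul (monic_y.pow k), monic_x.natDegree_pow, monic_y.natDegree_pow,
    natDegree_x, natDegree_y]
  ring

/-- a polynomial of degree at most 2 in `x` that vanishes on the nodal cubic is zero -/
theorem eq_zero_of_rem [Nontrivial A] {R : A[X][X]} (hR : ∀ k n, (R.coeff k).coeff n ≠ 0 → n ≤ 2)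
    (h0 : (star R).coeff 0 = 0) : R = 0 := by
  classical
  by_contra hne
  -- the set of weights
  have hex : ∃ N k n, (R.coeff k).coeff n ≠ 0 ∧ 2 * n + 3 * k = N := by
    by_contra hcon
    push Not at hcon
    apply hne
    ext k n
    by_contra h
    exact hcon _ k n h rfl
  have hbd : ∀ N, (∃ k n, (R.coeff k).coeff n ≠ 0 ∧ 2 * n + 3 * k = N) →
      N ≤ 4 + 3 * R.natDegree := by
    rintro N ⟨k, n, h, rfl⟩
    have h1 := hR k n h
    have h2 : k ≤ R.natDegree := le_natDegree_of_ne_zero (by rintro h3; rw [h3] at h; simp at h)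
    omega
  obtain ⟨N, ⟨k0, n0, h1, h2⟩, hmax⟩ : ∃ N, (∃ k n, (R.coeff k).coeff n ≠ 0 ∧ 2 * n + 3 * k = N) ∧
      ∀ N', (∃ k n, (R.coeff k).coeff n ≠ 0 ∧ 2 * n + 3 * k = N') → N' ≤ N := by
    obtain ⟨N0, hN0⟩ := hex
    refine ⟨Nat.findGreatest (fun N => ∃ k n, (R.coeff k).coeff n ≠ 0 ∧ 2 * n + 3 * k = N)
      (4 + 3 * R.natDegree), ?_, ?_⟩
    · exact Nat.findGreatest_spec (P := fun N => ∃ k n, (R.coeff k).coeff n ≠ 0 ∧
        2 * n + 3 * k = N) (hbd N0 hN0) hN0
    · intro N' hN'
      exact Nat.le_findGreatest (hbd N' hN') hN'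
  apply h1
  have h3 := congrArg (fun p : A[X] => p.coeff N) h0
  simp only [coeff_zero] at h3
  rw [star_coeff_zero_sum, finsetSum_coeff] at h3
  have hn0 := hR _ _ h1
  have hk0 : k0 ∈ Finset.range (R.natDegree + 1) := by
    rw [Finset.mem_range]
    have : k0 ≤ R.natDegree := le_natDegree_of_ne_zero (by rintro h3; rw [h3] at h1; simp at h1)
    omega
  have hterm : ∀ k n, (k ≠ k0 ∨ n ≠ n0) →
      (C ((R.coeff k).coeff n) * ((X ^ 2 - X) ^ n * (X ^ 3 - X ^ 2) ^ k)).coeff N = 0 := by
    intro k n hkn
    rw [coeff_C_mul]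
    by_cases h4 : (R.coeff k).coeff n = 0
    · rw [h4, zero_mul]
    · have h5 := hmax _ ⟨k, n, h4, rfl⟩
      have h6 := hR _ _ h4
      have h7 : 2 * n + 3 * k < N := by omega
      have h8 : ((X ^ 2 - X : A[X]) ^ n * (X ^ 3 - X ^ 2) ^ k).coeff N = 0 :=
        coeff_eq_zero_of_natDegree_lt (by rw [natDegree_xy]; exact h7)
      rw [h8, mul_zero]
  rw [Finset.sum_eq_single k0] at h3
  · rw [finsetSum_coeff, Finset.sum_eq_single n0] at h3
    · rw [coeff_C_mul] at h3
      have h8 : ((X ^ 2 - X : A[X]) ^ n0 * (X ^ 3 - X ^ 2) ^ k0).coeff N = 1 := by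
        have h9 := ((monic_x (A := A)).pow n0).mul ((monic_y (A := A)).pow k0)
        have h10 := h9.coeff_natDegree
        rw [natDegree_xy, h2] at h10
        exact h10
      rw [h8, mul_one] at h3
      exact h3
    · intro n _ hn
      exact hterm k0 n (Or.inr hn)
    · intro hn
      rw [Finset.mem_range, not_lt] at hn
      rw [coeff_eq_zero_of_natDegree_lt (by omega : (R.coeff k0).natDegree < n0)]
      simp
  · intro k _ hk
    rw [finsetSum_coeff]
    exact Finset.sum_eq_zero fun n _ => hterm k n (Or.inl hk)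
  · intro h; exact absurd hk0 h

/-- a polynomial that vanishes on the nodal cubic is divisible by its equation -/
theorem exists_div [Nontrivial A] {d : ℕ} {F : A[X][X]} (hF : Dg d F) (h0 : (star F).coeff 0 = 0) :
    ∃ Q : A[X][X], F = nod * Q ∧ ∀ k n, (Q.coeff k).coeff n ≠ 0 → n + k + 3 ≤ d := by
  obtain ⟨Q, R, h1, h2, h3⟩ := Dv.of_Dg hF
  have hR : R = 0 := by
    apply eq_zero_of_rem h3
    rw [h1, map_add, map_mul, star_nod, coeff_add, mul_assoc, coeff_X_mul_zero, zero_add] at h0
    exact h0
  exact ⟨Q, by rw [h1, hR, add_zero], h2⟩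

/-- degree of the restriction -/
theorem natDegree_restr [Nontrivial A] {d : ℕ} {F : A[X][X]} (hF : Dg d F) :
    ((star F).coeff 0).natDegree ≤ 3 * d := by
  rw [star_coeff_zero_sum]
  refine natDegree_sum_le_of_forall_le _ _ fun k _ => ?_
  refine natDegree_sum_le_of_forall_le _ _ fun n _ => ?_
  by_cases h : (F.coeff k).coeff n = 0
  · rw [h]; simp
  · refine (natDegree_C_mul_le _ _).trans ?_
    rw [natDegree_xy]
    have := hF k n h
    omega

/-- the other branch of the node -/
theorem other_branch (F : A[X][X]) : ((star F).coeff 0).comp (1 - X) =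
    (star F).eval (X * (-1 + 3 * X - 2 * X ^ 2)) := by
  have e1 : ((star F).coeff 0).comp (1 - X) =
      (F.map (compRingHom (X ^ 2 - X))).eval ((1 - X) ^ 3 - (1 - X) ^ 2) := by
    rw [star_coeff_zero]
    have h1 := hom_eval₂ (F.map (compRingHom (X ^ 2 - X : A[X]))) (RingHom.id A[X])
      (compRingHom (1 - X : A[X])) (X ^ 3 - X ^ 2)
    have h2 : (F.map (compRingHom (X ^ 2 - X : A[X]))).map (compRingHom (1 - X : A[X])) =
        F.map (compRingHom (X ^ 2 - X : A[X])) := by
      rw [map_map]
      congr 1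
      apply Polynomial.ringHom_ext
      · intro a; simp
      · simp only [RingHom.comp_apply, coe_compRingHom_apply, X_comp, sub_comp, pow_comp]
        ring
    rw [RingHom.comp_id] at h1
    change compRingHom (1 - X : A[X]) _ = _
    rw [eval, h1, ← eval_map, h2]
    congr 1
    rw [coe_compRingHom_apply, sub_comp, pow_comp, pow_comp, X_comp]
  rw [e1, star_apply, taylor_eval]
  congr 1
  ring

end basic

section lemma1

variable {A : Type*} [CommRing A] [IsDomain A]

theorem order_one {F : A[X][X]} {p q V : ℕ} (hpq : q ≤ p)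
    (hV : ∀ i j, ((star F).coeff j).coeff i ≠ 0 → V ≤ q * i + p * j) {N : ℕ}
    (hN : (((star F).coeff 0).comp (1 - X)).coeff N ≠ 0) : V ≤ p * N := by
  rw [other_branch, eval_eq_sum_range, finsetSum_coeff] at hN
  obtain ⟨j, _, hj⟩ := Finset.exists_ne_zero_of_sum_ne_zero hN
  rw [mul_pow, mul_left_comm, coeff_X_pow_mul'] at hj
  split_ifs at hj with h1
  swap
  · exact absurd rfl hj
  rw [coeff_mul] at hj
  obtain ⟨⟨i, i'⟩, hi, hi'⟩ := Finset.exists_ne_zero_of_sum_ne_zero hj
  rw [Finset.HasAntidiagonal.mem_antidiagonal] at hi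
  have h2 := hV i j (left_ne_zero_of_mul hi')
  simp only at hi
  have h3 : q * i ≤ p * i := Nat.mul_le_mul_right _ hpq
  have h4 : p * (i + j) ≤ p * N := Nat.mul_le_mul_left _ (by omega)
  rw [mul_add] at h4
  omega

/-- Bezout on the nodal cubic -/
theorem bez {d p q V : ℕ} {F : A[X][X]} (hF : Dg d F) (hpq : q ≤ p)
    (hV : ∀ i j, ((star F).coeff j).coeff i ≠ 0 → V ≤ q * i + p * j)
    (h0 : (star F).coeff 0 ≠ 0) : V * (p + q) ≤ 3 * d * (p * q) := by
  set g := (star F).coeff 0 with hg
  set g' := g.comp (1 - X) with hg'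
  have hgg : g'.comp (1 - X) = g := by
    rw [hg', comp_assoc, sub_comp, one_comp, X_comp, sub_sub_cancel, comp_X]
  have hg'0 : g' ≠ 0 := by
    intro h; rw [h, zero_comp] at hgg; exact h0 hgg.symm
  set a := g.natTrailingDegree with ha
  set b := g'.natTrailingDegree with hb
  have h1 : V ≤ q * a := by
    have := hV a 0 (mem_support_iff.1 (natTrailingDegree_mem_support_of_nonzero h0))
    simpa using this
  have h2 : V ≤ p * b :=
    order_one hpq hV (mem_support_iff.1 (natTrailingDegree_mem_support_of_nonzero hg'0))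
  have h3 : X ^ a ∣ g := X_pow_dvd_iff.2 fun n hn => coeff_eq_zero_of_lt_natTrailingDegree hn
  have h4 : (1 - X : A[X]) ^ b ∣ g := by
    have h5 : X ^ b ∣ g' := X_pow_dvd_iff.2 fun n hn => coeff_eq_zero_of_lt_natTrailingDegree hn
    obtain ⟨u, hu⟩ := h5
    rw [← hgg, hu, mul_comp, pow_comp, X_comp]
    exact dvd_mul_right _ _
  have h6 : IsCoprime (X ^ a : A[X]) ((1 - X) ^ b) :=
    IsCoprime.pow ⟨1, 1, by ring⟩
  have h7 := h6.mul_dvd h3 h4
  have h8 : (1 - X : A[X]).natDegree = 1 := by
    compute_degree!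
  have h9 : (1 - X : A[X]) ≠ 0 := by
    intro h; rw [h] at h8; simp at h8
  have h10 := natDegree_le_of_dvd h7 h0
  rw [natDegree_mul (pow_ne_zero _ X_ne_zero) (pow_ne_zero _ h9), natDegree_X_pow, natDegree_pow,
    h8, mul_one] at h10
  have h11 := h10.trans (natDegree_restr hF)
  have h12 : p * V ≤ p * (q * a) := Nat.mul_le_mul_left _ h1
  have h13 : q * V ≤ q * (p * b) := Nat.mul_le_mul_left _ h2
  have h14 : p * q * (a + b) ≤ p * q * (3 * d) := Nat.mul_le_mul_left _ h11
  nlinarith

theorem star_coeff_succ (Q : A[X][X]) (i j : ℕ) :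
    ((star (nod * Q)).coeff (j + 1)).coeff (i + 1) =
      (if 1 ≤ j then ((star Q).coeff (j - 1)).coeff (i + 1) else 0) +
      (((star Q).coeff j).coeff i - 3 * (if 1 ≤ i then ((star Q).coeff j).coeff (i - 1) else 0) +
        2 * (if 2 ≤ i then ((star Q).coeff j).coeff (i - 2) else 0)) := by
  rw [map_mul, star_nod, mul_assoc, coeff_X_mul, add_mul, coeff_add, coeff_C_mul, coeff_add]
  congr 1
  · rcases j with _ | j
    · simp
    · rw [coeff_X_mul, if_pos (by omega), Nat.add_sub_cancel]
  · have e : (2 * X ^ 3 - 3 * X ^ 2 + X : A[X]) * (star Q).coeff j =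
        X * ((star Q).coeff j - C 3 * (X ^ 1 * (star Q).coeff j) +
          C 2 * (X ^ 2 * (star Q).coeff j)) := by
      have e2' : (C (2 : A) : A[X]) = 2 := map_ofNat _ _
      have e3' : (C (3 : A) : A[X]) = 3 := map_ofNat _ _
      rw [e2', e3']
      ring
    rw [e, coeff_X_mul, coeff_add, coeff_sub, coeff_C_mul, coeff_C_mul, coeff_X_pow_mul',
      coeff_X_pow_mul']

theorem star_coeff_zero' (Q : A[X][X]) (i : ℕ) : ((star (nod * Q)).coeff 0).coeff i = 0 := by
  rw [map_mul, star_nod, mul_assoc, coeff_X_mul_zero, coeff_zero]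

theorem star_coeff_zero'' (Q : A[X][X]) (j : ℕ) : ((star (nod * Q)).coeff (j + 1)).coeff 0 =
    if 1 ≤ j then ((star Q).coeff (j - 1)).coeff 0 else 0 := by
  rw [map_mul, star_nod, mul_assoc, coeff_X_mul, add_mul, coeff_add, coeff_C_mul, coeff_add]
  have e : (2 * X ^ 3 - 3 * X ^ 2 + X : A[X]) * (star Q).coeff j =
      X * ((2 * X ^ 2 - 3 * X + 1) * (star Q).coeff j) := by ring
  rw [e, coeff_X_mul_zero, add_zero]
  rcases j with _ | j
  · simp
  · rw [coeff_X_mul, if_pos (by omega), Nat.add_sub_cancel]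

/-- **Lemma 1.** -/
theorem lemma1 {p q : ℕ} (hq : 0 < q) (hpq : q < p) (h9 : 9 * (p * q) ≤ (p + q) * (p + q)) :
    ∀ (d : ℕ) (F : A[X][X]), Dg d F → ∀ i j : ℕ, ((star F).coeff j).coeff i ≠ 0 →
      (∀ i' j', ((star F).coeff j').coeff i' ≠ 0 → q * i + p * j ≤ q * i' + p * j') →
      (p + q) * i + 9 * p * j ≤ 3 * p * d + (p + q) * j ∧
        (p + q) * j + 9 * q * i ≤ 3 * q * d + (p + q) * i := by
  intro d
  induction d using Nat.strong_induction_on with
  | _ d ih =>
    intro F hF i j hij hV
    by_cases h0 : (star F).coeff 0 = 0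
    · obtain ⟨Q, rfl, hQ⟩ := exists_div hF h0
      set V := q * i + p * j with hVdef
      have hQ0 : Q ≠ 0 := by rintro rfl; simp at hij
      have hd : 3 ≤ d := by
        by_contra hcon
        apply hQ0
        ext k n
        by_contra h
        have := hQ k n h
        omega
      -- the support of `star Q`
      have claim : ∀ w i1 j1, q * i1 + p * j1 = w → ((star Q).coeff j1).coeff i1 ≠ 0 →
          V ≤ w + p + q := by
        intro w
        induction w using Nat.strong_induction_on with
        | _ w ihw =>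
          intro i1 j1 hw hne
          by_contra hlt
          push Not at hlt
          apply hne
          have e := star_coeff_succ Q i1 j1
          have e1 : ((star (nod * Q)).coeff (j1 + 1)).coeff (i1 + 1) = 0 := by
            by_contra h
            have := hV _ _ h
            rw [mul_add, mul_add] at this
            omega
          have e2 : (if 1 ≤ j1 then ((star Q).coeff (j1 - 1)).coeff (i1 + 1) else 0) = 0 := by
            split_ifs with h1
            · by_contra h
              obtain ⟨j2, rfl⟩ : ∃ j2, j1 = j2 + 1 := ⟨j1 - 1, by omega⟩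
              rw [Nat.add_sub_cancel] at h
              rw [mul_add] at hw
              have := ihw (q * (i1 + 1) + p * j2) (by rw [mul_add]; omega) _ _ rfl h
              rw [mul_add] at this
              omega
            · rfl
          have e3 : (if 1 ≤ i1 then ((star Q).coeff j1).coeff (i1 - 1) else 0) = 0 := by
            split_ifs with h1
            · by_contra h
              obtain ⟨i2, rfl⟩ : ∃ i2, i1 = i2 + 1 := ⟨i1 - 1, by omega⟩
              rw [Nat.add_sub_cancel] at h
              rw [mul_add] at hw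
              have := ihw (q * i2 + p * j1) (by omega) _ _ rfl h
              omega
            · rfl
          have e4 : (if 2 ≤ i1 then ((star Q).coeff j1).coeff (i1 - 2) else 0) = 0 := by
            split_ifs with h1
            · by_contra h
              obtain ⟨i2, rfl⟩ : ∃ i2, i1 = i2 + 2 := ⟨i1 - 2, by omega⟩
              rw [Nat.add_sub_cancel] at h
              rw [mul_add] at hw
              have := ihw (q * i2 + p * j1) (by omega) _ _ rfl h
              omega
            · rfl
          rw [e1, e2, e3, e4] at e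
          simpa using e.symm
      rcases j with _ | j
      · exact absurd (star_coeff_zero' Q i) hij
      rcases i with _ | i
      · rw [star_coeff_zero''] at hij
        split_ifs at hij with h1
        · have := claim _ _ _ rfl hij
          obtain ⟨j2, rfl⟩ : ∃ j2, j = j2 + 1 := ⟨j - 1, by omega⟩
          rw [Nat.add_sub_cancel] at this
          simp only [hVdef, mul_add, mul_zero, mul_one] at this
          omega
        · exact absurd rfl hij
      rw [star_coeff_succ] at hij
      have e2 : (if 1 ≤ j then ((star Q).coeff (j - 1)).coeff (i + 1) else 0) = 0 := by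
        split_ifs with h1
        · by_contra h
          have := claim _ _ _ rfl h
          obtain ⟨j2, rfl⟩ : ∃ j2, j = j2 + 1 := ⟨j - 1, by omega⟩
          rw [Nat.add_sub_cancel] at this
          simp only [hVdef, mul_add, mul_one] at this
          omega
        · rfl
      have e3 : (if 1 ≤ i then ((star Q).coeff j).coeff (i - 1) else 0) = 0 := by
        split_ifs with h1
        · by_contra h
          have := claim _ _ _ rfl h
          obtain ⟨i2, rfl⟩ : ∃ i2, i = i2 + 1 := ⟨i - 1, by omega⟩
          rw [Nat.add_sub_cancel] at this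
          simp only [hVdef, mul_add, mul_one] at this
          omega
        · rfl
      have e4 : (if 2 ≤ i then ((star Q).coeff j).coeff (i - 2) else 0) = 0 := by
        split_ifs with h1
        · by_contra h
          have := claim _ _ _ rfl h
          obtain ⟨i2, rfl⟩ : ∃ i2, i = i2 + 2 := ⟨i - 2, by omega⟩
          rw [Nat.add_sub_cancel] at this
          simp only [hVdef, mul_add, mul_one] at this
          omega
        · rfl
      rw [e2, e3, e4, mul_zero, mul_zero, sub_zero, add_zero, zero_add] at hij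
      have h5 := ih (d - 3) (by omega) Q (fun k n h => by have := hQ k n h; omega) i j hij
        (fun i' j' h => by
          have := claim _ _ _ rfl h
          simp only [hVdef, mul_add, mul_one] at this
          omega)
      obtain ⟨d', rfl⟩ : ∃ d', d = d' + 3 := ⟨d - 3, by omega⟩
      rw [Nat.add_sub_cancel] at h5
      constructor
      · have := h5.1; nlinarith
      · have := h5.2; nlinarith
    · have h1 := bez hF hpq.le hV h0
      constructor
      · have h2 : q * ((p + q) * i + 9 * p * j) ≤ q * (3 * p * d + (p + q) * j) := by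
          have h3 : 9 * (p * q) * j ≤ (p + q) * (p + q) * j := Nat.mul_le_mul_right _ h9
          nlinarith
        exact Nat.le_of_mul_le_mul_left h2 hq
      · have h2 : p * ((p + q) * j + 9 * q * i) ≤ p * (3 * q * d + (p + q) * i) := by
          have h3 : 9 * (p * q) * i ≤ (p + q) * (p + q) * i := Nat.mul_le_mul_right _ h9
          nlinarith
        exact Nat.le_of_mul_le_mul_left h2 (by omega)

end lemma1

end MP_cea741_ag.Nod
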