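import Mathlib
import Pool.Agent.Lib.MP_cea741_ag.NodC

/-!
Step A: the degeneration `t = τ^q X`, `z = τ^p Y / X`.
-/

namespace MP_cea741_ag.Nod

open Polynomial Sup

section star

variable {A : Type*} [CommRing A]

theorem star_C_C (b : A) : star (C (C b) : A[X][X]) = C (C b) := by
  rw [star_apply, map_C, taylor_C]
  congr 1
  change (C b : A[X]).comp _ = _
  rw [C_comp]

theorem star_map {B : Type*} [CommRing B] (f : A →+* B) (F : A[X][X]) :
    star (F.map (mapRingHom f)) = (star F).map (mapRingHom f) := by
  have h : (star (A := B)).comp (mapRingHom (mapRingHom f)) =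
      (mapRingHom (mapRingHom f)).comp (star (A := A)) := by
    apply Polynomial.ringHom_ext'
    · apply Polynomial.ringHom_ext
      · intro a
        simp only [RingHom.comp_apply, coe_mapRingHom, map_C, star_C_C]
      · simp only [RingHom.comp_apply, coe_mapRingHom, map_C, map_X, star_apply, taylor_C,
          coe_compRingHom_apply, X_comp, Polynomial.map_sub, Polynomial.map_pow]
    · simp only [RingHom.comp_apply, coe_mapRingHom, map_X, star_apply, taylor_X, Polynomial.map_add,
        map_C, Polynomial.map_sub, Polynomial.map_pow]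
  exact congrArg (fun φ => φ F) h

variable [IsDomain A]

theorem swF_add (F G : A[X][X][X]) : swF (F + G) = swF F + swF G := by
  rw [swF, Polynomial.map_add]; rfl

/-- coefficient of `τ^l` -/
noncomputable def tl (l : ℕ) (F : A[X][X][X]) : A[X][X] := tc l (swF F)

theorem coeff_tl (l : ℕ) (F : A[X][X][X]) (k n : ℕ) :
    ((tl l F).coeff k).coeff n = ((F.coeff k).coeff n).coeff l := by
  rw [tl, coeff_tc, coeff_swF]

theorem star_tl (l : ℕ) (F : A[X][X][X]) : star (tl l F) = tl l (star F) := by
  induction F using Polynomial.induction_on' with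
  | add P Q hP hQ =>
    have h : ∀ P Q : A[X][X][X], tl l (P + Q) = tl l P + tl l Q := by
      intro P Q; rw [tl, swF_add, tc_add]; rfl
    rw [h, map_add, hP, hQ, map_add, h]
  | monomial k f =>
    induction f using Polynomial.induction_on' with
    | add P Q hP hQ =>
      have h : ∀ P Q : A[X][X][X], tl l (P + Q) = tl l P + tl l Q := by
        intro P Q; rw [tl, swF_add, tc_add]; rfl
      rw [map_add, h, map_add, hP, hQ, map_add, h]
    | monomial n b =>
      have h1 : tl l (monomial k (monomial n b)) = monomial k (monomial n (b.coeff l)) := by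
        ext k' n'
        rw [coeff_tl, coeff_mon2, coeff_mon2]
        split_ifs <;> simp
      have h2 : ∀ (R : Type _) [CommRing R] (c : R), (monomial k (monomial n c) : R[X][X]) =
          C (C c) * monomial k (monomial n 1) := by
        intro R _ c
        rw [C_mul_monomial, C_mul_monomial, mul_one]
      have h3 : (monomial k (monomial n (1 : A[X])) : A[X][X][X]) =
          (monomial k (monomial n (1 : A)) : A[X][X]).map (mapRingHom C) := by
        simp
      rw [h1, h2 A, h2 A[X], map_mul, map_mul, star_C_C, star_C_C, h3, star_map]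
      ext k' n'
      rw [coeff_tl, coeff_C_mul, coeff_C_mul, coeff_C_mul, coeff_C_mul, coeff_map,
        coe_mapRingHom, coeff_map, coeff_mul_C]

theorem Dg.tl {d : ℕ} {F : A[X][X][X]} (hF : Dg d F) (l : ℕ) : Dg d (tl l F) := by
  intro k n h
  apply hF k n
  intro h0
  rw [coeff_tl, h0, coeff_zero] at h
  exact h rfl

theorem Dg.natDegree_le {d : ℕ} {F : A[X][X]} (hF : Dg d F) : F.natDegree ≤ d := by
  by_cases h0 : F = 0
  · rw [h0]; simp
  have h1 : F.coeff F.natDegree ≠ 0 := by rw [coeff_natDegree]; exact leadingCoeff_ne_zero.2 h0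
  obtain ⟨n, hn⟩ : ∃ n, (F.coeff F.natDegree).coeff n ≠ 0 := by
    by_contra hcon
    push Not at hcon
    exact h1 (Polynomial.ext (by simpa using hcon))
  have := hF _ _ hn
  omega

theorem natDegree_star_le {d : ℕ} {F : A[X][X]} (hF : Dg d F) : (star F).natDegree ≤ d := by
  rw [star_apply, natDegree_taylor]
  exact natDegree_map_le.trans hF.natDegree_le

end star

section pull

variable {B : Type*} [CommRing B]

/-- `X^S G(τ^q X, τ^p Y / X)` -/
noncomputable def pull (τ : B) (S p q : ℕ) (G : B[X][X]) : B[X][X] :=
  ∑ j ∈ Finset.range (G.natDegree + 1), monomial j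
    (∑ i ∈ Finset.range ((G.coeff j).natDegree + 1),
      monomial (i + S - j) ((G.coeff j).coeff i * τ ^ (q * i + p * j)))

theorem coeff_pull (τ : B) {S p q : ℕ} {G : B[X][X]} (hG : G.natDegree ≤ S) (j n : ℕ) :
    ((pull τ S p q G).coeff j).coeff n =
      if S ≤ n + j then (G.coeff j).coeff (n + j - S) * τ ^ (q * (n + j - S) + p * j) else 0 := by
  rw [pull, finsetSum_coeff]
  by_cases hj : j ∈ Finset.range (G.natDegree + 1)
  · rw [Finset.sum_eq_single j]
    · rw [coeff_monomial, if_pos rfl, finsetSum_coeff]
      rw [Finset.mem_range] at hj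
      split_ifs with h
      · rw [Finset.sum_eq_single (n + j - S)]
        · rw [coeff_monomial, if_pos (by omega)]
        · intro b _ hb
          rw [coeff_monomial, if_neg (by omega)]
        · intro hn
          rw [Finset.mem_range, not_lt] at hn
          have h0 : (G.coeff j).coeff (n + j - S) = 0 := coeff_eq_zero_of_natDegree_lt (by omega)
          rw [h0]
          simp
      · refine Finset.sum_eq_zero fun b _ => ?_
        rw [coeff_monomial, if_neg (by omega)]
    · intro b _ hb
      rw [coeff_monomial, if_neg hb]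
    · intro h; exact absurd hj h
  · have h0 : G.coeff j = 0 := coeff_eq_zero_of_natDegree_lt (by
      rw [Finset.mem_range] at hj; omega)
    rw [Finset.sum_eq_zero, coeff_zero, h0]
    · simp
    · intro b hb
      rw [coeff_monomial, if_neg]
      rintro rfl
      exact hj hb

end pull

section stepA

variable {A : Type*} [CommRing A] [IsDomain A]

theorem star_injective {F : A[X][X]} (h : star F = 0) : F = 0 := by
  rw [star_apply, taylor_eq_zero] at h
  ext1 k
  have h1 := congrArg (fun G : A[X][X] => G.coeff k) h
  simp only [coeff_map, coeff_zero, coe_compRingHom_apply] at h1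
  rcases comp_eq_zero_iff.1 h1 with h2 | ⟨_, h3⟩
  · rw [h2, coeff_zero]
  · exfalso
    have := congrArg natDegree h3
    rw [natDegree_x, natDegree_C] at this
    omega

/-- **Step A.** -/
theorem stepA {d p q : ℕ} (hq : 0 < q) (hpq : q < p) (h9 : 9 * (p * q) ≤ (p + q) * (p + q))
    (g : A[X]) (Q : ℕ → A[X])
    (h : ∀ H : A[X][X],
      (∀ k n, (H.coeff k).coeff n ≠ 0 → ∃ i, n + k = i + d ∧
        (p + q) * i + 9 * p * k ≤ 3 * p * d + (p + q) * k ∧
        (p + q) * k + 9 * q * i ≤ 3 * q * d + (p + q) * i) →
      (∀ j, Q j ∣ (taylor g H).coeff j) → H = 0)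
    (F : A[X][X][X]) (hF : Dg d F)
    (hO : ∀ j, (Q j).map C ∣ (taylor (g.map C) (pull X d p q (star F))).coeff j) : F = 0 := by
  set G := pull (X : A[X]) d p q (star F) with hG
  have hGc : ∀ k n μ, ((tl μ G).coeff k).coeff n = if d ≤ n + k then
      (if q * (n + k - d) + p * k ≤ μ then
        (((star F).coeff k).coeff (n + k - d)).coeff (μ - (q * (n + k - d) + p * k)) else 0)
      else 0 := by
    intro k n μ
    rw [coeff_tl, hG, coeff_pull _ (natDegree_star_le hF)]
    split_ifs with h1 h2 h2
    · rw [coeff_mul_X_pow', if_pos h2]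
    · rw [coeff_mul_X_pow', if_neg h2]
    · rw [coeff_zero]
  have hOμ : ∀ μ j, Q j ∣ (taylor g (tl μ G)).coeff j := by
    intro μ j
    have h1 : swF (taylor (g.map C) G) = taylor (C g) (swF G) := by
      rw [swF, taylor_apply, Polynomial.map_comp, Polynomial.map_add, map_X, map_C, taylor_apply,
        swF]
      congr 3
      exact Bivariate.swap_map_C _
    have h3 : (C (Q j) : A[X][X]) ∣ (taylor (C g) (swF G)).coeff j := by
      rw [← h1, swF, coeff_map]
      have h4 := map_dvd (Bivariate.swap (R := A) : A[X][X] →+* A[X][X]) (hO j)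
      have h5 : (Bivariate.swap (R := A) : A[X][X] →+* A[X][X]) ((Q j).map C) = C (Q j) :=
        Bivariate.swap_map_C _
      rw [h5] at h4
      exact h4
    rw [C_dvd_iff_dvd_coeff] at h3
    have h6 := h3 μ
    rw [← coeff_tc, tc_taylor] at h6
    exact h6
  have hall : ∀ μ, tl μ G = 0 := by
    intro μ
    induction μ using Nat.strong_induction_on with
    | _ μ ih =>
      apply h _ _ (hOμ μ)
      intro k n hkn
      rw [hGc] at hkn
      split_ifs at hkn with h1 h2
      · set i := n + k - d with hi
        refine ⟨i, by omega, ?_⟩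
        obtain ⟨l, hl⟩ : ∃ l, μ = l + (q * i + p * k) := ⟨μ - (q * i + p * k), by omega⟩
        rw [hl, Nat.add_sub_cancel, ← coeff_tl, ← star_tl] at hkn
        refine lemma1 hq hpq h9 d (tl l F) (hF.tl l) i k hkn ?_
        intro i' j' hne
        by_contra hlt
        push Not at hlt
        have hj' : j' ≤ d := by
          by_contra hcon
          push Not at hcon
          rw [coeff_eq_zero_of_natDegree_lt
            (lt_of_le_of_lt (natDegree_star_le (hF.tl l)) hcon)] at hne
          simp at hne
        have h3 := hGc j' (i' + d - j') (l + (q * i' + p * j'))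
        have e1 : i' + d - j' + j' - d = i' := by omega
        rw [ih _ (by omega), if_pos (by omega), e1, if_pos (by omega), Nat.add_sub_cancel,
          ← coeff_tl, ← star_tl] at h3
        simp only [coeff_zero] at h3
        exact hne h3.symm
      · exact absurd rfl hkn
      · exact absurd rfl hkn
  apply star_injective
  ext k i l
  by_contra hne
  simp only [coeff_zero] at hne
  have hk : k ≤ d := by
    by_contra hcon
    push Not at hcon
    rw [coeff_eq_zero_of_natDegree_lt (lt_of_le_of_lt (natDegree_star_le hF) hcon)] at hne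
    simp at hne
  have h3 := hGc k (i + d - k) (l + (q * i + p * k))
  have e1 : i + d - k + k - d = i := by omega
  rw [hall, if_pos (by omega), e1, if_pos (by omega), Nat.add_sub_cancel] at h3
  simp only [coeff_zero] at h3
  exact hne h3.symm

end stepA

end MP_cea741_ag.Nod
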