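import Mathlib
import Pool.Agent.Lib.MP_cea741_ag.NodA
import Pool.Agent.Lib.MP_cea741_ag.NodB
import Pool.Agent.Lib.MP_cea741_ag.NodD

/-!
Glue: from `K⟦ξ⟧` to polynomials.
-/

namespace MP_cea741_ag.Nod

open Polynomial Sup

section transfer

variable {B : Type*} [CommRing B] [IsDomain B] {K : Type*} [Field K] [Algebra B K]

/-- `P ↦ P(1 + ξ)` -/
noncomputable def theta (B K : Type*) [CommRing B] [Field K] [Algebra B K] :
    B[X] →+* PowerSeries K :=
  eval₂RingHom ((PowerSeries.C).comp (algebraMap B K)) (1 + PowerSeries.X)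

theorem theta_dvd [FaithfulSMul B K] {P : B[X]} {N : ℕ}
    (h : (PowerSeries.X : PowerSeries K) ^ N ∣ theta B K P) : (X - C 1 : B[X]) ^ N ∣ P := by
  have h1 : theta B K = (Polynomial.coeToPowerSeries.ringHom).comp
      ((compRingHom (X + C 1)).comp (mapRingHom (algebraMap B K))) := by
    apply Polynomial.ringHom_ext
    · intro b
      simp [theta]
    · simp [theta, add_comm]
  set P' := (P.map (algebraMap B K)).comp (X + C 1) with hP'
  have h2 : theta B K P = (P' : PowerSeries K) := by
    rw [h1]; rfl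
  rw [h2, PowerSeries.X_pow_dvd_iff] at h
  have h3 : X ^ N ∣ P' := by
    rw [X_pow_dvd_iff]
    intro n hn
    rw [← Polynomial.coeff_coe]
    exact h n hn
  obtain ⟨R, hR⟩ := h3
  have h4 : (X - C 1 : K[X]) ^ N ∣ P.map (algebraMap B K) := by
    have h5 : P.map (algebraMap B K) = P'.comp (X - C 1) := by
      rw [hP', comp_assoc, add_comp, X_comp, C_comp, sub_add_cancel, comp_X]
    rw [h5, hR, mul_comp, pow_comp, X_comp]
    exact dvd_mul_right _ _
  have h6 : (X - C 1 : K[X]) ^ N = ((X - C 1 : B[X]) ^ N).map (algebraMap B K) := by simp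
  rw [h6] at h4
  exact (Polynomial.map_dvd_map _ (FaithfulSMul.algebraMap_injective B K)
    ((monic_X_sub_C 1).pow N)).1 h4

theorem pull_coeff (τ : B) (S p q : ℕ) (G : B[X][X]) (j : ℕ) : (pull τ S p q G).coeff j =
    ∑ i ∈ Finset.range ((G.coeff j).natDegree + 1),
      monomial (i + S - j) ((G.coeff j).coeff i * τ ^ (q * i + p * j)) := by
  rw [pull, finsetSum_coeff]
  by_cases hj : j ∈ Finset.range (G.natDegree + 1)
  · rw [Finset.sum_eq_single j]
    · rw [coeff_monomial, if_pos rfl]
    · intro b _ hb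
      rw [coeff_monomial, if_neg hb]
    · intro h; exact absurd hj h
  · have h0 : G.coeff j = 0 := coeff_eq_zero_of_natDegree_lt (by
      rw [Finset.mem_range] at hj; omega)
    rw [Finset.sum_eq_zero, h0]
    · simp
    · intro b hb
      rw [coeff_monomial, if_neg]
      rintro rfl
      exact hj hb

theorem pull_map (τ : B) {S p q : ℕ} {G : B[X][X]} (hG : G.natDegree ≤ S) (ui : PowerSeries K)
    (hui : (1 + PowerSeries.X) * ui = 1) :
    (pull τ S p q G).map (theta B K) = C ((1 + PowerSeries.X) ^ S) *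
      (G.map (eval₂RingHom ((PowerSeries.C).comp (algebraMap B K))
        (PowerSeries.C (algebraMap B K τ ^ q) * (1 + PowerSeries.X)))).comp
        (C (PowerSeries.C (algebraMap B K τ ^ p) * ui) * X) := by
  ext1 j
  rw [coeff_map, coeff_C_mul, comp_C_mul_X_coeff, coeff_map, pull_coeff, map_sum]
  by_cases h0 : G.coeff j = 0
  · rw [h0]; simp
  have hj : j ≤ S := (le_natDegree_of_ne_zero h0).trans hG
  have e1 : (eval₂RingHom ((PowerSeries.C).comp (algebraMap B K))
        (PowerSeries.C (algebraMap B K τ ^ q) * (1 + PowerSeries.X))) (G.coeff j) =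
      ∑ i ∈ Finset.range ((G.coeff j).natDegree + 1),
        (PowerSeries.C (algebraMap B K ((G.coeff j).coeff i))) *
          (PowerSeries.C (algebraMap B K τ ^ q) * (1 + PowerSeries.X)) ^ i := by
    rw [coe_eval₂RingHom, eval₂_eq_sum_range]
    rfl
  rw [e1, Finset.sum_mul, Finset.mul_sum]
  refine Finset.sum_congr rfl fun i _ => ?_
  rw [theta, coe_eval₂RingHom, eval₂_monomial]
  obtain ⟨e, he⟩ : ∃ e, S = e + j := ⟨S - j, by omega⟩
  have e2 : i + S - j = i + e := by omega
  rw [e2, he]
  simp only [RingHom.comp_apply, map_mul, map_pow, mul_pow]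
  have e3 : (1 + PowerSeries.X : PowerSeries K) ^ j * ui ^ j = 1 := by
    rw [← mul_pow, hui, one_pow]
  rw [pow_add _ e j, pow_add _ i e, pow_add _ (q * i) (p * j), pow_mul, pow_mul]
  linear_combination (-(PowerSeries.C (algebraMap B K ((G.coeff j).coeff i)) *
    ((PowerSeries.C (algebraMap B K τ) ^ q) ^ i * (PowerSeries.C (algebraMap B K τ) ^ p) ^ j) *
    ((1 + PowerSeries.X) ^ i * (1 + PowerSeries.X) ^ e))) * e3

/-- the arc: `x(ξ)` -/
noncomputable def arcx (K : Type*) [Field K] (tq : K) : PowerSeries K :=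
  (PowerSeries.C tq * (1 + PowerSeries.X)) ^ 2 - PowerSeries.C tq * (1 + PowerSeries.X)

/-- the arc: `y(ξ)` -/
noncomputable def arcy (K : Type*) [Field K] (tq tp : K) (gi : PowerSeries K) : PowerSeries K :=
  (PowerSeries.C tq * (1 + PowerSeries.X)) ^ 3 - (PowerSeries.C tq * (1 + PowerSeries.X)) ^ 2 +
    PowerSeries.C tp * gi

theorem transfer [FaithfulSMul B K] (τ : B) {d p q : ℕ} (g : B[X]) (ui : PowerSeries K)
    (hui : (1 + PowerSeries.X) * ui = 1) (F : B[X][X]) (hF : Dg d F) (n : ℕ → ℕ)
    (hO : ∀ j, (PowerSeries.X : PowerSeries K) ^ n j ∣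
      (taylor (arcy K (algebraMap B K τ ^ q) (algebraMap B K τ ^ p) (ui * theta B K g))
        ((F.map (mapRingHom (algebraMap B K))).map (eval₂RingHom (PowerSeries.C)
          (arcx K (algebraMap B K τ ^ q))))).coeff j) (j : ℕ) :
    (X - C 1 : B[X]) ^ n j ∣ (taylor g (pull τ d p q (star F))).coeff j := by
  apply theta_dvd (K := K)
  have h1 : theta B K ((taylor g (pull τ d p q (star F))).coeff j) =
      (taylor (theta B K g) ((pull τ d p q (star F)).map (theta B K))).coeff j := by
    rw [← coeff_map, taylor_apply, taylor_apply, Polynomial.map_comp, Polynomial.map_add, map_X,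
      map_C]
  set ρ : B[X] →+* PowerSeries K := eval₂RingHom ((PowerSeries.C).comp (algebraMap B K))
        (PowerSeries.C (algebraMap B K τ ^ q) * (1 + PowerSeries.X)) with hρ
  set φ : K[X] →+* PowerSeries K := eval₂RingHom (PowerSeries.C)
          (arcx K (algebraMap B K τ ^ q)) with hφ
  have h2 : (star F).map ρ = taylor (ρ (X ^ 3 - X ^ 2))
      ((F.map (mapRingHom (algebraMap B K))).map φ) := by
    rw [star_apply, taylor_apply, taylor_apply, Polynomial.map_comp, Polynomial.map_add, map_X,
      map_C, map_map, map_map]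
    congr 2
    apply Polynomial.ringHom_ext
    · intro b
      simp only [RingHom.comp_apply, coe_compRingHom_apply, C_comp, hρ, hφ, coe_eval₂RingHom,
        eval₂_C, coe_mapRingHom, map_C]
    · simp only [RingHom.comp_apply, coe_compRingHom_apply, X_comp, hρ, hφ, coe_eval₂RingHom,
        eval₂_X, coe_mapRingHom, map_X, map_sub, map_pow, arcx]
  rw [h1, pull_map τ (natDegree_star_le hF) ui hui, h2]
  set c : PowerSeries K := PowerSeries.C (algebraMap B K τ ^ p) * ui with hc
  set F' := (F.map (mapRingHom (algebraMap B K))).map φ with hF'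
  have h3 : taylor (theta B K g) (C ((1 + PowerSeries.X) ^ d) *
      (taylor (ρ (X ^ 3 - X ^ 2)) F').comp (C c * X)) =
      C ((1 + PowerSeries.X) ^ d) *
        (taylor (arcy K (algebraMap B K τ ^ q) (algebraMap B K τ ^ p) (ui * theta B K g))
          F').comp (C c * X) := by
    rw [taylor_mul, taylor_C, taylor_apply, taylor_apply, taylor_apply, comp_assoc, comp_assoc,
      comp_assoc]
    congr 2
    simp only [add_comp, mul_comp, X_comp, C_comp, arcy, hρ, coe_eval₂RingHom, eval₂_sub,
      eval₂_pow, eval₂_X, C_add, C_mul, hc]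
    ring
  rw [h3, coeff_C_mul, comp_C_mul_X_coeff]
  exact Dvd.dvd.mul_left (Dvd.dvd.mul_right (hO j) _) _

end transfer

end MP_cea741_ag.Nod
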