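import Mathlib
import Pool.Agent.Lib.MP_cea741_ag.NodE

/-!
The theorem: for `r ≥ 10` and `d < m √r` a general curvilinear scheme taken `m` times lies on no
curve of degree `d`.
-/

namespace MP_cea741_ag.Nod

open Polynomial Sup

universe u

section clear

variable {B : Type*} [CommRing B] [IsDomain B] {K : Type*} [Field K] [Algebra B K]
  [IsFractionRing B K]

/-- clearing denominators -/
theorem exists_clear {d : ℕ} {F : K[X][X]} (hF : Dg d F) :
    ∃ (b : B) (F' : B[X][X]), b ≠ 0 ∧ Dg d F' ∧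
      F'.map (mapRingHom (algebraMap B K)) = C (C (algebraMap B K b)) * F := by
  classical
  obtain ⟨b, hb⟩ := IsLocalization.exist_integer_multiples_of_finset (nonZeroDivisors B)
    ((Finset.range (d + 1) ×ˢ Finset.range (d + 1)).image
      (fun kn : ℕ × ℕ => (F.coeff kn.1).coeff kn.2))
  have hinj := FaithfulSMul.algebraMap_injective B K
  have h1 : ∀ k n, ∃ c : B, algebraMap B K c = algebraMap B K b * (F.coeff k).coeff n := by
    intro k n
    by_cases h : (F.coeff k).coeff n = 0
    · exact ⟨0, by rw [h]; simp⟩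
    · have h2 := hF k n h
      obtain ⟨c, hc⟩ := hb ((F.coeff k).coeff n) (Finset.mem_image.2
        ⟨(k, n), by simp only [Finset.mem_product, Finset.mem_range]; omega, rfl⟩)
      refine ⟨c, ?_⟩
      rw [hc, Algebra.smul_def]
  choose f hf using h1
  refine ⟨b, ∑ k ∈ Finset.range (d + 1), ∑ n ∈ Finset.range (d + 1), monomial k (monomial n (f k n)),
    nonZeroDivisors.coe_ne_zero b, ?_, ?_⟩
  · intro k n h
    by_contra hcon
    push Not at hcon
    have h3 : (F.coeff k).coeff n = 0 := by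
      by_contra h4
      have := hF k n h4
      omega
    have h4 : f k n = 0 := by
      apply hinj
      rw [hf, h3, mul_zero, map_zero]
    apply h
    rw [finsetSum_coeff, finsetSum_coeff]
    refine Finset.sum_eq_zero fun k' _ => ?_
    rw [finsetSum_coeff, finsetSum_coeff]
    refine Finset.sum_eq_zero fun n' _ => ?_
    rw [coeff_mon2]
    split_ifs with h5
    · rw [h5.1, h5.2, h4]
    · rfl
  · ext k n
    rw [coeff_C_mul, coeff_C_mul, ← hf, coeff_map, coe_mapRingHom, coeff_map]
    congr 1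
    rw [finsetSum_coeff, finsetSum_coeff]
    by_cases hkn : n + k ≤ d
    · rw [Finset.sum_eq_single k]
      · rw [finsetSum_coeff, finsetSum_coeff, Finset.sum_eq_single n]
        · rw [coeff_mon2, if_pos ⟨rfl, rfl⟩]
        · intro n' _ h
          rw [coeff_mon2, if_neg (by rintro ⟨_, h'⟩; exact h h')]
        · intro h
          rw [Finset.mem_range] at h; omega
      · intro k' _ h
        rw [finsetSum_coeff, finsetSum_coeff]
        refine Finset.sum_eq_zero fun n' _ => ?_
        rw [coeff_mon2, if_neg (by rintro ⟨h', _⟩; exact h h')]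
      · intro h
        rw [Finset.mem_range] at h; omega
    · have h3 : (F.coeff k).coeff n = 0 := by
        by_contra h4
        have := hF k n h4
        omega
      have h4 : f k n = 0 := by
        apply hinj
        rw [hf, h3, mul_zero, map_zero]
      rw [h4]
      refine Finset.sum_eq_zero fun k' _ => ?_
      rw [finsetSum_coeff, finsetSum_coeff]
      refine Finset.sum_eq_zero fun n' _ => ?_
      rw [coeff_mon2]
      split_ifs with h5
      · rw [h5.1, h5.2, h4]
      · rfl

end clear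

/-- **The core.** Over `k[σ][τ]`, with an arbitrary family `Q l` of polynomials in `X`. -/
theorem core (k : Type u) [Field k] {d M p q : ℕ} (hq : 0 < q) (hpq : q < p)
    (h9 : 9 * (p * q) ≤ (p + q) * (p + q)) (hM : 9 ≤ M) {D : ℝ}
    (hD : 3 * D = M + 3 * (3 * q / (p + q))) (Q : ℕ → k[X]) (hQ0 : ∀ l, (Q l).coeff 0 ≠ 0)
    (hQ : ∀ l : ℕ, (l : ℝ) * D ≤ d → d * D - D ^ 2 * l < (Q l).natDegree)
    (F : k[X][X][X][X]) (hF : Dg d F)
    (hO : ∀ j, ((Q j).map C).map C ∣
      (taylor ((nxt 0 (X ^ M) : k[X][X]).map C) (pull X d p q (star F))).coeff j) : F = 0 := by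
  have hp0 : (0 : ℝ) < p := by
    have : 0 < p := by omega
    exact_mod_cast this
  have hq0 : (0 : ℝ) < q := by exact_mod_cast hq
  have hpq0 : (0 : ℝ) < (p : ℝ) + q := by linarith
  refine stepA hq hpq h9 (nxt 0 (X ^ M)) (fun j => (Q j).map C) ?_ F hF hO
  intro H hH hHO
  refine stepB (a := 3 * p / (p + q)) (c := 3 * q / (p + q)) (D := D) (d := d) (M := M) (S := d)
    ?_ (by positivity) (by positivity) hD ?_ ?_ Q hQ0 hQ H ?_ ?_ ?_ hHO
  · field_simp
  · have : (0 : ℝ) < M := by
      have : 0 < M := by omega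
      exact_mod_cast this
    have h2 : (0 : ℝ) < 3 * q / (p + q) := by positivity
    linarith
  · have h1 : (9 : ℝ) ≤ M := by exact_mod_cast hM
    have h2 : 3 * (3 * (p : ℝ) / (p + q)) ≤ 9 := by
      rw [← mul_div_assoc, div_le_iff₀ hpq0]; linarith
    linarith
  · intro j n h
    obtain ⟨i, h1, h2, _⟩ := hH j n h
    have h1' : (n : ℝ) = i + d - j := by
      have : ((n + j : ℕ) : ℝ) = ((i + d : ℕ) : ℝ) := by rw [h1]
      push_cast at this; linarith
    have h2' : ((p : ℝ) + q) * i + 9 * p * j ≤ 3 * p * d + (p + q) * j := by exact_mod_cast h2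
    have e : (n : ℝ) + 3 * (3 * p / (p + q)) * j - (d * (3 * p / (p + q)) + (d : ℕ)) =
        ((p + q) * i + 9 * p * j - (3 * p * d + (p + q) * j)) / (p + q) := by
      rw [h1']; field_simp; ring
    have : ((p + q) * i + 9 * p * j - (3 * p * d + (p + q) * j)) / ((p : ℝ) + q) ≤ 0 :=
      div_nonpos_of_nonpos_of_nonneg (by linarith) hpq0.le
    linarith
  · intro j n h
    obtain ⟨i, h1, _, h3⟩ := hH j n h
    have h1' : (n : ℝ) = i + d - j := by
      have : ((n + j : ℕ) : ℝ) = ((i + d : ℕ) : ℝ) := by rw [h1]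
      push_cast at this; linarith
    have h3' : ((p : ℝ) + q) * j + 9 * q * i ≤ 3 * q * d + (p + q) * i := by exact_mod_cast h3
    have e : (3 * (3 * q / (p + q)) - 1) * (n : ℝ) + 3 * (3 * q / (p + q)) * j -
        (d * (3 * q / (p + q)) + (3 * (3 * q / (p + q)) - 1) * (d : ℕ)) =
        ((p + q) * j + 9 * q * i - (3 * q * d + (p + q) * i)) / (p + q) := by
      rw [h1']; field_simp; ring
    have : ((p + q) * j + 9 * q * i - (3 * q * d + (p + q) * i)) / ((p : ℝ) + q) ≤ 0 :=
      div_nonpos_of_nonpos_of_nonneg (by linarith) hpq0.le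
    linarith
  · intro j n h
    obtain ⟨i, h1, _, _⟩ := hH j n h
    omega

/-- parameters -/
theorem exists_params {x y : ℝ} (hxy : x < y) (hy : 3 < y) :
    ∃ (M p q : ℕ) (D : ℝ), 0 < q ∧ q < p ∧ 9 * (p * q) ≤ (p + q) * (p + q) ∧ 9 ≤ M ∧
      3 * D = M + 3 * (3 * q / (p + q)) ∧ x < D ∧ D < y ∧ 3 < D := by
  obtain ⟨D, h1, h2⟩ := exists_rat_btwn (max_lt hxy hy)
  have hx : x < D := lt_of_le_of_lt (le_max_left _ _) h1
  have h3 : (3 : ℝ) < D := lt_of_le_of_lt (le_max_right _ _) h1
  have h3' : (3 : ℚ) < D := by exact_mod_cast h3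
  -- `3 D = M + e`, `0 < e ≤ 1`
  obtain ⟨M', hM'⟩ : ∃ M' : ℤ, M' = ⌈3 * D⌉ - 1 := ⟨_, rfl⟩
  have e1 : (M' : ℚ) < 3 * D := by
    have := Int.ceil_lt_add_one (3 * D)
    rw [hM']; push_cast; linarith
  have e2 : 3 * D ≤ (M' : ℚ) + 1 := by
    have := Int.le_ceil (3 * D)
    rw [hM']; push_cast; linarith
  have hM9 : 9 ≤ M' := by
    have : (8 : ℚ) < M' := by linarith
    have : (8 : ℤ) < M' := by exact_mod_cast this
    omega
  obtain ⟨M, hM⟩ : ∃ M : ℕ, (M : ℤ) = M' := ⟨M'.toNat, by rw [Int.toNat_of_nonneg]; omega⟩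
  set e : ℚ := 3 * D - M with he
  have hMq : (M : ℚ) = M' := by exact_mod_cast congrArg (fun z : ℤ => (z : ℚ)) hM
  have he0 : 0 < e := by rw [he, hMq]; linarith
  have he1 : e ≤ 1 := by rw [he, hMq]; linarith
  -- `9 / e = num / den`
  set y' : ℚ := 9 / e with hy'
  have hy9 : 9 ≤ y' := by rw [hy', le_div_iff₀ he0]; linarith
  have hy0 : 0 < y' := by linarith
  obtain ⟨N, hN⟩ : ∃ N : ℕ, (N : ℤ) = y'.num :=
    ⟨y'.num.toNat, by rw [Int.toNat_of_nonneg (Rat.num_nonneg.2 hy0.le)]⟩
  have hden : (0 : ℚ) < y'.den := by exact_mod_cast y'.den_pos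
  have hNd : (N : ℚ) = y' * y'.den := by
    have : (N : ℚ) = (y'.num : ℚ) := by exact_mod_cast congrArg (fun z : ℤ => (z : ℚ)) hN
    rw [this, Rat.mul_den_eq_num]
  have hN9 : 9 * y'.den ≤ N := by
    have : (9 : ℚ) * y'.den ≤ N := by rw [hNd]; exact mul_le_mul_of_nonneg_right hy9 hden.le
    exact_mod_cast this
  have hdpos := y'.den_pos
  refine ⟨M, N - y'.den, y'.den, D, hdpos, by omega, ?_, ?_, ?_, hx, h2, h3⟩
  · have e3 : N - y'.den + y'.den = N := by omega
    rw [e3]
    have e4 : 9 * ((N - y'.den) * y'.den) ≤ (N - y'.den) * N := by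
      calc 9 * ((N - y'.den) * y'.den) = (N - y'.den) * (9 * y'.den) := by ring
        _ ≤ (N - y'.den) * N := Nat.mul_le_mul_left _ hN9
    exact e4.trans (Nat.mul_le_mul_right _ (Nat.sub_le _ _))
  · omega
  · have e3 : (((N - y'.den : ℕ) : ℝ) + (y'.den : ℕ)) = N := by
      rw [Nat.cast_sub (by omega)]; ring
    rw [e3]
    have e5 : (N : ℝ) = (y' : ℝ) * (y'.den : ℝ) := by exact_mod_cast hNd
    have e6 : (y' : ℝ) = 9 / (e : ℝ) := by rw [hy']; push_cast; ring
    have he0' : (0 : ℝ) < (e : ℝ) := by exact_mod_cast he0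
    have hden' : (0 : ℝ) < (y'.den : ℝ) := by exact_mod_cast hden
    have e7 : (3 * (3 * (y'.den : ℝ) / (N : ℝ))) = (e : ℝ) := by
      rw [e5, e6]; field_simp; ring
    rw [e7, he]; push_cast; ring

/-- **Theorem.** -/
theorem nagata_vanishing (k : Type u) [Field k] (r m d : ℕ) (hr : 10 ≤ r)
    (hd : d ^ 2 < m ^ 2 * r) :
    ∃ Φ : MvPolynomial (Fin r) k, Φ ≠ 0 ∧
      ∀ (a : k) (c : Fin r → k), MvPolynomial.eval c Φ ≠ 0 →
        ∀ F : MvPolynomial (Fin 2) k, F.totalDegree ≤ d → F ∈ Arc.arcIdeal a c ^ m → F = 0 := by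
  have hr' : (10 : ℝ) ≤ r := by exact_mod_cast hr
  have hr0 : (0 : ℝ) < r := by linarith
  have hm : 0 < m := by
    rcases Nat.eq_zero_or_pos m with h | h
    · subst h; simp at hd
    · exact h
  have hm' : (0 : ℝ) < m := by exact_mod_cast hm
  have hsq : √(r : ℝ) * √(r : ℝ) = r := Real.mul_self_sqrt hr0.le
  have hs0 : 0 < √(r : ℝ) := Real.sqrt_pos.2 hr0
  have hs3 : 3 < √(r : ℝ) := by
    rw [show (3 : ℝ) = √9 by rw [show (9 : ℝ) = 3 ^ 2 by norm_num]; simp]
    exact Real.sqrt_lt_sqrt (by norm_num) (by linarith)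
  have hds : (d : ℝ) < m * √(r : ℝ) := by
    have h1 : (d : ℝ) ^ 2 < m ^ 2 * r := by exact_mod_cast hd
    have h2 : (d : ℝ) ^ 2 < (m * √(r : ℝ)) ^ 2 := by
      rw [mul_pow, Real.sq_sqrt hr0.le]; exact h1
    exact lt_of_pow_lt_pow_left₀ 2 (by positivity) h2
  -- choose `D`
  obtain ⟨D0, hD0, hD0'⟩ : ∃ y : ℝ, √(r : ℝ) ≤ y ∧ ∀ D, D < y → d * D < r * m := by
    rcases Nat.eq_zero_or_pos d with h | h
    · exact ⟨√(r : ℝ), le_rfl, fun D _ => by rw [h]; simp; positivity⟩
    · have hd0 : (0 : ℝ) < d := by exact_mod_cast h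
      refine ⟨r * m / d, ?_, ?_⟩
      · rw [le_div_iff₀ hd0]
        nlinarith
      · intro D hD
        rw [lt_div_iff₀ hd0] at hD
        linarith
  obtain ⟨M, p, q, D, hq, hpq, h9, hM, hD, hx, hy, hD3⟩ := exists_params
    (x := d / m) (y := D0) (by
      refine lt_of_lt_of_le ?_ hD0
      rw [div_lt_iff₀ hm']; linarith) (by linarith)
  have hx' : (d : ℝ) < m * D := by
    rw [div_lt_iff₀ hm'] at hx; linarith
  have hy' := hD0' D hy
  set K := FractionRing k[X][X] with hK
  set τK : K := algebraMap k[X][X] K X with hτK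
  obtain ⟨ui, hui⟩ : ∃ ui : PowerSeries K, (1 + PowerSeries.X) * ui = 1 :=
    ⟨(1 + PowerSeries.X)⁻¹, PowerSeries.mul_inv_cancel _ (by simp)⟩
  set g : k[X][X][X] := (nxt 0 (X ^ M) : k[X][X]).map C with hg
  apply vanishing_of_arc k r m d K (arcx K (τK ^ q))
    (arcy K (τK ^ q) (τK ^ p) (ui * theta k[X][X] K g))
  · -- uniformiser
    have e1 : arcx K (τK ^ q) = PowerSeries.C ((τK ^ q) ^ 2 - τK ^ q) +
        PowerSeries.C (2 * (τK ^ q) ^ 2 - τK ^ q) * PowerSeries.X ^ 1 +
        PowerSeries.C ((τK ^ q) ^ 2) * PowerSeries.X ^ 2 := by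
      simp only [arcx, map_sub, map_mul, map_pow, map_ofNat]
      ring
    rw [e1, map_add, map_add, PowerSeries.coeff_C_mul, PowerSeries.coeff_C_mul,
      PowerSeries.coeff_X_pow, PowerSeries.coeff_X_pow, PowerSeries.coeff_C]
    simp only [one_ne_zero, if_false, if_true, zero_add, mul_one]
    rw [if_neg (by norm_num), mul_zero, add_zero]
    have e2 : 2 * (τK ^ q) ^ 2 - τK ^ q =
        algebraMap k[X][X] K (X ^ q * (2 * X ^ q - 1)) := by
      rw [map_mul, map_sub, map_mul, map_pow, map_one, map_ofNat, hτK]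
      ring
    rw [e2]
    have hinj := FaithfulSMul.algebraMap_injective k[X][X] K
    intro h0
    have h1 : (X ^ q * (2 * X ^ q - 1) : k[X][X]) = 0 := by
      apply hinj; rw [h0, map_zero]
    rcases mul_eq_zero.1 h1 with h2 | h2
    · exact pow_ne_zero _ X_ne_zero h2
    · have h3 := congrArg (fun P : k[X][X] => P.coeff 0) h2
      simp only [coeff_sub, coeff_zero, coeff_one_zero] at h3
      have h4 : (2 * X ^ q : k[X][X]).coeff 0 = 0 := by
        have : (2 : k[X][X]) = C 2 := (map_ofNat C 2).symm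
        rw [this, coeff_C_mul, coeff_X_pow, if_neg (by omega), mul_zero]
      rw [h4] at h3
      simp at h3
  · intro F hF hO
    obtain ⟨b, F', hb, hF', hFF⟩ := exists_clear (B := k[X][X]) (K := K) (d := d) (F := F) hF
    have hb' : algebraMap k[X][X] K b ≠ 0 := by
      simpa using hb
    have h1 : F' = 0 := by
      refine core k hq hpq h9 hM hD (fun j => (X - C 1) ^ (r * m - r * j)) ?_ ?_ F' hF' ?_
      · intro l
        rw [coeff_zero_eq_eval_zero]
        simp
      · intro l hl
        rw [natDegree_pow, natDegree_X_sub_C, mul_one]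
        have hlm : l ≤ m := by
          have h5 : (l : ℝ) * D < m * D := by linarith
          have h6 : (l : ℝ) < m := lt_of_mul_lt_mul_right h5 (by linarith)
          exact_mod_cast h6.le
        rw [Nat.cast_sub (Nat.mul_le_mul_left _ hlm)]
        push_cast
        rcases le_total (D ^ 2) (r : ℝ) with h7 | h7
        · have h8 : ((r : ℝ) - D ^ 2) * (l * D) ≤ (r - D ^ 2) * d :=
            mul_le_mul_of_nonneg_left hl (by linarith)
          have h9' : (r : ℝ) * d < r * (m * D) := mul_lt_mul_of_pos_left hx' hr0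
          have h10 : 0 < D * (r * m - r * l - (d * D - D ^ 2 * l)) := by nlinarith
          have := (mul_pos_iff_of_pos_left (by linarith : (0:ℝ) < D)).1 h10
          linarith
        · have h8 : (0 : ℝ) ≤ (D ^ 2 - r) * l := mul_nonneg (by linarith) (by positivity)
          nlinarith
      · intro j
        have h2 := transfer (K := K) (X : k[X][X]) (d := d) (p := p) (q := q) g ui hui F' hF'
          (fun j => r * m - r * j) (by
            intro j
            have e1 : (F'.map (mapRingHom (algebraMap k[X][X] K))).map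
                (eval₂RingHom (PowerSeries.C) (arcx K (algebraMap k[X][X] K X ^ q))) =
                C (PowerSeries.C (algebraMap k[X][X] K b)) * F.map
                  (eval₂RingHom (PowerSeries.C) (arcx K (algebraMap k[X][X] K X ^ q))) := by
              rw [hFF, Polynomial.map_mul, map_C]
              congr 2
              simp
            rw [e1, taylor_mul, taylor_C, coeff_C_mul]
            exact Dvd.dvd.mul_left (hO j) _) j
        have e2 : (((X - C 1 : k[X]) ^ (r * m - r * j)).map C).map C =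
            (X - C 1 : k[X][X][X]) ^ (r * m - r * j) := by simp
        rw [e2]
        exact h2
    rw [h1, Polynomial.map_zero] at hFF
    rcases mul_eq_zero.1 hFF.symm with h2 | h2
    · exfalso
      apply hb'
      simpa using h2
    · exact h2

end MP_cea741_ag.Nod
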