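import Mathlib
import Pool.Agent.Lib.MP_cea741_ag.NodF
import Pool.Agent.Lib.MP_cea741_ag.Transfer
import Pool.Agent.Lib.MP_cea741_ag.VirH

/-!
Squares, and the full range `d ≤ m √r`.
-/

namespace MP_cea741_ag.Nod

open MP_cea741_ag

universe u

/-- perfect squares, boundary case included -/
theorem van_square (k : Type u) [Field k] (r m d : ℕ) (hr : 9 < r) (hm : 1 ≤ m)
    (hd : d ≤ m * Nat.sqrt r) :
    ∃ Φ : MvPolynomial (Fin r) k, Φ ≠ 0 ∧
      ∀ (a : k) (c : Fin r → k), MvPolynomial.eval c Φ ≠ 0 →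
        ∀ F : MvPolynomial (Fin 2) k, F.totalDegree ≤ d → F ∈ Arc.arcIdeal a c ^ m → F = 0 := by
  set s := Nat.sqrt r with hs
  have hs3 : 3 ≤ s := by
    rw [hs, Nat.le_sqrt]; omega
  have hsr : s ^ 2 ≤ r := by
    rw [hs, pow_two]; exact Nat.sqrt_le r
  obtain ⟨Φ, h1, h2⟩ := Vir.open_of_family k (A := Polynomial (RatFunc k)) r m (m * s)
    (cfam (RatFunc.X : RatFunc k) s r) (fun v hv =>
      family_injective (RatFunc.X : RatFunc k) RatFunc.X_ne_zero
        (fun n hn => ratFunc_X_pow_ne_one k n hn) s r m hs3 hsr hr hm v hv)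
  exact ⟨Φ, h1, fun a c hc F hF => h2 a c hc F (hF.trans hd)⟩

/-- **Q1.** -/
theorem van_all (k : Type u) [Field k] (r m d : ℕ) (hr : 9 < r) (hm : 1 ≤ m)
    (hd : d ^ 2 ≤ m ^ 2 * r) :
    ∃ Φ : MvPolynomial (Fin r) k, Φ ≠ 0 ∧
      ∀ (a : k) (c : Fin r → k), MvPolynomial.eval c Φ ≠ 0 →
        ∀ F : MvPolynomial (Fin 2) k, F.totalDegree ≤ d → F ∈ Arc.arcIdeal a c ^ m → F = 0 := by
  rcases hd.lt_or_eq with h | h
  · exact nagata_vanishing k r m d hr h
  · -- equality: `r` is a square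
    apply van_square k r m d hr hm
    have h1 : m ∣ d := by
      have : m ^ 2 ∣ d ^ 2 := ⟨r, h⟩
      exact (Nat.pow_dvd_pow_iff (by norm_num)).1 this
    obtain ⟨e, rfl⟩ := h1
    have h2 : e ^ 2 = r := by
      rw [mul_pow] at h
      exact Nat.eq_of_mul_eq_mul_left (by positivity) h
    rw [← h2, pow_two, Nat.sqrt_eq]

end MP_cea741_ag.Nod
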