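import Mathlib
import Pool.Agent.Lib.MP_cea741_ag.Branch

/-!
Irreducibility of `((y - x^(2c)) - y^(bc))^2 - μ^2 (y - x^(2c))^b` over `K(μ)` for odd `b`.
-/

namespace MP_cea741_ag.Br

open MvPolynomial

noncomputable section

/-- the polynomial `F` over a commutative ring. -/
def Fp (R : Type*) [CommRing R] (b c : ℕ) (μ : R) : MvPolynomial (Fin 2) R :=
  FF b c (C μ) (X 0) (X 1)

theorem Fp_totalDegree_le (R : Type*) [CommRing R] [IsDomain R] (b c : ℕ) (hb : 3 ≤ b) (hc : 1 ≤ c)
    (μ : R) :
    (Fp R b c μ).totalDegree ≤ 2 * (b * c) := by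
  have hA : (X 1 - X 0 ^ (2 * c) : MvPolynomial (Fin 2) R).totalDegree ≤ max 1 (2 * c) := by
    refine (totalDegree_sub _ _).trans ?_
    rw [totalDegree_X]
    exact max_le_max le_rfl (by rw [totalDegree_X_pow])
  rw [Fp, FF]
  have hA' : (X 1 - X 0 ^ (2 * c) : MvPolynomial (Fin 2) R).totalDegree ≤ 2 * c := by
    refine hA.trans (max_le (by omega) le_rfl)
  refine (totalDegree_sub _ _).trans (max_le ?_ ?_)
  · refine (totalDegree_pow _ _).trans (Nat.mul_le_mul_left _ ?_)
    refine (totalDegree_sub _ _).trans (max_le (hA'.trans (Nat.mul_le_mul_right _ (by omega))) ?_)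
    rw [totalDegree_X_pow]
  · refine (totalDegree_mul _ _).trans ?_
    rw [← map_pow, totalDegree_C, zero_add]
    refine (totalDegree_pow _ _).trans ((Nat.mul_le_mul_left _ hA').trans (le_of_eq (by ring)))

theorem le_Fp_totalDegree (R : Type*) [CommRing R] [IsDomain R] (b c : ℕ) (hb : 3 ≤ b) (hc : 1 ≤ c)
    (μ : R) : 2 * (b * c) ≤ (Fp R b c μ).totalDegree := by
  have h1 := MvPolynomial.aeval_natDegree_le (m := (Fp R b c μ).totalDegree) (Fp R b c μ) le_rfl
    (![0, Polynomial.X] : Fin 2 → Polynomial R) (n := 1) (by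
      intro i
      fin_cases i
      · simp
      · exact Polynomial.natDegree_X_le)
  rw [mul_one] at h1
  refine le_trans ?_ h1
  have h2 : (aeval (![0, Polynomial.X] : Fin 2 → Polynomial R)) (Fp R b c μ) =
      (Polynomial.X - Polynomial.X ^ (b * c)) ^ 2 - Polynomial.C μ ^ 2 * Polynomial.X ^ b := by
    simp only [Fp, FF, map_sub, map_mul, map_pow, aeval_X, aeval_C, Matrix.cons_val_zero,
      Matrix.cons_val_one]
    rw [zero_pow (by omega), sub_zero]
    rfl
  rw [h2]
  apply Polynomial.le_natDegree_of_ne_zero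
  have hbc : 3 ≤ b * c := by nlinarith
  have hbc' : b ≤ b * c := Nat.le_mul_of_pos_right _ hc
  have e : (Polynomial.X - Polynomial.X ^ (b * c)) ^ 2 - Polynomial.C μ ^ 2 * Polynomial.X ^ b
      = Polynomial.X ^ (2 * (b * c)) - Polynomial.C 2 * Polynomial.X ^ (b * c + 1)
        + Polynomial.X ^ 2 - Polynomial.C (μ ^ 2) * Polynomial.X ^ b := by
    rw [Polynomial.C_pow]
    have : (Polynomial.C 2 : Polynomial R) = 2 := rfl
    rw [this]
    ring
  rw [e]
  simp only [Polynomial.coeff_sub, Polynomial.coeff_add, Polynomial.coeff_C_mul,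
    Polynomial.coeff_X_pow]
  have n1 : ¬ 2 * (b * c) = b * c + 1 := by omega
  have n2 : ¬ 2 * (b * c) = 2 := by omega
  have n3 : ¬ 2 * (b * c) = b := by omega
  simp [n1, n2, n3]

theorem irreducible_aux {B : Type*} [CommRing B] [IsDomain B] [UniqueFactorizationMonoid B]
    (A H : B) (b : ℕ) (hb : Odd b) (hA : Prime A) (hAH : ¬ A ∣ H) :
    Irreducible (Polynomial.C (H ^ 2) - Polynomial.X ^ 2 * Polynomial.C (A ^ b)) := by
  have hA0 : A ^ b ≠ 0 := pow_ne_zero _ hA.ne_zero
  have hH0 : H ≠ 0 := by rintro rfl; exact hAH (dvd_zero _)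
  set P : Polynomial B := Polynomial.C (H ^ 2) - Polynomial.X ^ 2 * Polynomial.C (A ^ b) with hP
  have hcoeff : ∀ n, P.coeff n = (if n = 0 then H ^ 2 else 0) - (if n = 2 then A ^ b else 0) := by
    intro n
    rw [hP, Polynomial.coeff_sub, Polynomial.coeff_C, Polynomial.coeff_mul_C, Polynomial.coeff_X_pow]
    split_ifs <;> simp
  have hdeg : P.natDegree = 2 := by
    apply Polynomial.natDegree_eq_of_le_of_coeff_ne_zero
    · rw [Polynomial.natDegree_le_iff_coeff_eq_zero]
      intro n hn
      rw [hcoeff, if_neg (by omega), if_neg (by omega), sub_zero]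
    · rw [hcoeff]
      simpa using hA0
  have hP0 : P ≠ 0 := by rintro h; rw [h] at hdeg; simp at hdeg
  -- a constant factor is a unit
  have hconst : ∀ U W : Polynomial B, P = U * W → U.natDegree = 0 → IsUnit U := by
    intro U W hUW hU
    obtain ⟨u, rfl⟩ : ∃ u, U = Polynomial.C u := ⟨_, Polynomial.eq_C_of_natDegree_eq_zero hU⟩
    have h0 := hcoeff 0
    have h2 := hcoeff 2
    rw [hUW, Polynomial.coeff_C_mul] at h0 h2
    have h0' : u ∣ H ^ 2 := ⟨W.coeff 0, by rw [h0]; simp⟩
    have h2' : u ∣ A ^ b := ⟨-W.coeff 2, by rw [mul_neg, h2]; simp⟩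
    obtain ⟨i, _, hi⟩ := (dvd_prime_pow hA b).mp h2'
    rcases Nat.eq_zero_or_pos i with h | h
    · subst h
      rw [pow_zero] at hi
      exact (associated_one_iff_isUnit.mp hi).map Polynomial.C
    · exfalso
      apply hAH
      have : A ∣ u := (dvd_pow_self A (by omega)).trans hi.symm.dvd
      exact hA.dvd_of_dvd_pow (this.trans h0')
  rw [irreducible_iff]
  refine ⟨fun h => ?_, fun U W hUW => ?_⟩
  · have := Polynomial.natDegree_eq_zero_of_isUnit h
    omega
  · have hU0 : U ≠ 0 := by rintro rfl; rw [zero_mul] at hUW; exact hP0 hUW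
    have hW0 : W ≠ 0 := by rintro rfl; rw [mul_zero] at hUW; exact hP0 hUW
    have hd : U.natDegree + W.natDegree = 2 := by
      rw [← Polynomial.natDegree_mul hU0 hW0, ← hUW, hdeg]
    rcases (by omega : U.natDegree = 0 ∨ W.natDegree = 0 ∨ (U.natDegree = 1 ∧ W.natDegree = 1)) with
      h | h | ⟨h1, h2⟩
    · exact Or.inl (hconst U W hUW h)
    · exact Or.inr (hconst W U (by rw [hUW, mul_comm]) h)
    · exfalso
      set p := U.coeff 1 with hp
      set q := U.coeff 0 with hq
      set p' := W.coeff 1 with hp'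
      set q' := W.coeff 0 with hq'
      have hU : U = Polynomial.C p * Polynomial.X + Polynomial.C q :=
        Polynomial.eq_X_add_C_of_natDegree_le_one h1.le
      have hW : W = Polynomial.C p' * Polynomial.X + Polynomial.C q' :=
        Polynomial.eq_X_add_C_of_natDegree_le_one h2.le
      have hUW' : P = Polynomial.C (p * p') * Polynomial.X ^ 2
          + Polynomial.C (p * q' + q * p') * Polynomial.X + Polynomial.C (q * q') := by
        rw [hUW, hU, hW]
        simp only [Polynomial.C_mul, Polynomial.C_add]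
        ring
      have c0 : q * q' = H ^ 2 := by
        have := hcoeff 0
        rw [hUW'] at this
        simp only [Polynomial.coeff_add, Polynomial.coeff_C_mul, Polynomial.coeff_X_pow,
          Polynomial.coeff_X, Polynomial.coeff_C] at this
        simpa using this
      have c1 : p * q' + q * p' = 0 := by
        have := hcoeff 1
        rw [hUW'] at this
        simp only [Polynomial.coeff_add, Polynomial.coeff_C_mul, Polynomial.coeff_X_pow,
          Polynomial.coeff_X, Polynomial.coeff_C] at this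
        simpa using this
      have c2 : p * p' = - A ^ b := by
        have := hcoeff 2
        rw [hUW'] at this
        simp only [Polynomial.coeff_add, Polynomial.coeff_C_mul, Polynomial.coeff_X_pow,
          Polynomial.coeff_X, Polynomial.coeff_C] at this
        simpa using this
      have key : p ^ 2 * H ^ 2 = q ^ 2 * A ^ b := by
        have : p ^ 2 * H ^ 2 - q ^ 2 * A ^ b = (p * q) * (p * q' + q * p') - q ^ 2 * (p * p' + A ^ b)
            - p ^ 2 * (q * q' - H ^ 2) := by ring
        rw [c1, c2, c0] at this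
        have h3 : p ^ 2 * H ^ 2 - q ^ 2 * A ^ b = 0 := by rw [this]; ring
        exact sub_eq_zero.mp h3
      have hp0 : p ≠ 0 := by
        intro h; rw [h, zero_mul] at c2
        exact hA0 (neg_eq_zero.mp c2.symm)
      have hq0 : q ≠ 0 := by
        intro h; rw [h, zero_mul] at c0
        exact hH0 (pow_eq_zero_iff two_ne_zero |>.mp c0.symm)
      have f1 : FiniteMultiplicity A (p ^ 2 * H ^ 2) :=
        FiniteMultiplicity.of_prime_left hA (mul_ne_zero (pow_ne_zero _ hp0) (pow_ne_zero _ hH0))
      have f2 : FiniteMultiplicity A (q ^ 2 * A ^ b) :=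
        FiniteMultiplicity.of_prime_left hA (mul_ne_zero (pow_ne_zero _ hq0) hA0)
      have m1 : multiplicity A (p ^ 2 * H ^ 2) = 2 * multiplicity A p + 2 * 0 := by
        rw [multiplicity_mul hA f1,
          FiniteMultiplicity.multiplicity_pow hA (FiniteMultiplicity.of_prime_left hA hp0),
          FiniteMultiplicity.multiplicity_pow hA (FiniteMultiplicity.of_prime_left hA hH0),
          multiplicity_eq_zero.mpr hAH]
      have m2 : multiplicity A (q ^ 2 * A ^ b) = 2 * multiplicity A q + b := by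
        rw [multiplicity_mul hA f2,
          FiniteMultiplicity.multiplicity_pow hA (FiniteMultiplicity.of_prime_left hA hq0),
          multiplicity_pow_self hA.ne_zero hA.not_isUnit]
      rw [key] at m1
      obtain ⟨t, ht⟩ := hb
      omega

/-- `K[μ][x,y] ≃ K[x,y][μ]`. -/
def swap (K : Type*) [Field K] :
    MvPolynomial (Fin 2) (Polynomial K) ≃ₐ[K] Polynomial (MvPolynomial (Fin 2) K) :=
  (optionEquivRight K (Fin 2)).symm.trans (optionEquivLeft K (Fin 2))

theorem swap_X (K : Type*) [Field K] (i : Fin 2) : swap K (X i) = Polynomial.C (X i) := by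
  rw [swap, AlgEquiv.trans_apply]
  have : (optionEquivRight K (Fin 2)).symm (X i) = X (some i) := by
    rw [AlgEquiv.symm_apply_eq, optionEquivRight_X_some]
  rw [this, optionEquivLeft_X_some]

theorem swap_CX (K : Type*) [Field K] : swap K (C Polynomial.X) = Polynomial.X := by
  rw [swap, AlgEquiv.trans_apply]
  have : (optionEquivRight K (Fin 2)).symm (C Polynomial.X) = X none := by
    rw [AlgEquiv.symm_apply_eq, optionEquivRight_X_none]
  rw [this, optionEquivLeft_X_none]

theorem prime_A (K : Type*) [Field K] (n : ℕ) : Prime (X 1 - X 0 ^ n : MvPolynomial (Fin 2) K) := by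
  set φ : MvPolynomial (Fin 2) K →ₐ[K] MvPolynomial (Fin 2) K := aeval ![X 0, X 1 - X 0 ^ n] with hφ
  set ψ : MvPolynomial (Fin 2) K →ₐ[K] MvPolynomial (Fin 2) K := aeval ![X 0, X 1 + X 0 ^ n] with hψ
  have h1 : φ.comp ψ = AlgHom.id K _ := by
    apply MvPolynomial.algHom_ext
    intro i
    fin_cases i
    · simp [hφ, hψ]
    · simp [hφ, hψ]
  have h2 : ψ.comp φ = AlgHom.id K _ := by
    apply MvPolynomial.algHom_ext
    intro i
    fin_cases i
    · simp [hφ, hψ]
    · simp [hφ, hψ]
  have h3 : (X 1 - X 0 ^ n : MvPolynomial (Fin 2) K) = AlgEquiv.ofAlgHom φ ψ h1 h2 (X 1) := by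
    simp [hφ]
  rw [h3, MulEquiv.prime_iff]
  exact X_prime

theorem prime_Fp0 (K : Type*) [Field K] (b c : ℕ) (hb : Odd b) (hc : 1 ≤ c) :
    Prime (Fp (Polynomial K) b c Polynomial.X) := by
  rw [← MulEquiv.prime_iff (swap K)]
  set A : MvPolynomial (Fin 2) K := X 1 - X 0 ^ (2 * c) with hA
  set H : MvPolynomial (Fin 2) K := A - X 1 ^ (b * c) with hH
  have e : swap K (Fp (Polynomial K) b c Polynomial.X) =
      Polynomial.C (H ^ 2) - Polynomial.X ^ 2 * Polynomial.C (A ^ b) := by
    simp only [Fp, FF, map_sub, map_mul, map_pow, swap_X, swap_CX, hH, hA]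
  rw [e]
  refine (irreducible_aux A H b hb (prime_A K _) ?_).prime
  intro h
  have h1 : A ∣ X 1 ^ (b * c) := by
    have := dvd_sub (dvd_refl A) h
    rwa [hH, sub_sub_cancel] at this
  obtain ⟨Q, hQ⟩ := h1
  have h2 := congrArg (aeval (![Polynomial.X, Polynomial.X ^ (2 * c)] : Fin 2 → Polynomial K)) hQ
  rw [map_mul] at h2
  simp only [hA, map_sub, map_pow, aeval_X, Matrix.cons_val_zero, Matrix.cons_val_one, sub_self,
    zero_mul] at h2
  exact pow_ne_zero _ (pow_ne_zero _ Polynomial.X_ne_zero) h2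

theorem Fp_map {R S : Type*} [CommRing R] [CommRing S] (f : R →+* S) (b c : ℕ) (μ : R) :
    MvPolynomial.map f (Fp R b c μ) = Fp S b c (f μ) := by
  simp [Fp, FF]

attribute [local instance] MvPolynomial.algebraMvPolynomial in
/-- `F` is prime over `K(μ)`. -/
theorem prime_Fp (K : Type*) [Field K] (b c : ℕ) (hb : Odd b) (hb3 : 3 ≤ b) (hc : 1 ≤ c) :
    Prime (Fp (RatFunc K) b c RatFunc.X) := by
  set M : Submonoid (Polynomial K) := nonZeroDivisors (Polynomial K) with hM
  have h0 := prime_Fp0 K b c hb hc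
  set F0 := Fp (Polynomial K) b c Polynomial.X with hF0
  have h1 : (Ideal.span {F0}).IsPrime := (Ideal.span_singleton_prime h0.ne_zero).mpr h0
  have hdisj : Disjoint ((M.map (C (σ := Fin 2)) : Submonoid (MvPolynomial (Fin 2) (Polynomial K))) :
      Set (MvPolynomial (Fin 2) (Polynomial K))) (Ideal.span {F0}) := by
    rw [Set.disjoint_left]
    rintro _ ⟨p, hp, rfl⟩ h2
    have hp0 : p ≠ 0 := nonZeroDivisors.ne_zero hp
    rw [SetLike.mem_coe, Ideal.mem_span_singleton] at h2
    obtain ⟨Q, hQ⟩ := h2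
    have hQ0 : Q ≠ 0 := by
      rintro rfl
      rw [mul_zero] at hQ
      exact hp0 (C_eq_zero.mp hQ)
    have h3 := congrArg totalDegree hQ
    rw [totalDegree_mul_of_isDomain h0.ne_zero hQ0] at h3
    have h4 : totalDegree (C p : MvPolynomial (Fin 2) (Polynomial K)) = 0 := totalDegree_C p
    have h5 : 2 * (b * c) ≤ F0.totalDegree := le_Fp_totalDegree (Polynomial K) b c hb3 hc Polynomial.X
    have h6 : 1 ≤ b * c := by nlinarith
    have h7 : totalDegree (C p : MvPolynomial (Fin 2) (Polynomial K)) = F0.totalDegree + Q.totalDegree := h3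
    rw [h4] at h7
    clear_value F0
    omega
  have h2 := IsLocalization.isPrime_of_isPrime_disjoint
    (M.map (C (σ := Fin 2)) : Submonoid (MvPolynomial (Fin 2) (Polynomial K)))
    (MvPolynomial (Fin 2) (RatFunc K)) (Ideal.span {F0}) h1 hdisj
  rw [Ideal.map_span, Set.image_singleton] at h2
  have h3 : algebraMap (MvPolynomial (Fin 2) (Polynomial K)) (MvPolynomial (Fin 2) (RatFunc K)) F0
      = Fp (RatFunc K) b c RatFunc.X := by
    rw [MvPolynomial.algebraMap_def, hF0, Fp_map, RatFunc.algebraMap_X]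
  rw [h3] at h2
  have h4 : Fp (RatFunc K) b c RatFunc.X ≠ 0 := by
    intro h
    have h5 := le_Fp_totalDegree (RatFunc K) b c hb3 hc RatFunc.X
    rw [h, totalDegree_zero] at h5
    have h6 : 1 ≤ b * c := by nlinarith
    omega
  exact (Ideal.span_singleton_prime h4).mp h2

end

end MP_cea741_ag.Br
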