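import Mathlib
import Pool.Agent.Lib.MP_cea741_ag.TotDeg
import Pool.Agent.Lib.MP_cea741_ag.Classify

namespace MP_cea741_ag.Sec

open MvPolynomial MP_cea741_ag MP_cea741_ag.Arc

/-- exchange of `x` and `y`. -/
noncomputable def swap (k : Type*) [Field k] :
    MvPolynomial (Fin 2) k →ₐ[k] MvPolynomial (Fin 2) k := aeval ![X 1, X 0]

/-- restriction to the chart `x_2 = 1`. -/
noncomputable def dehom (k : Type*) [Field k] :
    MvPolynomial (Fin 3) k →ₐ[k] MvPolynomial (Fin 2) k := aeval ![X 0, X 1, 1]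

theorem dehom_totalDegree {k : Type*} [Field k] (G : MvPolynomial (Fin 3) k) :
    (dehom k G).totalDegree ≤ G.totalDegree := by
  refine totalDegree_aeval_le _ ?_ G
  intro i
  fin_cases i
  · simp [totalDegree_X]
  · simp [totalDegree_X]
  · simp

/-- the exponent of the dehomogenised monomial. -/
noncomputable def pr (u : Fin 3 →₀ ℕ) : Fin 2 →₀ ℕ :=
  Finsupp.single 0 (u 0) + Finsupp.single 1 (u 1)

theorem dehom_eq {k : Type*} [Field k] (G : MvPolynomial (Fin 3) k) :
    dehom k G = ∑ u ∈ G.support, monomial (pr u) (coeff u G) := by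
  rw [dehom, aeval_def, eval₂_eq']
  refine Finset.sum_congr rfl fun u _ => ?_
  rw [Fin.prod_univ_three, algebraMap_eq]
  have h0 : (![X 0, X 1, 1] : Fin 3 → MvPolynomial (Fin 2) k) 0 = X 0 := rfl
  have h1 : (![X 0, X 1, 1] : Fin 3 → MvPolynomial (Fin 2) k) 1 = X 1 := rfl
  have h2 : (![X 0, X 1, 1] : Fin 3 → MvPolynomial (Fin 2) k) 2 = 1 := rfl
  rw [h0, h1, h2, one_pow, mul_one, pr, X_pow_eq_monomial, X_pow_eq_monomial, monomial_mul,
    one_mul, C_mul_monomial, mul_one]

theorem dehom_injective {k : Type*} [Field k] (d : ℕ) (G : MvPolynomial (Fin 3) k)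
    (hG : G.IsHomogeneous d) (h : dehom k G = 0) : G = 0 := by
  classical
  ext s
  rw [coeff_zero]
  by_contra hs
  have h1 := congrArg (coeff (pr s)) h
  rw [dehom_eq, coeff_sum, coeff_zero] at h1
  rw [Finset.sum_eq_single s] at h1
  · rw [coeff_monomial, if_pos rfl] at h1
    exact hs h1
  · intro u hu hus
    rw [coeff_monomial, if_neg]
    intro hpr
    apply hus
    have e0 : u 0 = s 0 := by
      have := congrArg (fun f => f 0) hpr
      simpa [pr] using this
    have e1 : u 1 = s 1 := by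
      have := congrArg (fun f => f 1) hpr
      simpa [pr] using this
    have d1 := hG (mem_support_iff.1 hu)
    have d2 := hG hs
    rw [Finsupp.weight_apply, Finsupp.sum_fintype _ _ (fun _ => by simp), Fin.sum_univ_three]
      at d1 d2
    simp only [Pi.one_apply, smul_eq_mul, mul_one] at d1 d2
    have e2 : u 2 = s 2 := by omega
    ext i
    fin_cases i
    · exact e0
    · exact e1
    · exact e2
  · intro hs'
    exact absurd (mem_support_iff.2 hs) hs'

/-- `H⁰(P², I_Y(d))` for the subscheme `Y` of the chart `x_2 = 1` with ideal `J`: the forms of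
degree `d` in `x_0, x_1, x_2` whose restriction to the chart lies in `J`. -/
noncomputable def H0 {k : Type*} [Field k] (J : Ideal (MvPolynomial (Fin 2) k)) (d : ℕ) :
    Submodule k (MvPolynomial (Fin 3) k) :=
  homogeneousSubmodule (Fin 3) k d ⊓ (J.restrictScalars k).comap (dehom k).toLinearMap

theorem H0_eq_bot {k : Type*} [Field k] (J : Ideal (MvPolynomial (Fin 2) k)) (d : ℕ)
    (h : ∀ F : MvPolynomial (Fin 2) k, F.totalDegree ≤ d → F ∈ J → F = 0) : H0 J d = ⊥ := by
  rw [eq_bot_iff]
  rintro G ⟨h1, h2⟩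
  have hG : G.IsHomogeneous d := (mem_homogeneousSubmodule d G).1 h1
  have h3 : dehom k G ∈ J := h2
  rw [Submodule.mem_bot]
  exact dehom_injective d G hG
    (h _ ((dehom_totalDegree G).trans hG.totalDegree_le) h3)

theorem swap_swap {k : Type*} [Field k] (F : MvPolynomial (Fin 2) k) :
    swap k (swap k F) = F := by
  have : (swap k).comp (swap k) = AlgHom.id k _ := by
    apply MvPolynomial.algHom_ext
    intro i
    fin_cases i <;> simp [swap]
  exact congrArg (fun φ => φ F) this

theorem swap_totalDegree {k : Type*} [Field k] (F : MvPolynomial (Fin 2) k) :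
    (swap k F).totalDegree ≤ F.totalDegree := by
  refine totalDegree_aeval_le _ ?_ F
  intro i
  fin_cases i <;> simp [totalDegree_X]

theorem H0_swap_eq_bot {k : Type*} [Field k] (J : Ideal (MvPolynomial (Fin 2) k)) (d : ℕ)
    (h : ∀ F : MvPolynomial (Fin 2) k, F.totalDegree ≤ d → F ∈ J → F = 0) :
    H0 (J.map (swap k)) d = ⊥ := by
  refine H0_eq_bot _ d fun F hF hmem => ?_
  have h1 : swap k F ∈ J := by
    have h2 : swap k F ∈ (J.map (swap k)).map (swap k) := Ideal.mem_map_of_mem _ hmem
    rw [Ideal.map_mapₐ] at h2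
    have h3 : (swap k).comp (swap k) = AlgHom.id k _ := by
      ext F
      exact congrArg _ (swap_swap _)
    rw [h3] at h2
    have h4 : J.map (AlgHom.id k (MvPolynomial (Fin 2) k)) = J := Ideal.map_id J
    rwa [h4] at h2
  have h2 := h _ ((swap_totalDegree F).trans hF) h1
  rw [← swap_swap F, h2, map_zero]

theorem map_swap_swap {k : Type*} [Field k] (J : Ideal (MvPolynomial (Fin 2) k)) :
    (J.map (swap k)).map (swap k) = J := by
  rw [Ideal.map_mapₐ]
  have h3 : (swap k).comp (swap k) = AlgHom.id k _ := by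
    ext F
    exact congrArg _ (swap_swap _)
  rw [h3]
  exact Ideal.map_id J

/-- Classification of the closed subschemes of the affine plane isomorphic to
`Spec k[x,y]/(y,x^r)^m`. -/
theorem classification (k : Type*) [Field k] (r m : ℕ) (hr : 2 ≤ r) (hm : 1 ≤ m)
    (J : Ideal (MvPolynomial (Fin 2) k)) :
    Nonempty ((MvPolynomial (Fin 2) k ⧸ J) ≃ₐ[k]
      (MvPolynomial (Fin 2) k ⧸ (Ideal.span {X 1, X 0 ^ r} ^ m : Ideal (MvPolynomial (Fin 2) k)))) ↔
      ∃ (a : k) (c : Fin r → k), J = arcIdeal a c ^ m ∨ J = (arcIdeal a c ^ m).map (swap k) := by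
  constructor
  · intro h
    obtain ⟨a, c, h1 | h1⟩ := Cls.classify r m hr hm J h
    · exact ⟨a, c, Or.inl h1⟩
    · refine ⟨a, c, Or.inr ?_⟩
      have h2 : J.map (swap k) = arcIdeal a c ^ m := h1
      rw [← h2, map_swap_swap]
  · rintro ⟨a, c, rfl | rfl⟩
    · exact (quotient_equiv m a c).map AlgEquiv.symm
    · obtain ⟨e⟩ := quotient_equiv m a c
      have hss : (swap k).comp (swap k) = AlgHom.id k _ := by
        ext F
        exact congrArg _ (swap_swap _)
      set σ : MvPolynomial (Fin 2) k ≃ₐ[k] MvPolynomial (Fin 2) k :=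
        AlgEquiv.ofAlgHom (swap k) (swap k) hss hss with hσ
      exact ⟨(Ideal.quotientEquivAlg (arcIdeal a c ^ m) ((arcIdeal a c ^ m).map (swap k)) σ
        rfl).symm.trans e.symm⟩

end MP_cea741_ag.Sec
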