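import Mathlib
import Pool.Agent.Lib.MP_cea741_ag.PrimeF
import Pool.Agent.Lib.MP_cea741_ag.Bezout
import Pool.Agent.Lib.MP_cea741_ag.ArcA

/-!
Vanishing on a germ which has contact `s₁` with one branch of a curve with two branches.
-/

namespace MP_cea741_ag.Tb

open Polynomial MP_cea741_ag

noncomputable section

variable {K : Type*} [Field K]

theorem eval_phi (r : ℕ) (g : K[X]) (w : K) (P : MvPolynomial (Fin 2) K) :
    (Sm.phi r g P).eval (C w) = MvPolynomial.aeval ![X, g + X ^ r * C w] P := by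
  have h : ((evalRingHom (C w : K[X])).comp (Sm.phi r g)) =
      ((MvPolynomial.aeval ![X, g + X ^ r * C w] :
        MvPolynomial (Fin 2) K →ₐ[K] K[X]) : MvPolynomial (Fin 2) K →+* K[X]) := by
    apply MvPolynomial.ringHom_ext
    · intro a
      simp [Sm.phi, Sm.eta]
    · intro i
      fin_cases i
      · simp [Sm.phi, Sm.eta]
      · simp [Sm.phi, Sm.eta, add_comm]
  exact congrArg (fun f => f P) h

theorem coe_aeval (u v : K[X]) (P : MvPolynomial (Fin 2) K) :
    ((MvPolynomial.aeval ![u, v] P : K[X]) : PowerSeries K) =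
      MvPolynomial.aeval ![(u : PowerSeries K), (v : PowerSeries K)] P := by
  have h : ((Polynomial.coeToPowerSeries.ringHom (R := K)).comp
      ((MvPolynomial.aeval ![u, v] : MvPolynomial (Fin 2) K →ₐ[K] K[X]) :
        MvPolynomial (Fin 2) K →+* K[X])) =
      ((MvPolynomial.aeval ![(u : PowerSeries K), (v : PowerSeries K)] :
        MvPolynomial (Fin 2) K →ₐ[K] PowerSeries K) : MvPolynomial (Fin 2) K →+* PowerSeries K) := by
    apply MvPolynomial.ringHom_ext
    · intro a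
      simp
    · intro i
      fin_cases i
      · simp
      · simp
  exact congrArg (fun f => f P) h

/-- divisibility by `x^s` can be tested on the values of `w`. -/
theorem dvd_of_eval [Infinite K] (s : ℕ) (A : K[X][X]) (h : ∀ w : K, (X : K[X]) ^ s ∣ A.eval (C w)) :
    (C X : K[X][X]) ^ s ∣ A := by
  rw [← C_pow, C_dvd_iff_dvd_coeff]
  intro j
  rw [X_pow_dvd_iff]
  intro i hi
  set Q : K[X] := ∑ l ∈ Finset.range (A.natDegree + 1), monomial l ((A.coeff l).coeff i) with hQ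
  have h1 : Q = 0 := by
    apply Polynomial.funext
    intro w
    have h2 := h w
    rw [X_pow_dvd_iff] at h2
    have h3 := h2 i hi
    rw [eval_eq_sum_range, finsetSum_coeff] at h3
    rw [eval_zero, hQ, eval_finsetSum, ← h3]
    refine Finset.sum_congr rfl fun l _ => ?_
    rw [eval_monomial, ← C_pow, coeff_mul_C]
  by_cases hj : j ≤ A.natDegree
  · have h2 := congrArg (fun q => q.coeff j) h1
    simp only [hQ, finsetSum_coeff, coeff_zero] at h2
    rw [Finset.sum_eq_single j] at h2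
    · rwa [coeff_monomial, if_pos rfl] at h2
    · intro l _ hl
      rw [coeff_monomial, if_neg hl]
    · intro hj'
      exact absurd (Finset.mem_range.mpr (by omega)) hj'
  · have h2 : A.coeff j = 0 := coeff_eq_zero_of_natDegree_lt (by omega)
    rw [h2, coeff_zero]

variable (b c r s1 : ℕ) (μ : K) (t : PowerSeries K)

/-- the power series of the first branch, moved by `x^(s₁)`. -/
def yser : PowerSeries K :=
  PowerSeries.X ^ (2 * c) + PowerSeries.X ^ (2 * (b * c * c)) * t ^ 2 + PowerSeries.X ^ s1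

theorem value (g : K[X]) (hs : s1 ≤ r) (ρ : PowerSeries K)
    (hg : yser b c s1 t - (g : PowerSeries K) = PowerSeries.X ^ r * ρ)
    (hc : 1 ≤ c) (hb : 3 ≤ b) (hs1 : (b * c) ^ 2 < s1)
    (ht : PowerSeries.X ^ (s1 + (b * c) ^ 2 + 1) ∣
      Br.EE (2 * (b * c * c) - 2 * c) ((b * c) ^ 2 - 2 * (b * c * c)) (b * c) b μ t) (w : K) :
    PowerSeries.X ^ (s1 + (b * c) ^ 2 + 1) ∣
      (((Sm.phi r g (Br.Fp K b c μ)).eval (C w) : K[X]) : PowerSeries K) -
        PowerSeries.X ^ (s1 + (b * c) ^ 2) * (2 * PowerSeries.C μ * t ^ b *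
          (1 + PowerSeries.X ^ (r - s1) * (PowerSeries.C w - ρ))) := by
  have h1 := Br.FF_order b c s1 hc hb hs1 μ t
    (1 + PowerSeries.X ^ (r - s1) * (PowerSeries.C w - ρ)) ht
  have h2 : (((Sm.phi r g (Br.Fp K b c μ)).eval (C w) : K[X]) : PowerSeries K) =
      Br.FF b c (PowerSeries.C μ) PowerSeries.X (PowerSeries.X ^ (2 * c) +
        PowerSeries.X ^ (2 * (b * c * c)) * t ^ 2 +
        PowerSeries.X ^ s1 * (1 + PowerSeries.X ^ (r - s1) * (PowerSeries.C w - ρ))) := by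
    rw [eval_phi, coe_aeval]
    have h3 : ((g + X ^ r * C w : K[X]) : PowerSeries K) = PowerSeries.X ^ (2 * c) +
        PowerSeries.X ^ (2 * (b * c * c)) * t ^ 2 +
        PowerSeries.X ^ s1 * (1 + PowerSeries.X ^ (r - s1) * (PowerSeries.C w - ρ)) := by
      have h4 : (PowerSeries.X : PowerSeries K) ^ s1 * PowerSeries.X ^ (r - s1)
          = PowerSeries.X ^ r := by rw [← pow_add]; congr 1; omega
      have h5 : ((g + X ^ r * C w : K[X]) : PowerSeries K) =
          (g : PowerSeries K) + PowerSeries.X ^ r * PowerSeries.C w := by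
        rw [Polynomial.coe_add, Polynomial.coe_mul, Polynomial.coe_pow, Polynomial.coe_X,
          Polynomial.coe_C]
      rw [h5]
      rw [yser] at hg
      linear_combination (-1 : PowerSeries K) * hg - (PowerSeries.C w - ρ) * h4
    rw [h3]
    simp only [Br.Fp, Br.FF, map_sub, map_mul, map_pow, MvPolynomial.aeval_X, MvPolynomial.aeval_C,
      Matrix.cons_val_zero, Matrix.cons_val_one, Polynomial.coe_X]
    rfl
  rw [h2]
  exact h1

theorem order_ge [Infinite K] (g : K[X]) (hs : s1 ≤ r) (ρ : PowerSeries K)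
    (hg : yser b c s1 t - (g : PowerSeries K) = PowerSeries.X ^ r * ρ)
    (hc : 1 ≤ c) (hb : 3 ≤ b) (hs1 : (b * c) ^ 2 < s1)
    (ht : PowerSeries.X ^ (s1 + (b * c) ^ 2 + 1) ∣
      Br.EE (2 * (b * c * c) - 2 * c) ((b * c) ^ 2 - 2 * (b * c * c)) (b * c) b μ t) :
    (C X : K[X][X]) ^ (s1 + (b * c) ^ 2) ∣ Sm.phi r g (Br.Fp K b c μ) := by
  refine dvd_of_eval _ _ fun w => ?_
  rw [← Sm.coe_X_pow_dvd]
  have h1 := value b c r s1 μ t g hs ρ hg hc hb hs1 ht w
  have h2 := (pow_dvd_pow (PowerSeries.X : PowerSeries K)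
    (Nat.le_succ (s1 + (b * c) ^ 2))).trans h1
  have h3 := dvd_add h2 (Dvd.intro (2 * PowerSeries.C μ * t ^ b *
          (1 + PowerSeries.X ^ (r - s1) * (PowerSeries.C w - ρ))) rfl)
  rwa [sub_add_cancel] at h3

theorem order_lt (h2 : (2 : K) ≠ 0) (hμ : μ ≠ 0) (g : K[X]) (hs : s1 ≤ r) (ρ : PowerSeries K)
    (hg : yser b c s1 t - (g : PowerSeries K) = PowerSeries.X ^ r * ρ)
    (hc : 1 ≤ c) (hb : 3 ≤ b) (hs1 : (b * c) ^ 2 < s1) (ht1 : PowerSeries.X ∣ t - 1)
    (ht : PowerSeries.X ^ (s1 + (b * c) ^ 2 + 1) ∣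
      Br.EE (2 * (b * c * c) - 2 * c) ((b * c) ^ 2 - 2 * (b * c * c)) (b * c) b μ t) :
    ¬ (C X : K[X][X]) ^ (s1 + (b * c) ^ 2 + 1) ∣ Sm.phi r g (Br.Fp K b c μ) := by
  rintro ⟨A, hA⟩
  set w : K := PowerSeries.constantCoeff ρ with hw
  have h1 := value b c r s1 μ t g hs ρ hg hc hb hs1 ht w
  have h3 : (PowerSeries.X : PowerSeries K) ^ (s1 + (b * c) ^ 2 + 1) ∣
      (((Sm.phi r g (Br.Fp K b c μ)).eval (C w) : K[X]) : PowerSeries K) := by
    rw [Sm.coe_X_pow_dvd, hA, eval_mul, eval_pow, eval_C]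
    exact Dvd.intro _ rfl
  have h4 := dvd_sub h3 h1
  rw [sub_sub_cancel, pow_succ, mul_dvd_mul_iff_left (pow_ne_zero _ PowerSeries.X_ne_zero),
    PowerSeries.X_dvd_iff] at h4
  have h5 : PowerSeries.constantCoeff t = 1 := by
    rw [PowerSeries.X_dvd_iff, map_sub, map_one, sub_eq_zero] at ht1
    exact ht1
  have h6 : PowerSeries.constantCoeff (2 : PowerSeries K) = 2 := map_ofNat _ 2
  rw [map_mul, map_mul, map_mul, map_pow, h5, h6, PowerSeries.constantCoeff_C, one_pow, mul_one,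
    map_add, map_mul, map_sub, PowerSeries.constantCoeff_C, hw, sub_self, mul_zero, add_zero,
    map_one, mul_one] at h4
  exact (mul_ne_zero h2 hμ) h4

/-- common arithmetic: the numerical condition excludes the inequality obtained from Bezout. -/
theorem arith (r m d e s α d' N : ℕ) (he : 1 ≤ e) (hr : 1 ≤ r)
    (hcond : (s ^ 2 < r * e ^ 2 ∧ e * d < m * s) ∨
      (r * e ^ 2 ≤ s ^ 2 ∧ (d / e) * (s ^ 2 - r * e ^ 2) + r * (e * d) < r * (m * s)))
    (hdeg : α * e + d' ≤ d) (hN : N = r * m - s * α) (h3 : s * N ≤ r * (e * d')) : False := by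
  have h4 : (s : ℤ) * ((r : ℤ) * m - s * α) ≤ r * (e * (d - α * e)) := by
    have h5 : ((r : ℤ) * m - s * α) ≤ (N : ℤ) := by
      rw [hN]
      rcases le_total (s * α) (r * m) with hh | hh
      · rw [Nat.cast_sub hh]; push_cast; exact le_rfl
      · rw [Nat.sub_eq_zero_of_le hh]
        have : ((r * m : ℕ) : ℤ) ≤ ((s * α : ℕ) : ℤ) := by exact_mod_cast hh
        push_cast at this ⊢; linarith
    have h6 : (d' : ℤ) ≤ d - α * e := by
      have : ((α * e + d' : ℕ) : ℤ) ≤ d := by exact_mod_cast hdeg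
      push_cast at this; linarith
    have h7 : (s : ℤ) * N ≤ r * (e * d') := by exact_mod_cast h3
    calc (s : ℤ) * ((r : ℤ) * m - s * α) ≤ s * N := by
          exact mul_le_mul_of_nonneg_left h5 (by positivity)
      _ ≤ r * (e * d') := h7
      _ ≤ r * (e * (d - α * e)) := by
          exact mul_le_mul_of_nonneg_left (mul_le_mul_of_nonneg_left h6 (by positivity))
            (by positivity)
  rcases hcond with ⟨hA1, hA2⟩ | ⟨hB1, hB2⟩
  · have hA1' : (s : ℤ) ^ 2 < r * e ^ 2 := by exact_mod_cast hA1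
    have hA2' : (e : ℤ) * d < m * s := by exact_mod_cast hA2
    have hr' : (1 : ℤ) ≤ r := by exact_mod_cast hr
    have hα : (0 : ℤ) ≤ α := by positivity
    nlinarith [mul_lt_mul_of_pos_left hA2' (by linarith : (0 : ℤ) < r),
      mul_nonneg hα (by linarith : (0 : ℤ) ≤ r * e ^ 2 - s ^ 2)]
  · have hαle : α ≤ d / e := by
      rw [Nat.le_div_iff_mul_le (by omega)]
      omega
    have hB2' : ((d / e : ℕ) : ℤ) * ((s : ℤ) ^ 2 - r * e ^ 2) + r * (e * d) < r * (m * s) := by
      have : (((d / e) * (s ^ 2 - r * e ^ 2) + r * (e * d) : ℕ) : ℤ) < ((r * (m * s) : ℕ) : ℤ) := by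
        exact_mod_cast hB2
      rw [Nat.cast_add, Nat.cast_mul, Nat.cast_sub hB1] at this
      push_cast at this ⊢
      exact this
    have hB1' : (0 : ℤ) ≤ (s : ℤ) ^ 2 - r * e ^ 2 := by
      have : ((r * e ^ 2 : ℕ) : ℤ) ≤ ((s ^ 2 : ℕ) : ℤ) := by exact_mod_cast hB1
      push_cast at this; linarith
    have hα' : (α : ℤ) ≤ ((d / e : ℕ) : ℤ) := by exact_mod_cast hαle
    have h8 := mul_le_mul_of_nonneg_right hα' hB1'
    nlinarith

/-- General principle: a prime `F` of degree exactly `e` with order exactly `s` along the germ. -/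
theorem special_of_prime (m d e s : ℕ) (he : 1 ≤ e) (hr : 1 ≤ r) (g : K[X])
    (F : MvPolynomial (Fin 2) K) (hF : Prime F) (hFe : F.totalDegree = e)
    (hF1 : (C X : K[X][X]) ^ s ∣ Sm.phi r g F) (hF2 : ¬ (C X : K[X][X]) ^ (s + 1) ∣ Sm.phi r g F)
    (hcond : (s ^ 2 < r * e ^ 2 ∧ e * d < m * s) ∨
      (r * e ^ 2 ≤ s ^ 2 ∧ (d / e) * (s ^ 2 - r * e ^ 2) + r * (e * d) < r * (m * s)))
    (P : MvPolynomial (Fin 2) K) (hP : P.totalDegree ≤ d)
    (h : Sm.eta g P ∈ (Ideal.span {X, C (X ^ r)} : Ideal K[X][X]) ^ m) : P = 0 := by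
  classical
  by_contra hP0
  have h' := Sm.dvd_phi_of_mem r m g P h
  have hmul : ∀ (n : ℕ) (G : MvPolynomial (Fin 2) K), G ≠ 0 →
      n * e + G.totalDegree = (F ^ n * G).totalDegree := by
    intro n G hG
    induction n with
    | zero => simp
    | succ n ih =>
      have e1 : F ^ (n + 1) * G = F * (F ^ n * G) := by ring
      rw [e1, MvPolynomial.totalDegree_mul_of_isDomain hF.ne_zero
        (mul_ne_zero (pow_ne_zero _ hF.ne_zero) hG), ← ih, hFe]
      ring
  have hfin : ∃ n, ¬ F ^ (n + 1) ∣ P := by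
    by_contra hcon
    push Not at hcon
    obtain ⟨G, hG⟩ := hcon (P.totalDegree)
    have hG0 : G ≠ 0 := by rintro rfl; exact hP0 (by rw [hG, mul_zero])
    have h1 := hmul (P.totalDegree + 1) G hG0
    rw [← hG] at h1
    nlinarith
  set α := Nat.find hfin with hα
  have hα1 : ¬ F ^ (α + 1) ∣ P := Nat.find_spec hfin
  have hα2 : F ^ α ∣ P := by
    rcases Nat.eq_zero_or_pos α with h0 | h0
    · rw [h0, pow_zero]; exact one_dvd _
    · have := Nat.find_min hfin (m := α - 1) (by omega)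
      push Not at this
      rwa [Nat.sub_add_cancel h0] at this
  obtain ⟨P', hP'⟩ := hα2
  have hP'0 : P' ≠ 0 := by rintro rfl; exact hP0 (by rw [hP', mul_zero])
  have hndvd : ¬ F ∣ P' := by
    rintro ⟨G, hG⟩
    apply hα1
    rw [hP', hG, pow_succ, ← mul_assoc]
    exact Dvd.intro _ rfl
  have hdeg := hmul α P' hP'0
  rw [← hP'] at hdeg
  have h1 : (C X : K[X][X]) ^ (r * m - s * α) ∣ Sm.phi r g P' := by
    rw [hP', map_mul, map_pow] at h'
    exact Sm.cancel_order s (r * m) α _ _ hF1 hF2 h'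
  have h2 := Bz.wbezout r s (r * m - s * α) e P'.totalDegree hr g F P' hF hF1 hFe.le hndvd h1 le_rfl
  exact arith r m d e s α P'.totalDegree _ he hr hcond (by omega) rfl h2

end

/-- the coefficients of the germ. -/
noncomputable def germ2 {K : Type*} [Field K] (b c s1 r : ℕ) (t : PowerSeries K) (l : Fin r) : K :=
  PowerSeries.coeff (l : ℕ) (yser b c s1 t)

theorem germ2_dvd {K : Type*} [Field K] (b c s1 r : ℕ) (t : PowerSeries K) :
    (PowerSeries.X : PowerSeries K) ^ r ∣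
      yser b c s1 t - ((gpol r (germ2 b c s1 r t) : Polynomial K) : PowerSeries K) := by
  rw [PowerSeries.X_pow_dvd_iff]
  intro i hi
  rw [map_sub, Polynomial.coeff_coe, gpol, Polynomial.finsetSum_coeff,
    Finset.sum_eq_single (⟨i, hi⟩ : Fin r)]
  · rw [Polynomial.coeff_C_mul, Polynomial.coeff_X_pow, if_pos rfl, mul_one, germ2, sub_self]
  · intro b _ hb
    rw [Polynomial.coeff_C_mul, Polynomial.coeff_X_pow, if_neg, mul_zero]
    intro h
    exact hb (Fin.ext h.symm)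
  · simp

/-- Vanishing for general germs from the auxiliary curve with two branches. -/
theorem open_two (k : Type*) [Field k] (hk : (2 : k) ≠ 0) (r m d b c s1 : ℕ) (hb : Odd b)
    (hb3 : 3 ≤ b) (hc : 1 ≤ c) (hs1 : (b * c) ^ 2 < s1) (hs1r : s1 ≤ r)
    (hcond : ((s1 + (b * c) ^ 2) ^ 2 < r * (2 * (b * c)) ^ 2 ∧
        (2 * (b * c)) * d < m * (s1 + (b * c) ^ 2)) ∨
      (r * (2 * (b * c)) ^ 2 ≤ (s1 + (b * c) ^ 2) ^ 2 ∧
        (d / (2 * (b * c))) * ((s1 + (b * c) ^ 2) ^ 2 - r * (2 * (b * c)) ^ 2) +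
          r * ((2 * (b * c)) * d) < r * (m * (s1 + (b * c) ^ 2)))) :
    ∃ Φ : MvPolynomial (Fin r) k, Φ ≠ 0 ∧
      ∀ (a : k) (c : Fin r → k), MvPolynomial.eval c Φ ≠ 0 →
        ∀ F : MvPolynomial (Fin 2) k, F.totalDegree ≤ d → F ∈ Arc.arcIdeal a c ^ m → F = 0 := by
  have h2 : (2 : RatFunc k) ≠ 0 := by
    intro h
    apply hk
    have h3 : algebraMap k (RatFunc k) 2 = 0 := by rw [map_ofNat]; exact h
    exact (map_eq_zero _).mp h3
  have hbc : 3 ≤ b * c := by nlinarith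
  have hn : c + 1 ≤ b * c * c := by nlinarith
  have hn2 : 2 * (b * c * c) + 1 ≤ (b * c) ^ 2 := by
    have : (b * c) ^ 2 = b * (b * c * c) := by ring
    rw [this]; nlinarith
  obtain ⟨t, ht1, ht⟩ := Br.exists_t h2 (2 * (b * c * c) - 2 * c) ((b * c) ^ 2 - 2 * (b * c * c))
    (b * c) b (by omega) (by omega) (RatFunc.X : RatFunc k) (s1 + (b * c) ^ 2 + 1)
  obtain ⟨ρ, hρ⟩ := germ2_dvd b c s1 r t
  refine Arc.open_of_germ k (K := RatFunc k) r m d (germ2 b c s1 r t) fun P hP h => ?_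
  have : Infinite (RatFunc k) :=
    Infinite.of_injective (algebraMap k[X] (RatFunc k)) (RatFunc.algebraMap_injective k)
  refine special_of_prime (K := RatFunc k) r m d (2 * (b * c)) (s1 + (b * c) ^ 2) (by omega)
    (by omega) _ (Br.Fp (RatFunc k) b c RatFunc.X) (Br.prime_Fp k b c hb hb3 hc)
    (le_antisymm (Br.Fp_totalDegree_le _ b c hb3 hc _) (Br.le_Fp_totalDegree _ b c hb3 hc _))
    (order_ge b c r s1 RatFunc.X t _ hs1r ρ hρ hc hb3 hs1 ht)
    (order_lt b c r s1 RatFunc.X t h2 RatFunc.X_ne_zero _ hs1r ρ hρ hc hb3 hs1 ht1 ht) hcond P hP h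

end MP_cea741_ag.Tb
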