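import Mathlib
import Pool.Agent.Lib.MP_cea741_ag.VirH

/-!
Numerical consequences of the two criteria for nonsquare `r`.
-/

namespace MP_cea741_ag.Vir

open MvPolynomial MP_cea741_ag MP_cea741_ag.Arc

/-- `H⁰(I_Y(d)) = 0` for general `Y`. -/
def Van (k : Type*) [Field k] (r m d : ℕ) : Prop :=
  ∃ Φ : MvPolynomial (Fin r) k, Φ ≠ 0 ∧
    ∀ (a : k) (c : Fin r → k), eval c Φ ≠ 0 →
      ∀ F : MvPolynomial (Fin 2) k, F.totalDegree ≤ d → F ∈ arcIdeal a c ^ m → F = 0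

/-- first criterion, real form -/
theorem van_real (k : Type*) [Field k] (r m d e f κ : ℕ) (he : 1 ≤ e) (her : e < r)
    (hf : e ^ 2 ≤ f) (hκ : κ ≤ r) (h1 : (e * κ : ℝ) ≤ f * √(r : ℝ))
    (h2 : (f * d : ℝ) < e * κ * m) : Van k r m d := by
  obtain ⟨N, rfl⟩ : ∃ N, f = e ^ 2 + N := ⟨f - e ^ 2, by omega⟩
  refine open_any k r m d e N κ he her hκ (Or.inl ⟨?_, ?_⟩)
  · have h3 : ((e * κ : ℝ)) ^ 2 ≤ (r : ℝ) * ((e : ℝ) ^ 2 + N) ^ 2 := by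
      calc ((e * κ : ℝ)) ^ 2 ≤ (((e ^ 2 + N : ℕ) : ℝ) * √(r : ℝ)) ^ 2 :=
            pow_le_pow_left₀ (by positivity) h1 2
        _ = (r : ℝ) * ((e : ℝ) ^ 2 + N) ^ 2 := by
            rw [mul_pow, Real.sq_sqrt (by positivity)]
            push_cast
            ring
    exact_mod_cast h3
  · have h3 : (((e : ℝ) ^ 2 + N) * d) < e * κ * m := by
      have := h2
      push_cast at this
      exact this
    exact_mod_cast h3

/-- second criterion, real form: Q1 from a pair with small slack. -/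
theorem q1_real (k : Type*) [Field k] [CharZero k] (r m d e f κ : ℕ) (hr : ¬ IsSquare r)
    (he : 3 ≤ e) (her : e < r) (hf : e ^ 2 ≤ f) (hκ : κ ≤ r)
    (h1 : (e * κ : ℝ) ≤ f * √(r : ℝ)) (h2 : f * √(r : ℝ) ≤ 7 / 5 * (e * κ))
    (hm : 1 ≤ m) (hs : 2 * (m : ℝ) * (f * √(r : ℝ) - e * κ) ≤ ((e * (e - 1) * (e - 2) : ℕ) : ℝ))
    (hd : d ^ 2 ≤ m ^ 2 * r) : Van k r m d := by
  obtain ⟨N, rfl⟩ : ∃ N, f = e ^ 2 + N := ⟨f - e ^ 2, by omega⟩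
  have hr0 : (0 : ℝ) ≤ (r : ℝ) := by positivity
  have hsq : √(r : ℝ) ^ 2 = r := Real.sq_sqrt hr0
  have hd' : d ^ 2 < m ^ 2 * r := by
    refine lt_of_le_of_ne hd fun h => hr ?_
    have h5 : m ∣ d := by
      rw [← Nat.pow_dvd_pow_iff (n := 2) (by norm_num), h]
      exact Dvd.intro _ rfl
    obtain ⟨q, rfl⟩ := h5
    refine ⟨q, ?_⟩
    have h6 : m ^ 2 * (q * q) = m ^ 2 * r := by rw [← h]; ring
    exact (Nat.eq_of_mul_eq_mul_left (by positivity) h6).symm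
  have hdr : (d : ℝ) < m * √(r : ℝ) := by
    have h5 : ((d : ℝ)) ^ 2 < (m * √(r : ℝ)) ^ 2 := by
      rw [mul_pow, hsq]
      exact_mod_cast hd'
    exact lt_of_pow_lt_pow_left₀ 2 (by positivity) h5
  refine open_zero k r m d e N κ he her hκ ?_ ?_ hd' ?_
  · have h3 : ((e * κ : ℝ)) ^ 2 ≤ (r : ℝ) * ((e : ℝ) ^ 2 + N) ^ 2 := by
      calc ((e * κ : ℝ)) ^ 2 ≤ (((e ^ 2 + N : ℕ) : ℝ) * √(r : ℝ)) ^ 2 :=
            pow_le_pow_left₀ (by positivity) h1 2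
        _ = (r : ℝ) * ((e : ℝ) ^ 2 + N) ^ 2 := by
            rw [mul_pow, hsq]
            push_cast
            ring
    exact_mod_cast h3
  · have h3 : (r : ℝ) * ((e : ℝ) ^ 2 + N) ^ 2 ≤ 2 * ((e * κ : ℝ)) ^ 2 := by
      calc (r : ℝ) * ((e : ℝ) ^ 2 + N) ^ 2 = (((e ^ 2 + N : ℕ) : ℝ) * √(r : ℝ)) ^ 2 := by
            rw [mul_pow, hsq]
            push_cast
            ring
        _ ≤ (7 / 5 * (e * κ : ℝ)) ^ 2 := pow_le_pow_left₀ (by positivity) h2 2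
        _ ≤ 2 * ((e * κ : ℝ)) ^ 2 := by
            rw [mul_pow]
            have : 0 ≤ ((e * κ : ℝ)) ^ 2 := by positivity
            nlinarith
    exact_mod_cast h3
  · have hf0 : (0 : ℝ) < ((e ^ 2 + N : ℕ) : ℝ) := by
      have : 0 < e ^ 2 := by positivity
      exact_mod_cast (by omega : 0 < e ^ 2 + N)
    have h3 : 2 * (((e ^ 2 + N : ℕ) : ℝ)) * d < 2 * (e * κ) * m + ((e * (e - 1) * (e - 2) : ℕ) : ℝ) := by
      calc 2 * (((e ^ 2 + N : ℕ) : ℝ)) * d < 2 * (((e ^ 2 + N : ℕ) : ℝ)) * (m * √(r : ℝ)) :=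
            mul_lt_mul_of_pos_left hdr (by positivity)
        _ = 2 * (m : ℝ) * (((e ^ 2 + N : ℕ) : ℝ) * √(r : ℝ) - e * κ) + 2 * (e * κ) * m := by ring
        _ ≤ ((e * (e - 1) * (e - 2) : ℕ) : ℝ) + 2 * (e * κ) * m := by linarith
        _ = _ := by ring
    have h4 : 2 * (e ^ 2 + N) * d < 2 * (e * κ) * m + e * (e - 1) * (e - 2) := by
      exact_mod_cast h3
    calc 2 * (e ^ 2 + N) * d < 2 * (e * κ) * m + e * (e - 1) * (e - 2) := h4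
      _ = e * (2 * κ * m + (e - 1) * (e - 2)) := by ring

/-- **A good pair exists for every nonsquare `r`.** -/
theorem exists_pair (e : ℕ) (he : 1 ≤ e) (α : ℝ) (h1 : e + 1 ≤ α) :
    ∃ f κ : ℕ, e ^ 2 ≤ f ∧ (f : ℝ) ≤ e * α ∧ (e * κ : ℝ) ≤ f * α ∧ f * α - e * κ < α - e := by
  by_contra hcon
  push Not at hcon
  have he' : (1 : ℝ) ≤ e := by exact_mod_cast he
  have key : ∀ i : ℕ, ((e ^ 2 + i : ℕ) : ℝ) ≤ e * α → ∃ κ : ℕ,
      (e * κ : ℝ) ≤ ((e ^ 2 + i : ℕ) : ℝ) * α ∧ ((e ^ 2 + i : ℕ) : ℝ) * α < e * (κ + 1) ∧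
      (α - e) * (i + 1) ≤ ((e ^ 2 + i : ℕ) : ℝ) * α - e * κ := by
    intro i
    induction i with
    | zero =>
      intro h
      have hα : 0 ≤ ((e ^ 2 + 0 : ℕ) : ℝ) * α / e := by
        have : 0 ≤ α := by linarith
        positivity
      refine ⟨⌊((e ^ 2 + 0 : ℕ) : ℝ) * α / e⌋₊, ?_, ?_, ?_⟩
      · have := Nat.floor_le hα
        rw [le_div_iff₀ (by linarith)] at this
        linarith
      · have := Nat.lt_floor_add_one (((e ^ 2 + 0 : ℕ) : ℝ) * α / e)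
        rw [div_lt_iff₀ (by linarith)] at this
        linarith
      · have h3 : (e * (⌊((e ^ 2 + 0 : ℕ) : ℝ) * α / e⌋₊ : ℝ) : ℝ) ≤ ((e ^ 2 + 0 : ℕ) : ℝ) * α := by
          have := Nat.floor_le hα
          rw [le_div_iff₀ (by linarith)] at this
          linarith
        have := hcon (e ^ 2 + 0) _ (by omega) h h3
        simpa using this
    | succ i ih =>
      intro h
      have h' : ((e ^ 2 + i : ℕ) : ℝ) ≤ e * α := by
        push_cast at h ⊢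
        linarith
      obtain ⟨κ, k1, k2, k3⟩ := ih h'
      have e1 : ((e ^ 2 + (i + 1) : ℕ) : ℝ) * α = ((e ^ 2 + i : ℕ) : ℝ) * α + α := by
        push_cast
        ring
      by_cases hw : ((e ^ 2 + i : ℕ) : ℝ) * α - e * κ + (α - e) < e
      · refine ⟨κ + 1, ?_, ?_, ?_⟩
        · rw [e1]; push_cast at *; nlinarith
        · rw [e1]; push_cast at *; nlinarith
        · rw [e1]; push_cast at *; nlinarith
      · exfalso
        push Not at hw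
        have h4 : (e * ((κ + 2 : ℕ) : ℝ) : ℝ) ≤ ((e ^ 2 + (i + 1) : ℕ) : ℝ) * α := by
          rw [e1]
          push_cast at *
          nlinarith
        have h5 := hcon (e ^ 2 + (i + 1)) (κ + 2) (by omega) h h4
        rw [e1] at h5
        push_cast at *
        nlinarith
  have hα0 : (0 : ℝ) ≤ e * α := by
    have : 0 ≤ α := by linarith
    positivity
  have hF : e ^ 2 ≤ ⌊(e : ℝ) * α⌋₊ := by
    apply Nat.le_floor
    push_cast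
    nlinarith
  obtain ⟨i, hi⟩ : ∃ i, ⌊(e : ℝ) * α⌋₊ = e ^ 2 + i := ⟨⌊(e : ℝ) * α⌋₊ - e ^ 2, by omega⟩
  have hle : ((e ^ 2 + i : ℕ) : ℝ) ≤ e * α := by
    rw [← hi]
    exact Nat.floor_le hα0
  obtain ⟨κ, k1, k2, k3⟩ := key i hle
  have hlt : (e : ℝ) * α < ((e ^ 2 + i : ℕ) : ℝ) + 1 := by
    rw [← hi]
    exact Nat.lt_floor_add_one _
  push_cast at *
  have h6 : (e : ℝ) * (α - e) < i + 1 := by nlinarith
  have h7 : (α - e) * (e * (α - e)) < (α - e) * (i + 1) :=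
    mul_lt_mul_of_pos_left h6 (by linarith)
  nlinarith

/-- the pair with `e = ⌊√r⌋ - 1` -/
theorem exists_pair' (r s : ℕ) (hs : 2 ≤ s) (h1 : s ^ 2 ≤ r) (h2 : r < (s + 1) ^ 2) :
    ∃ f κ : ℕ, (s - 1) ^ 2 ≤ f ∧ κ ≤ r ∧ (((s - 1 : ℕ) : ℝ) * κ : ℝ) ≤ f * √(r : ℝ) ∧
      f * √(r : ℝ) - ((s - 1 : ℕ) : ℝ) * κ < 2 := by
  obtain ⟨e, rfl⟩ : ∃ e, s = e + 1 := ⟨s - 1, by omega⟩
  have hr0 : (0 : ℝ) ≤ (r : ℝ) := by positivity
  have a1 : (e : ℝ) + 1 ≤ √(r : ℝ) := by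
    apply Real.le_sqrt_of_sq_le
    exact_mod_cast h1
  have a2 : √(r : ℝ) < e + 2 := by
    rw [Real.sqrt_lt' (by positivity)]
    have : (r : ℝ) < ((e + 1 + 1 : ℕ) : ℝ) ^ 2 := by exact_mod_cast h2
    push_cast at this
    linarith
  obtain ⟨f, κ, b1, b2, b3, b4⟩ := exists_pair e (by omega) (√(r : ℝ)) a1
  rw [Nat.add_sub_cancel]
  refine ⟨f, κ, b1, ?_, b3, by linarith⟩
  have h3 : (e : ℝ) * κ ≤ e * r := by
    calc (e : ℝ) * κ ≤ f * √(r : ℝ) := b3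
      _ ≤ (e * √(r : ℝ)) * √(r : ℝ) := mul_le_mul_of_nonneg_right b2 (Real.sqrt_nonneg _)
      _ = e * r := by rw [mul_assoc, Real.mul_self_sqrt hr0]
  have he0 : (0 : ℝ) < e := by exact_mod_cast (by omega : 0 < e)
  exact_mod_cast le_of_mul_le_mul_left h3 he0

/-- uniform bound, all characteristics. -/
theorem van_uniform (k : Type*) [Field k] (r s m d : ℕ) (hs : 2 ≤ s) (h1 : s ^ 2 ≤ r)
    (h2 : r < (s + 1) ^ 2) (hm : 1 ≤ m)
    (hd : (d : ℝ) ≤ m * (√(r : ℝ) - 2 / ((s : ℝ) - 1) ^ 2)) : Van k r m d := by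
  obtain ⟨f, κ, b1, b2, b3, b4⟩ := exists_pair' r s hs h1 h2
  refine van_real k r m d (s - 1) f κ (by omega) (by nlinarith [Nat.sub_le s 1]) b1 b2 b3 ?_
  have hs' : ((s - 1 : ℕ) : ℝ) = (s : ℝ) - 1 := by
    rw [Nat.cast_sub (by omega)]
    simp
  rw [hs'] at b3 b4 ⊢
  have hs1 : (0 : ℝ) < ((s : ℝ) - 1) ^ 2 := by
    have : (2 : ℝ) ≤ s := by exact_mod_cast hs
    have : (0 : ℝ) < (s : ℝ) - 1 := by linarith
    positivity
  have b1' : ((s : ℝ) - 1) ^ 2 ≤ f := by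
    rw [← hs']
    exact_mod_cast b1
  have hm' : (1 : ℝ) ≤ m := by exact_mod_cast hm
  have hf0 : (0 : ℝ) < f := lt_of_lt_of_le hs1 b1'
  have h3 : (2 : ℝ) ≤ f * (2 / ((s : ℝ) - 1) ^ 2) := by
    rw [mul_div_assoc', le_div_iff₀ hs1]
    nlinarith
  calc (f : ℝ) * d ≤ f * (m * (√(r : ℝ) - 2 / ((s : ℝ) - 1) ^ 2)) :=
        mul_le_mul_of_nonneg_left hd hf0.le
    _ = m * (f * √(r : ℝ) - f * (2 / ((s : ℝ) - 1) ^ 2)) := by ring
    _ ≤ m * (f * √(r : ℝ) - 2) := mul_le_mul_of_nonneg_left (by linarith) (by linarith)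
    _ < m * (((s : ℝ) - 1) * κ) := mul_lt_mul_of_pos_left (by linarith) (by linarith)
    _ = ((s : ℝ) - 1) * κ * m := by ring

/-- Q1 for all nonsquare `r`, first range. -/
theorem q1_uniform (k : Type*) [Field k] [CharZero k] (r s m d : ℕ) (hr : ¬ IsSquare r)
    (hs : 4 ≤ s) (h1 : s ^ 2 ≤ r) (h2 : r < (s + 1) ^ 2) (hm : 1 ≤ m)
    (hms : 4 * m ≤ (s - 1) * (s - 2) * (s - 3)) (hd : d ^ 2 ≤ m ^ 2 * r) : Van k r m d := by
  obtain ⟨f, κ, b1, b2, b3, b4⟩ := exists_pair' r s (by omega) h1 h2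
  have hf9 : 9 ≤ f := by
    have : 3 ^ 2 ≤ (s - 1) ^ 2 := Nat.pow_le_pow_left (by omega) 2
    omega
  have hα : (4 : ℝ) ≤ √(r : ℝ) := by
    apply Real.le_sqrt_of_sq_le
    have : 4 ^ 2 ≤ s ^ 2 := Nat.pow_le_pow_left hs 2
    have : 16 ≤ r := by omega
    have : (16 : ℝ) ≤ r := by exact_mod_cast this
    linarith
  have hfα : (36 : ℝ) ≤ f * √(r : ℝ) := by
    have : (9 : ℝ) ≤ f := by exact_mod_cast hf9
    nlinarith
  refine q1_real k r m d (s - 1) f κ hr (by omega) (by nlinarith [Nat.sub_le s 1]) b1 b2 b3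
    (by nlinarith) hm ?_ hd
  have e1 : (s - 1) * (s - 1 - 1) * (s - 1 - 2) = (s - 1) * (s - 2) * (s - 3) := by
    rw [Nat.sub_sub, Nat.sub_sub]
  rw [e1]
  have hm' : (1 : ℝ) ≤ m := by exact_mod_cast hm
  have h3 : ((4 * m : ℕ) : ℝ) ≤ (((s - 1) * (s - 2) * (s - 3) : ℕ) : ℝ) := by exact_mod_cast hms
  push_cast at h3 ⊢
  nlinarith

/-- the real number `θ = √r - s` -/
theorem theta (r s j : ℕ) (hr : ¬ IsSquare r) (hj : r = s ^ 2 + j) (h2 : r < (s + 1) ^ 2) :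
    ∃ θ : ℝ, √(r : ℝ) = s + θ ∧ 0 < θ ∧ θ < 1 ∧ 2 * s * θ + θ ^ 2 = j := by
  have hr0 : (0 : ℝ) ≤ (r : ℝ) := by positivity
  have hj0 : 0 < j := by
    rcases Nat.eq_zero_or_pos j with h | h
    · exact absurd ⟨s, by rw [hj, h]; ring⟩ hr
    · exact h
  have a1 : (s : ℝ) < √(r : ℝ) := by
    rw [Real.lt_sqrt (by positivity)]
    exact_mod_cast (by omega : s ^ 2 < r)
  have a2 : √(r : ℝ) < s + 1 := by
    rw [Real.sqrt_lt' (by positivity)]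
    exact_mod_cast h2
  refine ⟨√(r : ℝ) - s, by ring, by linarith, by linarith, ?_⟩
  have h3 : √(r : ℝ) ^ 2 = r := Real.sq_sqrt hr0
  have h4 : (r : ℝ) = (s : ℝ) ^ 2 + j := by exact_mod_cast hj
  nlinarith

/-- Q1, odd `r - s²`. -/
theorem q1_odd (k : Type*) [Field k] [CharZero k] (r s i m d : ℕ) (hr : ¬ IsSquare r)
    (hs : 3 ≤ s) (hj : r = s ^ 2 + (2 * i + 1)) (h2 : r < (s + 1) ^ 2) (hm : 1 ≤ m)
    (hms : m ≤ (s - 1) * (s - 2)) (hd : d ^ 2 ≤ m ^ 2 * r) : Van k r m d := by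
  obtain ⟨θ, t1, t2, t3, t4⟩ := theta r s (2 * i + 1) hr hj h2
  have hs3 : (3 : ℝ) ≤ s := by exact_mod_cast hs
  have hi0 : (0 : ℝ) ≤ i := by positivity
  push_cast at t4
  have e1 : ((s ^ 2 : ℕ) : ℝ) * √(r : ℝ) - s * ((s ^ 2 + i : ℕ) : ℝ) = s * (1 - θ ^ 2) / 2 := by
    rw [t1]
    push_cast
    linear_combination (s : ℝ) / 2 * t4
  have hθ : 0 ≤ 1 - θ ^ 2 := by nlinarith
  refine q1_real k r m d s (s ^ 2) (s ^ 2 + i) hr hs (by nlinarith) le_rfl (by omega) ?_ ?_ hm ?_ hd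
  · have : 0 ≤ (s : ℝ) * (1 - θ ^ 2) / 2 := by positivity
    linarith
  · rw [t1]
    push_cast
    have : (s : ℝ) ^ 2 * θ ≤ s ^ 2 * 1 := mul_le_mul_of_nonneg_left t3.le (by positivity)
    have : 0 ≤ (s : ℝ) * i := by positivity
    nlinarith [sq_nonneg ((s : ℝ) - 3), mul_nonneg (sq_nonneg (s : ℝ)) (by linarith : (0 : ℝ) ≤ s - 3)]
  · rw [e1]
    have h3 : ((m : ℕ) : ℝ) ≤ (((s - 1) * (s - 2) : ℕ) : ℝ) := by exact_mod_cast hms
    have e2 : ((s * (s - 1) * (s - 2) : ℕ) : ℝ) = s * (((s - 1) * (s - 2) : ℕ) : ℝ) := by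
      push_cast; ring
    rw [e2]
    have h4 : (m : ℝ) * (1 - θ ^ 2) ≤ m := by
      have : (0 : ℝ) ≤ m := by positivity
      nlinarith [sq_nonneg θ]
    calc 2 * (m : ℝ) * ((s : ℝ) * (1 - θ ^ 2) / 2) = (s : ℝ) * ((m : ℝ) * (1 - θ ^ 2)) := by ring
      _ ≤ (s : ℝ) * (m : ℝ) := mul_le_mul_of_nonneg_left h4 (by linarith)
      _ ≤ (s : ℝ) * (((s - 1) * (s - 2) : ℕ) : ℝ) := mul_le_mul_of_nonneg_left h3 (by linarith)

/-- Q1, `r = s² + 4a`. -/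
theorem q1_four (k : Type*) [Field k] [CharZero k] (r s a m d : ℕ) (hr : ¬ IsSquare r)
    (hs : 3 ≤ s) (hj : r = s ^ 2 + 4 * a) (h2 : r < (s + 1) ^ 2) (hm : 1 ≤ m)
    (hms : 4 * a ^ 3 * m ≤ s ^ 4 * ((s - 1) * (s - 2))) (hd : d ^ 2 ≤ m ^ 2 * r) :
    Van k r m d := by
  obtain ⟨θ, t1, t2, t3, t4⟩ := theta r s (4 * a) hr hj h2
  have hs3 : (3 : ℝ) ≤ s := by exact_mod_cast hs
  push_cast at t4
  have ha : (a : ℝ) = (2 * s * θ + θ ^ 2) / 4 := by linarith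
  have e1 : ((s ^ 2 + a : ℕ) : ℝ) * √(r : ℝ) - s * ((s ^ 2 + 3 * a : ℕ) : ℝ) = θ ^ 3 / 4 := by
    rw [t1]
    push_cast
    rw [ha]
    ring
  have hθ3 : 0 < θ ^ 3 := by positivity
  refine q1_real k r m d s (s ^ 2 + a) (s ^ 2 + 3 * a) hr hs (by nlinarith) (by omega) (by omega)
    ?_ ?_ hm ?_ hd
  · linarith
  · have h5 : θ ^ 3 ≤ 1 := by
      have := pow_le_one₀ (n := 3) t2.le t3.le
      exact this
    have h6 : (27 : ℝ) ≤ s * ((s ^ 2 + 3 * a : ℕ) : ℝ) := by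
      push_cast
      have : (0 : ℝ) ≤ a := by positivity
      have h7 : (9 : ℝ) ≤ (s : ℝ) ^ 2 := by nlinarith
      nlinarith
    linarith
  · rw [e1]
    have h3 : ((4 * a ^ 3 * m : ℕ) : ℝ) ≤ ((s ^ 4 * ((s - 1) * (s - 2)) : ℕ) : ℝ) := by
      exact_mod_cast hms
    have e2 : ((s * (s - 1) * (s - 2) : ℕ) : ℝ) = s * (((s - 1) * (s - 2) : ℕ) : ℝ) := by
      push_cast; ring
    rw [e2]
    set T : ℝ := (((s - 1) * (s - 2) : ℕ) : ℝ) with hT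
    have e3 : ((s ^ 4 * ((s - 1) * (s - 2)) : ℕ) : ℝ) = s ^ 4 * T := by
      rw [hT]; push_cast; ring
    rw [e3] at h3
    push_cast at h3
    -- `s θ ≤ 2 a`
    have h5 : s * θ ≤ 2 * a := by rw [ha]; nlinarith
    have h6 : (s * θ) ^ 3 ≤ (2 * a) ^ 3 := pow_le_pow_left₀ (by positivity) h5 3
    have h7 : (m : ℝ) * (s ^ 3 * θ ^ 3) ≤ 2 * (s ^ 4 * T) := by
      calc (m : ℝ) * ((s : ℝ) ^ 3 * θ ^ 3) = (m : ℝ) * ((s : ℝ) * θ) ^ 3 := by ring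
        _ ≤ (m : ℝ) * (2 * (a : ℝ)) ^ 3 := mul_le_mul_of_nonneg_left h6 (by positivity)
        _ = 2 * (4 * (a : ℝ) ^ 3 * (m : ℝ)) := by ring
        _ ≤ 2 * ((s : ℝ) ^ 4 * T) := by linarith
    have h8 : (s : ℝ) ^ 3 * (m * θ ^ 3) ≤ s ^ 3 * (2 * (s * T)) := by nlinarith
    have h9 : (m : ℝ) * θ ^ 3 ≤ 2 * (s * T) := le_of_mul_le_mul_left h8 (by positivity)
    linarith

/-- Q1, `r - s²` even. -/
theorem q1_even (k : Type*) [Field k] [CharZero k] (r s i m d : ℕ) (hr : ¬ IsSquare r)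
    (hs : 3 ≤ s) (hj : r = s ^ 2 + 2 * i) (h2 : r < (s + 1) ^ 2) (hm : 1 ≤ m)
    (hms : 3 * m ≤ 2 * (s * (s - 1) * (s - 2))) (hd : d ^ 2 ≤ m ^ 2 * r) :
    Van k r m d := by
  have hs3 : (3 : ℝ) ≤ s := by exact_mod_cast hs
  have h3 : ((3 * m : ℕ) : ℝ) ≤ ((2 * (s * (s - 1) * (s - 2)) : ℕ) : ℝ) := by exact_mod_cast hms
  have e0 : ((2 * (s * (s - 1) * (s - 2)) : ℕ) : ℝ) = 2 * ((s * (s - 1) * (s - 2) : ℕ) : ℝ) := by
    push_cast; ring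
  rw [e0] at h3
  have e00 : ((3 * m : ℕ) : ℝ) = 3 * m := by push_cast; ring
  rw [e00] at h3
  have hm0 : (0 : ℝ) ≤ m := by positivity
  rcases Nat.even_or_odd i with ⟨a, ha⟩ | ⟨a, ha⟩
  · obtain ⟨θ, t1, t2, t3, t4⟩ := theta r s (4 * a) hr (by rw [hj, ha]; ring) h2
    push_cast at t4
    have ha' : (a : ℝ) = (2 * s * θ + θ ^ 2) / 4 := by linarith
    have e1 : ((s ^ 2 + a : ℕ) : ℝ) * √(r : ℝ) - s * ((s ^ 2 + 3 * a : ℕ) : ℝ) = θ ^ 3 / 4 := by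
      rw [t1]
      push_cast
      rw [ha']
      ring
    have hθ3 : 0 < θ ^ 3 := by positivity
    have h5 : θ ^ 3 ≤ 1 := pow_le_one₀ (n := 3) t2.le t3.le
    have h6 : (27 : ℝ) ≤ s * ((s ^ 2 + 3 * a : ℕ) : ℝ) := by
      push_cast
      have : (0 : ℝ) ≤ a := by positivity
      have h7 : (9 : ℝ) ≤ (s : ℝ) ^ 2 := by nlinarith
      nlinarith
    refine q1_real k r m d s (s ^ 2 + a) (s ^ 2 + 3 * a) hr hs (by nlinarith) (by omega) (by omega)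
      (by linarith) (by linarith) hm ?_ hd
    rw [e1]
    nlinarith
  · obtain ⟨θ, t1, t2, t3, t4⟩ := theta r s (4 * a + 2) hr (by rw [hj, ha]; ring) h2
    push_cast at t4
    have ha' : (a : ℝ) = (2 * s * θ + θ ^ 2 - 2) / 4 := by linarith
    have e1 : ((s ^ 2 + (a + 1) : ℕ) : ℝ) * √(r : ℝ) - s * ((s ^ 2 + (3 * a + 2) : ℕ) : ℝ) =
        θ * (θ ^ 2 + 2) / 4 := by
      rw [t1]
      push_cast
      rw [ha']
      ring
    have h5 : θ ^ 2 ≤ 1 := pow_le_one₀ (n := 2) t2.le t3.le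
    have h5' : θ * (θ ^ 2 + 2) ≤ 3 := by nlinarith
    have h5'' : 0 ≤ θ * (θ ^ 2 + 2) := by positivity
    have h6 : (27 : ℝ) ≤ s * ((s ^ 2 + (3 * a + 2) : ℕ) : ℝ) := by
      push_cast
      have : (0 : ℝ) ≤ a := by positivity
      have h7 : (9 : ℝ) ≤ (s : ℝ) ^ 2 := by nlinarith
      nlinarith
    refine q1_real k r m d s (s ^ 2 + (a + 1)) (s ^ 2 + (3 * a + 2)) hr hs (by nlinarith)
      (by omega) (by omega) (by linarith) (by linarith) hm ?_ hd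
    rw [e1]
    nlinarith

end MP_cea741_ag.Vir
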