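import Mathlib
import Pool.Agent.Lib.MP_cea741_ag.VirI

/-!
The bound `(4r+1) d² < 4 r² m²` in every characteristic, and the range `256 m² ≤ r³`.
-/

namespace MP_cea741_ag.Vir

/-- the numerical condition for `(4r+1) d² < 4 r² m²` -/
def good (r e f κ : ℕ) : Prop :=
  1 ≤ e ∧ e < r ∧ κ ≤ r ∧ e ^ 2 ≤ f ∧
    (((e * κ) ^ 2 ≤ r * f ^ 2 ∧ 4 * r ^ 2 * f ^ 2 ≤ (4 * r + 1) * (e * κ) ^ 2) ∨
      (r * f ^ 2 ≤ (e * κ) ^ 2 ∧ 4 * (e * κ) ^ 2 ≤ (4 * r + 1) * f ^ 2))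

instance (r e f κ : ℕ) : Decidable (good r e f κ) := by
  unfold good
  infer_instance

theorem van_of_good (k : Type*) [Field k] (r m d e f κ : ℕ) (h : good r e f κ)
    (hd : (4 * r + 1) * d ^ 2 < 4 * r ^ 2 * m ^ 2) : Van k r m d := by
  obtain ⟨he, her, hκ, hf, hcase⟩ := h
  obtain ⟨N, rfl⟩ : ∃ N, f = e ^ 2 + N := ⟨f - e ^ 2, by omega⟩
  have hf0 : 0 < (e ^ 2 + N) ^ 2 := by positivity
  have hr0 : 0 < r := by omega
  refine open_any k r m d e N κ he her hκ ?_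
  rcases hcase with ⟨h1, h2⟩ | ⟨h1, h2⟩
  · refine Or.inl ⟨h1, ?_⟩
    by_contra hcon
    push Not at hcon
    have h3 : (e * κ * m) ^ 2 ≤ ((e ^ 2 + N) * d) ^ 2 := Nat.pow_le_pow_left hcon 2
    have h4 : (4 * r + 1) * (e * κ * m) ^ 2 ≤ (e ^ 2 + N) ^ 2 * ((4 * r + 1) * d ^ 2) := by
      calc (4 * r + 1) * (e * κ * m) ^ 2 ≤ (4 * r + 1) * ((e ^ 2 + N) * d) ^ 2 :=
            Nat.mul_le_mul_left _ h3
        _ = _ := by ring
    have h5 : (e ^ 2 + N) ^ 2 * ((4 * r + 1) * d ^ 2) < (e ^ 2 + N) ^ 2 * (4 * r ^ 2 * m ^ 2) :=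
      Nat.mul_lt_mul_of_pos_left hd hf0
    have h6 : (e ^ 2 + N) ^ 2 * (4 * r ^ 2 * m ^ 2) ≤ (4 * r + 1) * (e * κ * m) ^ 2 := by
      calc (e ^ 2 + N) ^ 2 * (4 * r ^ 2 * m ^ 2) = (4 * r ^ 2 * (e ^ 2 + N) ^ 2) * m ^ 2 := by ring
        _ ≤ ((4 * r + 1) * (e * κ) ^ 2) * m ^ 2 := Nat.mul_le_mul_right _ h2
        _ = _ := by ring
    omega
  · refine Or.inr ⟨h1, ?_⟩
    by_contra hcon
    push Not at hcon
    have h3 : (r * (e ^ 2 + N) * m) ^ 2 ≤ (e * κ * d) ^ 2 := Nat.pow_le_pow_left hcon 2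
    have h4 : 4 * (r * (e ^ 2 + N) * m) ^ 2 ≤ (e ^ 2 + N) ^ 2 * ((4 * r + 1) * d ^ 2) := by
      calc 4 * (r * (e ^ 2 + N) * m) ^ 2 ≤ 4 * (e * κ * d) ^ 2 := Nat.mul_le_mul_left _ h3
        _ = (4 * (e * κ) ^ 2) * d ^ 2 := by ring
        _ ≤ ((4 * r + 1) * (e ^ 2 + N) ^ 2) * d ^ 2 := Nat.mul_le_mul_right _ h2
        _ = _ := by ring
    have h5 : (e ^ 2 + N) ^ 2 * ((4 * r + 1) * d ^ 2) < (e ^ 2 + N) ^ 2 * (4 * r ^ 2 * m ^ 2) :=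
      Nat.mul_lt_mul_of_pos_left hd hf0
    have h6 : (e ^ 2 + N) ^ 2 * (4 * r ^ 2 * m ^ 2) = 4 * (r * (e ^ 2 + N) * m) ^ 2 := by ring
    omega

/-- the pairs for `10 ≤ r < 400` (`(0, s, 0)` marks the squares, `(0, 0, 17)` marks `17`) -/
def tab : List (ℕ × ℕ × ℕ) :=
  [(2, 5, 8), (1, 3, 10), (1, 2, 7), (2, 5, 9), (2, 7, 13), (3, 10, 13), (0, 4, 0), (0, 0, 17),
   (1, 4, 17), (1, 3, 13), (1, 2, 9), (2, 7, 16), (1, 3, 14), (2, 5, 12), (2, 9, 22), (0, 5, 0),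
   (2, 9, 23), (1, 5, 26), (3, 13, 23), (1, 5, 27), (1, 2, 11), (2, 9, 25), (1, 3, 17),
   (1, 4, 23), (2, 11, 32), (4, 21, 31), (0, 6, 0), (4, 21, 32), (1, 6, 37), (1, 4, 25),
   (1, 3, 19), (1, 5, 32), (1, 2, 13), (2, 7, 23), (2, 13, 43), (3, 13, 29), (1, 5, 34),
   (2, 7, 24), (2, 13, 45), (0, 7, 0), (2, 13, 46), (1, 7, 50), (1, 5, 36), (1, 7, 51),
   (1, 3, 22), (1, 5, 37), (1, 2, 15), (2, 9, 34), (1, 5, 38), (1, 3, 23), (1, 4, 31), (1, 5, 39),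
   (2, 15, 59), (3, 14, 37), (0, 8, 0), (3, 13, 35), (1, 8, 65), (1, 5, 41), (1, 4, 33),
   (2, 13, 54), (1, 8, 67), (1, 7, 59), (1, 2, 17), (2, 11, 47), (1, 5, 43), (1, 3, 26),
   (1, 7, 61), (2, 13, 57), (1, 6, 53), (1, 8, 71), (2, 15, 67), (0, 9, 0), (2, 15, 68),
   (1, 9, 82), (1, 6, 55), (1, 9, 83), (1, 7, 65), (1, 3, 28), (1, 8, 75), (1, 7, 66), (1, 2, 19),
   (2, 13, 62), (1, 5, 48), (2, 11, 53), (2, 13, 63), (1, 4, 39), (1, 5, 49), (1, 7, 69),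
   (1, 9, 89), (3, 16, 53), (0, 10, 0), (3, 17, 57), (1, 9, 91), (1, 7, 71), (1, 5, 51),
   (1, 4, 41), (1, 7, 72), (1, 3, 31), (1, 5, 52), (1, 7, 73), (1, 2, 21), (2, 11, 58),
   (1, 7, 74), (1, 8, 85), (1, 3, 32), (1, 7, 75), (1, 9, 97), (2, 17, 92), (1, 7, 76),
   (1, 10, 109), (2, 19, 104), (0, 11, 0), (2, 19, 105), (1, 10, 111), (1, 7, 78), (1, 11, 123),
   (1, 9, 101), (1, 11, 124), (3, 13, 49), (1, 11, 125), (1, 5, 57), (1, 9, 103), (1, 2, 23),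
   (2, 13, 75), (1, 7, 81), (1, 8, 93), (1, 3, 35), (1, 7, 82), (1, 4, 47), (1, 5, 59),
   (1, 6, 71), (1, 8, 95), (1, 11, 131), (5, 28, 67), (0, 12, 0), (5, 27, 65), (1, 11, 133),
   (1, 8, 97), (1, 6, 73), (1, 5, 61), (1, 4, 49), (1, 7, 86), (1, 3, 37), (1, 8, 99), (1, 5, 62),
   (1, 9, 112), (1, 2, 25), (2, 15, 94), (1, 7, 88), (1, 5, 63), (2, 25, 158), (2, 23, 146),
   (1, 11, 140), (2, 13, 83), (1, 5, 64), (2, 19, 122), (1, 8, 103), (1, 12, 155), (2, 21, 136),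
   (0, 13, 0), (2, 21, 137), (1, 12, 157), (1, 9, 118), (1, 13, 171), (1, 5, 66), (1, 9, 119),
   (1, 11, 146), (1, 10, 133), (1, 3, 40), (1, 8, 107), (1, 12, 161), (1, 9, 121), (1, 2, 27),
   (2, 17, 115), (1, 7, 95), (1, 5, 68), (1, 11, 150), (1, 3, 41), (1, 7, 96), (1, 4, 55),
   (1, 9, 124), (1, 11, 152), (1, 7, 97), (1, 9, 125), (1, 13, 181), (3, 23, 107), (0, 14, 0),
   (3, 25, 117), (1, 13, 183), (1, 9, 127), (1, 7, 99), (1, 11, 156), (1, 14, 199), (1, 4, 57),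
   (1, 7, 100), (2, 19, 136), (1, 14, 201), (1, 13, 187), (1, 7, 101), (1, 11, 159), (1, 2, 29),
   (2, 15, 109), (1, 9, 131), (1, 5, 73), (1, 8, 117), (1, 3, 44), (1, 10, 147), (1, 11, 162),
   (1, 13, 192), (1, 5, 74), (1, 6, 89), (2, 23, 171), (1, 10, 149), (1, 14, 209), (2, 25, 187),
   (0, 15, 0), (2, 25, 188), (1, 14, 211), (1, 10, 151), (1, 8, 121), (1, 6, 91), (1, 5, 76),
   (1, 13, 198), (1, 15, 229), (1, 10, 153), (1, 3, 46), (1, 11, 169), (1, 5, 77), (1, 7, 108),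
   (1, 11, 170), (1, 2, 31), (2, 17, 132), (1, 9, 140), (1, 12, 187), (1, 8, 125), (2, 17, 133),
   (1, 13, 204), (1, 7, 110), (1, 4, 63), (1, 9, 142), (1, 11, 174), (1, 13, 206), (1, 8, 127),
   (1, 10, 159), (1, 15, 239), (3, 28, 149), (0, 16, 0), (3, 26, 139), (1, 15, 241), (1, 10, 161),
   (1, 8, 129), (1, 13, 210), (1, 11, 178), (1, 9, 146), (1, 4, 65), (1, 7, 114), (1, 13, 212),
   (1, 3, 49), (1, 8, 131), (1, 5, 82), (1, 7, 115), (1, 11, 181), (1, 2, 33), (2, 19, 157),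
   (1, 9, 149), (1, 12, 199), (1, 13, 216), (1, 11, 183), (1, 3, 50), (1, 10, 167), (1, 11, 184),
   (1, 13, 218), (1, 5, 84), (1, 11, 185), (1, 7, 118), (1, 8, 135), (1, 11, 186), (1, 16, 271),
   (2, 29, 246), (0, 17, 0), (2, 29, 247), (1, 16, 273), (1, 11, 188), (1, 9, 154), (1, 7, 120),
   (1, 11, 189), (1, 5, 86), (1, 13, 224), (1, 15, 259), (1, 7, 121), (3, 22, 127), (1, 17, 295),
   (1, 8, 139), (1, 5, 87), (1, 7, 122), (1, 13, 227), (1, 2, 35), (2, 21, 184), (1, 9, 158),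
   (1, 7, 123), (1, 5, 88), (1, 11, 194), (1, 3, 53), (1, 13, 230), (1, 7, 124), (1, 4, 71),
   (1, 9, 160), (1, 5, 89), (1, 6, 107), (1, 7, 125), (1, 9, 161), (1, 12, 215), (1, 16, 287),
   (4, 59, 265), (0, 18, 0), (4, 59, 266), (1, 17, 307), (1, 12, 217), (1, 9, 163), (1, 7, 127),
   (1, 6, 109), (1, 5, 91), (1, 9, 164), (1, 4, 73), (1, 11, 201), (1, 10, 183), (1, 3, 55),
   (1, 11, 202), (1, 13, 239), (1, 12, 221), (1, 9, 166), (1, 13, 240), (1, 2, 37), (2, 19, 176),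
   (1, 11, 204), (1, 7, 130), (1, 5, 93), (1, 8, 149), (2, 37, 345), (1, 16, 299), (1, 7, 131),
   (1, 15, 281), (1, 17, 319), (1, 14, 263), (1, 11, 207), (1, 13, 245), (1, 15, 283),
   (1, 9, 170), (1, 12, 227), (1, 17, 322), (2, 31, 294), (0, 19, 0), (2, 31, 295), (1, 17, 324),
   (1, 12, 229), (1, 9, 172), (1, 8, 153), (1, 13, 249), (1, 11, 211), (1, 14, 269), (1, 13, 250),
   (1, 15, 289), (1, 7, 135), (1, 13, 251), (1, 3, 58), (1, 11, 213), (1, 13, 252), (1, 12, 233),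
   (1, 9, 175), (1, 13, 253), (1, 2, 39), (2, 21, 205), (1, 11, 215), (1, 7, 137), (1, 5, 98),
   (1, 8, 157), (1, 14, 275), (1, 3, 59), (1, 10, 197), (1, 11, 217), (1, 4, 79), (1, 9, 178),
   (1, 5, 99), (1, 11, 218), (1, 13, 258), (1, 8, 159), (1, 10, 199), (1, 13, 259), (1, 18, 359),
   (3, 32, 213)]

/-- check of an entry -/
def chk (r : ℕ) (p : ℕ × ℕ × ℕ) : Bool :=
  decide (good r p.1 p.2.1 p.2.2) || (p.1 == 0 && p.2.1 ^ 2 == r) || r == 17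

theorem tab_ok : (List.range 390).all (fun i => chk (i + 10) (tab.getD i (0, 0, 0))) = true := by
  decide +kernel

theorem good_small (r : ℕ) (h10 : 10 ≤ r) (h400 : r < 400) (hr : ¬ IsSquare r) (h17 : r ≠ 17) :
    ∃ e f κ, good r e f κ := by
  have h := (List.all_eq_true.1 tab_ok) (r - 10) (List.mem_range.2 (by omega))
  rw [show r - 10 + 10 = r by omega] at h
  simp only [chk, Bool.or_eq_true, decide_eq_true_eq, Bool.and_eq_true, beq_iff_eq] at h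
  rcases h with (h | ⟨-, h⟩) | h
  · exact ⟨_, _, _, h⟩
  · exact absurd ⟨_, by rw [← h, sq]⟩ hr
  · exact absurd h h17

theorem good_large (r : ℕ) (h400 : 400 ≤ r) : ∃ e f κ, good r e f κ := by
  set s := Nat.sqrt r with hs
  have h1 : s ^ 2 ≤ r := Nat.sqrt_le' r
  have h2 : r < (s + 1) ^ 2 := Nat.lt_succ_sqrt' r
  have hs20 : 20 ≤ s := by
    rw [hs, Nat.le_sqrt]
    omega
  obtain ⟨f, κ, b1, b2, b3, b4⟩ := exists_pair' r s (by omega) h1 h2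
  obtain ⟨e, he⟩ : ∃ e, s = e + 1 := ⟨s - 1, by omega⟩
  have he' : s - 1 = e := by omega
  rw [he'] at b1 b3 b4
  have hr0 : (0 : ℝ) ≤ (r : ℝ) := by positivity
  have hsq : √(r : ℝ) ^ 2 = r := Real.sq_sqrt hr0
  have hα0 : 0 ≤ √(r : ℝ) := Real.sqrt_nonneg _
  have hα : (20 : ℝ) ≤ √(r : ℝ) := by
    apply Real.le_sqrt_of_sq_le
    have : (400 : ℝ) ≤ r := by exact_mod_cast h400
    linarith
  have hα2 : √(r : ℝ) < e + 2 := by
    rw [Real.sqrt_lt' (by positivity)]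
    have : (r : ℝ) < ((s + 1 : ℕ) : ℝ) ^ 2 := by exact_mod_cast h2
    rw [he] at this
    push_cast at this
    linarith
  have he19 : (19 : ℝ) ≤ e := by exact_mod_cast (by omega : 19 ≤ e)
  have hfe : (e : ℝ) ^ 2 ≤ f := by exact_mod_cast b1
  refine ⟨e, f, κ, by omega, by nlinarith, b2, b1, Or.inl ⟨?_, ?_⟩⟩
  · have h3 : ((e * κ : ℝ)) ^ 2 ≤ (r : ℝ) * ((f : ℝ)) ^ 2 := by
      calc ((e * κ : ℝ)) ^ 2 ≤ ((f : ℝ) * √(r : ℝ)) ^ 2 :=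
            pow_le_pow_left₀ (by positivity) b3 2
        _ = (r : ℝ) * (f : ℝ) ^ 2 := by
            rw [mul_pow, hsq]
            ring
    exact_mod_cast h3
  · have h3 : (f : ℝ) * √(r : ℝ) - 2 ≤ e * κ := by linarith
    have h4 : (0 : ℝ) ≤ (f : ℝ) * √(r : ℝ) - 2 := by nlinarith
    have h5 : ((f : ℝ) * √(r : ℝ) - 2) ^ 2 ≤ ((e * κ : ℝ)) ^ 2 := pow_le_pow_left₀ h4 h3 2
    have h6 : (4 * (4 * (r : ℝ) + 1)) * √(r : ℝ) ≤ r * f := by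
      -- `17 (e + 2) ≤ e²`
      have h7 : 17 * √(r : ℝ) ≤ f := by nlinarith
      have h8 : (4 * (4 * (r : ℝ) + 1)) ≤ 17 * r := by
        have : (400 : ℝ) ≤ r := by exact_mod_cast h400
        linarith
      nlinarith
    have h9 : 4 * (r : ℝ) ^ 2 * (f : ℝ) ^ 2 ≤ (4 * (r : ℝ) + 1) * ((e * κ : ℝ)) ^ 2 := by
      have h10 : (4 * (r : ℝ) + 1) * ((f : ℝ) * √(r : ℝ) - 2) ^ 2 ≤
          (4 * (r : ℝ) + 1) * ((e * κ : ℝ)) ^ 2 := mul_le_mul_of_nonneg_left h5 (by positivity)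
      have h11 : (4 * (r : ℝ) + 1) * ((f : ℝ) * √(r : ℝ) - 2) ^ 2 =
          (4 * (r : ℝ) + 1) * (r * (f : ℝ) ^ 2 + 4) - f * ((4 * (4 * (r : ℝ) + 1)) * √(r : ℝ)) := by
        linear_combination (4 * (r : ℝ) + 1) * (f : ℝ) ^ 2 * hsq
      have h12 : f * ((4 * (4 * (r : ℝ) + 1)) * √(r : ℝ)) ≤ f * (r * f) :=
        mul_le_mul_of_nonneg_left h6 (by positivity)
      nlinarith
    exact_mod_cast h9

/-- `(4r+1) d² < 4 r² m²` for all nonsquare `r > 9` -/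
theorem van_nc (k : Type*) [Field k] (r m d : ℕ) (h9 : 9 < r) (hr : ¬ IsSquare r)
    (h17 : r = 17 → CharZero k) (hd : (4 * r + 1) * d ^ 2 < 4 * r ^ 2 * m ^ 2) :
    Van k r m d := by
  by_cases h : r = 17
  · have := h17 h
    obtain ⟨Φ, hΦ, h1⟩ := _root_.MP_cea741_ag.NSq.nsq_open k r m d h9 hd
    exact ⟨Φ, hΦ, open_shift k r m d Φ h1⟩
  · obtain ⟨e, f, κ, hg⟩ : ∃ e f κ, good r e f κ := by
      rcases Nat.lt_or_ge r 400 with h4 | h4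
      · exact good_small r (by omega) h4 hr h
      · exact good_large r h4
    exact van_of_good k r m d e f κ hg hd

end MP_cea741_ag.Vir
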