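import Mathlib
import Pool.Agent.Lib.MP_cea741_ag.VirJ

/-!
Q1 for all nonsquare `r > 9` and all `m ≤ r^(3/2)/16`.
-/

namespace MP_cea741_ag.Vir

/-- Q1 for `3 ≤ m ≤ √r`. -/
theorem q1_small (k : Type*) [Field k] [CharZero k] (r m d : ℕ) (h9 : 9 < r) (hr : ¬ IsSquare r)
    (hm : 3 ≤ m) (hmr : m ^ 2 ≤ r) (hd : d ^ 2 ≤ m ^ 2 * r) : Van k r m d := by
  set κ := Nat.sqrt (m ^ 2 * r) with hκ
  have k1 : κ ^ 2 ≤ m ^ 2 * r := Nat.sqrt_le' _
  have k2 : m ^ 2 * r < (κ + 1) ^ 2 := Nat.lt_succ_sqrt' _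
  have hdκ : d ≤ κ := by
    rw [hκ, Nat.le_sqrt']
    exact hd
  have hκ3 : 3 ≤ κ := by
    rw [hκ, Nat.le_sqrt']
    nlinarith
  have hκr : κ ≤ r := by
    have : κ ^ 2 ≤ r ^ 2 := by
      calc κ ^ 2 ≤ m ^ 2 * r := k1
        _ ≤ r * r := Nat.mul_le_mul_right _ hmr
        _ = r ^ 2 := by ring
    exact (Nat.pow_le_pow_iff_left (by norm_num)).1 this
  have hd' : d ^ 2 < m ^ 2 * r := by
    refine lt_of_le_of_ne hd fun h => hr ?_
    have h5 : m ∣ d := by
      rw [← Nat.pow_dvd_pow_iff (n := 2) (by norm_num), h]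
      exact Dvd.intro _ rfl
    obtain ⟨q, rfl⟩ := h5
    refine ⟨q, ?_⟩
    have h6 : m ^ 2 * (q * q) = m ^ 2 * r := by rw [← h]; ring
    exact (Nat.eq_of_mul_eq_mul_left (by positivity) h6).symm
  refine open_zero k r m d m 0 κ hm (by nlinarith) hκr ?_ ?_ hd' ?_
  · calc (m * κ) ^ 2 = m ^ 2 * κ ^ 2 := by ring
      _ ≤ m ^ 2 * (m ^ 2 * r) := Nat.mul_le_mul_left _ k1
      _ = r * (m ^ 2 + 0) ^ 2 := by ring
  · calc r * (m ^ 2 + 0) ^ 2 = m ^ 2 * (m ^ 2 * r) := by ring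
      _ ≤ m ^ 2 * (2 * κ ^ 2) := by
          apply Nat.mul_le_mul_left
          nlinarith
      _ = 2 * (m * κ) ^ 2 := by ring
  · obtain ⟨t, rfl⟩ : ∃ t, m = t + 3 := ⟨m - 3, by omega⟩
    have e1 : t + 3 - 1 = t + 2 := by omega
    have e2 : t + 3 - 2 = t + 1 := by omega
    rw [e1, e2]
    calc 2 * ((t + 3) ^ 2 + 0) * d ≤ 2 * ((t + 3) ^ 2 + 0) * κ := Nat.mul_le_mul_left _ hdκ
      _ = (t + 3) * (2 * κ * (t + 3)) := by ring
      _ < (t + 3) * (2 * κ * (t + 3) + (t + 2) * (t + 1)) := by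
          apply Nat.mul_lt_mul_of_pos_left _ (by omega)
          have : 0 < (t + 2) * (t + 1) := by positivity
          omega

theorem bound_of (m r B : ℕ) (h : 256 * m ^ 2 ≤ r ^ 3) (R : ℕ) (hR : r ≤ R)
    (hB : R ^ 3 < 256 * (B + 1) ^ 2) : m ≤ B := by
  by_contra hcon
  push Not at hcon
  have h1 : (B + 1) ^ 2 ≤ m ^ 2 := Nat.pow_le_pow_left hcon 2
  have h2 : r ^ 3 ≤ R ^ 3 := Nat.pow_le_pow_left hR 3
  omega

/-- Q1 for all nonsquare `r > 9` and all `m ≤ r^(3/2)/16`. -/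
theorem q1_cubic (k : Type*) [Field k] [CharZero k] (r m d : ℕ) (h9 : 9 < r) (hr : ¬ IsSquare r)
    (hm : 1 ≤ m) (hmr : 256 * m ^ 2 ≤ r ^ 3) (hd : d ^ 2 ≤ m ^ 2 * r) : Van k r m d := by
  set s := Nat.sqrt r with hs
  have h1 : s ^ 2 ≤ r := Nat.sqrt_le' r
  have h2 : r < (s + 1) ^ 2 := Nat.lt_succ_sqrt' r
  have hs3 : 3 ≤ s := by
    rw [hs, Nat.le_sqrt']
    omega
  rcases Nat.lt_or_ge s 8 with h8 | h8
  · obtain ⟨j, hj⟩ : ∃ j, r = s ^ 2 + j := ⟨r - s ^ 2, by omega⟩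
    rcases Nat.even_or_odd' j with ⟨i, hi | hi⟩
    · refine q1_even k r s i m d hr hs3 (by rw [hj, hi]) h2 hm ?_ hd
      have hr24 : r ≤ s ^ 2 + 2 * s := by nlinarith
      clear hs
      interval_cases s
      · have := bound_of m r 3 hmr 15 (by omega) (by norm_num)
        omega
      · have := bound_of m r 7 hmr 24 (by omega) (by norm_num)
        omega
      · have := bound_of m r 12 hmr 35 (by omega) (by norm_num)
        omega
      · have := bound_of m r 20 hmr 48 (by omega) (by norm_num)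
        omega
      · have := bound_of m r 31 hmr 63 (by omega) (by norm_num)
        omega
    · have hr24 : r + 1 ≤ s ^ 2 + 2 * s := by
        have : r ≤ s ^ 2 + 2 * s := by nlinarith
        omega
      by_cases hm2 : m ≤ (s - 1) * (s - 2)
      · exact q1_odd k r s i m d hr hs3 (by rw [hj, hi]) h2 hm hm2 hd
      · have hkey : 3 ≤ m ∧ m ^ 2 ≤ r := by
          clear hs
          interval_cases s
          · have := bound_of m r 3 hmr 14 (by omega) (by norm_num)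
            have hm3 : m = 3 := by omega
            subst hm3
            omega
          · have := bound_of m r 6 hmr 23 (by omega) (by norm_num)
            omega
          · have := bound_of m r 12 hmr 34 (by omega) (by norm_num)
            omega
          · have := bound_of m r 20 hmr 47 (by omega) (by norm_num)
            omega
          · have := bound_of m r 30 hmr 62 (by omega) (by norm_num)
            omega
        exact q1_small k r m d h9 hr hkey.1 hkey.2 hd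
  · refine q1_uniform k r s m d hr (by omega) h1 h2 hm ?_ hd
    have h3 : 16 * m < (s + 1) ^ 3 := by
      have h4 : (16 * m) ^ 2 < ((s + 1) ^ 3) ^ 2 := by
        calc (16 * m) ^ 2 = 256 * m ^ 2 := by ring
          _ ≤ r ^ 3 := hmr
          _ < ((s + 1) ^ 2) ^ 3 := Nat.pow_lt_pow_left h2 (by norm_num)
          _ = ((s + 1) ^ 3) ^ 2 := by ring
      exact lt_of_pow_lt_pow_left₀ 2 (by positivity) h4
    obtain ⟨t, ht⟩ : ∃ t, s = t + 8 := ⟨s - 8, by omega⟩
    rw [ht] at h3 ⊢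
    have e1 : t + 8 - 1 = t + 7 := by omega
    have e2 : t + 8 - 2 = t + 6 := by omega
    have e3 : t + 8 - 3 = t + 5 := by omega
    rw [e1, e2, e3]
    have h5 : (t + 8 + 1) ^ 3 ≤ 4 * ((t + 7) * (t + 6) * (t + 5)) := by
      have : (t + 8 + 1) ^ 3 = t ^ 3 + 27 * t ^ 2 + 243 * t + 729 := by ring
      have h6 : 4 * ((t + 7) * (t + 6) * (t + 5)) = 4 * t ^ 3 + 72 * t ^ 2 + 428 * t + 840 := by ring
      rw [this, h6]
      have : 0 ≤ t ^ 2 := by positivity
      have : 0 ≤ t ^ 3 := by positivity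
      omega
    omega

end MP_cea741_ag.Vir
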